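import Pool.Agent.NekOk.Basic

/-!
# Module ALG: the coefficient array of the Nekrasov–Okounkov polynomials satisfies `IsNO`
-/

namespace Pool.Agent.NekOk

open Finset PowerSeries

noncomputable section

namespace Alg

/-- the Euler operator `X d/dX` on power series over `ℚ[t]` -/
def DD (f : PowerSeries (Polynomial ℚ)) : PowerSeries (Polynomial ℚ) :=
  PowerSeries.mk (fun n => (n : Polynomial ℚ) * PowerSeries.coeff n f)

theorem coeff_DD (f : PowerSeries (Polynomial ℚ)) (n : ℕ) :
    PowerSeries.coeff n (DD f) = (n : Polynomial ℚ) * PowerSeries.coeff n f := by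
  simp [DD]

theorem DD_mul (f g : PowerSeries (Polynomial ℚ)) : DD (f * g) = DD f * g + f * DD g := by
  ext1 n
  rw [coeff_DD, map_add, coeff_mul, coeff_mul, coeff_mul, Finset.mul_sum, ← Finset.sum_add_distrib]
  refine Finset.sum_congr rfl (fun p hp => ?_)
  rw [coeff_DD, coeff_DD]
  have h : p.1 + p.2 = n := by simpa using hp
  rw [← h]
  push_cast
  ring

theorem DD_one : DD 1 = 0 := by
  ext1 n
  rw [coeff_DD, coeff_one, map_zero]
  split_ifs with h
  · simp [h]
  · simp

theorem DD_sub (f g : PowerSeries (Polynomial ℚ)) : DD (f - g) = DD f - DD g := by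
  ext1 n
  rw [coeff_DD, map_sub, map_sub, coeff_DD, coeff_DD]
  ring

/-- `S_k = Σ_{i ≥ 1} k X^{k i}` -/
def SS (k : ℕ) : PowerSeries (Polynomial ℚ) :=
  PowerSeries.mk (fun n => if n ≠ 0 ∧ k ∣ n then (k : Polynomial ℚ) else 0)

/-- `t + 1` as a constant power series -/
def tt : PowerSeries (Polynomial ℚ) := PowerSeries.C (Polynomial.X + 1)

theorem bin_zero : bin 0 = 1 := by simp [bin]

theorem bin_succ (m : ℕ) : ((m : Polynomial ℚ) + 1) * bin (m + 1) =
    (Polynomial.X + (m : Polynomial ℚ) + 1) * bin m := by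
  have h1 : bin (m + 1) = bin m * (Polynomial.C (1 / ((m : ℚ) + 1)) *
      (Polynomial.X + Polynomial.C ((m : ℚ) + 1))) := by
    unfold bin
    rw [Finset.prod_range_succ]
  have h2 : ((m : Polynomial ℚ) + 1) * Polynomial.C (1 / ((m : ℚ) + 1)) = 1 := by
    have : ((m : Polynomial ℚ) + 1) = Polynomial.C ((m : ℚ) + 1) := by simp
    rw [this, ← Polynomial.C_mul]
    have : ((m : ℚ) + 1) ≠ 0 := by positivity
    rw [mul_one_div_cancel this, Polynomial.C_1]
  have h3 : Polynomial.C ((m : ℚ) + 1) = (m : Polynomial ℚ) + 1 := by simp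
  rw [h1, h3]
  linear_combination (bin m * (Polynomial.X + ((m : Polynomial ℚ) + 1))) * h2

theorem coeff_factor (k n : ℕ) : PowerSeries.coeff n (factor k) =
    if k ∣ n then bin (n / k) else 0 := by simp [factor]

theorem coeff_SS (k n : ℕ) : PowerSeries.coeff n (SS k) =
    if n ≠ 0 ∧ k ∣ n then (k : Polynomial ℚ) else 0 := by simp [SS]

theorem one_sub_mul_SS {k : ℕ} (hk : 1 ≤ k) :
    (1 - (X : PowerSeries (Polynomial ℚ)) ^ k) * SS k = (k : PowerSeries (Polynomial ℚ)) * X ^ k := by
  ext1 n
  have h0 : (k : PowerSeries (Polynomial ℚ)) * X ^ k = X ^ k * PowerSeries.C (k : Polynomial ℚ) := by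
    rw [mul_comm]; simp
  rw [h0, sub_mul, one_mul, map_sub, coeff_X_pow_mul', coeff_X_pow_mul', coeff_SS, coeff_SS,
    coeff_C]
  by_cases hd : k ∣ n
  · obtain ⟨m, rfl⟩ := hd
    rcases m with _ | _ | m
    · simp
      intro h
      omega
    · simp
      intro h
      omega
    · have h1 : k ≤ k * (m + 1 + 1) := Nat.le_mul_of_pos_right _ (by omega)
      have h2 : k * (m + 1 + 1) - k = k * (m + 1) := by
        rw [Nat.mul_add k (m + 1) 1]; omega
      have h3 : k * (m + 1) ≠ 0 := by positivity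
      have h4 : k * (m + 1 + 1) ≠ 0 := by positivity
      rw [h2]
      simp [h1, h3, h4]
  · have hn : ¬ (n ≠ 0 ∧ k ∣ n) := fun h => hd h.2
    by_cases hle : k ≤ n
    · have h1 : ¬ (n - k ≠ 0 ∧ k ∣ n - k) := by
        rintro ⟨h0, h⟩
        rcases (Nat.dvd_sub_self_right).1 h with h' | h'
        · exact hd h'
        · omega
      have h2 : ¬ (n - k = 0) := by
        intro h
        apply hd
        have : n = k := by omega
        rw [this]
      simp only [hn, h1, h2, hle, if_true, if_false, sub_zero]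
    · simp [hn, hle]

theorem tt_mul_coeff (f : PowerSeries (Polynomial ℚ)) (n : ℕ) :
    PowerSeries.coeff n (tt * f) = (Polynomial.X + 1) * PowerSeries.coeff n f := by
  unfold tt
  rw [coeff_C_mul]

theorem one_sub_mul_DD {k : ℕ} (hk : 1 ≤ k) :
    (1 - (X : PowerSeries (Polynomial ℚ)) ^ k) * DD (factor k) =
      tt * ((X ^ k) * (PowerSeries.C (k : Polynomial ℚ) * factor k)) := by
  ext1 n
  rw [sub_mul, one_mul, map_sub, tt_mul_coeff, coeff_X_pow_mul', coeff_X_pow_mul', coeff_DD,
    coeff_DD, coeff_C_mul, coeff_factor, coeff_factor]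
  by_cases hd : k ∣ n
  · obtain ⟨m, rfl⟩ := hd
    rcases m with _ | m
    · simp
      intro h
      omega
    · have h1 : k ≤ k * (m + 1) := Nat.le_mul_of_pos_right _ (by omega)
      have h2 : k * (m + 1) - k = k * m := by
        rw [Nat.mul_add k m 1]; omega
      rw [h2]
      have h3 : k * (m + 1) / k = m + 1 := Nat.mul_div_cancel_left _ (by omega)
      have h4 : k * m / k = m := Nat.mul_div_cancel_left _ (by omega)
      simp only [h1, h3, h4, dvd_mul_right, if_true]
      have h5 := bin_succ m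
      push_cast
      linear_combination (k : Polynomial ℚ) * h5
  · by_cases hle : k ≤ n
    · have h1 : ¬ (k ∣ n - k) := by
        intro h
        rcases (Nat.dvd_sub_self_right).1 h with h' | h'
        · exact hd h'
        · apply hd
          have : n = k := by omega
          rw [this]
      simp only [hd, h1, hle, if_true, if_false, sub_zero, mul_zero]
    · simp [hd, hle]

theorem DD_factor {k : ℕ} (hk : 1 ≤ k) : DD (factor k) = tt * (SS k * factor k) := by
  have h1 := one_sub_mul_DD hk
  have h2 := one_sub_mul_SS hk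
  have h0 : (PowerSeries.C (k : Polynomial ℚ)) = (k : PowerSeries (Polynomial ℚ)) := by simp
  have h3 : (1 - (X : PowerSeries (Polynomial ℚ)) ^ k) * (DD (factor k) - tt * (SS k * factor k)) = 0 := by
    rw [h0] at h1
    linear_combination h1 - tt * factor k * h2
  have h4 : (1 - (X : PowerSeries (Polynomial ℚ)) ^ k) ≠ 0 := by
    intro h
    have := congrArg (PowerSeries.coeff 0) h
    rw [map_sub, coeff_X_pow] at this
    have h6 : ¬ (0 = k) := by omega
    simp [h6] at this
  have h5 := (mul_eq_zero.1 h3).resolve_left h4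
  exact sub_eq_zero.1 h5

/-- the finite products -/
def G (N : ℕ) : PowerSeries (Polynomial ℚ) := ∏ k ∈ Icc 1 N, factor k

theorem G_succ (N : ℕ) : G (N + 1) = G N * factor (N + 1) := by
  unfold G
  rw [Finset.prod_Icc_succ_top (by omega)]

theorem DD_G (N : ℕ) : DD (G N) = tt * ((∑ k ∈ Icc 1 N, SS k) * G N) := by
  induction N with
  | zero =>
    have : G 0 = 1 := by simp [G]
    rw [this, DD_one]; simp
  | succ N ih =>
    rw [G_succ, DD_mul, ih, DD_factor (by omega), Finset.sum_Icc_succ_top (by omega)]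
    ring

theorem coeff_G_succ {N n : ℕ} (h : n ≤ N) :
    PowerSeries.coeff n (G (N + 1)) = PowerSeries.coeff n (G N) := by
  rw [G_succ, coeff_mul]
  rw [Finset.sum_eq_single (n, 0)]
  · rw [coeff_factor]
    simp [bin_zero]
  · rintro ⟨i, j⟩ hij hne
    have h1 : i + j = n := by simpa using hij
    have h2 : j ≠ 0 := by
      rintro rfl
      apply hne
      simp at h1
      rw [h1]
    rw [coeff_factor]
    have h3 : ¬ (N + 1 ∣ j) := by
      intro hd
      have := Nat.le_of_dvd (by omega) hd
      omega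
    simp only [h3, if_false, mul_zero]
  · intro h1
    simp at h1

theorem coeff_G {N n : ℕ} (h : n ≤ N) : PowerSeries.coeff n (G N) = P n := by
  induction N, h using Nat.le_induction with
  | base => rfl
  | succ N hN ih => rw [coeff_G_succ hN, ih]

/-- `σ(j)` as a natural number -/
def sN (j : ℕ) : ℕ := ∑ d ∈ j.divisors, d

theorem coeff_sum_SS {N i : ℕ} (h : i ≤ N) :
    PowerSeries.coeff i (∑ k ∈ Icc 1 N, SS k) = ((sN i : ℕ) : Polynomial ℚ) := by
  rw [map_sum]
  simp only [coeff_SS]
  rcases Nat.eq_zero_or_pos i with h0 | h0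
  · subst h0
    simp [sN]
  · unfold sN
    rw [← Finset.sum_filter]
    push_cast
    apply Finset.sum_congr _ (fun _ _ => rfl)
    ext k
    simp only [Finset.mem_filter, Finset.mem_Icc, Nat.mem_divisors]
    constructor
    · rintro ⟨_, _, h2⟩
      exact ⟨h2, by omega⟩
    · rintro ⟨h1, _⟩
      have := Nat.le_of_dvd h0 h1
      have := Nat.pos_of_dvd_of_pos h1 h0
      exact ⟨⟨by omega, by omega⟩, by omega, h1⟩

theorem P_zero : P 0 = 1 := by
  simp [P]

/-- the recursion `n P_n = (t+1) Σ σ(j) P_{n-j}` -/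
theorem P_rec (n : ℕ) : (n : Polynomial ℚ) * P n =
    (Polynomial.X + 1) * ∑ p ∈ antidiagonal n, ((sN p.1 : ℕ) : Polynomial ℚ) * P p.2 := by
  have h := congrArg (PowerSeries.coeff n) (DD_G n)
  rw [coeff_DD, tt_mul_coeff, coeff_mul, coeff_G le_rfl] at h
  rw [h]
  congr 1
  refine Finset.sum_congr rfl (fun p hp => ?_)
  have h1 : p.1 + p.2 = n := by simpa using hp
  rw [coeff_sum_SS (by omega), coeff_G (by omega)]

/-- the full generating function -/
def GG : PowerSeries (Polynomial ℚ) := PowerSeries.mk P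

/-- `Σ σ(j) X^j` -/
def Sg : PowerSeries (Polynomial ℚ) := PowerSeries.mk (fun j => ((sN j : ℕ) : Polynomial ℚ))

/-- `Σ (σ(j)/j) X^j` -/
def Cc : PowerSeries (Polynomial ℚ) := PowerSeries.mk (fun j => Polynomial.C ((sN j : ℚ) / j))

/-- the coefficientwise `t`-derivative -/
def dt (f : PowerSeries (Polynomial ℚ)) : PowerSeries (Polynomial ℚ) :=
  PowerSeries.mk (fun n => Polynomial.derivative (PowerSeries.coeff n f))

theorem DD_GG : DD GG = tt * (Sg * GG) := by
  ext1 n
  rw [coeff_DD, tt_mul_coeff, coeff_mul]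
  simp only [GG, Sg, coeff_mk]
  exact P_rec n

theorem DD_Cc : DD Cc = Sg := by
  ext1 n
  rw [coeff_DD]
  simp only [Cc, Sg, coeff_mk]
  rcases Nat.eq_zero_or_pos n with h0 | h0
  · subst h0
    simp [sN]
  · have h1 : (n : Polynomial ℚ) = Polynomial.C (n : ℚ) := by simp
    have h2 : ((sN n : ℕ) : Polynomial ℚ) = Polynomial.C (sN n : ℚ) := by simp
    rw [h1, h2, ← Polynomial.C_mul]
    congr 1
    have : (n : ℚ) ≠ 0 := by positivity
    field_simp

theorem dt_mul (f g : PowerSeries (Polynomial ℚ)) : dt (f * g) = dt f * g + f * dt g := by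
  ext1 n
  simp only [dt, coeff_mk, map_add, coeff_mul, Polynomial.derivative_sum,
    Polynomial.derivative_mul, Finset.sum_add_distrib]

theorem dt_Sg : dt Sg = 0 := by
  ext1 n
  simp only [dt, Sg, coeff_mk, map_zero]
  simp

theorem dt_tt : dt tt = 1 := by
  ext1 n
  simp only [dt, tt, coeff_mk, coeff_C, coeff_one]
  split_ifs <;> simp

theorem DD_dt (f : PowerSeries (Polynomial ℚ)) : DD (dt f) = dt (DD f) := by
  ext1 n
  simp only [coeff_DD, dt, coeff_mk, Polynomial.derivative_mul, Polynomial.derivative_natCast]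
  ring

/-- a solution of `D Q = (t+1) S Q` with vanishing constant term is zero -/
theorem eq_zero_of_DD {Q : PowerSeries (Polynomial ℚ)} (h0 : PowerSeries.coeff 0 Q = 0)
    (h : DD Q = tt * (Sg * Q)) : Q = 0 := by
  have key : ∀ n, PowerSeries.coeff n Q = 0 := by
    intro n
    induction n using Nat.strong_induction_on with
    | _ n ih =>
      rcases Nat.eq_zero_or_pos n with hn | hn
      · subst hn; exact h0
      · have h1 := congrArg (PowerSeries.coeff n) h
        rw [coeff_DD, tt_mul_coeff, coeff_mul] at h1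
        have h2 : ∑ p ∈ antidiagonal n, PowerSeries.coeff p.1 Sg * PowerSeries.coeff p.2 Q = 0 := by
          apply Finset.sum_eq_zero
          intro p hp
          have h3 : p.1 + p.2 = n := by simpa using hp
          rcases Nat.eq_zero_or_pos p.1 with h4 | h4
          · rw [h4]
            simp [Sg, sN]
          · rw [ih p.2 (by omega), mul_zero]
        rw [h2, mul_zero] at h1
        have h5 : (n : Polynomial ℚ) ≠ 0 := by
          exact_mod_cast hn.ne'
        exact (mul_eq_zero.1 h1).resolve_left h5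
  ext1 n
  rw [key n, map_zero]

theorem dt_GG : dt GG = Cc * GG := by
  have h1 : dt GG - Cc * GG = 0 := by
    apply eq_zero_of_DD
    · rw [map_sub, coeff_mul]
      simp [dt, GG, Cc, P_zero]
    · rw [DD_sub, DD_mul, DD_Cc, DD_dt, DD_GG, dt_mul, dt_mul, dt_Sg, dt_tt]
      ring
  exact sub_eq_zero.1 h1

theorem sg_eq (j : ℕ) : sg j = (((sN j : ℕ) : ℚ) : ℝ) := by
  unfold sg sN
  push_cast
  rfl

theorem c_eq (j : ℕ) : c j = (((sN j : ℚ) / (j : ℚ) : ℚ) : ℝ) := by
  unfold c
  rw [sg_eq]
  push_cast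
  rfl

end Alg

open Alg

theorem isNO_P : IsNO (fun k n => (((P n).coeff k : ℚ) : ℝ)) := by
  refine ⟨?_, ?_, ?_⟩
  · simp [P_zero]
  · intro n
    have h := congrArg (fun p => Polynomial.coeff p 0) (P_rec n)
    have h1 : ((n : Polynomial ℚ) * P n).coeff 0 = (n : ℚ) * (P n).coeff 0 := by
      rw [← Polynomial.C_eq_natCast, Polynomial.coeff_C_mul]
    have h2 : ((Polynomial.X + 1) * ∑ p ∈ antidiagonal n, ((sN p.1 : ℕ) : Polynomial ℚ) * P p.2).coeff 0
        = ∑ p ∈ antidiagonal n, (sN p.1 : ℚ) * (P p.2).coeff 0 := by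
      rw [Polynomial.mul_coeff_zero, Polynomial.finsetSum_coeff]
      simp only [Polynomial.coeff_add, Polynomial.coeff_X_zero, Polynomial.coeff_one_zero,
        zero_add, one_mul]
      refine Finset.sum_congr rfl (fun p _ => ?_)
      rw [← Polynomial.C_eq_natCast, Polynomial.coeff_C_mul]
    rw [h1, h2, Finset.Nat.sum_antidiagonal_eq_sum_range_succ_mk] at h
    have h3 := congrArg (fun q : ℚ => (q : ℝ)) h
    push_cast at h3
    rw [h3]
    refine Finset.sum_congr rfl (fun j _ => ?_)
    rw [sg_eq]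
    push_cast
    rfl
  · intro k n
    have h := congrArg (fun p => Polynomial.coeff (PowerSeries.coeff n p) k) dt_GG
    simp only [dt, GG, Cc, coeff_mk, coeff_mul] at h
    rw [Polynomial.coeff_derivative, Polynomial.finsetSum_coeff,
      Finset.Nat.sum_antidiagonal_eq_sum_range_succ_mk] at h
    simp only [Polynomial.coeff_C_mul] at h
    have h3 := congrArg (fun q : ℚ => (q : ℝ)) h
    push_cast at h3
    rw [mul_comm, h3]
    refine Finset.sum_congr rfl (fun j _ => ?_)
    rw [c_eq]
    push_cast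
    rfl

end

end Pool.Agent.NekOk
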