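import Pool.Agent.NekOk.Defs

namespace Pool.Agent.NekOk

open Finset

noncomputable section

theorem sg_zero : sg 0 = 0 := by simp [sg]
theorem sg_nonneg (j : ℕ) : 0 ≤ sg j := by unfold sg; positivity
theorem c_zero : c 0 = 0 := by simp [c]
theorem c_nonneg (j : ℕ) : 0 ≤ c j := by
  unfold c; exact div_nonneg (sg_nonneg j) (by positivity)

theorem c_mul (j : ℕ) : (j : ℝ) * c j = sg j := by
  rcases Nat.eq_zero_or_pos j with h | h
  · subst h; simp [sg_zero]
  · have : (j : ℝ) ≠ 0 := by positivity
    unfold c; field_simp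

theorem c_eq_sum (j : ℕ) : c j = ∑ m ∈ j.divisors, (1 / (m : ℝ)) := by
  rcases Nat.eq_zero_or_pos j with h | h
  · subst h; simp [c_zero]
  unfold c sg
  rw [← Nat.sum_div_divisors j (fun d => (d : ℝ)), Finset.sum_div]
  apply Finset.sum_congr rfl
  intro m hm
  have hd := (Nat.mem_divisors.1 hm).1
  have hm0 : (m : ℝ) ≠ 0 := by
    have := Nat.pos_of_mem_divisors hm
    positivity
  have hj0 : (j : ℝ) ≠ 0 := by positivity
  rw [Nat.cast_div hd hm0]
  field_simp

theorem one_le_c {j : ℕ} (hj : 1 ≤ j) : 1 ≤ c j := by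
  rw [c_eq_sum]
  have h1 : (1 : ℕ) ∈ j.divisors := Nat.mem_divisors.2 ⟨one_dvd _, by omega⟩
  calc (1 : ℝ) = 1 / ((1 : ℕ) : ℝ) := by simp
    _ ≤ _ := Finset.single_le_sum (f := fun m : ℕ => 1 / (m : ℝ)) (fun m _ => by positivity) h1

theorem c_le (j : ℕ) : c j ≤ j := by
  rw [c_eq_sum]
  calc ∑ m ∈ j.divisors, (1 / (m : ℝ)) ≤ ∑ m ∈ j.divisors, (1 : ℝ) := by
        apply Finset.sum_le_sum
        intro m hm
        have : 1 ≤ m := Nat.pos_of_mem_divisors hm
        have h' : (1 : ℝ) ≤ m := by exact_mod_cast this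
        rw [div_le_one (by positivity)]; exact h'
    _ = (j.divisors.card : ℝ) := by simp
    _ ≤ j := by exact_mod_cast Nat.card_divisors_le_self j

theorem summable_M (p : ℕ) {s : ℝ} (hs : 0 < s) :
    Summable (fun j : ℕ => c j * (j : ℝ) ^ p * Real.exp (-(s * j))) := by
  have h := Real.summable_pow_mul_exp_neg_nat_mul (p + 1) hs
  refine Summable.of_nonneg_of_le (fun j => ?_) (fun j => ?_) h
  · have := c_nonneg j; positivity
  · have h1 : c j * (j : ℝ) ^ p ≤ (j : ℝ) ^ (p + 1) := by
      rw [pow_succ, mul_comm]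
      exact mul_le_mul_of_nonneg_left (c_le j) (by positivity)
    have h2 : Real.exp (-(s * j)) = Real.exp (-s * j) := by ring_nf
    rw [h2]
    exact mul_le_mul_of_nonneg_right h1 (Real.exp_pos _).le

theorem M_nonneg (p : ℕ) (s : ℝ) : 0 ≤ M p s := by
  unfold M
  apply tsum_nonneg
  intro j
  have := c_nonneg j
  positivity

theorem M_pos (p : ℕ) {s : ℝ} (hs : 0 < s) : 0 < M p s := by
  unfold M
  refine (summable_M p hs).tsum_pos (fun j => ?_) 1 ?_
  · have := c_nonneg j; positivity
  · have := one_le_c (le_refl 1)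
    simp only [Nat.cast_one, one_pow, mul_one]
    have : 0 < c 1 := by linarith
    positivity

theorem summable_Lam_norm {s : ℝ} (hs : 0 < s) (θ : ℝ) :
    Summable (fun j : ℕ => ‖((c j * Real.exp (-(s * j)) : ℝ) : ℂ) *
      Complex.exp (((j * θ : ℝ) : ℂ) * Complex.I)‖) := by
  have h := summable_M 0 hs
  refine h.congr ?_
  intro j
  rw [norm_mul, Complex.norm_exp_ofReal_mul_I, Complex.norm_real, Real.norm_eq_abs,
    abs_of_nonneg (mul_nonneg (c_nonneg j) (Real.exp_pos _).le)]
  simp

theorem summable_Lam {s : ℝ} (hs : 0 < s) (θ : ℝ) :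
    Summable (fun j : ℕ => ((c j * Real.exp (-(s * j)) : ℝ) : ℂ) *
      Complex.exp (((j * θ : ℝ) : ℂ) * Complex.I)) :=
  (summable_Lam_norm hs θ).of_norm

theorem Lam_continuous {s : ℝ} (hs : 0 < s) : Continuous (Lam s) := by
  unfold Lam
  refine continuous_tsum (u := fun j : ℕ => c j * (j : ℝ) ^ 0 * Real.exp (-(s * j)))
    (fun j => by fun_prop) (summable_M 0 hs) ?_
  intro j θ
  rw [norm_mul, Complex.norm_exp_ofReal_mul_I, Complex.norm_real, Real.norm_eq_abs,
    abs_of_nonneg (mul_nonneg (c_nonneg j) (Real.exp_pos _).le)]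
  simp

theorem norm_Lam_le {s : ℝ} (hs : 0 < s) (θ : ℝ) : ‖Lam s θ‖ ≤ M 0 s := by
  unfold Lam M
  refine (norm_tsum_le_tsum_norm (summable_Lam_norm hs θ)).trans_eq ?_
  refine tsum_congr (fun j => ?_)
  rw [norm_mul, Complex.norm_exp_ofReal_mul_I, Complex.norm_real, Real.norm_eq_abs,
    abs_of_nonneg (mul_nonneg (c_nonneg j) (Real.exp_pos _).le)]
  simp

namespace IsNO
variable {a : ℕ → ℕ → ℝ}

theorem nonneg (ha : IsNO a) : ∀ k n, 0 ≤ a k n := by
  intro k
  induction k with
  | zero =>
    intro n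
    induction n using Nat.strong_induction_on with
    | _ n ih =>
      rcases Nat.eq_zero_or_pos n with h | h
      · subst h; rw [ha.zero]; norm_num
      · have h1 := ha.row n
        have h2 : 0 ≤ (n : ℝ) * a 0 n := by
          rw [h1]
          apply Finset.sum_nonneg
          intro j hj
          rcases Nat.eq_zero_or_pos j with hj0 | hj0
          · subst hj0; simp [sg_zero]
          · exact mul_nonneg (sg_nonneg j) (ih _ (by omega))
        have h3 : (0 : ℝ) < n := by exact_mod_cast h
        exact nonneg_of_mul_nonneg_right h2 h3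
  | succ k ih =>
    intro n
    have h1 := ha.step k n
    have h2 : 0 ≤ ((k : ℝ) + 1) * a (k + 1) n := by
      rw [h1]
      exact Finset.sum_nonneg (fun j _ => mul_nonneg (c_nonneg j) (ih _))
    exact nonneg_of_mul_nonneg_right h2 (by positivity)

theorem row0_pos (ha : IsNO a) : ∀ n, 0 < a 0 n := by
  intro n
  induction n using Nat.strong_induction_on with
  | _ n ih =>
    rcases Nat.eq_zero_or_pos n with h | h
    · subst h; rw [ha.zero]; norm_num
    · have h1 := ha.row n
      have hsg1 : sg 1 = 1 := by simp [sg]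
      have h2 : 0 < (n : ℝ) * a 0 n := by
        rw [h1]
        apply Finset.sum_pos'
        · intro j _
          exact mul_nonneg (sg_nonneg j) (ha.nonneg _ _)
        · refine ⟨1, by simp; omega, ?_⟩
          rw [hsg1, one_mul]
          exact ih _ (by omega)
      exact pos_of_mul_pos_right h2 (by positivity)

theorem pos (ha : IsNO a) : ∀ k n, k ≤ n → 0 < a k n := by
  intro k
  induction k with
  | zero => intro n _; exact ha.row0_pos n
  | succ k ih =>
    intro n hn
    have h1 := ha.step k n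
    have h2 : 0 < ((k : ℝ) + 1) * a (k + 1) n := by
      rw [h1]
      apply Finset.sum_pos'
      · intro j _
        exact mul_nonneg (c_nonneg j) (ha.nonneg _ _)
      · refine ⟨1, by simp; omega, ?_⟩
        have := one_le_c (le_refl 1)
        exact mul_pos (by linarith) (ih _ (by omega))
    exact pos_of_mul_pos_right h2 (by positivity)

/-- the averaging principle -/
theorem avg (ha : IsNO a) (C : ℝ) (k n : ℕ)
    (h : ∀ m < n, ((k : ℝ) + 1) * a (k + 1) m ≤ C * a k m) :
    ((k : ℝ) + 2) * a (k + 2) n ≤ C * a (k + 1) n := by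
  have h1 := ha.step (k + 1) n
  have h2 := ha.step k n
  have hk : (0 : ℝ) < (k : ℝ) + 1 := by positivity
  have h3 : ((k : ℝ) + 1) * (((k : ℝ) + 2) * a (k + 2) n) ≤
      ((k : ℝ) + 1) * (C * a (k + 1) n) := by
    calc ((k : ℝ) + 1) * (((k : ℝ) + 2) * a (k + 2) n)
        = ∑ j ∈ range (n + 1), c j * (((k : ℝ) + 1) * a (k + 1) (n - j)) := by
          have : ((k : ℝ) + 2) = ((k + 1 : ℕ) : ℝ) + 1 := by push_cast; ring
          rw [this, h1, Finset.mul_sum]
          exact Finset.sum_congr rfl (fun j _ => by ring)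
      _ ≤ ∑ j ∈ range (n + 1), c j * (C * a k (n - j)) := by
          apply Finset.sum_le_sum
          intro j hj
          rcases Nat.eq_zero_or_pos j with hj0 | hj0
          · subst hj0; simp [c_zero]
          · rcases Nat.eq_zero_or_pos n with hn | hn
            · simp only [Finset.mem_range] at hj; omega
            · exact mul_le_mul_of_nonneg_left (h _ (by omega)) (c_nonneg j)
      _ = C * ∑ j ∈ range (n + 1), c j * a k (n - j) := by
          rw [Finset.mul_sum]
          exact Finset.sum_congr rfl (fun j _ => by ring)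
      _ = ((k : ℝ) + 1) * (C * a (k + 1) n) := by rw [← h2]; ring
  exact le_of_mul_le_mul_left h3 hk

/-- decreasing at level `k` for all smaller `m` gives decreasing at level `k+1` -/
theorem dec_succ (ha : IsNO a) (k n : ℕ) (h : ∀ m < n, a (k + 1) m ≤ a k m) :
    a (k + 2) n ≤ a (k + 1) n := by
  have h1 := ha.avg ((k : ℝ) + 1) k n
    (fun m hm => mul_le_mul_of_nonneg_left (h m hm) (by positivity))
  have h2 : ((k : ℝ) + 2) * a (k + 2) n ≤ ((k : ℝ) + 2) * a (k + 1) n := by
    have := ha.nonneg (k + 1) n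
    nlinarith
  exact le_of_mul_le_mul_left h2 (by positivity)

end IsNO

end

end Pool.Agent.NekOk
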