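import Pool.Agent.NekOk.CoreAssemble

/-! Saddle point conclusions: `lc_core`, `dec_core`. -/

namespace Pool.Agent.NekOk

open MeasureTheory

noncomputable section

theorem phi_continuous {s : ℝ} (hs : 0 < s) : Continuous (phi s) := by
  unfold phi
  exact (Lam_continuous hs).div_const _

theorem psi_continuous {s : ℝ} (hs : 0 < s) (K n : ℕ) : Continuous (psi s K n) := by
  unfold psi
  have h1 := Lam_continuous hs
  have h2 := phi_continuous hs
  have h3 : Continuous fun θ : ℝ => (((n * θ : ℝ) : ℂ)) := by fun_prop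
  fun_prop

theorem fLC_continuous {s : ℝ} (hs : 0 < s) (K n : ℕ) : Continuous (fLC s K n) := by
  unfold fLC
  have h0 := Lam_continuous hs
  have h1 := phi_continuous hs
  have h2 := psi_continuous hs K n
  exact Complex.continuous_re.comp (h2.mul ((h1.pow 2).sub (continuous_const.mul
    ((h1.sub continuous_const).pow 2))))

theorem fDec_continuous {s : ℝ} (hs : 0 < s) (K n : ℕ) : Continuous (fDec s K n) := by
  unfold fDec
  have h1 := phi_continuous hs
  have h2 := psi_continuous hs K n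
  exact Complex.continuous_re.comp (h2.mul (continuous_const.sub h1))

/-- elementary lower bounds of `e^{-(t²+0.14t³)}` -/
theorem exp_near1 {t : ℝ} (ht0 : 0 ≤ t) (ht : t ≤ 1 / 2) :
    0.765 ≤ Real.exp (-(t ^ 2 + 0.14 * t ^ 3)) := by
  refine exp_c1.trans (Real.exp_le_exp.2 ?_)
  have h2 : t ^ 2 ≤ (1 / 2) ^ 2 := pow_le_pow_left₀ ht0 ht 2
  have h3 : t ^ 3 ≤ (1 / 2) ^ 3 := pow_le_pow_left₀ ht0 ht 3
  nlinarith

theorem exp_near2 {t : ℝ} (ht0 : 0 ≤ t) (ht : t ≤ 1) :
    0.319 ≤ Real.exp (-(t ^ 2 + 0.14 * t ^ 3)) := by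
  refine exp_c2.trans (Real.exp_le_exp.2 ?_)
  have h2 : t ^ 2 ≤ (1) ^ 2 := pow_le_pow_left₀ ht0 ht 2
  have h3 : t ^ 3 ≤ (1) ^ 3 := pow_le_pow_left₀ ht0 ht 3
  nlinarith

namespace Ctx
variable {s : ℝ} {K n : ℕ}

theorem int_lc_half (h : Ctx s K n) (ε : ℝ) (hε : |ε| = 1) :
    0 ≤ ∫ θ in (0 : ℝ)..Real.pi, fLC s K n (ε * θ) := by
  have hs := h.hs
  have hh0 := h.hh_pos
  have hspi : s ≤ Real.pi := by have := Real.pi_gt_three; have := h.hs'; linarith
  have habs : ∀ θ : ℝ, 0 ≤ θ → |ε * θ| = θ := fun θ hθ => by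
    rw [abs_mul, hε, one_mul, abs_of_nonneg hθ]
  have htt : ∀ θ : ℝ, 0 ≤ θ → tt s K (ε * θ) = θ / hh s K := fun θ hθ => by
    rw [h.tt_eq_div, habs θ hθ]
  refine assembly (fun θ => fLC s K n (ε * θ))
    ((fLC_continuous hs K n).comp (continuous_const.mul continuous_id))
    (h := hh s K) (s := s) (g1 := 0.749) (g2 := 0.29) (C := 0.33)
    (DA := 20 * Real.exp (-(0.19 / s))) (DB := 69 * Real.exp (-(0.48 / s)))
    hh0 hs hspi (by norm_num) h.h74 ?_ ?_ ?_ ?_ ?_ ?_ (by positivity) ?_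
  · intro θ h0 h1
    have ht0 : 0 ≤ θ / hh s K := by positivity
    have ht1 : θ / hh s K ≤ 1 / 2 := by rw [div_le_iff₀ hh0]; linarith
    have hb := h.near_lc (ε * θ) (by rw [htt θ h0]; linarith)
    rw [htt θ h0] at hb
    refine le_trans ?_ hb
    calc (0.749 : ℝ) ≤ 0.765 * 0.98 := by norm_num
      _ ≤ _ := mul_le_mul (exp_near1 ht0 ht1) (bracket_lc_val1 ht0 ht1) (by norm_num)
          (Real.exp_pos _).le
  · intro θ h0 h1
    have h0' : 0 ≤ θ := le_trans (by positivity) h0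
    have ht0 : 0 ≤ θ / hh s K := by positivity
    have ht1 : θ / hh s K ≤ 1 := by rw [div_le_iff₀ hh0]; linarith
    have hb := h.near_lc (ε * θ) (by rw [htt θ h0']; linarith)
    rw [htt θ h0'] at hb
    refine le_trans ?_ hb
    calc (0.29 : ℝ) ≤ 0.319 * 0.91 := by norm_num
      _ ≤ _ := mul_le_mul (exp_near2 ht0 ht1) (bracket_lc_val2 ht0 ht1) (by norm_num)
          (Real.exp_pos _).le
  · intro θ h0 h1
    have h0' : 0 ≤ θ := le_trans hh0.le h0
    have ht0 : 0 ≤ θ / hh s K := by positivity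
    have ht1 : θ / hh s K ≤ 7 / 4 := by rw [div_le_iff₀ hh0]; linarith
    have hb := h.near_lc (ε * θ) (by rw [htt θ h0']; exact ht1)
    rw [htt θ h0'] at hb
    refine le_trans ?_ hb
    exact mul_nonneg (Real.exp_pos _).le (bracket_lc_val3 ht0 ht1)
  · intro θ h0 h1
    have h0' : 0 ≤ θ := le_trans (by positivity) h0
    have ht1 : 7 / 4 ≤ θ / hh s K := by rw [le_div_iff₀ hh0]; linarith
    have hb := h.mid_lc (ε * θ) (by rw [habs θ h0']; exact h1) (by rw [htt θ h0']; exact ht1)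
    rw [htt θ h0'] at hb
    exact hb
  · intro θ h0 h1
    have h0' : 0 ≤ θ := by linarith
    exact h.farA_lc (by rw [habs θ h0']; exact h0) (by rw [habs θ h0']; exact h1)
  · intro θ h0 h1
    have h0' : 0 ≤ θ := by linarith
    exact h.farB_lc (by rw [habs θ h0']; exact h0) (by rw [habs θ h0']; exact h1)
  · have e1 := h.exp_small1
    have e2 := h.exp_small2
    have e3 := h.hh_ge
    have hpi := Real.pi_lt_d2
    have a1 : 20 * Real.exp (-(0.19 / s)) * (s / 2) ≤ 0.208 * s ^ 2 := by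
      have := mul_le_mul_of_nonneg_right e1 hs.le
      nlinarith
    have a2 : 69 * Real.exp (-(0.48 / s)) * Real.pi ≤ 0.1 * s ^ 2 := by
      have h1 : 69 * Real.exp (-(0.48 / s)) * Real.pi ≤ 69 * (0.0208 ^ 2 * s ^ 2) * 3.15 := by
        apply mul_le_mul (by linarith) hpi.le Real.pi_pos.le (by positivity)
      nlinarith [sq_nonneg s]
    have a3 : 3 * s ^ 2 * 0.3 ≤ hh s K * ((0.749 + 0.29) / 2 - 0.33 / 1.55) := by
      apply mul_le_mul e3 (by norm_num) (by norm_num) hh0.le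
    nlinarith [sq_nonneg s]

theorem int_dec_half (h : Ctx s K n) (hK' : 1.2 * M 0 s ≤ K) (ε : ℝ) (hε : |ε| = 1) :
    0 ≤ ∫ θ in (0 : ℝ)..Real.pi, fDec s K n (ε * θ) := by
  have hs := h.hs
  have hh0 := h.hh_pos
  have h0M := h.M0_pos
  have hspi : s ≤ Real.pi := by have := Real.pi_gt_three; have := h.hs'; linarith
  have hb : 0.2 ≤ ((K : ℝ) + 1) / M 0 s - 1 := by
    rw [le_sub_iff_add_le, le_div_iff₀ h0M]; linarith
  have hbu : ((K : ℝ) + 1) / M 0 s - 1 ≤ 0.4 := by have := h.beta_le; linarith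
  have habs : ∀ θ : ℝ, 0 ≤ θ → |ε * θ| = θ := fun θ hθ => by
    rw [abs_mul, hε, one_mul, abs_of_nonneg hθ]
  have htt : ∀ θ : ℝ, 0 ≤ θ → tt s K (ε * θ) = θ / hh s K := fun θ hθ => by
    rw [h.tt_eq_div, habs θ hθ]
  have hmid := fun θ => h.mid_dec hK' θ
  have hnear := fun θ => h.near_dec hK' θ
  set b := ((K : ℝ) + 1) / M 0 s - 1 with hbdef
  refine assembly (fun θ => fDec s K n (ε * θ))
    ((fDec_continuous hs K n).comp (continuous_const.mul continuous_id))
    (h := hh s K) (s := s) (g1 := 0.764 * b - 0.001) (g2 := 0.315 * b - 0.005)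
    (C := 0.0856 * (b + 0.1834))
    (DA := 2.4 * Real.exp (-(0.19 / s))) (DB := 2.4 * Real.exp (-(0.48 / s)))
    hh0 hs hspi (by positivity) h.h74 ?_ ?_ ?_ ?_ ?_ ?_ (by positivity) ?_
  · intro θ h0 h1
    have ht0 : 0 ≤ θ / hh s K := by positivity
    have ht1 : θ / hh s K ≤ 1 / 2 := by rw [div_le_iff₀ hh0]; linarith
    have hb1 := hnear (ε * θ) (by rw [htt θ h0]; linarith)
    rw [htt θ h0] at hb1
    refine le_trans ?_ hb1
    have hv := bracket_dec_val1 hb ht0 ht1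
    calc 0.764 * b - 0.001 ≤ 0.765 * (0.9998 * b - 0.00092) := by nlinarith
      _ ≤ _ := mul_le_mul (exp_near1 ht0 ht1) hv (by linarith)
          (Real.exp_pos _).le
  · intro θ h0 h1
    have h0' : 0 ≤ θ := le_trans (by positivity) h0
    have ht0 : 0 ≤ θ / hh s K := by positivity
    have ht1 : θ / hh s K ≤ 1 := by rw [div_le_iff₀ hh0]; linarith
    have hb1 := hnear (ε * θ) (by rw [htt θ h0']; linarith)
    rw [htt θ h0'] at hb1
    refine le_trans ?_ hb1
    have hv := bracket_dec_val2 hb ht0 ht1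
    calc 0.315 * b - 0.005 ≤ 0.319 * (0.9902 * b - 0.014672) := by nlinarith
      _ ≤ _ := mul_le_mul (exp_near2 ht0 ht1) hv (by linarith)
          (Real.exp_pos _).le
  · intro θ h0 h1
    have h0' : 0 ≤ θ := le_trans hh0.le h0
    have ht0 : 0 ≤ θ / hh s K := by positivity
    have ht1 : θ / hh s K ≤ 7 / 4 := by rw [div_le_iff₀ hh0]; linarith
    have hb1 := hnear (ε * θ) (by rw [htt θ h0']; exact ht1)
    rw [htt θ h0'] at hb1
    refine le_trans ?_ hb1
    exact mul_nonneg (Real.exp_pos _).le (bracket_dec_val3 hb ht0 ht1)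
  · intro θ h0 h1
    have h0' : 0 ≤ θ := le_trans (by positivity) h0
    have ht1 : 7 / 4 ≤ θ / hh s K := by rw [le_div_iff₀ hh0]; linarith
    have hb1 := hmid (ε * θ) (by rw [habs θ h0']; exact h1) (by rw [htt θ h0']; exact ht1)
    rw [htt θ h0'] at hb1
    exact hb1
  · intro θ h0 h1
    have h0' : 0 ≤ θ := by linarith
    have h2 : |ε * θ| ≤ Real.pi := by rw [habs θ h0']; linarith
    exact h.far_dec_aux (far1 hs h.hs' (by rw [habs θ h0']; exact h0) h2)
  · intro θ h0 h1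
    have h0' : 0 ≤ θ := by linarith
    exact h.far_dec_aux (far2 hs h.hs' (by rw [habs θ h0']; exact h0)
      (by rw [habs θ h0']; exact h1))
  · have e1 := h.exp_small1
    have e2 := h.exp_small2
    have e3 := h.hh_ge
    have hpi := Real.pi_lt_d2
    have a1 : 2.4 * Real.exp (-(0.19 / s)) * (s / 2) ≤ 0.025 * s ^ 2 := by
      have := mul_le_mul_of_nonneg_right e1 hs.le
      nlinarith
    have a2 : 2.4 * Real.exp (-(0.48 / s)) * Real.pi ≤ 0.005 * s ^ 2 := by
      have h1 : 2.4 * Real.exp (-(0.48 / s)) * Real.pi ≤ 2.4 * (0.0208 ^ 2 * s ^ 2) * 3.15 := by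
        apply mul_le_mul (by linarith) hpi.le Real.pi_pos.le (by positivity)
      nlinarith [sq_nonneg s]
    have a3 : 3 * s ^ 2 * 0.08 ≤ hh s K *
        ((0.764 * b - 0.001 + (0.315 * b - 0.005)) / 2 - 0.0856 * (b + 0.1834) / 1.55) := by
      apply mul_le_mul e3 _ (by norm_num) hh0.le
      have : 0.0856 * (b + 0.1834) / 1.55 ≤ 0.0553 * (b + 0.1834) := by
        rw [div_le_iff₀ (by norm_num)]; nlinarith
      nlinarith
    nlinarith [sq_nonneg s]

theorem int_full (f : ℝ → ℝ) (hf : Continuous f)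
    (h1 : 0 ≤ ∫ θ in (0 : ℝ)..Real.pi, f (1 * θ))
    (h2 : 0 ≤ ∫ θ in (0 : ℝ)..Real.pi, f ((-1) * θ)) :
    0 ≤ ∫ θ in (-Real.pi)..Real.pi, f θ := by
  have e1 := intervalIntegral.integral_add_adjacent_intervals
    (hf.intervalIntegrable (μ := volume) (-Real.pi) 0) (hf.intervalIntegrable 0 Real.pi)
  have e2 : ∫ θ in (0 : ℝ)..Real.pi, f ((-1) * θ) = ∫ θ in (-Real.pi)..0, f θ := by
    have := intervalIntegral.integral_comp_neg (a := 0) (b := Real.pi) f
    simpa using this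
  rw [e2] at h2
  simp only [one_mul] at h1
  rw [← e1]
  linarith

/-- the integrals of `ψ ϕ^j` -/
theorem int_psi (h : Ctx s K n) {a : ℕ → ℕ → ℝ} (ha : IsNO a) (j : ℕ) :
    ∫ θ in (-Real.pi)..Real.pi, psi s K n θ * phi s θ ^ j =
      ((2 * Real.pi * Real.exp (-(s * n)) * Real.exp (-(M 0 s)) *
        (((K + j).factorial : ℝ) * a (K + j) n / M 0 s ^ (K + j)) : ℝ) : ℂ) := by
  have h0 := h.M0_pos
  have hf := fourier ha h.hs (K + j) n
  have e : ∀ θ : ℝ, psi s K n θ * phi s θ ^ j =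
      ((Real.exp (-(M 0 s)) / M 0 s ^ (K + j) : ℝ) : ℂ) *
      (Complex.exp (Lam s θ) * Lam s θ ^ (K + j) *
        Complex.exp (-(((n * θ : ℝ) : ℂ) * Complex.I))) := by
    intro θ
    unfold psi phi
    rw [sub_eq_add_neg, Complex.exp_add]
    have h0' : (M 0 s : ℂ) ≠ 0 := by exact_mod_cast h0.ne'
    push_cast
    rw [div_pow, div_pow]
    field_simp
    ring
  rw [intervalIntegral.integral_congr (fun θ _ => e θ), intervalIntegral.integral_const_mul, hf,
    ← Complex.ofReal_mul]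
  congr 1
  ring

end Ctx

theorem lc_core {a : ℕ → ℕ → ℝ} (ha : IsNO a) {s : ℝ} (hs : 0 < s) (hs' : s ≤ 1 / 40)
    (K n : ℕ) (hK : (K : ℝ) ≤ 1.36 * M 0 s) (hn : (n : ℝ) = M 1 s * (1 + K / M 0 s)) :
    a K n * a (K + 2) n ≤ a (K + 1) n ^ 2 := by
  have h : Ctx s K n := ⟨hs, hs', hK, hn⟩
  have h0 := h.M0_pos
  have hpos : 0 ≤ ∫ θ in (-Real.pi)..Real.pi, fLC s K n θ :=
    Ctx.int_full _ (fLC_continuous hs K n) (h.int_lc_half 1 (by simp))
      (h.int_lc_half (-1) (by simp))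
  have i0 := h.int_psi ha 0
  have i1 := h.int_psi ha 1
  have i2 := h.int_psi ha 2
  have cpsi := psi_continuous hs K n
  have cphi := phi_continuous hs
  set G := 2 * Real.pi * Real.exp (-(s * n)) * Real.exp (-(M 0 s)) with hG
  have hGpos : 0 < G := by have := Real.pi_pos; positivity
  set I0 := ((K + 0).factorial : ℝ) * a (K + 0) n / M 0 s ^ (K + 0) with hI0
  set I1 := ((K + 1).factorial : ℝ) * a (K + 1) n / M 0 s ^ (K + 1) with hI1
  set I2 := ((K + 2).factorial : ℝ) * a (K + 2) n / M 0 s ^ (K + 2) with hI2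
  -- the linear inequality
  have key : 0 ≤ -((K : ℝ) + 1) * I2 + 2 * ((K : ℝ) + 2) * I1 - ((K : ℝ) + 2) * I0 := by
    have hF : ∫ θ in (-Real.pi)..Real.pi, psi s K n θ *
        (phi s θ ^ 2 - ((K : ℂ) + 2) * (phi s θ - 1) ^ 2) =
        ((G * (-((K : ℝ) + 1) * I2 + 2 * ((K : ℝ) + 2) * I1 - ((K : ℝ) + 2) * I0) : ℝ) : ℂ) := by
      have e : ∀ θ : ℝ, psi s K n θ * (phi s θ ^ 2 - ((K : ℂ) + 2) * (phi s θ - 1) ^ 2) =
          (-((K : ℂ) + 1)) * (psi s K n θ * phi s θ ^ 2) +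
          (2 * ((K : ℂ) + 2)) * (psi s K n θ * phi s θ ^ 1) -
          ((K : ℂ) + 2) * (psi s K n θ * phi s θ ^ 0) := by
        intro θ; ring
      have c0 : ∀ j : ℕ, Continuous fun θ : ℝ => psi s K n θ * phi s θ ^ j := fun j => by
        fun_prop
      rw [intervalIntegral.integral_congr (fun θ _ => e θ),
        intervalIntegral.integral_sub, intervalIntegral.integral_add,
        intervalIntegral.integral_const_mul, intervalIntegral.integral_const_mul,
        intervalIntegral.integral_const_mul, i0, i1, i2]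
      · push_cast; ring
      · exact ((c0 2).const_mul _).intervalIntegrable _ _
      · exact ((c0 1).const_mul _).intervalIntegrable _ _
      · exact (((c0 2).const_mul _).add ((c0 1).const_mul _)).intervalIntegrable _ _
      · exact ((c0 0).const_mul _).intervalIntegrable _ _
    have hre : ∫ θ in (-Real.pi)..Real.pi, fLC s K n θ =
        G * (-((K : ℝ) + 1) * I2 + 2 * ((K : ℝ) + 2) * I1 - ((K : ℝ) + 2) * I0) := by
      have c : Continuous fun θ : ℝ => psi s K n θ *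
        (phi s θ ^ 2 - ((K : ℂ) + 2) * (phi s θ - 1) ^ 2) := by fun_prop
      have := intervalIntegral.intervalIntegral_re (μ := volume) (𝕜 := ℂ)
        (c.intervalIntegrable (-Real.pi) Real.pi)
      rw [hF] at this
      simpa [fLC] using this
    rw [hre] at hpos
    exact nonneg_of_mul_nonneg_right hpos hGpos
  -- conclusion
  have p0 : 0 ≤ I0 := by
    rw [hI0]; have := ha.nonneg (K + 0) n; positivity
  have q1 : ((K : ℝ) + 1) * (I0 * I2) ≤ ((K : ℝ) + 2) * I1 ^ 2 := by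
    have h1 : ((K : ℝ) + 1) * I2 ≤ ((K : ℝ) + 2) * (2 * I1 - I0) := by linarith
    have h2 := mul_le_mul_of_nonneg_left h1 p0
    have h3 : (0:ℝ) ≤ (K : ℝ) + 2 := by positivity
    nlinarith [mul_nonneg h3 (sq_nonneg (I1 - I0))]
  have f1 : ((K + 1).factorial : ℝ) = ((K : ℝ) + 1) * (K.factorial : ℝ) := by
    rw [Nat.factorial_succ]; push_cast; ring
  have f2 : ((K + 2).factorial : ℝ) = ((K : ℝ) + 2) * (((K : ℝ) + 1) * (K.factorial : ℝ)) := by
    rw [show K + 2 = (K + 1) + 1 from rfl, Nat.factorial_succ, Nat.factorial_succ]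
    push_cast; ring
  rw [hI0, hI1, hI2, f1, f2] at q1
  simp only [add_zero] at q1
  have hfac : (0 : ℝ) < K.factorial := by exact_mod_cast Nat.factorial_pos K
  have hMp : 0 < M 0 s ^ (2 * K + 2) := by positivity
  have hk1 : (0 : ℝ) < (K : ℝ) + 1 := by positivity
  have hk2 : (0 : ℝ) < (K : ℝ) + 2 := by positivity
  have e1 : ((K : ℝ) + 1) * ((K.factorial : ℝ) * a K n / M 0 s ^ K *
      (((K : ℝ) + 2) * (((K : ℝ) + 1) * (K.factorial : ℝ)) * a (K + 2) n / M 0 s ^ (K + 2))) =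
      (((K : ℝ) + 2) * (((K : ℝ) + 1) * (K.factorial : ℝ)) ^ 2 / M 0 s ^ (2 * K + 2)) *
        (a K n * a (K + 2) n) := by
    field_simp
    ring
  have e2 : ((K : ℝ) + 2) * ((((K : ℝ) + 1) * (K.factorial : ℝ)) * a (K + 1) n /
      M 0 s ^ (K + 1)) ^ 2 =
      (((K : ℝ) + 2) * (((K : ℝ) + 1) * (K.factorial : ℝ)) ^ 2 / M 0 s ^ (2 * K + 2)) *
        (a (K + 1) n ^ 2) := by
    field_simp
    ring
  rw [e1, e2] at q1
  exact le_of_mul_le_mul_left q1 (by positivity)

theorem dec_core {a : ℕ → ℕ → ℝ} (ha : IsNO a) {s : ℝ} (hs : 0 < s) (hs' : s ≤ 1 / 40)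
    (K n : ℕ) (hK : (K : ℝ) ≤ 1.36 * M 0 s) (hK' : 1.2 * M 0 s ≤ K)
    (hn : (n : ℝ) = M 1 s * (1 + K / M 0 s)) :
    a (K + 1) n ≤ a K n := by
  have h : Ctx s K n := ⟨hs, hs', hK, hn⟩
  have h0 := h.M0_pos
  have hpos : 0 ≤ ∫ θ in (-Real.pi)..Real.pi, fDec s K n θ :=
    Ctx.int_full _ (fDec_continuous hs K n) (h.int_dec_half hK' 1 (by simp))
      (h.int_dec_half hK' (-1) (by simp))
  have i0 := h.int_psi ha 0
  have i1 := h.int_psi ha 1
  have cpsi := psi_continuous hs K n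
  have cphi := phi_continuous hs
  set G := 2 * Real.pi * Real.exp (-(s * n)) * Real.exp (-(M 0 s)) with hG
  have hGpos : 0 < G := by have := Real.pi_pos; positivity
  set I0 := ((K + 0).factorial : ℝ) * a (K + 0) n / M 0 s ^ (K + 0) with hI0
  set I1 := ((K + 1).factorial : ℝ) * a (K + 1) n / M 0 s ^ (K + 1) with hI1
  have key : 0 ≤ ((K : ℝ) + 1) / M 0 s * I0 - I1 := by
    have hF : ∫ θ in (-Real.pi)..Real.pi, psi s K n θ *
        ((((K : ℝ) + 1) / M 0 s : ℝ) - phi s θ) =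
        ((G * (((K : ℝ) + 1) / M 0 s * I0 - I1) : ℝ) : ℂ) := by
      have e : ∀ θ : ℝ, psi s K n θ * ((((K : ℝ) + 1) / M 0 s : ℝ) - phi s θ) =
          ((((K : ℝ) + 1) / M 0 s : ℝ) : ℂ) * (psi s K n θ * phi s θ ^ 0) -
          psi s K n θ * phi s θ ^ 1 := by
        intro θ; ring
      have c0 : ∀ j : ℕ, Continuous fun θ : ℝ => psi s K n θ * phi s θ ^ j := fun j => by
        fun_prop
      rw [intervalIntegral.integral_congr (fun θ _ => e θ),
        intervalIntegral.integral_sub, intervalIntegral.integral_const_mul, i0, i1]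
      · push_cast; ring
      · exact ((c0 0).const_mul _).intervalIntegrable _ _
      · exact (c0 1).intervalIntegrable _ _
    have hre : ∫ θ in (-Real.pi)..Real.pi, fDec s K n θ =
        G * (((K : ℝ) + 1) / M 0 s * I0 - I1) := by
      have c : Continuous fun θ : ℝ => psi s K n θ *
        ((((K : ℝ) + 1) / M 0 s : ℝ) - phi s θ) := by fun_prop
      have := intervalIntegral.intervalIntegral_re (μ := volume) (𝕜 := ℂ)
        (c.intervalIntegrable (-Real.pi) Real.pi)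
      rw [hF] at this
      simpa [fDec] using this
    rw [hre] at hpos
    exact nonneg_of_mul_nonneg_right hpos hGpos
  have f1 : ((K + 1).factorial : ℝ) = ((K : ℝ) + 1) * (K.factorial : ℝ) := by
    rw [Nat.factorial_succ]; push_cast; ring
  rw [hI0, hI1, f1] at key
  simp only [add_zero] at key
  have hfac : (0 : ℝ) < K.factorial := by exact_mod_cast Nat.factorial_pos K
  have e1 : ((K : ℝ) + 1) / M 0 s * ((K.factorial : ℝ) * a K n / M 0 s ^ K) -
      ((K : ℝ) + 1) * (K.factorial : ℝ) * a (K + 1) n / M 0 s ^ (K + 1) =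
      (((K : ℝ) + 1) * (K.factorial : ℝ) / M 0 s ^ (K + 1)) * (a K n - a (K + 1) n) := by
    field_simp
    ring
  rw [e1] at key
  have := nonneg_of_mul_nonneg_right key (by positivity)
  linarith

end

end Pool.Agent.NekOk
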