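import Pool.Agent.NekOk.CoreMain

/-! Integration of the pointwise bounds and the two conclusions. -/

namespace Pool.Agent.NekOk

open MeasureTheory

noncomputable section

/-- integral of `C e^{-1.55 (θ/h - 7/4)}` over `[7h/4, b]` -/
theorem integral_exp_le {h b C : ℝ} (hh : 0 < h) (hC : 0 ≤ C) :
    ∫ θ in (h * (7 / 4))..b, -(C * Real.exp (-(1.55 * (θ / h - 7 / 4)))) ≥ -(h * (C / 1.55)) := by
  have hderiv : ∀ θ ∈ Set.uIcc (h * (7 / 4)) b,
      HasDerivAt (fun θ : ℝ => h * (C / 1.55) * Real.exp (-(1.55 * (θ / h - 7 / 4))))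
        (-(C * Real.exp (-(1.55 * (θ / h - 7 / 4))))) θ := by
    intro θ _
    have h1 : HasDerivAt (fun θ : ℝ => -(1.55 * (θ / h - 7 / 4))) (-(1.55 * (1 / h))) θ := by
      have := ((hasDerivAt_id θ).div_const h).sub_const (7 / 4)
      exact ((this.const_mul 1.55).neg)
    have h2 := (h1.exp).const_mul (h * (C / 1.55))
    have e : h * (C / 1.55) * (Real.exp (-(1.55 * (θ / h - 7 / 4))) * -(1.55 * (1 / h))) =
        -(C * Real.exp (-(1.55 * (θ / h - 7 / 4)))) := by
      field_simp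
    rw [← e]
    exact h2
  have hint : IntervalIntegrable (fun θ : ℝ => -(C * Real.exp (-(1.55 * (θ / h - 7 / 4)))))
      volume (h * (7 / 4)) b := by
    apply Continuous.intervalIntegrable
    fun_prop
  rw [intervalIntegral.integral_eq_sub_of_hasDerivAt hderiv hint]
  have e : h * (7 / 4) / h - 7 / 4 = 0 := by field_simp; ring
  rw [e]
  simp only [mul_zero, neg_zero, Real.exp_zero, mul_one]
  have : 0 ≤ h * (C / 1.55) * Real.exp (-(1.55 * (b / h - 7 / 4))) := by positivity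
  linarith

/-- assembly of the pointwise bounds on one half line -/
theorem assembly (f : ℝ → ℝ) (hf : Continuous f) {h s g1 g2 C DA DB : ℝ} (hh : 0 < h)
    (hs : 0 < s) (hsπ : s ≤ Real.pi) (hC : 0 ≤ C)
    (h74 : h * (7 / 4) ≤ s / 2)
    (H1 : ∀ θ, 0 ≤ θ → θ ≤ h * (1 / 2) → g1 ≤ f θ)
    (H2 : ∀ θ, h * (1 / 2) ≤ θ → θ ≤ h → g2 ≤ f θ)
    (H3 : ∀ θ, h ≤ θ → θ ≤ h * (7 / 4) → 0 ≤ f θ)
    (H4 : ∀ θ, h * (7 / 4) ≤ θ → θ ≤ s / 2 →
      -(C * Real.exp (-(1.55 * (θ / h - 7 / 4)))) ≤ f θ)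
    (H5 : ∀ θ, s / 2 ≤ θ → θ ≤ s → -DA ≤ f θ)
    (H6 : ∀ θ, s ≤ θ → θ ≤ Real.pi → -DB ≤ f θ)
    (hDB : 0 ≤ DB)
    (hfin : 0 ≤ h * ((g1 + g2) / 2 - C / 1.55) - DA * (s / 2) - DB * Real.pi) :
    0 ≤ ∫ θ in (0 : ℝ)..Real.pi, f θ := by
  have hi : ∀ a b : ℝ, IntervalIntegrable f volume a b := fun a b => hf.intervalIntegrable a b
  have e1 := intervalIntegral.integral_add_adjacent_intervals (hi 0 (h * (1 / 2)))
    (hi (h * (1 / 2)) h)
  have e2 := intervalIntegral.integral_add_adjacent_intervals (hi 0 h) (hi h (h * (7 / 4)))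
  have e3 := intervalIntegral.integral_add_adjacent_intervals (hi 0 (h * (7 / 4)))
    (hi (h * (7 / 4)) (s / 2))
  have e4 := intervalIntegral.integral_add_adjacent_intervals (hi 0 (s / 2)) (hi (s / 2) s)
  have e5 := intervalIntegral.integral_add_adjacent_intervals (hi 0 s) (hi s Real.pi)
  have i1 : g1 * (h * (1 / 2)) ≤ ∫ θ in (0 : ℝ)..(h * (1 / 2)), f θ := by
    have := intervalIntegral.integral_mono_on (μ := volume) (a := 0) (b := h * (1 / 2))
      (f := fun _ => g1) (g := f) (by positivity) (by simp) (hi _ _)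
      (fun θ hθ => H1 θ hθ.1 hθ.2)
    rw [intervalIntegral.integral_const] at this
    simp only [sub_zero, smul_eq_mul] at this
    linarith
  have i2 : g2 * (h * (1 / 2)) ≤ ∫ θ in (h * (1 / 2))..h, f θ := by
    have := intervalIntegral.integral_mono_on (μ := volume) (a := h * (1 / 2)) (b := h)
      (f := fun _ => g2) (g := f) (by linarith) (by simp) (hi _ _)
      (fun θ hθ => H2 θ hθ.1 hθ.2)
    rw [intervalIntegral.integral_const] at this
    simp only [smul_eq_mul] at this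
    linarith
  have i3 : 0 ≤ ∫ θ in h..(h * (7 / 4)), f θ := by
    have := intervalIntegral.integral_mono_on (μ := volume) (a := h) (b := h * (7 / 4))
      (f := fun _ => (0 : ℝ)) (g := f) (by linarith) (by simp) (hi _ _)
      (fun θ hθ => H3 θ hθ.1 hθ.2)
    simpa using this
  have i4 : -(h * (C / 1.55)) ≤ ∫ θ in (h * (7 / 4))..(s / 2), f θ := by
    have := intervalIntegral.integral_mono_on (μ := volume) (a := h * (7 / 4)) (b := s / 2)
      (f := fun θ : ℝ => -(C * Real.exp (-(1.55 * (θ / h - 7 / 4))))) (g := f) h74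
      (by apply Continuous.intervalIntegrable; fun_prop) (hi _ _)
      (fun θ hθ => H4 θ hθ.1 hθ.2)
    exact (integral_exp_le hh hC).le.trans this
  have i5 : -DA * (s / 2) ≤ ∫ θ in (s / 2)..s, f θ := by
    have := intervalIntegral.integral_mono_on (μ := volume) (a := s / 2) (b := s)
      (f := fun _ => -DA) (g := f) (by linarith) (by simp) (hi _ _)
      (fun θ hθ => H5 θ hθ.1 hθ.2)
    rw [intervalIntegral.integral_const] at this
    simp only [smul_eq_mul] at this
    linarith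
  have i6 : -DB * Real.pi ≤ ∫ θ in s..Real.pi, f θ := by
    have := intervalIntegral.integral_mono_on (μ := volume) (a := s) (b := Real.pi)
      (f := fun _ => -DB) (g := f) hsπ (by simp) (hi _ _)
      (fun θ hθ => H6 θ hθ.1 hθ.2)
    rw [intervalIntegral.integral_const] at this
    simp only [smul_eq_mul] at this
    nlinarith
  rw [← e5, ← e4, ← e3, ← e2, ← e1]
  nlinarith

namespace Ctx
variable {s : ℝ} {K n : ℕ}

/-- length unit in `θ` -/
def hh (s : ℝ) (K : ℕ) : ℝ := 1 / √(vv s K / 2)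

theorem sqrt_pos (h : Ctx s K n) : 0 < √(vv s K / 2) :=
  Real.sqrt_pos.2 (by have := h.vv_pos; positivity)

theorem hh_pos (h : Ctx s K n) : 0 < hh s K := by
  have := h.sqrt_pos; unfold hh; positivity

theorem tt_eq_div (h : Ctx s K n) (θ : ℝ) : tt s K θ = |θ| / hh s K := by
  have := h.sqrt_pos
  unfold tt hh
  field_simp

/-- `hh ≥ 3 s²` -/
theorem hh_ge (h : Ctx s K n) : 3 * s ^ 2 ≤ hh s K := by
  have hs := h.hs
  have hW := h.num.W_le
  rw [h.W_eq] at hW
  have hv := h.vv_pos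
  have hsq := h.sqrt_pos
  unfold hh
  rw [le_div_iff₀ hsq]
  apply le_of_sq_le_sq _ (by norm_num)
  rw [mul_pow, Real.sq_sqrt (by positivity)]
  have hL : s * Lq s ≤ 1.6450 := by
    unfold Lq
    have : s * (Real.pi ^ 2 / 6 / s) = Real.pi ^ 2 / 6 := by field_simp
    rw [this]
    have h1 := Real.pi_lt_d6
    have : Real.pi ^ 2 ≤ 3.141593 ^ 2 := pow_le_pow_left₀ Real.pi_pos.le h1.le 2
    norm_num at this ⊢
    linarith
  have h1 : s ^ 3 * vv s K ≤ 5.31 * 1.6450 := by
    have : s * (s ^ 2 * vv s K) ≤ s * (5.31 * Lq s) := mul_le_mul_of_nonneg_left hW hs.le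
    nlinarith
  have h2 := h.hs'
  have h3 : 0 ≤ s ^ 3 * vv s K := by positivity
  nlinarith

theorem h74 (h : Ctx s K n) : hh s K * (7 / 4) ≤ s / 2 := by
  have hs := h.hs
  have hp := h.hh_pos
  have h1 := h.x_le (hh s K * (7 / 4))
  have h2 : |hh s K * (7 / 4)| = hh s K * (7 / 4) := abs_of_pos (by positivity)
  rw [h.tt_eq_div, h2, div_le_iff₀ hs] at h1
  have h3 : hh s K * (7 / 4) / hh s K = 7 / 4 := by field_simp
  rw [h3] at h1
  linarith

theorem exp_small1 (h : Ctx s K n) : Real.exp (-(0.19 / s)) ≤ 0.0208 * s := by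
  have hs := h.hs
  have hs' := h.hs'
  -- e^{y} ≥ e^{7.6} (y/7.6) for y ≥ 7.6
  have hy : 7.6 ≤ 0.19 / s := by rw [le_div_iff₀ hs]; linarith
  have h1 : (1930 : ℝ) ≤ Real.exp 7.6 := by
    have h2 : Real.exp 7.6 = Real.exp 0.95 ^ 8 := by rw [← Real.exp_nat_mul]; norm_num
    have h3 : (2.5855 : ℝ) ≤ Real.exp 0.95 := by
      have := Real.sum_le_exp_of_nonneg (x := 0.95) (by norm_num) 8
      simp only [Finset.sum_range_succ, Finset.sum_range_zero, Nat.factorial] at this
      norm_num at this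
      linarith
    rw [h2]
    calc (1930 : ℝ) ≤ 2.5855 ^ 8 := by norm_num
      _ ≤ _ := pow_le_pow_left₀ (by norm_num) h3 8
  have h4 : 0.19 / s - 7.6 + 1 ≤ Real.exp (0.19 / s - 7.6) := Real.add_one_le_exp _
  have h5 : Real.exp (0.19 / s) = Real.exp 7.6 * Real.exp (0.19 / s - 7.6) := by
    rw [← Real.exp_add]; congr 1; ring
  have h6 : 0.19 / s * 253.9 ≤ Real.exp (0.19 / s) := by
    rw [h5]
    have h7 : 0.19 / s / 7.6 ≤ Real.exp (0.19 / s - 7.6) := by
      refine le_trans ?_ h4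
      rw [div_le_iff₀ (by norm_num)]
      nlinarith
    calc 0.19 / s * 253.9 ≤ 1930 * (0.19 / s / 7.6) := by
          have h0 : 0 ≤ 0.19 / s := by positivity
          have h9 : 1930 * (0.19 / s / 7.6) = 0.19 / s * (1930 / 7.6) := by ring
          rw [h9]
          exact mul_le_mul_of_nonneg_left (by norm_num) h0
      _ ≤ Real.exp 7.6 * Real.exp (0.19 / s - 7.6) := mul_le_mul h1 h7 (by positivity) (by positivity)
  rw [Real.exp_neg]
  have h8 : (0.0208 * s)⁻¹ ≤ Real.exp (0.19 / s) := by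
    refine le_trans ?_ h6
    rw [inv_le_comm₀ (by positivity) (by positivity)]
    have : (0.19 / s * 253.9)⁻¹ = s / (0.19 * 253.9) := by field_simp
    rw [this, div_le_iff₀ (by norm_num)]
    nlinarith
  rw [inv_le_comm₀ (Real.exp_pos _) (by positivity)]
  exact h8

theorem exp_small2 (h : Ctx s K n) : Real.exp (-(0.48 / s)) ≤ 0.0208 ^ 2 * s ^ 2 := by
  have hs := h.hs
  have h1 := h.exp_small1
  have h2 : Real.exp (-(0.48 / s)) ≤ Real.exp (-(0.19 / s)) ^ 2 := by
    rw [← Real.exp_nat_mul]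
    apply Real.exp_le_exp.2
    have : 0 < 1 / s := by positivity
    have e1 : 0.48 / s = 0.48 * (1 / s) := by ring
    have e2 : 0.19 / s = 0.19 * (1 / s) := by ring
    rw [e1, e2]; push_cast
    nlinarith
  have h3 := pow_le_pow_left₀ (Real.exp_pos _).le h1 2
  calc _ ≤ _ := h2
    _ ≤ (0.0208 * s) ^ 2 := h3
    _ = _ := by ring

end Ctx

end

end Pool.Agent.NekOk
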