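import Pool.Agent.NekOk.CorePoint

/-! Pointwise lower bounds of the two integrands (log-concavity and monotonicity). -/

namespace Pool.Agent.NekOk

noncomputable section

namespace Ctx
variable {s : ℝ} {K n : ℕ}

theorem theta_abs (h : Ctx s K n) (θ : ℝ) : |θ| = s * (|θ| / s) := by
  have := h.hs; field_simp

theorem one_sub_re (h : Ctx s K n) (θ : ℝ) :
    1 - (phi s θ).re = (M 0 s - (Lam s θ).re) / M 0 s := by
  have := h.M0_pos
  unfold phi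
  rw [Complex.div_ofReal_re]
  field_simp

theorem d_nonneg (h : Ctx s K n) (θ : ℝ) : 0 ≤ 1 - (phi s θ).re := by
  rw [h.one_sub_re]
  exact div_nonneg (re_nonneg h.hs θ) h.M0_pos.le

theorem d_le (h : Ctx s K n) (θ : ℝ) :
    1 - (phi s θ).re ≤ 1.1843 * (|θ| / s) ^ 2 := by
  have h1 := re_le h.hs θ
  have h2 := h.num.m2_le_q
  have h3 := h.num.q_le
  have h4 := h.M0_pos
  rw [h.one_sub_re, div_le_iff₀ h4]
  have e : M 2 s * θ ^ 2 / 2 = (s ^ 2 * M 2 s / M 0 s) * M 0 s * (|θ| / s) ^ 2 / 2 := by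
    have := h.hs
    rw [div_pow, sq_abs]; field_simp
  rw [e] at h1
  have h5 : s ^ 2 * M 2 s / M 0 s ≤ 2.3685 := by linarith
  have h6 := mul_le_mul_of_nonneg_right h5
    (by positivity : (0:ℝ) ≤ M 0 s * (|θ| / s) ^ 2 / 2)
  have h7 : (0:ℝ) ≤ M 0 s * (|θ| / s) ^ 2 := by positivity
  nlinarith

theorem norm_u_le (h : Ctx s K n) (θ : ℝ) :
    ‖phi s θ - 1‖ ≤ (s * M 1 s / M 0 s) * (|θ| / s) := by
  have h1 := phi_sub_one h.hs θ
  have e : (s * M 1 s / M 0 s) * (|θ| / s) = M 1 s / M 0 s * |θ| := by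
    have := h.hs; have := h.M0_pos; field_simp
  rw [e]; exact h1

theorem abs_im_le (h : Ctx s K n) (θ : ℝ) : |(phi s θ).im| ≤ ‖phi s θ - 1‖ := by
  have := Complex.abs_im_le_norm (phi s θ - 1)
  simpa using this

theorem abs_im_le' (h : Ctx s K n) (θ : ℝ) : |(phi s θ).im| ≤ 1.05264 * (|θ| / s) := by
  refine (h.abs_im_le θ).trans ((h.norm_u_le θ).trans ?_)
  exact mul_le_mul_of_nonneg_right h.num.u_le (h.x_nonneg θ)

theorem abs_im_ge (h : Ctx s K n) (θ : ℝ) (hx : |θ| / s ≤ 0.2176) :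
    0.936 * (|θ| / s) ≤ |(phi s θ).im| := by
  have hs := h.hs
  have h0 := h.M0_pos
  have h1 := im_bound hs θ
  set x := |θ| / s with hxdef
  have hx0 : 0 ≤ x := h.x_nonneg θ
  have e0 : (phi s θ).im = (Lam s θ).im / M 0 s := by
    unfold phi; rw [Complex.div_ofReal_im]
  have h2 : |M 1 s * θ| - |(Lam s θ).im| ≤ M 3 s * |θ| ^ 3 / 6 := by
    have := abs_sub_abs_le_abs_sub (M 1 s * θ) (Lam s θ).im
    rw [abs_sub_comm] at this
    linarith
  have h3 : |M 1 s * θ| = M 1 s * |θ| := by rw [abs_mul, abs_of_nonneg (M_nonneg 1 s)]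
  rw [h3] at h2
  rw [e0, abs_div, abs_of_pos h0, le_div_iff₀ h0]
  have e1 : M 1 s * |θ| = (s * M 1 s / M 0 s) * M 0 s * x := by
    rw [hxdef]; field_simp
  have e2 : M 3 s * |θ| ^ 3 / 6 = (s ^ 3 * M 3 s / M 0 s) * M 0 s * x ^ 3 / 6 := by
    rw [hxdef]; field_simp
  rw [e1, e2] at h2
  have hu := h.num.u_ge_q
  have hm := h.num.m3_le_q
  have hq := h.num.q_ge
  set q := Lq s / M 0 s
  have h4 := mul_le_mul_of_nonneg_right hu (by positivity : (0:ℝ) ≤ M 0 s * x)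
  have h5 := mul_le_mul_of_nonneg_right hm (by positivity : (0:ℝ) ≤ M 0 s * x ^ 3 / 6)
  have h6 : 0.936 ≤ 0.984 - 1.01 * x ^ 2 := by nlinarith
  have h7 : 0.936 * (M 0 s * x) ≤ q * (0.984 - 1.01 * x ^ 2) * (M 0 s * x) := by
    apply mul_le_mul_of_nonneg_right _ (by positivity)
    nlinarith
  nlinarith

/-- Taylor lower bound of the decay for all `θ` -/
theorem norm_psi_mid (h : Ctx s K n) (θ : ℝ) :
    ‖psi s K n θ‖ ≤ Real.exp (-(tt s K θ ^ 2 -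
      (1 + K / M 0 s) * (s ^ 3 * M 3 s) * (|θ| / s) ^ 3 / 8)) := by
  have hs := h.hs
  have h0 := h.M0_pos
  have h1 := re_ge hs θ
  have h2 : ‖phi s θ‖ ^ 2 = 1 - 2 * (1 - (phi s θ).re) + ‖phi s θ - 1‖ ^ 2 := by
    rw [← Complex.normSq_eq_norm_sq, ← Complex.normSq_eq_norm_sq, Complex.normSq_apply,
      Complex.normSq_apply]
    simp only [Complex.sub_re, Complex.one_re, Complex.sub_im, Complex.one_im]
    ring
  have hρ : ‖phi s θ - 1‖ ^ 2 ≤ (M 1 s / M 0 s * |θ|) ^ 2 :=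
    pow_le_pow_left₀ (norm_nonneg _) (phi_sub_one hs θ) 2
  set dl := M 2 s * θ ^ 2 / 2 - M 3 s * |θ| ^ 3 / 8 with hdl
  have hd : dl / M 0 s ≤ 1 - (phi s θ).re := by
    rw [h.one_sub_re]
    exact div_le_div_of_nonneg_right h1 h0.le
  have h3 : ‖phi s θ‖ ≤ Real.exp (-(dl / M 0 s) + (M 1 s / M 0 s * |θ|) ^ 2 / 2) := by
    apply le_of_sq_le_sq _ (Real.exp_pos _).le
    rw [← Real.exp_nat_mul, h2]
    have := Real.add_one_le_exp (((2:ℕ):ℝ) * (-(dl / M 0 s) + (M 1 s / M 0 s * |θ|) ^ 2 / 2))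
    push_cast at this ⊢
    linarith
  have h4 : ‖psi s K n θ‖ = Real.exp ((Lam s θ).re - M 0 s) * ‖phi s θ‖ ^ K := by
    unfold psi
    rw [norm_mul, norm_mul, norm_pow, Complex.norm_exp, Complex.norm_exp]
    simp
  have h5 : ‖phi s θ‖ ^ K ≤
      Real.exp (K * (-(dl / M 0 s) + (M 1 s / M 0 s * |θ|) ^ 2 / 2)) := by
    rw [Real.exp_nat_mul]
    exact pow_le_pow_left₀ (norm_nonneg _) h3 K
  rw [h4]
  refine (mul_le_mul (Real.exp_le_exp.2 (by linarith : (Lam s θ).re - M 0 s ≤ -dl)) h5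
    (by positivity) (Real.exp_pos _).le).trans ?_
  rw [← Real.exp_add]
  apply Real.exp_le_exp.2
  apply le_of_eq
  rw [h.tt_sq, hdl, vv]
  have hθ3 : (s ^ 3 * M 3 s) * (|θ| / s) ^ 3 = M 3 s * |θ| ^ 3 := by field_simp
  have hθ3' : (1 + (K:ℝ) / M 0 s) * (s ^ 3 * M 3 s) * (|θ| / s) ^ 3 =
    (1 + (K:ℝ) / M 0 s) * (M 3 s * |θ| ^ 3) := by rw [← hθ3]; ring
  rw [hθ3', mul_pow, sq_abs]
  field_simp
  ring

theorem norm_psi_mid' (h : Ctx s K n) (θ : ℝ) (hx : |θ| ≤ s / 2) (ht : 7 / 4 ≤ tt s K θ) :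
    ‖psi s K n θ‖ ≤ 0.0856 * Real.exp (-(2.4 * (tt s K θ - 7 / 4))) := by
  have hs := h.hs
  have h1 := h.norm_psi_mid θ
  have hx' : |θ| / s ≤ 1 / 2 := by rw [div_le_iff₀ hs]; linarith
  have h2 := h.num.mid_exp (h.x_nonneg θ) hx' ht (h.tt_eq θ)
  refine h1.trans ?_
  have h3 : Real.exp (-(tt s K θ ^ 2 - (1 + K / M 0 s) * (s ^ 3 * M 3 s) * (|θ| / s) ^ 3 / 8))
      ≤ Real.exp (-2.46 + -(2.4 * (tt s K θ - 7 / 4))) := Real.exp_le_exp.2 (by linarith)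
  refine h3.trans ?_
  rw [Real.exp_add]
  apply mul_le_mul_of_nonneg_right _ (Real.exp_pos _).le
  -- exp (-2.46) ≤ 0.0856
  have e1 : (2.27 : ℝ) ≤ Real.exp 0.82 := by
    have := Real.quadratic_le_exp_of_nonneg (x := 0.82) (by norm_num)
    have h5 : Real.exp 0.82 = Real.exp 0.41 * Real.exp 0.41 := by
      rw [← Real.exp_add]; norm_num
    have h6 : (1.5067 : ℝ) ≤ Real.exp 0.41 := by
      have := Real.sum_le_exp_of_nonneg (x := 0.41) (by norm_num) 6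
      simp only [Finset.sum_range_succ, Finset.sum_range_zero, Nat.factorial] at this
      norm_num at this
      linarith
    rw [h5]; nlinarith
  have e2 : Real.exp 2.46 = Real.exp 0.82 ^ 3 := by
    rw [← Real.exp_nat_mul]; norm_num
  have e3 : (11.69 : ℝ) ≤ Real.exp 2.46 := by
    rw [e2]
    calc (11.69 : ℝ) ≤ 2.27 ^ 3 := by norm_num
      _ ≤ _ := pow_le_pow_left₀ (by norm_num) e1 3
  rw [Real.exp_neg, inv_le_comm₀ (Real.exp_pos _) (by norm_num)]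
  refine le_trans ?_ e3
  norm_num

theorem norm_phi_le_one (h : Ctx s K n) (θ : ℝ) : ‖phi s θ‖ ≤ 1 := by
  have h0 := h.M0_pos
  unfold phi
  rw [norm_div, Complex.norm_real, Real.norm_eq_abs, abs_of_pos h0, div_le_one h0]
  exact norm_Lam_le h.hs θ

theorem norm_psi_eq (h : Ctx s K n) (θ : ℝ) :
    ‖psi s K n θ‖ = Real.exp (-(M 0 s - (Lam s θ).re)) * ‖phi s θ‖ ^ K := by
  unfold psi
  rw [norm_mul, norm_mul, norm_pow, Complex.norm_exp, Complex.norm_exp]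
  simp

theorem norm_phi_far (h : Ctx s K n) {θ : ℝ} (h1 : s / 2 ≤ |θ|) (h2 : |θ| ≤ Real.pi) :
    ‖phi s θ‖ ≤ 0.94 := by
  have h0 := h.M0_pos
  unfold phi
  rw [norm_div, Complex.norm_real, Real.norm_eq_abs, abs_of_pos h0, div_le_iff₀ h0]
  exact far_phi h.hs h.hs' h1 h2

end Ctx

theorem pow_94 (K : ℕ) : ((K : ℝ) + 2) * 0.94 ^ K ≤ 17 := by
  have h1 : (1 + (K : ℝ) * 0.06) ≤ (1 + 0.06) ^ K := by
    have := one_add_mul_le_pow (a := (0.06 : ℝ)) (by norm_num) K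
    linarith
  have h2 : (0.94 : ℝ) ^ K * (1 + 0.06) ^ K ≤ 1 := by
    rw [← mul_pow]; exact pow_le_one₀ (by norm_num) (by norm_num)
  have h3 : (0.94 : ℝ) ^ K * (1 + (K : ℝ) * 0.06) ≤ 1 :=
    (mul_le_mul_of_nonneg_left h1 (by positivity)).trans h2
  have h4 : (0:ℝ) ≤ 0.94 ^ K := by positivity
  have h5 : (0:ℝ) ≤ K := Nat.cast_nonneg K
  nlinarith [mul_nonneg h4 h5]

end

end Pool.Agent.NekOk
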