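import Pool.Agent.NekOk.CoreBounds

/-! The two integrands: final pointwise bounds in the four ranges. -/

namespace Pool.Agent.NekOk

noncomputable section

/-! ### numerical constants -/

theorem exp_c1 : (0.765 : ℝ) ≤ Real.exp (-0.2675) := by
  have h : Real.exp 0.2675 ≤ 1.3071 := by
    have := Real.exp_bound' (x := 0.2675) (by norm_num) (by norm_num) (n := 5) (by norm_num)
    simp only [Finset.sum_range_succ, Finset.sum_range_zero, Nat.factorial] at this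
    norm_num at this
    linarith
  rw [Real.exp_neg, le_inv_comm₀ (by norm_num) (Real.exp_pos _)]
  refine h.trans ?_
  norm_num

theorem exp_c2 : (0.319 : ℝ) ≤ Real.exp (-1.14) := by
  have h : Real.exp 0.57 ≤ 1.7688 := by
    have := Real.exp_bound' (x := 0.57) (by norm_num) (by norm_num) (n := 5) (by norm_num)
    simp only [Finset.sum_range_succ, Finset.sum_range_zero, Nat.factorial] at this
    norm_num at this
    linarith
  have h2 : Real.exp 1.14 = Real.exp 0.57 ^ 2 := by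
    rw [← Real.exp_nat_mul]; norm_num
  have h3 : Real.exp 1.14 ≤ 3.1347 := by
    rw [h2]
    calc Real.exp 0.57 ^ 2 ≤ 1.7688 ^ 2 := pow_le_pow_left₀ (Real.exp_pos _).le h 2
      _ ≤ 3.1347 := by norm_num
  rw [Real.exp_neg, le_inv_comm₀ (by norm_num) (Real.exp_pos _)]
  refine h3.trans ?_
  norm_num

/-! ### the trigonometric brackets -/

theorem cos_ge (e t : ℝ) (he : |e| ≤ 0.14 * t ^ 3) :
    1 - 0.0098 * t ^ 6 ≤ Real.cos e := by
  have h1 := Real.one_sub_sq_div_two_le_cos (x := e)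
  have h2 : e ^ 2 ≤ (0.14 * t ^ 3) ^ 2 := by
    rw [← sq_abs]; exact pow_le_pow_left₀ (abs_nonneg _) he 2
  nlinarith

theorem abs_mul_sin_le (e t y : ℝ) (he : |e| ≤ 0.14 * t ^ 3) :
    |y * Real.sin e| ≤ |y| * (0.14 * t ^ 3) := by
  rw [abs_mul]
  exact mul_le_mul_of_nonneg_left ((Real.abs_sin_le_abs).trans he) (abs_nonneg _)

theorem t6_le {t : ℝ} (ht0 : 0 ≤ t) (ht : t ≤ 7 / 4) : 0.0098 * t ^ 6 ≤ 0.2815 := by
  have : t ^ 6 ≤ (7 / 4) ^ 6 := pow_le_pow_left₀ ht0 ht 6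
  nlinarith

/-- bracket for log-concavity -/
theorem bracket_lc {t d y e : ℝ} (K : ℝ) (hK : 0 ≤ K) (ht0 : 0 ≤ t) (ht : t ≤ 7 / 4) (hd0 : 0 ≤ d)
    (hd : d ≤ 0.0183 * t ^ 2) (hy : |y| ≤ 0.1309 * t) (hdy : d ≤ 0.1573 * t * |y|)
    (he : |e| ≤ 0.14 * t ^ 3) :
    (1 - 0.0366 * t ^ 2) * (1 - 0.0098 * t ^ 6) - 0.03666 * t ^ 4 ≤
      ((1 - 2 * d) + (K + 1) * (y ^ 2 - d ^ 2)) * Real.cos e -
        (2 * y + 2 * (K + 1) * (d * y)) * Real.sin e := by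
  have hc := cos_ge e t he
  have h6 := t6_le ht0 ht
  have hs := abs_mul_sin_le e t y he
  have hs' := le_abs_self (y * Real.sin e)
  have ht2 : t ^ 2 ≤ 3.0625 := by nlinarith
  -- first bracket
  have b1 : (1 - 0.0366 * t ^ 2) * (1 - 0.0098 * t ^ 6) - 0.03666 * t ^ 4 ≤
      (1 - 2 * d) * Real.cos e - 2 * (y * Real.sin e) := by
    have h1 : (1 - 0.0366 * t ^ 2) * (1 - 0.0098 * t ^ 6) ≤ (1 - 2 * d) * Real.cos e :=
      mul_le_mul (by linarith) hc (by linarith) (by nlinarith)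
    have h2 : |y| * (0.14 * t ^ 3) ≤ 0.1309 * t * (0.14 * t ^ 3) :=
      mul_le_mul_of_nonneg_right hy (by positivity)
    nlinarith [pow_nonneg ht0 4]
  -- second bracket
  have b2 : 0 ≤ (y ^ 2 - d ^ 2) * Real.cos e - 2 * d * (y * Real.sin e) := by
    have hyy : |y| ^ 2 = y ^ 2 := sq_abs y
    have h1 : d ^ 2 ≤ 0.0759 * y ^ 2 := by
      have : d ≤ 0.2753 * |y| := by
        have := mul_le_mul_of_nonneg_right ht (abs_nonneg y)
        nlinarith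
      have h2 : d ^ 2 ≤ (0.2753 * |y|) ^ 2 := pow_le_pow_left₀ hd0 this 2
      rw [mul_pow, hyy] at h2
      nlinarith [sq_nonneg y]
    have h3 : 0.7184 ≤ Real.cos e := by linarith
    have h4 : 0.9241 * y ^ 2 * 0.7184 ≤ (y ^ 2 - d ^ 2) * Real.cos e :=
      mul_le_mul (by linarith) h3 (by norm_num) (by nlinarith [sq_nonneg y])
    have h5 : d * (y * Real.sin e) ≤ d * (|y| * (0.14 * t ^ 3)) :=
      mul_le_mul_of_nonneg_left (hs'.trans hs) hd0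
    have h6' : t ^ 3 ≤ (7 / 4) ^ 3 := pow_le_pow_left₀ ht0 ht 3
    have h7 : d * (|y| * (0.14 * t ^ 3)) ≤ (0.2753 * |y|) * (|y| * (0.14 * (7 / 4) ^ 3)) := by
      have : d ≤ 0.2753 * |y| := by
        have := mul_le_mul_of_nonneg_right ht (abs_nonneg y)
        nlinarith
      apply mul_le_mul this _ (by positivity) (by positivity)
      apply mul_le_mul_of_nonneg_left _ (abs_nonneg y)
      linarith
    have h8 : (0.2753 * |y|) * (|y| * (0.14 * (7 / 4) ^ 3)) ≤ 0.2066 * y ^ 2 := by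
      rw [← hyy]; nlinarith [sq_nonneg |y|]
    nlinarith [sq_nonneg y]
  have b3 := mul_nonneg (by linarith : (0:ℝ) ≤ K + 1) b2
  nlinarith

theorem bracket_lc_val1 {t : ℝ} (ht0 : 0 ≤ t) (ht : t ≤ 1 / 2) :
    0.98 ≤ (1 - 0.0366 * t ^ 2) * (1 - 0.0098 * t ^ 6) - 0.03666 * t ^ 4 := by
  have h2 : t ^ 2 ≤ (1 / 2) ^ 2 := pow_le_pow_left₀ ht0 ht 2
  have h4 : t ^ 4 ≤ (1 / 2) ^ 4 := pow_le_pow_left₀ ht0 ht 4
  have h6 : t ^ 6 ≤ (1 / 2) ^ 6 := pow_le_pow_left₀ ht0 ht 6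
  have h8 : 0 ≤ t ^ 2 * t ^ 6 := by positivity
  nlinarith

theorem bracket_lc_val2 {t : ℝ} (ht0 : 0 ≤ t) (ht : t ≤ 1) :
    0.91 ≤ (1 - 0.0366 * t ^ 2) * (1 - 0.0098 * t ^ 6) - 0.03666 * t ^ 4 := by
  have h2 : t ^ 2 ≤ (1) ^ 2 := pow_le_pow_left₀ ht0 ht 2
  have h4 : t ^ 4 ≤ (1) ^ 4 := pow_le_pow_left₀ ht0 ht 4
  have h6 : t ^ 6 ≤ (1) ^ 6 := pow_le_pow_left₀ ht0 ht 6
  have h8 : 0 ≤ t ^ 2 * t ^ 6 := by positivity
  nlinarith

theorem bracket_lc_val3 {t : ℝ} (ht0 : 0 ≤ t) (ht : t ≤ 7 / 4) :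
    0 ≤ (1 - 0.0366 * t ^ 2) * (1 - 0.0098 * t ^ 6) - 0.03666 * t ^ 4 := by
  have h2 : t ^ 2 ≤ (7 / 4) ^ 2 := pow_le_pow_left₀ ht0 ht 2
  have h4 : t ^ 4 ≤ (7 / 4) ^ 4 := pow_le_pow_left₀ ht0 ht 4
  have h6 : t ^ 6 ≤ (7 / 4) ^ 6 := pow_le_pow_left₀ ht0 ht 6
  have h8 : 0 ≤ t ^ 2 * t ^ 6 := by positivity
  nlinarith

/-- bracket for monotonicity -/
theorem bracket_dec {t d y e b : ℝ} (hb : 0.2 ≤ b) (ht0 : 0 ≤ t) (ht : t ≤ 7 / 4) (hd0 : 0 ≤ d)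
    (hy : |y| ≤ 0.1048 * t) (he : |e| ≤ 0.14 * t ^ 3) :
    b * (1 - 0.0098 * t ^ 6) - 0.014672 * t ^ 4 ≤ (b + d) * Real.cos e + y * Real.sin e := by
  have hc := cos_ge e t he
  have h6 := t6_le ht0 ht
  have hs := abs_mul_sin_le e t y he
  have hs' := neg_abs_le (y * Real.sin e)
  have h1 : b * (1 - 0.0098 * t ^ 6) ≤ (b + d) * Real.cos e :=
    mul_le_mul (by linarith) hc (by linarith) (by linarith)
  have h2 : |y| * (0.14 * t ^ 3) ≤ 0.1048 * t * (0.14 * t ^ 3) :=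
    mul_le_mul_of_nonneg_right hy (by positivity)
  nlinarith [pow_nonneg ht0 4]

theorem bracket_dec_val1 {t b : ℝ} (hb : 0.2 ≤ b) (ht0 : 0 ≤ t) (ht : t ≤ 1 / 2) :
    0.9998 * b - 0.00092 ≤ b * (1 - 0.0098 * t ^ 6) - 0.014672 * t ^ 4 := by
  have h4 : t ^ 4 ≤ (1 / 2) ^ 4 := pow_le_pow_left₀ ht0 ht 4
  have h6 : t ^ 6 ≤ (1 / 2) ^ 6 := pow_le_pow_left₀ ht0 ht 6
  have h7 : b * t ^ 6 ≤ b * (1 / 2) ^ 6 := mul_le_mul_of_nonneg_left h6 (by linarith)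
  nlinarith

theorem bracket_dec_val2 {t b : ℝ} (hb : 0.2 ≤ b) (ht0 : 0 ≤ t) (ht : t ≤ 1) :
    0.9902 * b - 0.014672 ≤ b * (1 - 0.0098 * t ^ 6) - 0.014672 * t ^ 4 := by
  have h4 : t ^ 4 ≤ (1) ^ 4 := pow_le_pow_left₀ ht0 ht 4
  have h6 : t ^ 6 ≤ (1) ^ 6 := pow_le_pow_left₀ ht0 ht 6
  have h7 : b * t ^ 6 ≤ b * (1) ^ 6 := mul_le_mul_of_nonneg_left h6 (by linarith)
  nlinarith

theorem bracket_dec_val3 {t b : ℝ} (hb : 0.2 ≤ b) (ht0 : 0 ≤ t) (ht : t ≤ 7 / 4) :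
    0 ≤ b * (1 - 0.0098 * t ^ 6) - 0.014672 * t ^ 4 := by
  have h4 : t ^ 4 ≤ (7 / 4) ^ 4 := pow_le_pow_left₀ ht0 ht 4
  have h6 : t ^ 6 ≤ (7 / 4) ^ 6 := pow_le_pow_left₀ ht0 ht 6
  have h7 : b * t ^ 6 ≤ b * (7 / 4) ^ 6 := mul_le_mul_of_nonneg_left h6 (by linarith)
  nlinarith

/-! ### the integrands -/

/-- log-concavity integrand -/
def fLC (s : ℝ) (K n : ℕ) (θ : ℝ) : ℝ :=
  (psi s K n θ * (phi s θ ^ 2 - ((K : ℂ) + 2) * (phi s θ - 1) ^ 2)).re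

/-- monotonicity integrand -/
def fDec (s : ℝ) (K n : ℕ) (θ : ℝ) : ℝ :=
  (psi s K n θ * ((((K : ℝ) + 1) / M 0 s : ℝ) - phi s θ)).re

namespace Ctx
variable {s : ℝ} {K n : ℕ}

/-- general near lower bound: if `Re(e^{ie} χ) ≥ B ≥ 0` for all `|e| ≤ 0.14 t³`
then `Re(ψ χ) ≥ e^{-t²-0.14t³} B` -/
theorem near_general (h : Ctx s K n) (θ : ℝ) (ht : tt s K θ ≤ 7 / 4) (χ : ℂ) (B : ℝ) (hB : 0 ≤ B)
    (hχ : ∀ e : ℝ, |e| ≤ 0.14 * tt s K θ ^ 3 → B ≤ χ.re * Real.cos e - χ.im * Real.sin e) :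
    Real.exp (-(tt s K θ ^ 2 + 0.14 * tt s K θ ^ 3)) * B ≤ (psi s K n θ * χ).re := by
  obtain ⟨E, hE, hE'⟩ := h.near_psi θ ht
  have h1 : |E.im| ≤ 0.14 * tt s K θ ^ 3 := (Complex.abs_im_le_norm E).trans hE'
  have h2 : |E.re| ≤ 0.14 * tt s K θ ^ 3 := (Complex.abs_re_le_norm E).trans hE'
  have h3 := hχ _ h1
  have h4 : -(tt s K θ ^ 2 + 0.14 * tt s K θ ^ 3) ≤ -(tt s K θ ^ 2) + E.re := by
    have := (abs_le.1 h2).1
    linarith
  have e1 : (psi s K n θ * χ).re = Real.exp (-(tt s K θ ^ 2) + E.re) *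
      (χ.re * Real.cos E.im - χ.im * Real.sin E.im) := by
    rw [hE, Complex.mul_re, Complex.exp_re, Complex.exp_im]
    simp only [Complex.add_re, Complex.add_im, Complex.neg_re, Complex.neg_im,
      Complex.ofReal_re, Complex.ofReal_im]
    ring_nf
  rw [e1]
  exact mul_le_mul (Real.exp_le_exp.2 h4) h3 hB (Real.exp_pos _).le

theorem near_lc (h : Ctx s K n) (θ : ℝ) (ht : tt s K θ ≤ 7 / 4) :
    Real.exp (-(tt s K θ ^ 2 + 0.14 * tt s K θ ^ 3)) *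
      ((1 - 0.0366 * tt s K θ ^ 2) * (1 - 0.0098 * tt s K θ ^ 6) - 0.03666 * tt s K θ ^ 4) ≤
      fLC s K n θ := by
  have ht0 := h.tt_nonneg θ
  have hx0 := h.x_nonneg θ
  have hx := h.x_le θ
  have hx1 : |θ| / s ≤ 0.2176 := by linarith
  unfold fLC
  apply h.near_general θ ht _ _ (bracket_lc_val3 ht0 ht)
  intro e he
  set t := tt s K θ
  set x := |θ| / s
  have hd0 := h.d_nonneg θ
  have hd1 := h.d_le θ
  have hy1 := h.abs_im_le' θ
  have hy2 := h.abs_im_ge θ hx1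
  set d := 1 - (phi s θ).re with hd
  set y := (phi s θ).im with hy
  have c1 : d ≤ 0.0183 * t ^ 2 := by
    have : x ^ 2 ≤ (0.1243 * t) ^ 2 := pow_le_pow_left₀ hx0 hx 2
    nlinarith
  have c2 : |y| ≤ 0.1309 * t := by linarith
  have c3 : d ≤ 0.1573 * t * |y| := by
    have h1 : x * x ≤ 0.1243 * t * x := mul_le_mul_of_nonneg_right hx hx0
    have h2 : t * (0.936 * x) ≤ t * |y| := mul_le_mul_of_nonneg_left hy2 ht0
    nlinarith [mul_nonneg ht0 hx0]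
  have hb := bracket_lc (K : ℝ) (Nat.cast_nonneg K) ht0 ht hd0 c1 c2 c3 he
  refine hb.trans (le_of_eq ?_)
  have hre : (phi s θ).re = 1 - d := by rw [hd]; ring
  simp only [pow_two, Complex.sub_re, Complex.mul_re, Complex.sub_im, Complex.mul_im,
    Complex.add_re, Complex.add_im, Complex.natCast_re, Complex.natCast_im, Complex.one_re,
    Complex.one_im, Complex.re_ofNat, Complex.im_ofNat, hre, ← hy]
  ring

theorem near_dec (h : Ctx s K n) (hK' : 1.2 * M 0 s ≤ K) (θ : ℝ) (ht : tt s K θ ≤ 7 / 4) :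
    Real.exp (-(tt s K θ ^ 2 + 0.14 * tt s K θ ^ 3)) *
      ((((K : ℝ) + 1) / M 0 s - 1) * (1 - 0.0098 * tt s K θ ^ 6) - 0.014672 * tt s K θ ^ 4) ≤
      fDec s K n θ := by
  have ht0 := h.tt_nonneg θ
  have hx0 := h.x_nonneg θ
  have hx := h.x_le' hK' θ
  have h0 := h.M0_pos
  have hb : 0.2 ≤ ((K : ℝ) + 1) / M 0 s - 1 := by
    rw [le_sub_iff_add_le, le_div_iff₀ h0]; linarith
  unfold fDec
  apply h.near_general θ ht _ _ (bracket_dec_val3 hb ht0 ht)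
  intro e he
  set t := tt s K θ
  set x := |θ| / s
  have hd0 := h.d_nonneg θ
  have hy1 := h.abs_im_le' θ
  set b := ((K : ℝ) + 1) / M 0 s - 1 with hbdef
  set d := 1 - (phi s θ).re with hd
  set y := (phi s θ).im with hy
  have c2 : |y| ≤ 0.1048 * t := by linarith
  have hbr := bracket_dec hb ht0 ht hd0 c2 he
  refine hbr.trans (le_of_eq ?_)
  have hre : (phi s θ).re = 1 - d := by rw [hd]; ring
  have hbe : ((K : ℝ) + 1) / M 0 s = b + 1 := by rw [hbdef]; ring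
  rw [hbe]
  simp only [Complex.sub_re, Complex.sub_im, Complex.ofReal_re, Complex.ofReal_im, hre, ← hy]
  ring

theorem norm_chi_le (h : Ctx s K n) (θ : ℝ) :
    ‖phi s θ ^ 2 - ((K : ℂ) + 2) * (phi s θ - 1) ^ 2‖ ≤
      1 + ((K : ℝ) + 2) * ‖phi s θ - 1‖ ^ 2 := by
  have h1 := h.norm_phi_le_one θ
  have h2 : ‖(K : ℂ) + 2‖ = (K : ℝ) + 2 := by
    have : ((K : ℂ) + 2) = ((K + 2 : ℕ) : ℂ) := by push_cast; ring
    rw [this, Complex.norm_natCast]; push_cast; ring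
  refine (norm_sub_le _ _).trans ?_
  rw [norm_pow, norm_mul, norm_pow, h2]
  have : ‖phi s θ‖ ^ 2 ≤ 1 := pow_le_one₀ (norm_nonneg _) h1
  linarith

theorem mid_lc (h : Ctx s K n) (θ : ℝ) (hx : |θ| ≤ s / 2) (ht : 7 / 4 ≤ tt s K θ) :
    -(0.33 * Real.exp (-(1.55 * (tt s K θ - 7 / 4)))) ≤ fLC s K n θ := by
  have h1 := h.norm_psi_mid' θ hx ht
  have h2 := h.norm_chi_le θ
  have h0 := h.M0_pos
  have h3 : ((K : ℝ) + 2) * ‖phi s θ - 1‖ ^ 2 ≤ 0.93 * tt s K θ ^ 2 := by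
    have h4 := h.num.chi_le (h.tt_eq θ)
    have e : (K : ℝ) / M 0 s * M 0 s = K := by field_simp
    rw [e] at h4
    refine le_trans ?_ h4
    apply mul_le_mul_of_nonneg_left _ (by positivity)
    exact pow_le_pow_left₀ (norm_nonneg _) (h.norm_u_le θ) 2
  set t := tt s K θ
  set τ := t - 7 / 4 with hτ
  have hτ0 : 0 ≤ τ := by linarith
  have h5 : 1 + 0.93 * t ^ 2 ≤ 3.85 * Real.exp (0.85 * τ) := by
    have := Real.quadratic_le_exp_of_nonneg (x := 0.85 * τ) (by positivity)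
    have ht' : t = τ + 7 / 4 := by rw [hτ]; ring
    rw [ht']
    nlinarith
  have h6 : |fLC s K n θ| ≤ 0.0856 * Real.exp (-(2.4 * τ)) * (3.85 * Real.exp (0.85 * τ)) := by
    unfold fLC
    refine (Complex.abs_re_le_norm _).trans ?_
    rw [norm_mul]
    exact mul_le_mul h1 (by linarith) (norm_nonneg _) (by positivity)
  have h7 : 0.0856 * Real.exp (-(2.4 * τ)) * (3.85 * Real.exp (0.85 * τ)) ≤
      0.33 * Real.exp (-(1.55 * τ)) := by
    have : Real.exp (-(1.55 * τ)) = Real.exp (-(2.4 * τ)) * Real.exp (0.85 * τ) := by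
      rw [← Real.exp_add]; congr 1; ring
    rw [this]
    have : 0 ≤ Real.exp (-(2.4 * τ)) * Real.exp (0.85 * τ) := by positivity
    nlinarith
  have := (abs_le.1 (h6.trans h7)).1
  linarith

theorem beta_le (h : Ctx s K n) : ((K : ℝ) + 1) / M 0 s ≤ 1.4 := by
  have h0 := h.M0_pos
  have h1 : 62 ≤ M 0 s := by
    have := h.num.h0l; have := h.num.hL; linarith
  rw [div_le_iff₀ h0]
  have := h.hK
  linarith

theorem mid_dec (h : Ctx s K n) (hK' : 1.2 * M 0 s ≤ K) (θ : ℝ) (hx : |θ| ≤ s / 2)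
    (ht : 7 / 4 ≤ tt s K θ) :
    -(0.0856 * ((((K : ℝ) + 1) / M 0 s - 1) + 0.1834) *
      Real.exp (-(1.55 * (tt s K θ - 7 / 4)))) ≤ fDec s K n θ := by
  have h1 := h.norm_psi_mid' θ hx ht
  have h0 := h.M0_pos
  have hb : 0.2 ≤ ((K : ℝ) + 1) / M 0 s - 1 := by
    rw [le_sub_iff_add_le, le_div_iff₀ h0]; linarith
  have hx' := h.x_le' hK' θ
  have hu := h.norm_u_le θ
  have hu' := mul_le_mul_of_nonneg_right h.num.u_le (h.x_nonneg θ)
  set t := tt s K θ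
  set τ := t - 7 / 4 with hτ
  have hτ0 : 0 ≤ τ := by linarith
  set b := ((K : ℝ) + 1) / M 0 s - 1 with hbdef
  have hbe : ((K : ℝ) + 1) / M 0 s = b + 1 := by rw [hbdef]; ring
  have h2 : ‖((((K : ℝ) + 1) / M 0 s : ℝ) : ℂ) - phi s θ‖ ≤ b + 0.1048 * t := by
    have e : ((((K : ℝ) + 1) / M 0 s : ℝ) : ℂ) - phi s θ = (b : ℂ) - (phi s θ - 1) := by
      rw [hbe]; push_cast; ring
    rw [e]
    refine (norm_sub_le _ _).trans ?_
    rw [Complex.norm_real, Real.norm_eq_abs, abs_of_nonneg (by linarith)]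
    linarith
  have h5 : b + 0.1048 * t ≤ (b + 0.1834) * Real.exp (0.85 * τ) := by
    have h6 := Real.add_one_le_exp (0.85 * τ)
    have ht' : t = τ + 7 / 4 := by rw [hτ]; ring
    have h7 : (b + 0.1834) * (0.85 * τ + 1) ≤ (b + 0.1834) * Real.exp (0.85 * τ) :=
      mul_le_mul_of_nonneg_left h6 (by linarith)
    refine le_trans ?_ h7
    rw [ht']
    nlinarith
  have h6 : |fDec s K n θ| ≤
      0.0856 * Real.exp (-(2.4 * τ)) * ((b + 0.1834) * Real.exp (0.85 * τ)) := by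
    unfold fDec
    refine (Complex.abs_re_le_norm _).trans ?_
    rw [norm_mul]
    exact mul_le_mul h1 (h2.trans h5) (norm_nonneg _) (by positivity)
  have h7 : 0.0856 * Real.exp (-(2.4 * τ)) * ((b + 0.1834) * Real.exp (0.85 * τ)) =
      0.0856 * (b + 0.1834) * Real.exp (-(1.55 * τ)) := by
    have : Real.exp (-(1.55 * τ)) = Real.exp (-(2.4 * τ)) * Real.exp (0.85 * τ) := by
      rw [← Real.exp_add]; congr 1; ring
    rw [this]
    ring
  rw [h7] at h6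
  have := (abs_le.1 h6).1
  linarith

/-- far ranges -/
theorem farA_lc (h : Ctx s K n) {θ : ℝ} (h1 : s / 2 ≤ |θ|) (h2 : |θ| ≤ s) :
    -(20 * Real.exp (-(0.19 / s))) ≤ fLC s K n θ := by
  have hs := h.hs
  have hpi : |θ| ≤ Real.pi := by
    have := Real.pi_gt_three; have := h.hs'; linarith
  have h3 := h.norm_psi_eq θ
  have h4 := far1 hs h.hs' h1 hpi
  have h5 := h.norm_phi_far h1 hpi
  have h6 := h.norm_chi_le θ
  have hu := h.norm_u_le θ
  have hx1 : |θ| / s ≤ 1 := by rw [div_le_one hs]; exact h2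
  have hul := h.num.u_le
  have hug := h.num.u_ge
  have h7 : ‖phi s θ - 1‖ ^ 2 ≤ 1.1081 := by
    have : ‖phi s θ - 1‖ ≤ 1.05264 := by
      refine hu.trans ?_
      have := mul_le_mul hul hx1 (h.x_nonneg θ) (by norm_num)
      linarith
    have := pow_le_pow_left₀ (norm_nonneg _) this 2
    norm_num at this ⊢
    linarith
  have h8 : ‖phi s θ‖ ^ K ≤ 0.94 ^ K := pow_le_pow_left₀ (norm_nonneg _) h5 K
  have h9 := pow_94 K
  have h10 : ‖phi s θ‖ ^ K ≤ 1 := pow_le_one₀ (norm_nonneg _) (h.norm_phi_le_one θ)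
  have h11 : |fLC s K n θ| ≤ Real.exp (-(0.19 / s)) * 20 := by
    unfold fLC
    refine (Complex.abs_re_le_norm _).trans ?_
    rw [norm_mul, h3, mul_assoc]
    apply mul_le_mul (Real.exp_le_exp.2 (by linarith)) _ (by positivity) (Real.exp_pos _).le
    calc ‖phi s θ‖ ^ K * ‖phi s θ ^ 2 - ((K : ℂ) + 2) * (phi s θ - 1) ^ 2‖
        ≤ ‖phi s θ‖ ^ K * (1 + ((K : ℝ) + 2) * ‖phi s θ - 1‖ ^ 2) :=
          mul_le_mul_of_nonneg_left h6 (by positivity)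
      _ = ‖phi s θ‖ ^ K + (((K : ℝ) + 2) * ‖phi s θ‖ ^ K) * ‖phi s θ - 1‖ ^ 2 := by ring
      _ ≤ 1 + 17 * 1.1081 := by
          apply add_le_add h10
          apply mul_le_mul _ h7 (by positivity) (by norm_num)
          exact (mul_le_mul_of_nonneg_left h8 (by positivity)).trans h9
      _ ≤ 20 := by norm_num
  have := (abs_le.1 h11).1
  linarith

theorem farB_lc (h : Ctx s K n) {θ : ℝ} (h1 : s ≤ |θ|) (hpi : |θ| ≤ Real.pi) :
    -(69 * Real.exp (-(0.48 / s))) ≤ fLC s K n θ := by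
  have hs := h.hs
  have h1' : s / 2 ≤ |θ| := by linarith
  have h3 := h.norm_psi_eq θ
  have h4 := far2 hs h.hs' h1 hpi
  have h5 := h.norm_phi_far h1' hpi
  have h6 := h.norm_chi_le θ
  have h7 : ‖phi s θ - 1‖ ^ 2 ≤ 4 := by
    have : ‖phi s θ - 1‖ ≤ 2 := by
      refine (norm_sub_le _ _).trans ?_
      have := h.norm_phi_le_one θ
      rw [norm_one]; linarith
    have := pow_le_pow_left₀ (norm_nonneg _) this 2
    norm_num at this ⊢
    linarith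
  have h8 : ‖phi s θ‖ ^ K ≤ 0.94 ^ K := pow_le_pow_left₀ (norm_nonneg _) h5 K
  have h9 := pow_94 K
  have h10 : ‖phi s θ‖ ^ K ≤ 1 := pow_le_one₀ (norm_nonneg _) (h.norm_phi_le_one θ)
  have h11 : |fLC s K n θ| ≤ Real.exp (-(0.48 / s)) * 69 := by
    unfold fLC
    refine (Complex.abs_re_le_norm _).trans ?_
    rw [norm_mul, h3, mul_assoc]
    apply mul_le_mul (Real.exp_le_exp.2 (by linarith)) _ (by positivity) (Real.exp_pos _).le
    calc ‖phi s θ‖ ^ K * ‖phi s θ ^ 2 - ((K : ℂ) + 2) * (phi s θ - 1) ^ 2‖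
        ≤ ‖phi s θ‖ ^ K * (1 + ((K : ℝ) + 2) * ‖phi s θ - 1‖ ^ 2) :=
          mul_le_mul_of_nonneg_left h6 (by positivity)
      _ = ‖phi s θ‖ ^ K + (((K : ℝ) + 2) * ‖phi s θ‖ ^ K) * ‖phi s θ - 1‖ ^ 2 := by ring
      _ ≤ 1 + 17 * 4 := by
          apply add_le_add h10
          apply mul_le_mul _ h7 (by positivity) (by norm_num)
          exact (mul_le_mul_of_nonneg_left h8 (by positivity)).trans h9
      _ ≤ 69 := by norm_num
  have := (abs_le.1 h11).1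
  linarith

theorem far_dec_aux (h : Ctx s K n) {θ r : ℝ} (h4 : r ≤ M 0 s - (Lam s θ).re) :
    -(2.4 * Real.exp (-r)) ≤ fDec s K n θ := by
  have h3 := h.norm_psi_eq θ
  have h0 := h.M0_pos
  have h10 : ‖phi s θ‖ ^ K ≤ 1 := pow_le_one₀ (norm_nonneg _) (h.norm_phi_le_one θ)
  have h6 : ‖((((K : ℝ) + 1) / M 0 s : ℝ) : ℂ) - phi s θ‖ ≤ 2.4 := by
    refine (norm_sub_le _ _).trans ?_
    rw [Complex.norm_real, Real.norm_eq_abs, abs_of_nonneg (by positivity)]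
    have := h.beta_le; have := h.norm_phi_le_one θ
    linarith
  have h11 : |fDec s K n θ| ≤ Real.exp (-r) * 2.4 := by
    unfold fDec
    refine (Complex.abs_re_le_norm _).trans ?_
    rw [norm_mul, h3, mul_assoc]
    apply mul_le_mul (Real.exp_le_exp.2 (by linarith)) _ (by positivity) (Real.exp_pos _).le
    calc ‖phi s θ‖ ^ K * ‖((((K : ℝ) + 1) / M 0 s : ℝ) : ℂ) - phi s θ‖
        ≤ 1 * 2.4 := mul_le_mul h10 h6 (norm_nonneg _) (by norm_num)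
      _ = 2.4 := by norm_num
  have := (abs_le.1 h11).1
  linarith

end Ctx

end

end Pool.Agent.NekOk
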