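import Pool.Agent.NekOk.Basic

/-! Real inequalities used in the saddle point estimate. -/

namespace Pool.Agent.NekOk

/-- The numerical information on the moments, normalised: `N1 = s M1`, `N2 = s² M2`,
`N3 = s³ M3`, `p = K / M0`. -/
structure Num (L M0 N1 N2 N3 p : ℝ) : Prop where
  hL : 65.79 ≤ L
  h0l : 0.95 * L ≤ M0
  h0u : M0 ≤ L
  h1l : 0.984 * L ≤ N1
  h1u : N1 ≤ L
  h2l : 1.969 * L ≤ N2
  h2u : N2 ≤ 2.25 * L
  h3l : 0 ≤ N3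
  h3u : N3 ≤ 6.06 * L
  hp : 0 ≤ p
  hp' : p ≤ 1.36

namespace Num
variable {L M0 N1 N2 N3 p : ℝ}

theorem M0_pos (h : Num L M0 N1 N2 N3 p) : 0 < M0 := by
  have := h.hL; have := h.h0l; nlinarith

theorem L_pos (h : Num L M0 N1 N2 N3 p) : 0 < L := by
  have := h.hL; linarith

/-- `q = L/M0` -/
theorem q_ge (h : Num L M0 N1 N2 N3 p) : 1 ≤ L / M0 := by
  rw [le_div_iff₀ h.M0_pos]; linarith [h.h0u]

theorem q_le (h : Num L M0 N1 N2 N3 p) : L / M0 ≤ 1.05264 := by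
  rw [div_le_iff₀ h.M0_pos]; have := h.h0l; have := h.L_pos; nlinarith

theorem u_le (h : Num L M0 N1 N2 N3 p) : N1 / M0 ≤ 1.05264 := by
  refine le_trans ?_ h.q_le
  exact div_le_div_of_nonneg_right h.h1u h.M0_pos.le

theorem u_ge_q (h : Num L M0 N1 N2 N3 p) : 0.984 * (L / M0) ≤ N1 / M0 := by
  rw [← mul_div_assoc]
  exact div_le_div_of_nonneg_right h.h1l h.M0_pos.le

theorem u_ge (h : Num L M0 N1 N2 N3 p) : 0.984 ≤ N1 / M0 := by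
  have := h.u_ge_q; have := h.q_ge; nlinarith

theorem m2_le_q (h : Num L M0 N1 N2 N3 p) : N2 / M0 ≤ 2.25 * (L / M0) := by
  rw [← mul_div_assoc]
  exact div_le_div_of_nonneg_right h.h2u h.M0_pos.le

theorem m2_ge_q (h : Num L M0 N1 N2 N3 p) : 1.969 * (L / M0) ≤ N2 / M0 := by
  rw [← mul_div_assoc]
  exact div_le_div_of_nonneg_right h.h2l h.M0_pos.le

theorem m3_le_q (h : Num L M0 N1 N2 N3 p) : N3 / M0 ≤ 6.06 * (L / M0) := by
  rw [← mul_div_assoc]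
  exact div_le_div_of_nonneg_right h.h3u h.M0_pos.le

/-- normalised variance -/
theorem sig_le (h : Num L M0 N1 N2 N3 p) : N2 / M0 - (N1 / M0) ^ 2 ≤ 1.296 := by
  have h1 := h.m2_le_q
  have h2 := h.u_ge_q
  have h3 := h.q_ge
  have h4 := h.q_le
  set q := L / M0
  set u := N1 / M0
  have h5 : (0.984 * q) ^ 2 ≤ u ^ 2 := by
    apply pow_le_pow_left₀ (by positivity) h2
  nlinarith

theorem sig_nonneg (h : Num L M0 N1 N2 N3 p) : 0.9 ≤ N2 / M0 - (N1 / M0) ^ 2 := by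
  have h1 := h.m2_ge_q
  have h2 := h.u_le
  have h2' : N1 / M0 ≤ L / M0 := div_le_div_of_nonneg_right h.h1u h.M0_pos.le
  have h3 := h.q_ge
  have h4 := h.q_le
  have h6 := h.u_ge
  set q := L / M0
  set u := N1 / M0
  nlinarith

/-- normalised third absolute moment, bound relative to `L` -/
theorem kap_le (h : Num L M0 N1 N2 N3 p) :
    M0 * (N3 / M0 - 3 * (N1 / M0) * (N2 / M0) + 4 * (N1 / M0) ^ 3) ≤ 4.275 * L := by
  have h0 := h.M0_pos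
  have hu := h.u_le
  have hu' := h.u_ge
  have e1 : M0 * (N3 / M0 - 3 * (N1 / M0) * (N2 / M0) + 4 * (N1 / M0) ^ 3) =
      N3 - 3 * (N1 / M0) * N2 + 4 * (N1 / M0) ^ 2 * N1 := by
    field_simp
  rw [e1]
  have hL := h.L_pos
  set u := N1 / M0
  have h3 := h.h3u
  have h4 : 3 * u * (1.969 * L) ≤ 3 * u * N2 := by
    apply mul_le_mul_of_nonneg_left h.h2l; nlinarith
  have h5 : 4 * u ^ 2 * N1 ≤ 4 * u ^ 2 * L :=
    mul_le_mul_of_nonneg_left h.h1u (by positivity)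
  have h6 : 6.06 - 3 * u * 1.969 + 4 * u ^ 2 ≤ 4.275 := by nlinarith
  have h7 : (6.06 - 3 * u * 1.969 + 4 * u ^ 2) * L ≤ 4.275 * L :=
    mul_le_mul_of_nonneg_right h6 hL.le
  nlinarith

theorem kap_le' (h : Num L M0 N1 N2 N3 p) :
    N3 / M0 - 3 * (N1 / M0) * (N2 / M0) + 4 * (N1 / M0) ^ 3 ≤ 4.5003 + 0.0003 := by
  have h1 := h.kap_le
  have h0 := h.M0_pos
  have h2 := h.q_le
  have h3 : N3 / M0 - 3 * (N1 / M0) * (N2 / M0) + 4 * (N1 / M0) ^ 3 ≤ 4.275 * (L / M0) := by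
    rw [show 4.275 * (L / M0) = 4.275 * L / M0 by ring, le_div_iff₀ h0]
    linarith
  linarith

/-- `W = s² v` -/
theorem W_ge (h : Num L M0 N1 N2 N3 p) :
    L * (1.969 + 0.9163 * p) ≤ N2 * (1 + p) - p * (N1 ^ 2 / M0) := by
  have hL := h.L_pos
  have h1 : N1 ^ 2 / M0 ≤ 1.05264 * L := by
    have : N1 ^ 2 / M0 = N1 / M0 * N1 := by ring
    rw [this]
    have := h.u_le; have := h.h1u; have := h.h1l
    have hu0 : 0 ≤ N1 / M0 := by have := h.u_ge; linarith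
    calc N1 / M0 * N1 ≤ 1.05264 * N1 := mul_le_mul_of_nonneg_right h.u_le (by nlinarith)
      _ ≤ 1.05264 * L := by linarith
  have h2 : 1.969 * L * (1 + p) ≤ N2 * (1 + p) :=
    mul_le_mul_of_nonneg_right h.h2l (by linarith [h.hp])
  have h3 : p * (N1 ^ 2 / M0) ≤ p * (1.05264 * L) := mul_le_mul_of_nonneg_left h1 h.hp
  have h4 : 0 ≤ p * L := mul_nonneg h.hp hL.le
  nlinarith

theorem W_le (h : Num L M0 N1 N2 N3 p) :
    N2 * (1 + p) - p * (N1 ^ 2 / M0) ≤ 5.31 * L := by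
  have hL := h.L_pos
  have h0 := h.M0_pos
  have h1 : 0 ≤ p * (N1 ^ 2 / M0) := mul_nonneg h.hp (by positivity)
  have h2 : N2 * (1 + p) ≤ 2.25 * L * 2.36 := by
    apply mul_le_mul h.h2u (by linarith [h.hp']) (by linarith [h.hp]) (by positivity)
  linarith

theorem W_pos (h : Num L M0 N1 N2 N3 p) : 0 < N2 * (1 + p) - p * (N1 ^ 2 / M0) := by
  have := h.W_ge; have := h.L_pos; have := h.hp
  have : 0 < L * (1.969 + 0.9163 * p) := by positivity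
  linarith

/-- `x ≤ 0.1243 t` -/
theorem x_le (h : Num L M0 N1 N2 N3 p) {x t : ℝ} (ht : 0 ≤ t)
    (e : t ^ 2 = x ^ 2 * (N2 * (1 + p) - p * (N1 ^ 2 / M0)) / 2) : x ≤ 0.1243 * t := by
  have h1 := h.W_ge
  have h2 : 129.54 ≤ L * (1.969 + 0.9163 * p) := by
    have := h.hL; have := h.hp
    nlinarith [mul_nonneg (by linarith : (0:ℝ) ≤ L) h.hp]
  have h3 : x ^ 2 * 129.54 / 2 ≤ t ^ 2 := by
    rw [e]
    have : x ^ 2 * 129.54 ≤ x ^ 2 * (N2 * (1 + p) - p * (N1 ^ 2 / M0)) :=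
      mul_le_mul_of_nonneg_left (by linarith) (by positivity)
    linarith
  apply le_of_sq_le_sq _ (by positivity)
  nlinarith

theorem x_le' (h : Num L M0 N1 N2 N3 p) (hp : 1.2 ≤ p) {x t : ℝ} (ht : 0 ≤ t)
    (e : t ^ 2 = x ^ 2 * (N2 * (1 + p) - p * (N1 ^ 2 / M0)) / 2) : x ≤ 0.09954 * t := by
  have h1 := h.W_ge
  have h2 : 201.88 ≤ L * (1.969 + 0.9163 * p) := by
    have := h.hL
    nlinarith [mul_nonneg (by linarith : (0:ℝ) ≤ L) (by linarith : (0:ℝ) ≤ p - 1.2)]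
  have h3 : x ^ 2 * 201.88 / 2 ≤ t ^ 2 := by
    rw [e]
    have : x ^ 2 * 201.88 ≤ x ^ 2 * (N2 * (1 + p) - p * (N1 ^ 2 / M0)) :=
      mul_le_mul_of_nonneg_left (by linarith) (by positivity)
    linarith
  apply le_of_sq_le_sq _ (by positivity)
  nlinarith

/-- lower bound for `t⁶` -/
theorem t6_ge (h : Num L M0 N1 N2 N3 p) {x t : ℝ}
    (e : t ^ 2 = x ^ 2 * (N2 * (1 + p) - p * (N1 ^ 2 / M0)) / 2) :
    (L * x ^ 3) ^ 2 * (65.79 * (1.969 + 0.9163 * p) ^ 3 / 8) ≤ (t ^ 3) ^ 2 := by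
  have h1 := h.W_ge
  have hL := h.hL
  have hp := h.hp
  have e2 : (t ^ 3) ^ 2 = x ^ 6 * (N2 * (1 + p) - p * (N1 ^ 2 / M0)) ^ 3 / 8 := by
    calc (t ^ 3) ^ 2 = (t ^ 2) ^ 3 := by ring
      _ = _ := by rw [e]; ring
  rw [e2]
  have h2 : (L * (1.969 + 0.9163 * p)) ^ 3 ≤ (N2 * (1 + p) - p * (N1 ^ 2 / M0)) ^ 3 :=
    pow_le_pow_left₀ (by positivity) h1 3
  have h3 : 65.79 * (L ^ 2 * (1.969 + 0.9163 * p) ^ 3) ≤
      L * (L ^ 2 * (1.969 + 0.9163 * p) ^ 3) :=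
    mul_le_mul_of_nonneg_right hL (by positivity)
  have h4 : 65.79 * (L ^ 2 * (1.969 + 0.9163 * p) ^ 3) ≤
      (N2 * (1 + p) - p * (N1 ^ 2 / M0)) ^ 3 := by
    calc _ ≤ L * (L ^ 2 * (1.969 + 0.9163 * p) ^ 3) := h3
      _ = (L * (1.969 + 0.9163 * p)) ^ 3 := by ring
      _ ≤ _ := h2
  have h5 := mul_le_mul_of_nonneg_left h4 (by positivity : (0 : ℝ) ≤ x ^ 6)
  calc (L * x ^ 3) ^ 2 * (65.79 * (1.969 + 0.9163 * p) ^ 3 / 8)
      = x ^ 6 * (65.79 * (L ^ 2 * (1.969 + 0.9163 * p) ^ 3)) / 8 := by ring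
    _ ≤ x ^ 6 * (N2 * (1 + p) - p * (N1 ^ 2 / M0)) ^ 3 / 8 := by linarith

theorem E_le (h : Num L M0 N1 N2 N3 p) {x t : ℝ} (ht : 0 ≤ t)
    (e : t ^ 2 = x ^ 2 * (N2 * (1 + p) - p * (N1 ^ 2 / M0)) / 2) :
    (1.01 + 0.787 * p) * (L * x ^ 3) ≤ 0.14 * t ^ 3 := by
  have h1 := h.t6_ge e
  have hp := h.hp
  apply le_of_sq_le_sq _ (by positivity)
  have h2 : (1.01 + 0.787 * p) ^ 2 ≤ 0.0196 * (65.79 * (1.969 + 0.9163 * p) ^ 3 / 8) := by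
    have : 0 ≤ p ^ 2 := by positivity
    have : 0 ≤ p ^ 3 := by positivity
    nlinarith
  calc ((1.01 + 0.787 * p) * (L * x ^ 3)) ^ 2 = (1.01 + 0.787 * p) ^ 2 * (L * x ^ 3) ^ 2 := by ring
    _ ≤ 0.0196 * (65.79 * (1.969 + 0.9163 * p) ^ 3 / 8) * (L * x ^ 3) ^ 2 :=
        mul_le_mul_of_nonneg_right h2 (by positivity)
    _ = 0.0196 * ((L * x ^ 3) ^ 2 * (65.79 * (1.969 + 0.9163 * p) ^ 3 / 8)) := by ring
    _ ≤ 0.0196 * (t ^ 3) ^ 2 := by linarith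
    _ = (0.14 * t ^ 3) ^ 2 := by ring

theorem tau_le (h : Num L M0 N1 N2 N3 p) {x t : ℝ} (hx : 0 ≤ x) (ht : 0 ≤ t)
    (e : t ^ 2 = x ^ 2 * (N2 * (1 + p) - p * (N1 ^ 2 / M0)) / 2) :
    (1 + p) * N3 * x ^ 3 / 8 ≤ 0.111 * t ^ 3 := by
  have h1 := h.t6_ge e
  have hp := h.hp
  have hp' := h.hp'
  have hN : (1 + p) * N3 * x ^ 3 / 8 ≤ 0.7575 * (1 + p) * (L * x ^ 3) := by
    have : N3 * ((1 + p) * x ^ 3 / 8) ≤ 6.06 * L * ((1 + p) * x ^ 3 / 8) :=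
      mul_le_mul_of_nonneg_right h.h3u (by positivity)
    nlinarith
  refine hN.trans ?_
  apply le_of_sq_le_sq _ (by positivity)
  have h2 : (0.7575 * (1 + p)) ^ 2 ≤ 0.012321 * (65.79 * (1.969 + 0.9163 * p) ^ 3 / 8) := by
    have : 0 ≤ p ^ 3 := by positivity
    nlinarith [mul_nonneg hp (sub_nonneg.2 hp'), sq_nonneg (p - 1), mul_nonneg hp (sq_nonneg (p - 1))]
  calc (0.7575 * (1 + p) * (L * x ^ 3)) ^ 2 = (0.7575 * (1 + p)) ^ 2 * (L * x ^ 3) ^ 2 := by ring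
    _ ≤ 0.012321 * (65.79 * (1.969 + 0.9163 * p) ^ 3 / 8) * (L * x ^ 3) ^ 2 :=
        mul_le_mul_of_nonneg_right h2 (by positivity)
    _ = 0.012321 * ((L * x ^ 3) ^ 2 * (65.79 * (1.969 + 0.9163 * p) ^ 3 / 8)) := by ring
    _ ≤ 0.012321 * (t ^ 3) ^ 2 := by linarith
    _ = (0.111 * t ^ 3) ^ 2 := by ring

theorem tau_le' (h : Num L M0 N1 N2 N3 p) {x t : ℝ} (hx : 0 ≤ x) (hx' : x ≤ 1 / 2)
    (e : t ^ 2 = x ^ 2 * (N2 * (1 + p) - p * (N1 ^ 2 / M0)) / 2) :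
    (1 + p) * N3 * x ^ 3 / 8 ≤ 0.557 * t ^ 2 := by
  have hp := h.hp
  have hp' := h.hp'
  have hL := h.L_pos
  have hN : (1 + p) * N3 * x ^ 3 / 8 ≤ 0.37875 * (1 + p) * (L * x ^ 2) := by
    have h1 : N3 * ((1 + p) * x ^ 3 / 8) ≤ 6.06 * L * ((1 + p) * x ^ 3 / 8) :=
      mul_le_mul_of_nonneg_right h.h3u (by positivity)
    have h2 : 6.06 * L * ((1 + p) * x ^ 2 / 8) * x ≤ 6.06 * L * ((1 + p) * x ^ 2 / 8) * (1 / 2) :=
      mul_le_mul_of_nonneg_left hx' (by positivity)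
    nlinarith
  refine hN.trans ?_
  rw [e]
  have h1 := mul_le_mul_of_nonneg_left h.W_ge (by positivity : (0 : ℝ) ≤ x ^ 2)
  have h3 : 0.37875 * (1 + p) ≤ 0.557 * (1.969 + 0.9163 * p) / 2 := by nlinarith
  have h4 := mul_le_mul_of_nonneg_right h3 (by positivity : (0 : ℝ) ≤ L * x ^ 2)
  nlinarith

/-- the exponent in the middle range -/
theorem mid_exp (h : Num L M0 N1 N2 N3 p) {x t : ℝ} (hx : 0 ≤ x) (hx' : x ≤ 1 / 2)
    (ht : 7 / 4 ≤ t)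
    (e : t ^ 2 = x ^ 2 * (N2 * (1 + p) - p * (N1 ^ 2 / M0)) / 2) :
    2.46 + 2.4 * (t - 7 / 4) ≤ t ^ 2 - (1 + p) * N3 * x ^ 3 / 8 := by
  have ht0 : 0 ≤ t := by linarith
  rcases le_total t 5 with h5 | h5
  · have h1 := h.tau_le hx ht0 e
    have h2 : 0 ≤ (t - 7 / 4) * (5 - t) := mul_nonneg (by linarith) (by linarith)
    nlinarith [mul_nonneg h2 (by linarith : (0:ℝ) ≤ t - 7 / 4)]
  · have h1 := h.tau_le' hx hx' e
    nlinarith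

/-- `(K+2) u² x² ≤ 0.93 t²` with `K = p M0` -/
theorem chi_le (h : Num L M0 N1 N2 N3 p) {x t : ℝ}
    (e : t ^ 2 = x ^ 2 * (N2 * (1 + p) - p * (N1 ^ 2 / M0)) / 2) :
    (p * M0 + 2) * (N1 / M0 * x) ^ 2 ≤ 0.93 * t ^ 2 := by
  have hp := h.hp
  have hp' := h.hp'
  have hL := h.hL
  have h0 := h.M0_pos
  have hu := h.u_le
  have hu' := h.u_ge
  have e1 : N1 ^ 2 / M0 = (N1 / M0) * N1 := by ring
  have e3 : (N1 / M0) ^ 2 * M0 = (N1 / M0) * N1 := by field_simp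
  have h1 : (N1 / M0) * N1 ≤ 1.05264 * L := by
    have := h.h1u; have := h.h1l
    calc N1 / M0 * N1 ≤ 1.05264 * N1 := mul_le_mul_of_nonneg_right h.u_le (by nlinarith)
      _ ≤ 1.05264 * L := by linarith
  have h2 := mul_le_mul_of_nonneg_right h.h2l (by linarith : (0:ℝ) ≤ 1 + p)
  have h3 : (N1 / M0) ^ 2 ≤ 1.1081 := by nlinarith
  have h4 := mul_le_mul_of_nonneg_left h1 hp
  have key : (p * M0 + 2) * (N1 / M0) ^ 2 ≤
      0.93 * ((N2 * (1 + p) - p * (N1 ^ 2 / M0)) / 2) := by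
    have : (p * M0 + 2) * (N1 / M0) ^ 2 = p * ((N1 / M0) * N1) + 2 * (N1 / M0) ^ 2 := by
      rw [← e3]; ring
    rw [this, e1]
    nlinarith
  have h5 := mul_le_mul_of_nonneg_right key (sq_nonneg x)
  rw [e]
  nlinarith

end Num

end Pool.Agent.NekOk
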