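import Pool.Agent.NekOk.Basic

namespace Pool.Agent.NekOk

open Finset

noncomputable section

/-! ### the double series -/

theorem hasSum_pairs (p : ℕ) {s : ℝ} (hs : 0 < s) :
    HasSum (fun x : ℕ+ × ℕ+ => (1 / (x.1 : ℝ)) * (((x.1 : ℝ) * (x.2 : ℝ)) ^ p *
      Real.exp (-(s * ((x.1 : ℝ) * (x.2 : ℝ)))))) (M p s) := by
  rw [← sigmaAntidiagonalEquivProd.hasSum_iff]
  have h0 : HasSum (fun j : ℕ+ => c j * ((j : ℕ) : ℝ) ^ p * Real.exp (-(s * ((j : ℕ) : ℝ)))) (M p s) := by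
    have h := (hasSum_nat_add_iff' (f := fun j : ℕ => c j * (j : ℝ) ^ p *
        Real.exp (-(s * j))) 1).2 (summable_M p hs).hasSum
    have h1 : HasSum (fun j : ℕ => c (j + 1) * ((j + 1 : ℕ) : ℝ) ^ p *
        Real.exp (-(s * ((j + 1 : ℕ) : ℝ)))) (M p s) := by
      simpa [c_zero, M] using h
    exact (hasSum_pnat_iff_hasSum_succ (f := fun j : ℕ => c j * (j : ℝ) ^ p *
      Real.exp (-(s * j)))).2 h1
  have hin : ∀ n : ℕ+, HasSum (fun y : (n : ℕ).divisorsAntidiagonal =>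
      ((fun x : ℕ+ × ℕ+ => (1 / (x.1 : ℝ)) * (((x.1 : ℝ) * (x.2 : ℝ)) ^ p *
      Real.exp (-(s * ((x.1 : ℝ) * (x.2 : ℝ)))))) ∘ sigmaAntidiagonalEquivProd) ⟨n, y⟩)
      (c n * ((n : ℕ) : ℝ) ^ p * Real.exp (-(s * ((n : ℕ) : ℝ)))) := by
    intro n
    have h1 : ∀ y : (n : ℕ).divisorsAntidiagonal,
        ((fun x : ℕ+ × ℕ+ => (1 / (x.1 : ℝ)) * (((x.1 : ℝ) * (x.2 : ℝ)) ^ p *
        Real.exp (-(s * ((x.1 : ℝ) * (x.2 : ℝ)))))) ∘ sigmaAntidiagonalEquivProd) ⟨n, y⟩ =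
        (1 / ((y.1.1 : ℕ) : ℝ)) * (((n : ℕ) : ℝ) ^ p * Real.exp (-(s * ((n : ℕ) : ℝ)))) := by
      intro y
      have h2 := (Nat.mem_divisorsAntidiagonal.1 y.2).1
      have h3 : ((y.1.1 : ℕ) : ℝ) * ((y.1.2 : ℕ) : ℝ) = ((n : ℕ) : ℝ) := by exact_mod_cast h2
      simp only [Function.comp, sigmaAntidiagonalEquivProd, divisorsAntidiagonalFactors,
        Equiv.coe_fn_mk, PNat.mk_coe]
      rw [h3]
    rw [funext h1]
    have h4 : c n * ((n : ℕ) : ℝ) ^ p * Real.exp (-(s * ((n : ℕ) : ℝ))) =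
        ∑ y : (n : ℕ).divisorsAntidiagonal,
          (1 / ((y.1.1 : ℕ) : ℝ)) * (((n : ℕ) : ℝ) ^ p * Real.exp (-(s * ((n : ℕ) : ℝ)))) := by
      rw [← Finset.sum_mul, mul_assoc]
      congr 1
      rw [c_eq_sum]
      rw [Finset.sum_coe_sort (n : ℕ).divisorsAntidiagonal (fun y => 1 / ((y.1 : ℕ) : ℝ))]
      rw [Nat.sum_divisorsAntidiagonal (fun a _ => 1 / ((a : ℕ) : ℝ))]
    rw [h4]
    exact hasSum_fintype _
  refine h0.sigma_of_hasSum hin ?_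
  rw [summable_sigma_of_nonneg]
  · refine ⟨fun n => (hin n).summable, ?_⟩
    refine h0.summable.congr ?_
    intro n
    exact (hin n).tsum_eq.symm
  · intro x
    simp only [Function.comp]
    positivity

/-! ### the inner sums -/

/-- `q(t) = 1/(e^t-1)` -/
def qf (t : ℝ) : ℝ := 1 / (Real.exp t - 1)

/-- `X(t) = q(1+q)` -/
def Xf (t : ℝ) : ℝ := qf t * (1 + qf t)

theorem exp_neg_lt_one {t : ℝ} (ht : 0 < t) : Real.exp (-t) < 1 := by
  rw [Real.exp_lt_one_iff]; linarith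

theorem one_add_qf {t : ℝ} (ht : 0 < t) : 1 + qf t = 1 / (1 - Real.exp (-t)) := by
  unfold qf
  have h1 : 1 < Real.exp t := Real.one_lt_exp_iff.2 ht
  have h2 := exp_neg_lt_one ht
  have h3 : Real.exp (-t) * Real.exp t = 1 := by rw [← Real.exp_add]; simp
  have h4 : Real.exp t - 1 ≠ 0 := by linarith
  have h5 : 1 - Real.exp (-t) ≠ 0 := by linarith
  field_simp
  linear_combination -h3

theorem qf_eq {t : ℝ} (ht : 0 < t) : qf t = Real.exp (-t) / (1 - Real.exp (-t)) := by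
  have h := one_add_qf ht
  have h2 := exp_neg_lt_one ht
  have h5 : 1 - Real.exp (-t) ≠ 0 := by linarith
  have : qf t = 1 / (1 - Real.exp (-t)) - 1 := by linarith
  rw [this]
  field_simp
  ring

theorem Xf_eq {t : ℝ} (ht : 0 < t) : Xf t = Real.exp (-t) / (1 - Real.exp (-t)) ^ 2 := by
  unfold Xf
  rw [one_add_qf ht, qf_eq ht]
  have h2 := exp_neg_lt_one ht
  have h5 : 1 - Real.exp (-t) ≠ 0 := by linarith
  field_simp

theorem norm_exp_neg_lt {t : ℝ} (ht : 0 < t) : ‖Real.exp (-t)‖ < 1 := by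
  rw [Real.norm_eq_abs, abs_of_pos (Real.exp_pos _)]
  exact exp_neg_lt_one ht

theorem exp_neg_mul_nat (t : ℝ) (n : ℕ) : Real.exp (-(t * (n : ℝ))) = Real.exp (-t) ^ n := by
  rw [← Real.exp_nat_mul]
  ring_nf

theorem hs0 {t : ℝ} (ht : 0 < t) : HasSum (fun i : ℕ+ => Real.exp (-(t * (i : ℝ)))) (qf t) := by
  have h := hasSum_geometric_of_norm_lt_one (norm_exp_neg_lt ht)
  have h1 := (hasSum_nat_add_iff' (f := fun j : ℕ => Real.exp (-t) ^ j) 1).2 h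
  have h2 := (hasSum_pnat_iff_hasSum_succ (f := fun j : ℕ => Real.exp (-t) ^ j)).2 h1
  have h3 : (1 - Real.exp (-t))⁻¹ - ∑ i ∈ range 1, Real.exp (-t) ^ i = qf t := by
    have := one_add_qf ht
    simp only [range_one, sum_singleton, pow_zero]
    rw [← one_div, ← this]
    ring
  rw [h3] at h2
  refine h2.congr_fun ?_
  intro i
  exact exp_neg_mul_nat t i

theorem hs1 {t : ℝ} (ht : 0 < t) :
    HasSum (fun i : ℕ+ => (i : ℝ) * Real.exp (-(t * (i : ℝ)))) (Xf t) := by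
  have h := hasSum_coe_mul_geometric_of_norm_lt_one (norm_exp_neg_lt ht)
  have h1 := (hasSum_nat_add_iff' (f := fun j : ℕ => (j : ℝ) * Real.exp (-t) ^ j) 1).2 h
  have h2 := (hasSum_pnat_iff_hasSum_succ (f := fun j : ℕ => (j : ℝ) * Real.exp (-t) ^ j)).2 h1
  rw [Xf_eq ht]
  simp only [range_one, sum_singleton, Nat.cast_zero, zero_mul, sub_zero] at h2
  refine h2.congr_fun ?_
  intro i
  rw [exp_neg_mul_nat t i]

theorem choose2 (i : ℕ) : ((i + 2).choose 2 : ℝ) = ((i : ℝ) + 1) * (i + 2) / 2 := by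
  have h := Nat.ascFactorial_eq_factorial_mul_choose i 2
  simp only [Nat.ascFactorial, Nat.factorial] at h
  have h' : (((i + 1 + 1) * (((i + 1 + 0)) * 1) : ℕ) : ℝ) = ((Nat.succ 1 * (Nat.succ 0 * 1) * (i + 2).choose 2 : ℕ) : ℝ) := by
    exact_mod_cast h
  push_cast at h'
  linarith

theorem choose3 (i : ℕ) : ((i + 3).choose 3 : ℝ) = ((i : ℝ) + 1) * (i + 2) * (i + 3) / 6 := by
  have h := Nat.ascFactorial_eq_factorial_mul_choose i 3
  simp only [Nat.ascFactorial, Nat.factorial] at h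
  have h' : (((i + 1 + 2) * ((i + 1 + 1) * (((i + 1 + 0)) * 1)) : ℕ) : ℝ) =
      ((Nat.succ 2 * (Nat.succ 1 * (Nat.succ 0 * 1)) * (i + 3).choose 3 : ℕ) : ℝ) := by
    exact_mod_cast h
  push_cast at h'
  linarith

theorem geo2 {r : ℝ} (hr : ‖r‖ < 1) :
    HasSum (fun i : ℕ => (i : ℝ) ^ 2 * r ^ i) (r * (1 + r) / (1 - r) ^ 3) := by
  have h2 := (hasSum_choose_mul_geometric_of_norm_lt_one 2 hr).mul_left 2
  have h1 := (hasSum_choose_mul_geometric_of_norm_lt_one 1 hr).mul_left 3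
  have h0 := (hasSum_choose_mul_geometric_of_norm_lt_one 0 hr)
  have h := (h2.sub h1).add h0
  have hr1 : 1 - r ≠ 0 := by
    have := (abs_lt.1 (by simpa using hr : |r| < 1)).2
    linarith
  have e : 2 * (1 / (1 - r) ^ (2 + 1)) - 3 * (1 / (1 - r) ^ (1 + 1)) + 1 / (1 - r) ^ (0 + 1) =
      r * (1 + r) / (1 - r) ^ 3 := by
    field_simp
    ring
  rw [e] at h
  refine h.congr_fun ?_
  intro i
  rw [choose2]
  simp only [Nat.choose_one_right, Nat.choose_zero_right]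
  push_cast
  ring

theorem geo3 {r : ℝ} (hr : ‖r‖ < 1) :
    HasSum (fun i : ℕ => (i : ℝ) ^ 3 * r ^ i) (r * (1 + 4 * r + r ^ 2) / (1 - r) ^ 4) := by
  have h3 := (hasSum_choose_mul_geometric_of_norm_lt_one 3 hr).mul_left 6
  have h2 := (hasSum_choose_mul_geometric_of_norm_lt_one 2 hr).mul_left 12
  have h1 := (hasSum_choose_mul_geometric_of_norm_lt_one 1 hr).mul_left 7
  have h0 := (hasSum_choose_mul_geometric_of_norm_lt_one 0 hr)
  have h := ((h3.sub h2).add h1).sub h0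
  have hr1 : 1 - r ≠ 0 := by
    have := (abs_lt.1 (by simpa using hr : |r| < 1)).2
    linarith
  have e : 6 * (1 / (1 - r) ^ (3 + 1)) - 12 * (1 / (1 - r) ^ (2 + 1)) +
      7 * (1 / (1 - r) ^ (1 + 1)) - 1 / (1 - r) ^ (0 + 1) =
      r * (1 + 4 * r + r ^ 2) / (1 - r) ^ 4 := by
    field_simp
    ring
  rw [e] at h
  refine h.congr_fun ?_
  intro i
  rw [choose2, choose3]
  simp only [Nat.choose_one_right, Nat.choose_zero_right]
  push_cast
  ring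

theorem hs2 {t : ℝ} (ht : 0 < t) :
    HasSum (fun i : ℕ+ => (i : ℝ) ^ 2 * Real.exp (-(t * (i : ℝ)))) (Xf t * (1 + 2 * qf t)) := by
  have h := geo2 (norm_exp_neg_lt ht)
  have h1 := (hasSum_nat_add_iff' (f := fun j : ℕ => (j : ℝ) ^ 2 * Real.exp (-t) ^ j) 1).2 h
  have h2 := (hasSum_pnat_iff_hasSum_succ (f := fun j : ℕ => (j : ℝ) ^ 2 * Real.exp (-t) ^ j)).2 h1
  have e : Xf t * (1 + 2 * qf t) =
      Real.exp (-t) * (1 + Real.exp (-t)) / (1 - Real.exp (-t)) ^ 3 := by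
    rw [Xf_eq ht, qf_eq ht]
    have h2 := exp_neg_lt_one ht
    have h5 : 1 - Real.exp (-t) ≠ 0 := by linarith
    field_simp
    ring
  rw [e]
  simp only [range_one, sum_singleton, Nat.cast_zero, ne_eq, OfNat.ofNat_ne_zero,
    not_false_eq_true, zero_pow, zero_mul, sub_zero] at h2
  refine h2.congr_fun ?_
  intro i
  rw [exp_neg_mul_nat t i]

theorem hs3 {t : ℝ} (ht : 0 < t) :
    HasSum (fun i : ℕ+ => (i : ℝ) ^ 3 * Real.exp (-(t * (i : ℝ)))) (Xf t + 6 * Xf t ^ 2) := by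
  have h := geo3 (norm_exp_neg_lt ht)
  have h1 := (hasSum_nat_add_iff' (f := fun j : ℕ => (j : ℝ) ^ 3 * Real.exp (-t) ^ j) 1).2 h
  have h2 := (hasSum_pnat_iff_hasSum_succ (f := fun j : ℕ => (j : ℝ) ^ 3 * Real.exp (-t) ^ j)).2 h1
  have e : Xf t + 6 * Xf t ^ 2 =
      Real.exp (-t) * (1 + 4 * Real.exp (-t) + Real.exp (-t) ^ 2) / (1 - Real.exp (-t)) ^ 4 := by
    rw [Xf_eq ht]
    have h2 := exp_neg_lt_one ht
    have h5 : 1 - Real.exp (-t) ≠ 0 := by linarith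
    field_simp
    ring
  rw [e]
  simp only [range_one, sum_singleton, Nat.cast_zero, ne_eq, OfNat.ofNat_ne_zero,
    not_false_eq_true, zero_pow, zero_mul, sub_zero] at h2
  refine h2.congr_fun ?_
  intro i
  rw [exp_neg_mul_nat t i]

/-! ### the moments as single sums over `m` (indexed by `k = m - 1`) -/

theorem toSucc {F : ℕ → ℝ} {A : ℝ} (h : HasSum (fun m : ℕ+ => F m) A) :
    HasSum (fun k : ℕ => F (k + 1)) A :=
  (hasSum_pnat_iff_hasSum_succ (f := F)).1 h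

theorem M0_hasSum {s : ℝ} (hs : 0 < s) :
    HasSum (fun k : ℕ => (1 / ((k + 1 : ℕ) : ℝ)) * qf (s * ((k + 1 : ℕ) : ℝ))) (M 0 s) := by
  apply toSucc (F := fun m => (1 / (m : ℝ)) * qf (s * (m : ℝ)))
  refine (hasSum_pairs 0 hs).prod_fiberwise ?_
  intro m
  have hm : (0 : ℝ) < m := by exact_mod_cast m.pos
  have h := (hs0 (mul_pos hs hm)).mul_left (1 / (m : ℝ))
  refine h.congr_fun ?_
  intro i
  simp only [pow_zero, one_mul]
  rw [mul_assoc]

theorem M1_hasSum {s : ℝ} (hs : 0 < s) :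
    HasSum (fun k : ℕ => Xf (s * ((k + 1 : ℕ) : ℝ))) (M 1 s) := by
  apply toSucc (F := fun m => Xf (s * (m : ℝ)))
  refine (hasSum_pairs 1 hs).prod_fiberwise ?_
  intro m
  have hm : (0 : ℝ) < m := by exact_mod_cast m.pos
  have h := (hs1 (mul_pos hs hm))
  refine h.congr_fun ?_
  intro i
  simp only [pow_one]
  rw [mul_assoc s]
  field_simp

theorem M2_hasSum {s : ℝ} (hs : 0 < s) :
    HasSum (fun k : ℕ => ((k + 1 : ℕ) : ℝ) * (Xf (s * ((k + 1 : ℕ) : ℝ)) *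
      (1 + 2 * qf (s * ((k + 1 : ℕ) : ℝ))))) (M 2 s) := by
  apply toSucc (F := fun m => (m : ℝ) * (Xf (s * (m : ℝ)) * (1 + 2 * qf (s * (m : ℝ)))))
  refine (hasSum_pairs 2 hs).prod_fiberwise ?_
  intro m
  have hm : (0 : ℝ) < m := by exact_mod_cast m.pos
  have h := (hs2 (mul_pos hs hm)).mul_left (m : ℝ)
  refine h.congr_fun ?_
  intro i
  rw [mul_assoc s]
  field_simp

theorem M2_hasSum' {s : ℝ} (hs : 0 < s) :
    HasSum (fun k : ℕ => ((k + 1 : ℕ) : ℝ) ^ 2 * Xf (s * ((k + 1 : ℕ) : ℝ))) (M 2 s) := by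
  apply toSucc (F := fun m => (m : ℝ) ^ 2 * Xf (s * (m : ℝ)))
  have h2 := (Equiv.prodComm ℕ+ ℕ+).hasSum_iff.2 (hasSum_pairs 2 hs)
  refine h2.prod_fiberwise ?_
  intro m
  have hm : (0 : ℝ) < m := by exact_mod_cast m.pos
  have h := (hs1 (mul_pos hs hm)).mul_left ((m : ℝ) ^ 2)
  refine h.congr_fun ?_
  intro i
  have hi : (0 : ℝ) < i := by exact_mod_cast i.pos
  simp only [Function.comp, Equiv.prodComm_apply, Prod.swap]
  rw [mul_assoc s, mul_comm (i : ℝ) (m : ℝ)]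
  field_simp

theorem M3_hasSum {s : ℝ} (hs : 0 < s) :
    HasSum (fun k : ℕ => ((k + 1 : ℕ) : ℝ) ^ 2 * (Xf (s * ((k + 1 : ℕ) : ℝ)) +
      6 * Xf (s * ((k + 1 : ℕ) : ℝ)) ^ 2)) (M 3 s) := by
  apply toSucc (F := fun m => (m : ℝ) ^ 2 * (Xf (s * (m : ℝ)) + 6 * Xf (s * (m : ℝ)) ^ 2))
  refine (hasSum_pairs 3 hs).prod_fiberwise ?_
  intro m
  have hm : (0 : ℝ) < m := by exact_mod_cast m.pos
  have h := (hs3 (mul_pos hs hm)).mul_left ((m : ℝ) ^ 2)
  refine h.congr_fun ?_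
  intro i
  rw [mul_assoc s]
  field_simp

/-! ### elementary inequalities -/

theorem qf_pos {t : ℝ} (ht : 0 < t) : 0 < qf t := by
  unfold qf
  have h1 : 1 < Real.exp t := Real.one_lt_exp_iff.2 ht
  have : 0 < Real.exp t - 1 := by linarith
  positivity

theorem Xf_pos {t : ℝ} (ht : 0 < t) : 0 < Xf t := by
  unfold Xf
  have := qf_pos ht
  positivity

theorem qf_le {t : ℝ} (ht : 0 < t) : qf t ≤ 1 / t := by
  unfold qf
  exact one_div_le_one_div_of_le ht (by linarith [Real.add_one_le_exp t])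

theorem Xf_le {t : ℝ} (ht : 0 < t) : Xf t ≤ 1 / t ^ 2 := by
  rw [Xf_eq ht]
  have h2 := exp_neg_lt_one ht
  have h5 : 0 < 1 - Real.exp (-t) := by linarith
  rw [div_le_div_iff₀ (by positivity) (by positivity), one_mul]
  have h6 : t / 2 ≤ Real.sinh (t / 2) := Real.self_le_sinh_iff.2 (by linarith)
  rw [Real.sinh_eq] at h6
  set u := Real.exp (-(t / 2)) with hu
  have hupos : 0 < u := Real.exp_pos _
  have h7 : Real.exp (t / 2) * u = 1 := by rw [hu, ← Real.exp_add]; simp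
  have h8 : Real.exp (-t) = u ^ 2 := by rw [hu, ← Real.exp_nat_mul]; congr 1; push_cast; ring
  rw [h8] at h5 ⊢
  have h9 : t * u ≤ 1 - u ^ 2 := by nlinarith
  have h10 : 0 ≤ t * u := by positivity
  nlinarith

theorem exp_le_frac {t : ℝ} (ht : 0 < t) (ht2 : t < 2) : Real.exp t * (2 - t) ≤ 2 + t := by
  have hx : |t / 2| < 1 := by rw [abs_lt]; constructor <;> linarith
  have h := Real.hasSum_log_sub_log_of_abs_lt_one hx
  have h1 : (2 : ℝ) * (1 / (2 * ((0 : ℕ) : ℝ) + 1)) * (t / 2) ^ (2 * 0 + 1) ≤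
      Real.log (1 + t / 2) - Real.log (1 - t / 2) := by
    refine le_hasSum h 0 ?_
    intro k _
    positivity
  have h2 : t ≤ Real.log (1 + t / 2) - Real.log (1 - t / 2) := by
    refine le_trans (le_of_eq ?_) h1
    norm_num
    ring
  rw [← Real.log_div (by linarith) (by linarith)] at h2
  have h3 : 0 < (1 + t / 2) / (1 - t / 2) := div_pos (by linarith) (by linarith)
  have h4 : Real.exp t ≤ (1 + t / 2) / (1 - t / 2) := by
    calc Real.exp t ≤ Real.exp (Real.log ((1 + t / 2) / (1 - t / 2))) := Real.exp_le_exp.2 h2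
      _ = _ := Real.exp_log h3
  rw [le_div_iff₀ (by linarith)] at h4
  linarith

theorem qf_ge {t : ℝ} (ht : 0 < t) : 1 / t - 1 / 2 ≤ qf t := by
  rcases lt_or_ge t 2 with h | h
  · have h1 := exp_le_frac ht h
    unfold qf
    have h2 : 1 < Real.exp t := Real.one_lt_exp_iff.2 ht
    rw [div_sub_div _ _ ht.ne' two_ne_zero, div_le_div_iff₀ (by positivity) (by linarith)]
    nlinarith
  · have h1 : 1 / t ≤ 1 / 2 := one_div_le_one_div_of_le (by norm_num) h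
    have := qf_pos ht
    linarith

theorem Xf_ge {t : ℝ} (ht : 0 < t) : 1 / t ^ 2 - 1 / 4 ≤ Xf t := by
  rcases lt_or_ge t 2 with h | h
  · have h1 := qf_ge ht
    have h3 : 1 / 2 < 1 / t := one_div_lt_one_div_of_lt ht h
    unfold Xf
    have e : 1 / t ^ 2 - 1 / 4 = (1 / t - 1 / 2) * (1 + (1 / t - 1 / 2)) := by
      field_simp
      ring
    rw [e]
    have := qf_pos ht
    apply mul_le_mul h1 (by linarith) (by linarith) this.le
  · have h1 : 1 / t ^ 2 ≤ 1 / 2 ^ 2 :=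
      one_div_le_one_div_of_le (by norm_num) (by gcongr)
    have := Xf_pos ht
    linarith

theorem one_add_two_qf_ge {t : ℝ} (ht : 0 < t) : 2 / t ≤ 1 + 2 * qf t := by
  have := qf_ge ht
  have e : 2 / t = 2 * (1 / t) := by ring
  linarith

/-! ### zeta(2) sums -/

theorem zeta_hasSum : HasSum (fun k : ℕ => (1 : ℝ) / ((k + 1 : ℕ) : ℝ) ^ 2) (Real.pi ^ 2 / 6) := by
  have h := (hasSum_nat_add_iff' (f := fun n : ℕ => (1 : ℝ) / (n : ℝ) ^ 2) 1).2 hasSum_zeta_two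
  simpa using h

theorem zeta_partial {T : ℕ} (hT : 1 ≤ T) :
    Real.pi ^ 2 / 6 - 1 / (T : ℝ) ≤ ∑ k ∈ range T, (1 : ℝ) / ((k + 1 : ℕ) : ℝ) ^ 2 := by
  have h1 : ∀ N : ℕ, T ≤ N → ∑ k ∈ range N, (1 : ℝ) / ((k + 1 : ℕ) : ℝ) ^ 2 + 1 / (N : ℝ) ≤
      ∑ k ∈ range T, (1 : ℝ) / ((k + 1 : ℕ) : ℝ) ^ 2 + 1 / (T : ℝ) := by
    intro N hN
    induction N, hN using Nat.le_induction with
    | base => exact le_refl _
    | succ N hN ih =>
      refine le_trans ?_ ih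
      rw [sum_range_succ]
      have hN0 : (0 : ℝ) < N := by
        have : 0 < N := by omega
        exact_mod_cast this
      have : (1 : ℝ) / ((N + 1 : ℕ) : ℝ) ^ 2 + 1 / ((N + 1 : ℕ) : ℝ) ≤ 1 / (N : ℝ) := by
        push_cast
        rw [div_add_div _ _ (by positivity) (by positivity), div_le_div_iff₀ (by positivity) hN0]
        nlinarith
      linarith
  have h2 := zeta_hasSum.tendsto_sum_nat
  have h3 : Real.pi ^ 2 / 6 ≤ ∑ k ∈ range T, (1 : ℝ) / ((k + 1 : ℕ) : ℝ) ^ 2 + 1 / (T : ℝ) := by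
    refine le_of_tendsto h2 ?_
    filter_upwards [Filter.eventually_ge_atTop T] with N hN
    have := h1 N hN
    have h0 : 0 ≤ 1 / (N : ℝ) := by positivity
    linarith
  linarith

theorem A_gt : (1.64493 : ℝ) < Real.pi ^ 2 / 6 := by
  have := Real.pi_gt_d6
  nlinarith

theorem A_lt : Real.pi ^ 2 / 6 < (1.64494 : ℝ) := by
  have h1 := Real.pi_lt_d6
  have h2 := Real.pi_pos
  nlinarith

theorem Lq_eq (s : ℝ) : Lq s = Real.pi ^ 2 / 6 / s := rfl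

theorem M0_le {s : ℝ} (hs : 0 < s) : M 0 s ≤ Lq s := by
  have h := zeta_hasSum.mul_left (1 / s)
  have h2 := hasSum_le (fun k => ?_) (M0_hasSum hs) h
  · rw [Lq_eq]
    refine h2.trans_eq ?_
    ring
  · have hk : (0 : ℝ) < ((k + 1 : ℕ) : ℝ) := by positivity
    have h3 := qf_le (mul_pos hs hk)
    calc (1 / ((k + 1 : ℕ) : ℝ)) * qf (s * ((k + 1 : ℕ) : ℝ))
        ≤ (1 / ((k + 1 : ℕ) : ℝ)) * (1 / (s * ((k + 1 : ℕ) : ℝ))) :=
          mul_le_mul_of_nonneg_left h3 (by positivity)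
      _ = 1 / s * (1 / ((k + 1 : ℕ) : ℝ) ^ 2) := by
          field_simp

theorem M1_le {s : ℝ} (hs : 0 < s) : s * M 1 s ≤ Lq s := by
  have h := zeta_hasSum.mul_left (1 / s ^ 2)
  have h2 := hasSum_le (fun k => ?_) (M1_hasSum hs) h
  · rw [Lq_eq]
    calc s * M 1 s ≤ s * (1 / s ^ 2 * (Real.pi ^ 2 / 6)) := mul_le_mul_of_nonneg_left h2 hs.le
      _ = _ := by field_simp
  · have hk : (0 : ℝ) < ((k + 1 : ℕ) : ℝ) := by positivity
    refine (Xf_le (mul_pos hs hk)).trans_eq ?_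
    field_simp

/-- facts on the cut-off -/
theorem cut {s : ℝ} (hs : 0 < s) (hs' : s ≤ 1 / 40) :
    ∃ T : ℕ, 1 ≤ T ∧ s * T ≤ 2 ∧ 1 / (s * T) ≤ 0.5064 ∧ Real.log T ≤ Real.log (2 / s) := by
  have h80 : (80 : ℝ) ≤ 2 / s := by
    rw [le_div_iff₀ hs]; linarith
  have h0 : (0 : ℝ) ≤ 2 / s := by positivity
  refine ⟨⌊2 / s⌋₊, ?_, ?_, ?_, ?_⟩
  · exact Nat.le_floor (by push_cast; linarith)
  · have := Nat.floor_le h0
    calc s * (⌊2 / s⌋₊ : ℝ) ≤ s * (2 / s) := mul_le_mul_of_nonneg_left this hs.le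
      _ = 2 := by field_simp
  · have h1 := Nat.lt_floor_add_one (2 / s)
    have h2 : 2 - s ≤ s * (⌊2 / s⌋₊ : ℝ) := by
      have : s * (2 / s) = 2 := by field_simp
      nlinarith
    have h3 : (1.975 : ℝ) ≤ s * (⌊2 / s⌋₊ : ℝ) := by linarith
    calc 1 / (s * (⌊2 / s⌋₊ : ℝ)) ≤ 1 / 1.975 := one_div_le_one_div_of_le (by norm_num) h3
      _ ≤ 0.5064 := by norm_num
  · have h1 := Nat.floor_le h0
    have h2 : (0 : ℝ) < (⌊2 / s⌋₊ : ℝ) := by
      have : 0 < ⌊2 / s⌋₊ := Nat.floor_pos.2 (by linarith)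
      exact_mod_cast this
    exact Real.log_le_log h2 h1

theorem log_bound {s : ℝ} (hs : 0 < s) :
    Real.log (2 / s) ≤ 4.4092 + (2 / s - 80) / 80 := by
  have h1 : Real.log (2 / s) = Real.log 2 * 6 + Real.log (2 / s / 64) := by
    have : (2 / s : ℝ) = 2 ^ 6 * (2 / s / 64) := by ring
    conv_lhs => rw [this]
    rw [Real.log_mul (by positivity) (by positivity), Real.log_pow]
    push_cast
    ring
  have h2 : Real.log (2 / s / 80) ≤ 2 / s / 80 - 1 := Real.log_le_sub_one_of_pos (by positivity)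
  have h3 : Real.log (2 / s / 64) = Real.log (2 / s / 80) + Real.log (5 / 4) := by
    rw [← Real.log_mul (by positivity) (by norm_num)]
    congr 1
    ring
  have h4 : Real.log (5 / 4 : ℝ) ≤ 5 / 4 - 1 := Real.log_le_sub_one_of_pos (by norm_num)
  have h5 := Real.log_two_lt_d9
  linarith

theorem M0_ge {s : ℝ} (hs : 0 < s) (hs' : s ≤ 1 / 40) : 0.95 * Lq s ≤ M 0 s := by
  obtain ⟨T, hT, h1, h2, h3⟩ := cut hs hs'
  have hlog := log_bound hs
  have hz := zeta_partial hT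
  have hT0 : (0 : ℝ) < T := by exact_mod_cast hT
  have hsum : ∑ k ∈ range T, ((1 / ((k + 1 : ℕ) : ℝ)) * qf (s * ((k + 1 : ℕ) : ℝ))) ≤ M 0 s := by
    refine sum_le_hasSum _ (fun k _ => ?_) (M0_hasSum hs)
    have hk : (0 : ℝ) < ((k + 1 : ℕ) : ℝ) := by positivity
    have := qf_pos (mul_pos hs hk)
    positivity
  have hlow : (1 / s) * ∑ k ∈ range T, (1 : ℝ) / ((k + 1 : ℕ) : ℝ) ^ 2 -
      (1 / 2) * ∑ k ∈ range T, (1 : ℝ) / ((k + 1 : ℕ) : ℝ) ≤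
      ∑ k ∈ range T, ((1 / ((k + 1 : ℕ) : ℝ)) * qf (s * ((k + 1 : ℕ) : ℝ))) := by
    rw [mul_sum, mul_sum, ← sum_sub_distrib]
    refine sum_le_sum (fun k _ => ?_)
    have hk : (0 : ℝ) < ((k + 1 : ℕ) : ℝ) := by positivity
    have h5 := mul_le_mul_of_nonneg_left (qf_ge (mul_pos hs hk))
      (show 0 ≤ 1 / ((k + 1 : ℕ) : ℝ) by positivity)
    refine le_trans (le_of_eq ?_) h5
    field_simp
  have hharm : ∑ k ∈ range T, (1 : ℝ) / ((k + 1 : ℕ) : ℝ) ≤ 1 + Real.log T := by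
    have h := harmonic_le_one_add_log T
    refine le_trans (le_of_eq ?_) h
    unfold harmonic
    push_cast
    simp
  have hA := A_gt
  have h6 : (1 / s) * (Real.pi ^ 2 / 6 - 1 / (T : ℝ)) ≤
      (1 / s) * ∑ k ∈ range T, (1 : ℝ) / ((k + 1 : ℕ) : ℝ) ^ 2 :=
    mul_le_mul_of_nonneg_left hz (by positivity)
  have h7 : (1 / s) * (Real.pi ^ 2 / 6 - 1 / (T : ℝ)) = Lq s - 1 / (s * T) := by
    rw [Lq_eq]
    field_simp
  have h8 : (1.64493 : ℝ) * (1 / s) ≤ Lq s := by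
    rw [Lq_eq]
    have : (0 : ℝ) < 1 / s := by positivity
    have e : Real.pi ^ 2 / 6 / s = Real.pi ^ 2 / 6 * (1 / s) := by ring
    rw [e]
    nlinarith
  have h9 : (40 : ℝ) ≤ 1 / s := by
    rw [le_div_iff₀ hs]; linarith
  have h10 : (2 : ℝ) / s = 2 * (1 / s) := by ring
  rw [h10] at hlog
  rw [h10] at h3
  linarith

theorem sumX_ge {s : ℝ} (hs : 0 < s) {T : ℕ} (hT : 1 ≤ T) (h1 : s * T ≤ 2)
    (h2 : 1 / (s * T) ≤ 0.5064) :
    Lq s - 1.0064 ≤ s * ∑ k ∈ range T, Xf (s * ((k + 1 : ℕ) : ℝ)) := by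
  have hz := zeta_partial hT
  have hT0 : (0 : ℝ) < T := by exact_mod_cast hT
  have hlow : (1 / s ^ 2) * ∑ k ∈ range T, (1 : ℝ) / ((k + 1 : ℕ) : ℝ) ^ 2 - T / 4 ≤
      ∑ k ∈ range T, Xf (s * ((k + 1 : ℕ) : ℝ)) := by
    have e : (T : ℝ) / 4 = ∑ k ∈ range T, (1 / 4 : ℝ) := by
      rw [sum_const, card_range, nsmul_eq_mul]; ring
    rw [e, mul_sum, ← sum_sub_distrib]
    refine sum_le_sum (fun k _ => ?_)
    have hk : (0 : ℝ) < ((k + 1 : ℕ) : ℝ) := by positivity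
    have h5 := Xf_ge (mul_pos hs hk)
    refine le_trans (le_of_eq ?_) h5
    field_simp
  have h6 : s * ((1 / s ^ 2) * (Real.pi ^ 2 / 6 - 1 / (T : ℝ)) - T / 4) ≤
      s * ∑ k ∈ range T, Xf (s * ((k + 1 : ℕ) : ℝ)) := by
    refine mul_le_mul_of_nonneg_left (le_trans ?_ hlow) hs.le
    have := mul_le_mul_of_nonneg_left hz (show 0 ≤ 1 / s ^ 2 by positivity)
    linarith
  have h7 : s * ((1 / s ^ 2) * (Real.pi ^ 2 / 6 - 1 / (T : ℝ)) - T / 4) =
      Lq s - 1 / (s * T) - s * T / 4 := by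
    rw [Lq_eq]
    field_simp
  linarith

theorem Lq_ge {s : ℝ} (hs : 0 < s) (hs' : s ≤ 1 / 40) : (65.79 : ℝ) ≤ Lq s := by
  rw [Lq_eq, le_div_iff₀ hs]
  have hA := A_gt
  nlinarith

theorem M1_ge {s : ℝ} (hs : 0 < s) (hs' : s ≤ 1 / 40) : 0.984 * Lq s ≤ s * M 1 s := by
  obtain ⟨T, hT, h1, h2, h3⟩ := cut hs hs'
  have h4 := sumX_ge hs hT h1 h2
  have h5 : ∑ k ∈ range T, Xf (s * ((k + 1 : ℕ) : ℝ)) ≤ M 1 s := by
    refine sum_le_hasSum _ (fun k _ => ?_) (M1_hasSum hs)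
    have hk : (0 : ℝ) < ((k + 1 : ℕ) : ℝ) := by positivity
    exact (Xf_pos (mul_pos hs hk)).le
  have h6 := mul_le_mul_of_nonneg_left h5 hs.le
  have h7 := Lq_ge hs hs'
  linarith

theorem M2_ge {s : ℝ} (hs : 0 < s) (hs' : s ≤ 1 / 40) : 1.969 * Lq s ≤ s ^ 2 * M 2 s := by
  obtain ⟨T, hT, h1, h2, h3⟩ := cut hs hs'
  have h4 := sumX_ge hs hT h1 h2
  have h5 : ∑ k ∈ range T, ((k + 1 : ℕ) : ℝ) * (Xf (s * ((k + 1 : ℕ) : ℝ)) *
      (1 + 2 * qf (s * ((k + 1 : ℕ) : ℝ)))) ≤ M 2 s := by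
    refine sum_le_hasSum _ (fun k _ => ?_) (M2_hasSum hs)
    have hk : (0 : ℝ) < ((k + 1 : ℕ) : ℝ) := by positivity
    have h6 := (Xf_pos (mul_pos hs hk))
    have h7 := (qf_pos (mul_pos hs hk))
    positivity
  have h6 : (2 / s) * ∑ k ∈ range T, Xf (s * ((k + 1 : ℕ) : ℝ)) ≤
      ∑ k ∈ range T, ((k + 1 : ℕ) : ℝ) * (Xf (s * ((k + 1 : ℕ) : ℝ)) *
      (1 + 2 * qf (s * ((k + 1 : ℕ) : ℝ)))) := by
    rw [mul_sum]
    refine sum_le_sum (fun k _ => ?_)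
    have hk : (0 : ℝ) < ((k + 1 : ℕ) : ℝ) := by positivity
    have h6 := (Xf_pos (mul_pos hs hk))
    have h7 := one_add_two_qf_ge (mul_pos hs hk)
    calc 2 / s * Xf (s * ((k + 1 : ℕ) : ℝ)) = ((k + 1 : ℕ) : ℝ) * (Xf (s * ((k + 1 : ℕ) : ℝ)) *
        (2 / (s * ((k + 1 : ℕ) : ℝ)))) := by field_simp
      _ ≤ _ := by gcongr
  have h7 := Lq_ge hs hs'
  have h8 : s ^ 2 * ((2 / s) * ∑ k ∈ range T, Xf (s * ((k + 1 : ℕ) : ℝ))) ≤ s ^ 2 * M 2 s :=
    mul_le_mul_of_nonneg_left (h6.trans h5) (by positivity)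
  have h9 : s ^ 2 * ((2 / s) * ∑ k ∈ range T, Xf (s * ((k + 1 : ℕ) : ℝ))) =
      2 * (s * ∑ k ∈ range T, Xf (s * ((k + 1 : ℕ) : ℝ))) := by
    field_simp
  linarith

theorem M2_le {s : ℝ} (hs : 0 < s) (hs' : s ≤ 1 / 40) : s ^ 2 * M 2 s ≤ 2.25 * Lq s := by
  -- `m X (1 + 2 q) ≤ (m² X / 10 + 10 X) / 2 + (2 / s) X`
  have h1 := ((M2_hasSum' hs).mul_left (1 / 20)).add ((M1_hasSum hs).mul_left (5 + 2 / s))
  have h2 : M 2 s ≤ 1 / 20 * M 2 s + (5 + 2 / s) * M 1 s := by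
    refine hasSum_le (fun k => ?_) (M2_hasSum hs) h1
    have hk : (0 : ℝ) < ((k + 1 : ℕ) : ℝ) := by positivity
    have h6 := (Xf_pos (mul_pos hs hk))
    have h7 := qf_le (mul_pos hs hk)
    set m := ((k + 1 : ℕ) : ℝ) with hm
    set X := Xf (s * m) with hX
    have h8 : m * (X * (1 + 2 * qf (s * m))) ≤ m * (X * (1 + 2 * (1 / (s * m)))) := by gcongr
    have h9 : m * (X * (1 + 2 * (1 / (s * m)))) = m * X + 2 / s * X := by
      field_simp
    have h10 : m * X ≤ 1 / 20 * (m ^ 2 * X) + 5 * X := by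
      have : 0 ≤ X * (m - 10) ^ 2 := by positivity
      nlinarith
    linarith
  have h3 := M1_le hs
  have h4 := M_pos 1 hs
  have h5 : s ^ 2 * M 2 s ≤ 1 / 20 * (s ^ 2 * M 2 s) + (5 * s + 2) * (s * M 1 s) := by
    have := mul_le_mul_of_nonneg_left h2 (show 0 ≤ s ^ 2 by positivity)
    refine this.trans_eq ?_
    field_simp
  have h6 : (5 * s + 2) * (s * M 1 s) ≤ 2.125 * Lq s := by
    have h7 := Lq_ge hs hs'
    calc (5 * s + 2) * (s * M 1 s) ≤ (5 * s + 2) * Lq s := by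
          apply mul_le_mul_of_nonneg_left h3 (by positivity)
      _ ≤ 2.125 * Lq s := by
          apply mul_le_mul_of_nonneg_right _ (by linarith)
          linarith
  have h7 := Lq_ge hs hs'
  linarith

theorem M3_le {s : ℝ} (hs : 0 < s) (hs' : s ≤ 1 / 40) : s ^ 3 * M 3 s ≤ 6.06 * Lq s := by
  have h1 := (M2_hasSum' hs).add (zeta_hasSum.mul_left (6 / s ^ 4))
  have h2 : M 3 s ≤ M 2 s + 6 / s ^ 4 * (Real.pi ^ 2 / 6) := by
    refine hasSum_le (fun k => ?_) (M3_hasSum hs) h1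
    have hk : (0 : ℝ) < ((k + 1 : ℕ) : ℝ) := by positivity
    have h6 := (Xf_pos (mul_pos hs hk))
    have h7 := Xf_le (mul_pos hs hk)
    set m := ((k + 1 : ℕ) : ℝ) with hm
    set X := Xf (s * m) with hX
    have h8 : X ^ 2 ≤ (1 / (s * m) ^ 2) ^ 2 := by gcongr
    have h9 : m ^ 2 * (X + 6 * X ^ 2) ≤ m ^ 2 * (X + 6 * (1 / (s * m) ^ 2) ^ 2) := by gcongr
    refine h9.trans_eq ?_
    field_simp
  have h3 := M2_le hs hs'
  have h4 := mul_le_mul_of_nonneg_left h2 (show 0 ≤ s ^ 3 by positivity)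
  have h5 : s ^ 3 * (M 2 s + 6 / s ^ 4 * (Real.pi ^ 2 / 6)) = s * (s ^ 2 * M 2 s) + 6 * Lq s := by
    rw [Lq_eq]
    field_simp
  have h6 : s * (s ^ 2 * M 2 s) ≤ 1 / 40 * (2.25 * Lq s) := by
    apply mul_le_mul hs' h3 _ (by norm_num)
    have := M_pos 2 hs
    positivity
  have h7 := Lq_ge hs hs'
  linarith

end

end Pool.Agent.NekOk
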