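import Pool.Agent.NekOk.Basic
import Pool.Agent.NekOk.Moment

/-!
# Bounds for `Λ_s(θ)` away from `θ = 0`
-/

namespace Pool.Agent.NekOk

open Finset

noncomputable section

theorem far_geo {𝕜 : Type*} [NormedDivisionRing 𝕜] [HasSummableGeomSeries 𝕜] (z : 𝕜)
    (hz : ‖z‖ < 1) : HasSum (fun j : ℕ => if j = 0 then 0 else z ^ j) (z * (1 - z)⁻¹) := by
  have h1 : HasSum (fun j : ℕ => z ^ (j + 1)) (z * (1 - z)⁻¹) := by
    have h := (hasSum_geometric_of_norm_lt_one hz).mul_left z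
    refine h.congr_fun ?_
    intro j
    rw [pow_succ']
  have h2 := (hasSum_nat_add_iff (f := fun j : ℕ => if j = 0 then (0 : 𝕜) else z ^ j) 1
    (g := z * (1 - z)⁻¹)).1 (by simpa using h1)
  simpa using h2

theorem far_key {s : ℝ} (hs : 0 < s) (θ : ℝ) :
    ‖Lam s θ - (Complex.exp (-s + θ * Complex.I)) *
      (1 - Complex.exp (-s + θ * Complex.I))⁻¹‖ ≤
      M 0 s - Real.exp (-s) * (1 - Real.exp (-s))⁻¹ := by
  have hr1 : Real.exp (-s) < 1 := by rw [Real.exp_lt_one_iff]; linarith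
  have hr0 := Real.exp_pos (-s)
  have hnz : ‖Complex.exp (-s + θ * Complex.I)‖ = Real.exp (-s) := by
    rw [Complex.norm_exp]; simp
  have h1 := far_geo (Complex.exp (-s + θ * Complex.I)) (by rw [hnz]; exact hr1)
  have h2 := far_geo (Real.exp (-s)) (by
    rw [Real.norm_eq_abs, abs_of_pos hr0]; exact hr1)
  have h3 : HasSum _ (Lam s θ) := (summable_Lam hs θ).hasSum
  have h4 : HasSum _ (M 0 s) := (summable_M 0 hs).hasSum
  refine (h3.sub h1).norm_le_of_bounded (h4.sub h2) ?_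
  intro j
  by_cases hj : j = 0
  · subst hj
    simp [c_zero]
  · rw [if_neg hj, if_neg hj]
    have e1 : Complex.exp (-s + θ * Complex.I) ^ j =
        ((Real.exp (-(s * j)) : ℝ) : ℂ) * Complex.exp (((j * θ : ℝ) : ℂ) * Complex.I) := by
      rw [← Complex.exp_nat_mul, Complex.ofReal_exp, ← Complex.exp_add]
      congr 1
      push_cast
      ring
    have e2 : Real.exp (-s) ^ j = Real.exp (-(s * j)) := by
      rw [← Real.exp_nat_mul]
      congr 1
      ring
    have e3 : ((c j * Real.exp (-(s * j)) : ℝ) : ℂ) * Complex.exp (((j * θ : ℝ) : ℂ) * Complex.I) -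
        ((Real.exp (-(s * j)) : ℝ) : ℂ) * Complex.exp (((j * θ : ℝ) : ℂ) * Complex.I) =
        (((c j - 1) * Real.exp (-(s * j)) : ℝ) : ℂ) *
          Complex.exp (((j * θ : ℝ) : ℂ) * Complex.I) := by
      push_cast
      ring
    have hc := one_le_c (Nat.one_le_iff_ne_zero.2 hj)
    rw [e1, e2, e3, norm_mul, Complex.norm_exp_ofReal_mul_I, Complex.norm_real, Real.norm_eq_abs,
      abs_of_nonneg (mul_nonneg (by linarith) (Real.exp_pos _).le)]
    apply le_of_eq
    ring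

theorem far_g {t θ : ℝ} (ht : 0 < t) (ht' : t ≤ 1 / 40) (h1 : t ≤ |θ|) (h2 : |θ| ≤ Real.pi) :
    0.4999 * t ^ 2 ≤ 1 - Real.cos θ := by
  have h3 : Real.cos θ ≤ Real.cos t := by
    rw [← Real.cos_abs θ]
    exact Real.cos_le_cos_of_nonneg_of_le_pi ht.le h2 h1
  have h4 := (abs_le.1 (Real.cos_bound (x := t) (by rw [abs_of_pos ht]; linarith))).2
  rw [abs_of_pos ht] at h4
  have h5 : t ^ 2 ≤ 1 / 1600 := by nlinarith
  have h6 : t ^ 4 ≤ t ^ 2 * (1 / 1600) := by
    have : t ^ 4 = t ^ 2 * t ^ 2 := by ring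
    rw [this]
    exact mul_le_mul_of_nonneg_left h5 (by positivity)
  nlinarith

theorem far_normSq (s θ : ℝ) :
    Complex.normSq (1 - Complex.exp (-s + θ * Complex.I)) =
      (1 - Real.exp (-s)) ^ 2 + 2 * Real.exp (-s) * (1 - Real.cos θ) := by
  have h1 : (Complex.exp (-s + θ * Complex.I)).re = Real.exp (-s) * Real.cos θ := by
    rw [Complex.exp_re]; simp
  have h2 : (Complex.exp (-s + θ * Complex.I)).im = Real.exp (-s) * Real.sin θ := by
    rw [Complex.exp_im]; simp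
  rw [Complex.normSq_apply, Complex.sub_re, Complex.sub_im, h1, h2, Complex.one_re, Complex.one_im]
  linear_combination Real.exp (-s) ^ 2 * Real.sin_sq_add_cos_sq θ

theorem far_re {s : ℝ} (hs : 0 < s) (hs' : s ≤ 1 / 40) {θ κ : ℝ} (hκ : 0 ≤ κ) (hκ' : κ ≤ 0.5)
    {γ : ℝ} (hg : γ * s ^ 2 ≤ 1 - Real.cos θ) (hγ : κ ≤ 0.975 * γ * (1.975 - 2 * κ))
    (hγ0 : 0 < γ) : κ / s ≤ M 0 s - (Lam s θ).re := by
  set r := Real.exp (-s) with hr
  set z := Complex.exp (-s + θ * Complex.I) with hz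
  set g := 1 - Real.cos θ with hgdef
  have hr1 : r < 1 := by rw [hr, Real.exp_lt_one_iff]; linarith
  have hrs : 1 - s ≤ r := by have := Real.add_one_le_exp (-s); linarith
  have hr0 : 0.975 ≤ r := by norm_num; linarith
  have hg0 : 0 < g := lt_of_lt_of_le (by positivity) hg
  have hD : Complex.normSq (1 - z) = (1 - r) ^ 2 + 2 * r * g := far_normSq s θ
  have hD0 : 0 < (1 - r) ^ 2 + 2 * r * g := by positivity
  have key := far_key hs θ
  rw [← hr, ← hz] at key
  have hre := (Complex.re_le_norm (Lam s θ - z * (1 - z)⁻¹)).trans key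
  rw [Complex.sub_re] at hre
  have hz1 : z * (1 - z)⁻¹ = (1 - z)⁻¹ - 1 := by
    have : (1 - z) ≠ 0 := by
      intro h; rw [h] at hD; simp at hD; linarith
    field_simp
    ring
  have hzre : z.re = r * Real.cos θ := by
    rw [hz, Complex.exp_re]; simp [hr]
  have hT : (z * (1 - z)⁻¹).re = (1 - r + r * g) / ((1 - r) ^ 2 + 2 * r * g) - 1 := by
    rw [hz1, Complex.sub_re, Complex.inv_re, hD, Complex.sub_re, Complex.one_re, hzre, hgdef]
    congr 2
    ring
  rw [hT] at hre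
  have hR : r * (1 - r)⁻¹ = (1 - r)⁻¹ - 1 := by
    have : (1 - r) ≠ 0 := by linarith
    field_simp
    ring
  rw [hR] at hre
  have h1 : (1 - r)⁻¹ - (1 - r + r * g) / ((1 - r) ^ 2 + 2 * r * g) ≤ M 0 s - (Lam s θ).re := by
    linarith
  refine le_trans ?_ h1
  have ha : 0 < 1 - r := by linarith
  have h2 : (1 - r)⁻¹ - (1 - r + r * g) / ((1 - r) ^ 2 + 2 * r * g) =
      (r * g * (1 + r)) / ((1 - r) * ((1 - r) ^ 2 + 2 * r * g)) := by
    field_simp
    ring
  rw [h2, div_le_div_iff₀ hs (by positivity)]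
  have h3 : κ * (1 - r) ^ 2 ≤ κ * s ^ 2 :=
    mul_le_mul_of_nonneg_left (by nlinarith) hκ
  have h4 : κ * s ^ 2 ≤ r * g * (1 + r - 2 * κ) := by
    have h5 : 0.975 * (γ * s ^ 2) * (1.975 - 2 * κ) ≤ r * g * (1 + r - 2 * κ) := by
      apply mul_le_mul _ (by linarith) (by norm_num; linarith) (by positivity)
      exact mul_le_mul hr0 hg (by positivity) (by linarith)
    have h6 : κ * s ^ 2 ≤ (0.975 * γ * (1.975 - 2 * κ)) * s ^ 2 :=
      mul_le_mul_of_nonneg_right hγ (by positivity)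
    nlinarith
  have h7 : κ * ((1 - r) ^ 2 + 2 * r * g) ≤ r * g * (1 + r) := by nlinarith
  have h8 : 0 ≤ r * g * (1 + r) := by positivity
  calc κ * ((1 - r) * ((1 - r) ^ 2 + 2 * r * g))
      = (1 - r) * (κ * ((1 - r) ^ 2 + 2 * r * g)) := by ring
    _ ≤ (1 - r) * (r * g * (1 + r)) := mul_le_mul_of_nonneg_left h7 ha.le
    _ ≤ s * (r * g * (1 + r)) := mul_le_mul_of_nonneg_right (by linarith) h8
    _ = r * g * (1 + r) * s := by ring

theorem far1 {s : ℝ} (hs : 0 < s) (hs' : s ≤ 1 / 40) {θ : ℝ} (h1 : s / 2 ≤ |θ|)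
    (h2 : |θ| ≤ Real.pi) : 0.19 / s ≤ M 0 s - (Lam s θ).re := by
  have hg := far_g (t := s / 2) (by positivity) (by linarith) h1 h2
  refine far_re hs hs' (γ := 0.124975) (by norm_num) (by norm_num) ?_ (by norm_num) (by norm_num)
  refine le_trans (le_of_eq ?_) hg
  ring

theorem far2 {s : ℝ} (hs : 0 < s) (hs' : s ≤ 1 / 40) {θ : ℝ} (h1 : s ≤ |θ|)
    (h2 : |θ| ≤ Real.pi) : 0.48 / s ≤ M 0 s - (Lam s θ).re := by
  have hg := far_g hs hs' h1 h2
  exact far_re hs hs' (γ := 0.4999) (by norm_num) (by norm_num) hg (by norm_num) (by norm_num)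

theorem far_phi {s : ℝ} (hs : 0 < s) (hs' : s ≤ 1 / 40) {θ : ℝ} (h1 : s / 2 ≤ |θ|)
    (h2 : |θ| ≤ Real.pi) : ‖Lam s θ‖ ≤ 0.94 * M 0 s := by
  have hM := M0_le hs
  set r := Real.exp (-s) with hr
  set z := Complex.exp (-s + θ * Complex.I) with hz
  set g := 1 - Real.cos θ with hgdef
  have hr1 : r < 1 := by rw [hr, Real.exp_lt_one_iff]; linarith
  have hrs : 1 - s ≤ r := by have := Real.add_one_le_exp (-s); linarith
  have hr0 : 0.975 ≤ r := by norm_num; linarith
  have ha : 0 < 1 - r := by linarith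
  have hg := far_g (t := s / 2) (by positivity) (by linarith) h1 h2
  rw [← hgdef] at hg
  have hD : Complex.normSq (1 - z) = (1 - r) ^ 2 + 2 * r * g := far_normSq s θ
  have key := far_key hs θ
  rw [← hr, ← hz] at key
  have hnz : ‖z‖ = r := by rw [hz, Complex.norm_exp]; simp [hr]
  have hn1 : 1.115 * (1 - r) ≤ ‖1 - z‖ := by
    apply le_of_sq_le_sq _ (norm_nonneg _)
    rw [← Complex.normSq_eq_norm_sq, hD]
    have h3 : (1 - r) ^ 2 ≤ s ^ 2 := by nlinarith
    have h4 : 0.975 * (0.4999 * (s / 2) ^ 2) ≤ r * g :=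
      mul_le_mul hr0 hg (by positivity) (by linarith)
    nlinarith
  have hT : ‖z * (1 - z)⁻¹‖ ≤ r / (1.115 * (1 - r)) := by
    rw [norm_mul, norm_inv, hnz, ← div_eq_mul_inv]
    exact div_le_div_of_nonneg_left (by linarith) (by positivity) hn1
  have hL : ‖Lam s θ‖ ≤ M 0 s - r * (1 - r)⁻¹ + r / (1.115 * (1 - r)) := by
    have := norm_add_le (Lam s θ - z * (1 - z)⁻¹) (z * (1 - z)⁻¹)
    rw [sub_add_cancel] at this
    linarith
  refine hL.trans ?_
  have h5 : r * (1 - r)⁻¹ - r / (1.115 * (1 - r)) = (0.115 / 1.115) * (r / (1 - r)) := by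
    field_simp
    ring
  have h6 : 0.975 / s ≤ r / (1 - r) := by
    rw [div_le_div_iff₀ hs ha]
    nlinarith
  have h7 : Lq s ≤ 1.64495 / s := by
    unfold Lq
    apply div_le_div_of_nonneg_right _ hs.le
    have := Real.pi_lt_d6
    have h8 := Real.pi_pos
    nlinarith
  have h9 : 0.06 * (1.64495 / s) ≤ (0.115 / 1.115) * (0.975 / s) := by
    rw [← mul_div_assoc, ← mul_div_assoc]
    apply div_le_div_of_nonneg_right _ hs.le
    norm_num
  nlinarith

end

end Pool.Agent.NekOk
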