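import Pool.Agent.NekOk.Basic

/-!
# The coefficients `K! a K n` as Fourier coefficients
-/

namespace Pool.Agent.NekOk

open Finset MeasureTheory

noncomputable section

/-- characters of the circle -/
def Ech (m : ℤ) (θ : ℝ) : ℂ := Complex.exp (((m * θ : ℝ) : ℂ) * Complex.I)

lemma Ech_cont (m : ℤ) : Continuous (Ech m) := by unfold Ech; fun_prop

lemma norm_Ech (m : ℤ) (θ : ℝ) : ‖Ech m θ‖ = 1 := Complex.norm_exp_ofReal_mul_I _

lemma Ech_add (m n : ℤ) (θ : ℝ) : Ech (m + n) θ = Ech m θ * Ech n θ := by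
  unfold Ech
  rw [← Complex.exp_add]
  congr 1
  push_cast
  ring

lemma Ech_zero (θ : ℝ) : Ech 0 θ = 1 := by unfold Ech; simp

lemma Ech_pi (m : ℤ) : Ech m Real.pi = Ech m (-Real.pi) := by
  unfold Ech
  rw [Complex.exp_eq_exp_iff_exists_int]
  refine ⟨m, ?_⟩
  push_cast
  ring

lemma Ech_hasDeriv (m : ℤ) (θ : ℝ) : HasDerivAt (Ech m) (m * Complex.I * Ech m θ) θ := by
  unfold Ech
  have h1 : HasDerivAt (fun θ : ℝ => ((m * θ : ℝ) : ℂ) * Complex.I) (((m : ℝ) : ℂ) * Complex.I) θ := by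
    have h2 : HasDerivAt (fun θ : ℝ => (m * θ : ℝ)) (m : ℝ) θ := by
      simpa using (hasDerivAt_id θ).const_mul (m : ℝ)
    exact h2.ofReal_comp.mul_const _
  refine h1.cexp.congr_deriv ?_
  push_cast
  ring

/-- Fourier coefficients -/
def Jc (g : ℝ → ℂ) (n : ℤ) : ℂ := ∫ θ in (-Real.pi)..Real.pi, g θ * Ech (-n) θ

lemma hasSum_int {F : ℕ → ℝ → ℂ} {f : ℝ → ℂ} {u : ℕ → ℝ} (hF : ∀ n, Continuous (F n))
    (hb : ∀ n t, ‖F n t‖ ≤ u n) (hu : Summable u) (hs : ∀ t, HasSum (fun n => F n t) (f t))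
    (a b : ℝ) : HasSum (fun n => ∫ t in a..b, F n t) (∫ t in a..b, f t) := by
  apply intervalIntegral.hasSum_integral_of_dominated_convergence (fun n _ => u n)
  · intro n
    exact (hF n).aestronglyMeasurable
  · intro n
    filter_upwards with t _
    exact hb n t
  · filter_upwards with t _
    exact hu
  · exact intervalIntegrable_const
  · filter_upwards with t _
    exact hs t

lemma Jc_one (n : ℤ) : Jc (fun _ => 1) n = if n = 0 then (2 * Real.pi : ℂ) else 0 := by
  unfold Jc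
  split_ifs with h
  · subst h
    simp only [neg_zero, Ech_zero, mul_one]
    rw [intervalIntegral.integral_const]
    simp only [Complex.real_smul, mul_one]
    push_cast
    ring
  · have hn : ((-n : ℤ) : ℂ) * Complex.I ≠ 0 := by
      apply mul_ne_zero _ Complex.I_ne_zero
      exact_mod_cast (by omega : (-n : ℤ) ≠ 0)
    have h1 : ∀ θ ∈ Set.uIcc (-Real.pi) Real.pi,
        HasDerivAt (fun θ => Ech (-n) θ / (((-n : ℤ) : ℂ) * Complex.I)) (1 * Ech (-n) θ) θ := by
      intro θ _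
      refine ((Ech_hasDeriv (-n) θ).div_const _).congr_deriv ?_
      rw [mul_div_cancel_left₀ _ hn, one_mul]
    rw [intervalIntegral.integral_eq_sub_of_hasDerivAt h1
      ((continuous_const.mul (Ech_cont _)).intervalIntegrable _ _), Ech_pi, sub_self]

/-- multiplication by a trigonometric series -/
lemma Jc_series {w : ℕ → ℝ} (hw0 : ∀ j, 0 ≤ w j) (hw : Summable w) {g : ℝ → ℂ}
    (hg : Continuous g) {B : ℝ} (hB : ∀ θ, ‖g θ‖ ≤ B) {L : ℝ → ℂ}
    (hL : ∀ θ, HasSum (fun j : ℕ => (w j : ℂ) * Ech j θ) (L θ)) (n : ℤ) :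
    HasSum (fun j : ℕ => (w j : ℂ) * Jc g (n - j)) (Jc (fun θ => L θ * g θ) n) := by
  have h1 := hasSum_int (F := fun j θ => (w j : ℂ) * Ech j θ * (g θ * Ech (-n) θ))
    (f := fun θ => L θ * (g θ * Ech (-n) θ)) (u := fun j => w j * B)
    (fun j => (continuous_const.mul (Ech_cont _)).mul (hg.mul (Ech_cont _)))
    (by
      intro j θ
      rw [norm_mul, norm_mul, norm_mul, norm_Ech, norm_Ech, Complex.norm_real,
        Real.norm_of_nonneg (hw0 j), mul_one, mul_one]
      exact mul_le_mul_of_nonneg_left (hB θ) (hw0 j))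
    (hw.mul_right B) (fun θ => (hL θ).mul_right _) (-Real.pi) Real.pi
  have e1 : (∫ θ in (-Real.pi)..Real.pi, L θ * (g θ * Ech (-n) θ)) = Jc (fun θ => L θ * g θ) n := by
    unfold Jc
    apply intervalIntegral.integral_congr
    intro θ _
    simp only
    ring
  have e2 : ∀ j : ℕ, (∫ θ in (-Real.pi)..Real.pi, (w j : ℂ) * Ech j θ * (g θ * Ech (-n) θ)) =
      (w j : ℂ) * Jc g (n - j) := by
    intro j
    unfold Jc
    rw [← intervalIntegral.integral_const_mul]
    apply intervalIntegral.integral_congr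
    intro θ _
    simp only
    rw [show -(n - (j : ℤ)) = (j : ℤ) + -n by ring, Ech_add]
    ring
  rw [e1] at h1
  simp only [e2] at h1
  exact h1

/-- the weights -/
def wt (s : ℝ) (j : ℕ) : ℝ := c j * Real.exp (-(s * j))

lemma wt_nonneg (s : ℝ) (j : ℕ) : 0 ≤ wt s j := mul_nonneg (c_nonneg j) (Real.exp_pos _).le

lemma wt_zero (s : ℝ) : wt s 0 = 0 := by unfold wt; rw [c_zero, zero_mul]

lemma wt_summable {s : ℝ} (hs : 0 < s) : Summable (wt s) := by
  have h := summable_M 0 hs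
  have e : wt s = fun j : ℕ => c j * (j : ℝ) ^ 0 * Real.exp (-(s * j)) := by
    funext j
    simp [wt]
  rw [e]
  exact h

lemma Lam_hasSum {s : ℝ} (hs : 0 < s) (θ : ℝ) :
    HasSum (fun j : ℕ => (wt s j : ℂ) * Ech j θ) (Lam s θ) := by
  have h := (summable_Lam hs θ).hasSum
  have e : (fun j : ℕ => (wt s j : ℂ) * Ech j θ) =
      fun j : ℕ => ((c j * Real.exp (-(s * j)) : ℝ) : ℂ) *
        Complex.exp (((j * θ : ℝ) : ℂ) * Complex.I) := by
    funext j
    simp [wt, Ech]
  unfold Lam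
  rw [e]
  exact h

lemma Jc_pow_neg {s : ℝ} (hs : 0 < s) (k : ℕ) : ∀ n : ℤ, n < 0 →
    Jc (fun θ => Lam s θ ^ k) n = 0 := by
  induction k with
  | zero =>
    intro n hn
    simp only [pow_zero]
    rw [Jc_one, if_neg hn.ne]
  | succ k ih =>
    intro n hn
    have h := Jc_series (wt_nonneg s) (wt_summable hs) (g := fun θ => Lam s θ ^ k)
      ((Lam_continuous hs).pow k) (B := M 0 s ^ k)
      (fun θ => by
        rw [norm_pow]
        exact pow_le_pow_left₀ (norm_nonneg _) (norm_Lam_le hs θ) k)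
      (Lam_hasSum hs) n
    have e : (fun j : ℕ => (wt s j : ℂ) * Jc (fun θ => Lam s θ ^ k) (n - j)) = fun _ => 0 := by
      funext j
      rw [ih (n - j) (by omega), mul_zero]
    rw [e] at h
    have h2 := h.unique hasSum_zero
    rw [← h2]
    unfold Jc
    apply intervalIntegral.integral_congr
    intro θ _
    simp only
    ring

lemma Jc_pow_zero {s : ℝ} (hs : 0 < s) (k : ℕ) :
    Jc (fun θ => Lam s θ ^ (k + 1)) 0 = 0 := by
  have h := Jc_series (wt_nonneg s) (wt_summable hs) (g := fun θ => Lam s θ ^ k)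
    ((Lam_continuous hs).pow k) (B := M 0 s ^ k)
    (fun θ => by
      rw [norm_pow]
      exact pow_le_pow_left₀ (norm_nonneg _) (norm_Lam_le hs θ) k)
    (Lam_hasSum hs) 0
  have e : (fun j : ℕ => (wt s j : ℂ) * Jc (fun θ => Lam s θ ^ k) (0 - j)) = fun _ => 0 := by
    funext j
    rcases Nat.eq_zero_or_pos j with hj | hj
    · subst hj
      rw [wt_zero]
      simp
    · rw [Jc_pow_neg hs k (0 - j) (by omega), mul_zero]
  rw [e] at h
  have h2 := h.unique hasSum_zero
  rw [← h2]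
  unfold Jc
  apply intervalIntegral.integral_congr
  intro θ _
  simp only
  ring

/-- the integrand -/
def gk (s : ℝ) (K : ℕ) (θ : ℝ) : ℂ := Complex.exp (Lam s θ) * Lam s θ ^ K

lemma gk_cont {s : ℝ} (hs : 0 < s) (K : ℕ) : Continuous (gk s K) := by
  have h := Lam_continuous hs
  unfold gk
  exact h.cexp.mul (h.pow K)

lemma gk_bound {s : ℝ} (hs : 0 < s) (K : ℕ) (θ : ℝ) :
    ‖gk s K θ‖ ≤ Real.exp (M 0 s) * M 0 s ^ K := by
  unfold gk
  rw [norm_mul, norm_pow]
  have h1 := norm_Lam_le hs θ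
  have h2 : ‖Complex.exp (Lam s θ)‖ ≤ Real.exp (M 0 s) :=
    (Complex.norm_exp_le_exp_norm _).trans (Real.exp_le_exp.mpr h1)
  exact mul_le_mul h2 (pow_le_pow_left₀ (norm_nonneg _) h1 K) (by positivity) (Real.exp_pos _).le

lemma Jc_gk {s : ℝ} (hs : 0 < s) (K : ℕ) (n : ℤ) :
    HasSum (fun i : ℕ => (1 / (i.factorial : ℂ)) * Jc (fun θ => Lam s θ ^ (K + i)) n)
      (Jc (gk s K) n) := by
  have hM := M_nonneg 0 s
  have h1 := hasSum_int (F := fun i θ => Lam s θ ^ i / (i.factorial : ℂ) * (Lam s θ ^ K * Ech (-n) θ))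
    (f := fun θ => Complex.exp (Lam s θ) * (Lam s θ ^ K * Ech (-n) θ))
    (u := fun i => M 0 s ^ i / i.factorial * M 0 s ^ K)
    (by
      intro i
      have h := Lam_continuous hs
      exact ((h.pow i).div_const _).mul ((h.pow K).mul (Ech_cont _)))
    (by
      intro i θ
      have h1 := norm_Lam_le hs θ
      rw [norm_mul, norm_mul, norm_div, norm_pow, norm_pow, norm_Ech, mul_one,
        Complex.norm_natCast]
      apply mul_le_mul _ (pow_le_pow_left₀ (norm_nonneg _) h1 K) (by positivity) (by positivity)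
      exact div_le_div_of_nonneg_right (pow_le_pow_left₀ (norm_nonneg _) h1 i) (by positivity))
    ((Real.summable_pow_div_factorial (M 0 s)).mul_right _)
    (by
      intro θ
      apply HasSum.mul_right
      have h2 := NormedSpace.expSeries_div_hasSum_exp (Lam s θ)
      rwa [← Complex.exp_eq_exp_ℂ] at h2)
    (-Real.pi) Real.pi
  have e1 : (∫ θ in (-Real.pi)..Real.pi, Complex.exp (Lam s θ) * (Lam s θ ^ K * Ech (-n) θ)) =
      Jc (gk s K) n := by
    unfold Jc gk
    apply intervalIntegral.integral_congr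
    intro θ _
    simp only
    ring
  have e2 : ∀ i : ℕ, (∫ θ in (-Real.pi)..Real.pi,
      Lam s θ ^ i / (i.factorial : ℂ) * (Lam s θ ^ K * Ech (-n) θ)) =
      (1 / (i.factorial : ℂ)) * Jc (fun θ => Lam s θ ^ (K + i)) n := by
    intro i
    unfold Jc
    rw [← intervalIntegral.integral_const_mul]
    apply intervalIntegral.integral_congr
    intro θ _
    simp only
    rw [pow_add]
    ring
  rw [e1] at h1
  simp only [e2] at h1
  exact h1

lemma Jc_gk_neg {s : ℝ} (hs : 0 < s) (K : ℕ) {n : ℤ} (hn : n < 0) : Jc (gk s K) n = 0 := by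
  have h := Jc_gk hs K n
  have e : (fun i : ℕ => (1 / (i.factorial : ℂ)) * Jc (fun θ => Lam s θ ^ (K + i)) n) =
      fun _ => 0 := by
    funext i
    rw [Jc_pow_neg hs _ n hn, mul_zero]
  rw [e] at h
  exact h.unique hasSum_zero

lemma Jc_gk_zero {s : ℝ} (hs : 0 < s) : Jc (gk s 0) 0 = 2 * Real.pi := by
  have h := Jc_gk hs 0 0
  have h2 : HasSum (fun i : ℕ => (1 / (i.factorial : ℂ)) * Jc (fun θ => Lam s θ ^ (0 + i)) 0)
      ((1 / ((0 : ℕ).factorial : ℂ)) * Jc (fun θ => Lam s θ ^ (0 + 0)) 0) := by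
    apply hasSum_single
    intro i hi
    obtain ⟨k, rfl⟩ : ∃ k, i = k + 1 := ⟨i - 1, by omega⟩
    rw [show 0 + (k + 1) = k + 1 by ring, Jc_pow_zero hs, mul_zero]
  rw [h.unique h2]
  simp only [add_zero, pow_zero]
  rw [Jc_one]
  simp

/-- a finite form of the recursions -/
lemma finite_sum {w : ℕ → ℝ} {f : ℤ → ℂ} {x : ℂ} {n : ℕ} (hf : ∀ m : ℤ, m < 0 → f m = 0)
    (h : HasSum (fun j : ℕ => (w j : ℂ) * f ((n : ℤ) - j)) x) :
    x = ∑ j ∈ range (n + 1), (w j : ℂ) * f ((n - j : ℕ) : ℤ) := by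
  have h2 : HasSum (fun j : ℕ => (w j : ℂ) * f ((n : ℤ) - j))
      (∑ j ∈ range (n + 1), (w j : ℂ) * f ((n : ℤ) - j)) := by
    apply hasSum_sum_of_ne_finset_zero
    intro j hj
    rw [Finset.mem_range] at hj
    rw [hf _ (by omega), mul_zero]
  rw [h.unique h2]
  apply Finset.sum_congr rfl
  intro j hj
  rw [Finset.mem_range] at hj
  rw [Nat.cast_sub (by omega)]

lemma step_gk {s : ℝ} (hs : 0 < s) (K n : ℕ) :
    Jc (gk s (K + 1)) n = ∑ j ∈ range (n + 1), (wt s j : ℂ) * Jc (gk s K) ((n - j : ℕ) : ℤ) := by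
  have h := Jc_series (wt_nonneg s) (wt_summable hs) (gk_cont hs K) (gk_bound hs K)
    (Lam_hasSum hs) n
  have h2 := finite_sum (fun m hm => Jc_gk_neg hs K hm) h
  rw [← h2]
  unfold Jc gk
  apply intervalIntegral.integral_congr
  intro θ _
  simp only
  ring

/-- the weights of the derivative -/
def wt1 (s : ℝ) (j : ℕ) : ℝ := sg j * Real.exp (-(s * j))

lemma wt1_nonneg (s : ℝ) (j : ℕ) : 0 ≤ wt1 s j := mul_nonneg (sg_nonneg j) (Real.exp_pos _).le

lemma wt1_eq (s : ℝ) (j : ℕ) : wt1 s j = j * wt s j := by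
  unfold wt1 wt
  rw [← c_mul]
  ring

lemma wt1_summable {s : ℝ} (hs : 0 < s) : Summable (wt1 s) := by
  have h := summable_M 1 hs
  have e : wt1 s = fun j : ℕ => c j * (j : ℝ) ^ 1 * Real.exp (-(s * j)) := by
    funext j
    rw [wt1_eq]
    unfold wt
    ring
  rw [e]
  exact h

/-- the derivative of `Lam` divided by `i` -/
def Sg (s θ : ℝ) : ℂ := ∑' j : ℕ, (wt1 s j : ℂ) * Ech j θ

lemma Sg_hasSum {s : ℝ} (hs : 0 < s) (θ : ℝ) :
    HasSum (fun j : ℕ => (wt1 s j : ℂ) * Ech j θ) (Sg s θ) := by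
  apply Summable.hasSum
  apply Summable.of_norm
  refine (wt1_summable hs).congr ?_
  intro j
  rw [norm_mul, norm_Ech, mul_one, Complex.norm_real, Real.norm_of_nonneg (wt1_nonneg s j)]

lemma Sg_cont {s : ℝ} (hs : 0 < s) : Continuous (Sg s) := by
  unfold Sg
  refine continuous_tsum (u := wt1 s) (fun j => continuous_const.mul (Ech_cont _))
    (wt1_summable hs) ?_
  intro j θ
  rw [norm_mul, norm_Ech, mul_one, Complex.norm_real, Real.norm_of_nonneg (wt1_nonneg s j)]

lemma Lam_eq {s : ℝ} (hs : 0 < s) (θ : ℝ) : Lam s θ = ∑' j : ℕ, (wt s j : ℂ) * Ech j θ :=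
  (Lam_hasSum hs θ).tsum_eq.symm

lemma Lam_hasDeriv {s : ℝ} (hs : 0 < s) (θ : ℝ) :
    HasDerivAt (Lam s) (Complex.I * Sg s θ) θ := by
  have h := hasDerivAt_tsum (u := wt1 s) (g := fun (j : ℕ) θ => (wt s j : ℂ) * Ech j θ)
    (g' := fun (j : ℕ) θ => (wt s j : ℂ) * (((j : ℤ) : ℂ) * Complex.I * Ech j θ)) (y₀ := (0 : ℝ))
    (wt1_summable hs) (fun j y => (Ech_hasDeriv j y).const_mul _)
    (by
      intro j y
      rw [norm_mul, norm_mul, norm_mul, norm_Ech, Complex.norm_I, mul_one, mul_one,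
        Complex.norm_real, Real.norm_of_nonneg (wt_nonneg s j), wt1_eq]
      simp [mul_comm])
    (Lam_hasSum hs 0).summable θ
  have e1 : (fun z => ∑' j : ℕ, (wt s j : ℂ) * Ech j z) = Lam s := by
    funext z
    exact (Lam_eq hs z).symm
  have e2 : (∑' j : ℕ, (wt s j : ℂ) * (((j : ℤ) : ℂ) * Complex.I * Ech j θ)) =
      Complex.I * Sg s θ := by
    unfold Sg
    rw [← tsum_mul_left]
    apply tsum_congr
    intro j
    rw [wt1_eq]
    push_cast
    ring
  rw [e1, e2] at h
  exact h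

lemma Lam_pi {s : ℝ} (hs : 0 < s) : Lam s Real.pi = Lam s (-Real.pi) := by
  rw [Lam_eq hs, Lam_eq hs]
  apply tsum_congr
  intro j
  rw [Ech_pi]

lemma row_gk {s : ℝ} (hs : 0 < s) (n : ℕ) :
    (n : ℂ) * Jc (gk s 0) n =
      ∑ j ∈ range (n + 1), (wt1 s j : ℂ) * Jc (gk s 0) ((n - j : ℕ) : ℤ) := by
  have h := Jc_series (wt1_nonneg s) (wt1_summable hs) (gk_cont hs 0) (gk_bound hs 0)
    (Sg_hasSum hs) n
  have h2 := finite_sum (fun m hm => Jc_gk_neg hs 0 hm) h
  rw [← h2]
  have hd : ∀ θ ∈ Set.uIcc (-Real.pi) Real.pi,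
      HasDerivAt (fun θ => Complex.exp (Lam s θ) * Ech (-(n : ℤ)) θ)
        (Complex.I * (Sg s θ * gk s 0 θ * Ech (-(n : ℤ)) θ) -
          Complex.I * ((n : ℂ) * (gk s 0 θ * Ech (-(n : ℤ)) θ))) θ := by
    intro θ _
    refine ((Lam_hasDeriv hs θ).cexp.mul (Ech_hasDeriv (-(n : ℤ)) θ)).congr_deriv ?_
    unfold gk
    push_cast
    ring
  have hc1 : Continuous (fun θ => Sg s θ * gk s 0 θ * Ech (-(n : ℤ)) θ) :=
    ((Sg_cont hs).mul (gk_cont hs 0)).mul (Ech_cont _)
  have hc2 : Continuous (fun θ => gk s 0 θ * Ech (-(n : ℤ)) θ) := (gk_cont hs 0).mul (Ech_cont _)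
  have i1 : IntervalIntegrable (fun θ => Complex.I * (Sg s θ * gk s 0 θ * Ech (-(n : ℤ)) θ))
      volume (-Real.pi) Real.pi := (continuous_const.mul hc1).intervalIntegrable _ _
  have i2 : IntervalIntegrable (fun θ => Complex.I * ((n : ℂ) * (gk s 0 θ * Ech (-(n : ℤ)) θ)))
      volume (-Real.pi) Real.pi :=
    (continuous_const.mul (continuous_const.mul hc2)).intervalIntegrable _ _
  have h3 := intervalIntegral.integral_eq_sub_of_hasDerivAt hd (i1.sub i2)
  rw [Lam_pi hs, Ech_pi, sub_self, intervalIntegral.integral_sub i1 i2,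
    intervalIntegral.integral_const_mul, intervalIntegral.integral_const_mul,
    intervalIntegral.integral_const_mul, ← mul_sub] at h3
  have h4 := (mul_eq_zero.mp h3).resolve_left Complex.I_ne_zero
  unfold Jc
  rw [sub_eq_zero] at h4
  rw [← h4]

theorem gk_eq {a : ℕ → ℕ → ℝ} (ha : IsNO a) {s : ℝ} (hs : 0 < s) (K : ℕ) : ∀ n : ℕ,
    Jc (gk s K) n = ((2 * Real.pi * (K.factorial : ℝ) * a K n * Real.exp (-(s * n)) : ℝ) : ℂ) := by
  have hexp : ∀ n j : ℕ, j ≤ n →
      Real.exp (-(s * j)) * Real.exp (-(s * ((n - j : ℕ) : ℝ))) = Real.exp (-(s * n)) := by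
    intro n j hj
    rw [← Real.exp_add, Nat.cast_sub hj]
    congr 1
    ring
  induction K with
  | zero =>
    intro n
    induction n using Nat.strong_induction_on with
    | _ n ih =>
      rcases Nat.eq_zero_or_pos n with hn | hn
      · subst hn
        have := Jc_gk_zero hs
        simp only [Nat.cast_zero] at this ⊢
        rw [this, ha.zero]
        simp
      · have h1 := row_gk hs n
        have h2 := ha.row n
        have hn0 : (n : ℂ) ≠ 0 := by exact_mod_cast hn.ne'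
        apply mul_left_cancel₀ hn0
        rw [h1]
        have h3 : (n : ℂ) * ((2 * Real.pi * ((0 : ℕ).factorial : ℝ) * a 0 n * Real.exp (-(s * n)) : ℝ) : ℂ)
            = ((2 * Real.pi * Real.exp (-(s * n)) * ((n : ℝ) * a 0 n) : ℝ) : ℂ) := by
          push_cast
          simp
          ring
        rw [h3, h2, Finset.mul_sum]
        push_cast
        apply Finset.sum_congr rfl
        intro j hj
        rw [Finset.mem_range] at hj
        rcases Nat.eq_zero_or_pos j with hj0 | hj0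
        · subst hj0
          simp [wt1, sg_zero]
        · rw [ih (n - j) (by omega)]
          have h4 := hexp n j (by omega)
          have h5 : wt1 s j * (2 * Real.pi * ((0 : ℕ).factorial : ℝ) * a 0 (n - j) *
              Real.exp (-(s * ((n - j : ℕ) : ℝ)))) =
              2 * Real.pi * Real.exp (-(s * n)) * (sg j * a 0 (n - j)) := by
            rw [← h4]
            unfold wt1
            simp
            ring
          have h6 := congrArg (fun x : ℝ => (x : ℂ)) h5
          push_cast at h6 ⊢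
          linear_combination h6
  | succ K ihK =>
    intro n
    rw [step_gk hs K n]
    have h2 := ha.step K n
    have h3 : ((2 * Real.pi * ((K + 1).factorial : ℝ) * a (K + 1) n * Real.exp (-(s * n)) : ℝ) : ℂ)
        = ((2 * Real.pi * (K.factorial : ℝ) * Real.exp (-(s * n)) *
          (((K : ℝ) + 1) * a (K + 1) n) : ℝ) : ℂ) := by
      rw [Nat.factorial_succ]
      push_cast
      ring
    rw [h3, h2, Finset.mul_sum]
    push_cast
    apply Finset.sum_congr rfl
    intro j hj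
    rw [Finset.mem_range] at hj
    rw [ihK (n - j)]
    have h4 := hexp n j (by omega)
    have h5 : wt s j * (2 * Real.pi * (K.factorial : ℝ) * a K (n - j) *
        Real.exp (-(s * ((n - j : ℕ) : ℝ)))) =
        2 * Real.pi * (K.factorial : ℝ) * Real.exp (-(s * n)) * (c j * a K (n - j)) := by
      rw [← h4]
      unfold wt
      ring
    have h6 := congrArg (fun x : ℝ => (x : ℂ)) h5
    push_cast at h6 ⊢
    linear_combination h6

theorem fourier {a : ℕ → ℕ → ℝ} (ha : IsNO a) {s : ℝ} (hs : 0 < s) (K n : ℕ) :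
    ∫ θ in (-Real.pi)..Real.pi, Complex.exp (Lam s θ) * Lam s θ ^ K *
        Complex.exp (-(((n * θ : ℝ) : ℂ) * Complex.I)) =
      ((2 * Real.pi * (K.factorial : ℝ) * a K n * Real.exp (-(s * n)) : ℝ) : ℂ) := by
  rw [← gk_eq ha hs K n]
  unfold Jc gk
  apply intervalIntegral.integral_congr
  intro θ _
  simp only
  congr 1
  unfold Ech
  congr 1
  push_cast
  ring

end

end Pool.Agent.NekOk
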