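import Pool.Agent.NekOk.Basic

/-!
# Third order Taylor bounds for the trigonometric series `Λ_s(θ)`
-/

namespace Pool.Agent.NekOk

open Finset

noncomputable section

namespace Tay

/-- Taylor remainder of `y ↦ e^{iy}` -/
def rem (n : ℕ) (y : ℝ) : ℂ :=
  Complex.exp ((y : ℂ) * Complex.I) - ∑ k ∈ range n, ((y : ℂ) * Complex.I) ^ k / (k.factorial : ℂ)

theorem rem_hasDeriv (n : ℕ) (y : ℝ) :
    HasDerivAt (rem (n + 1)) (Complex.I * rem n y) y := by
  have h0 : HasDerivAt (fun y : ℝ => (y : ℂ) * Complex.I) Complex.I y := by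
    simpa using (Complex.ofRealCLM.hasDerivAt (x := y)).mul_const Complex.I
  have h1 : HasDerivAt (fun y : ℝ => Complex.exp ((y : ℂ) * Complex.I))
      (Complex.exp ((y : ℂ) * Complex.I) * Complex.I) y := h0.cexp
  have h2 : HasDerivAt (fun y : ℝ => ∑ k ∈ range (n + 1),
      ((y : ℂ) * Complex.I) ^ k / (k.factorial : ℂ))
      (∑ k ∈ range (n + 1), ((k : ℂ) * ((y : ℂ) * Complex.I) ^ (k - 1) * Complex.I)
        / (k.factorial : ℂ)) y := by
    refine HasDerivAt.fun_sum fun k _ => ?_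
    exact (h0.fun_pow k).div_const _
  have h3 := h1.sub h2
  refine h3.congr_deriv ?_
  rw [Finset.sum_range_succ']
  unfold rem
  rw [mul_sub, Finset.mul_sum]
  have h4 : ∀ k ∈ range n, (((k + 1 : ℕ) : ℂ) * ((y : ℂ) * Complex.I) ^ (k + 1 - 1) * Complex.I)
        / ((k + 1).factorial : ℂ) = Complex.I * (((y : ℂ) * Complex.I) ^ k / (k.factorial : ℂ)) := by
    intro k _
    rw [Nat.factorial_succ, Nat.add_sub_cancel]
    have h5 : ((k + 1 : ℕ) : ℂ) ≠ 0 := by exact_mod_cast Nat.succ_ne_zero k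
    have h6 : (k.factorial : ℂ) ≠ 0 := by exact_mod_cast Nat.factorial_ne_zero k
    push_cast at h5 ⊢
    field_simp
  rw [Finset.sum_congr rfl h4]
  simp
  ring

theorem rem_zero (n : ℕ) : rem (n + 1) 0 = 0 := by
  unfold rem
  rw [Finset.sum_range_succ']
  simp

theorem norm_rem_pos (n : ℕ) : ∀ y : ℝ, 0 ≤ y → ‖rem n y‖ ≤ y ^ n / n.factorial := by
  induction n with
  | zero =>
    intro y _
    unfold rem
    simp [Complex.norm_exp_ofReal_mul_I]
  | succ n ih =>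
    intro y hy
    have hB : ∀ x : ℝ, HasDerivAt (fun x : ℝ => x ^ (n + 1) / ((n + 1).factorial : ℝ))
        (x ^ n / (n.factorial : ℝ)) x := by
      intro x
      have h1 := ((hasDerivAt_pow (n + 1) x).div_const ((n + 1).factorial : ℝ))
      refine h1.congr_deriv ?_
      rw [Nat.factorial_succ, Nat.add_sub_cancel]
      have h5 : ((n + 1 : ℕ) : ℝ) ≠ 0 := by exact_mod_cast Nat.succ_ne_zero n
      have h6 : (n.factorial : ℝ) ≠ 0 := by exact_mod_cast Nat.factorial_ne_zero n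
      push_cast at h5 ⊢
      field_simp
    have h := image_norm_le_of_norm_deriv_right_le_deriv_boundary (a := 0) (b := y)
      (f := rem (n + 1)) (f' := fun x => Complex.I * rem n x)
      (B := fun x : ℝ => x ^ (n + 1) / ((n + 1).factorial : ℝ))
      (B' := fun x : ℝ => x ^ n / (n.factorial : ℝ))
      (fun x _ => (rem_hasDeriv n x).continuousAt.continuousWithinAt)
      (fun x _ => (rem_hasDeriv n x).hasDerivWithinAt)
      (by rw [rem_zero]; simp) hB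
      (fun x hx => by
        rw [norm_mul, Complex.norm_I, one_mul]
        exact ih x hx.1)
    exact h ⟨hy, le_rfl⟩

theorem rem_neg (n : ℕ) (y : ℝ) : rem n (-y) = (starRingEnd ℂ) (rem n y) := by
  unfold rem
  simp only [map_sub, map_sum, map_div₀, map_pow, map_mul, Complex.conj_ofReal, Complex.conj_I,
    map_natCast, ← Complex.exp_conj]
  push_cast
  simp

theorem norm_rem (n : ℕ) (y : ℝ) : ‖rem n y‖ ≤ |y| ^ n / n.factorial := by
  rcases le_total 0 y with h | h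
  · rw [abs_of_nonneg h]; exact norm_rem_pos n y h
  · have h1 := norm_rem_pos n (-y) (by linarith)
    rw [rem_neg, Complex.norm_conj] at h1
    rwa [abs_of_nonpos h]

theorem rem1 (y : ℝ) : rem 1 y = Complex.exp ((y : ℂ) * Complex.I) - 1 := by
  simp [rem]

theorem rem3 (y : ℝ) : rem 3 y = Complex.exp ((y : ℂ) * Complex.I) - 1 - (y : ℂ) * Complex.I
    + ((y ^ 2 / 2 : ℝ) : ℂ) := by
  simp only [rem, Finset.sum_range_succ, Finset.sum_range_zero, pow_zero, Nat.factorial,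
    pow_one, Nat.cast_one, Nat.succ_eq_add_one, zero_add, mul_one, Nat.reduceAdd,
    mul_pow, Complex.I_sq]
  push_cast
  ring

theorem rem4_re (y : ℝ) : (rem 4 y).re = Real.cos y - 1 + y ^ 2 / 2 := by
  have h : rem 4 y = (((Real.cos y - 1 + y ^ 2 / 2 : ℝ)) : ℂ)
      + ((Real.sin y - y + y ^ 3 / 6 : ℝ) : ℂ) * Complex.I := by
    simp only [rem, Finset.sum_range_succ, Finset.sum_range_zero, pow_zero, Nat.factorial,
      pow_one, Nat.cast_one, Nat.succ_eq_add_one, zero_add, mul_one, Nat.reduceAdd, Nat.reduceMul,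
      mul_pow, Complex.I_sq, Complex.exp_mul_I]
    have h3 : Complex.I ^ 3 = - Complex.I := Complex.I_pow_three
    rw [h3]
    push_cast
    ring
  rw [h]
  simp [-Complex.ofReal_add, -Complex.ofReal_sub, -Complex.ofReal_pow, -Complex.ofReal_div]

theorem cos_le4 (y : ℝ) : Real.cos y ≤ 1 - y ^ 2 / 2 + |y| ^ 4 / 24 := by
  have h1 := norm_rem 4 y
  have h2 := (Complex.abs_re_le_norm (rem 4 y)).trans h1
  rw [rem4_re] at h2
  have h3 := (le_abs_self _).trans h2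
  norm_num [Nat.factorial] at h3
  linarith

theorem cos_le (y : ℝ) : Real.cos y ≤ 1 - y ^ 2 / 2 + |y| ^ 3 / 8 := by
  wlog hy : 0 ≤ y with H
  · have := H (-y) (by linarith)
    rwa [Real.cos_neg, abs_neg, neg_sq] at this
  rw [abs_of_nonneg hy]
  rcases le_total y 3 with h | h
  · have h1 := cos_le4 y
    rw [abs_of_nonneg hy] at h1
    have h2 : y ^ 4 / 24 ≤ y ^ 3 / 8 := by
      have : 0 ≤ y ^ 3 := by positivity
      nlinarith
    linarith
  rcases le_total y 4 with h' | h'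
  · have h1 : Real.cos y ≤ - (1 / 8) := by
      have h2 := Real.one_sub_sq_div_two_le_cos (x := y - Real.pi)
      rw [Real.cos_sub_pi] at h2
      have h3 := Real.pi_gt_d2
      have h4 := Real.pi_lt_d2
      have h5 : (y - Real.pi) ^ 2 ≤ 1 := by nlinarith
      linarith
    have h6 : y ^ 2 / 2 - y ^ 3 / 8 ≤ 9 / 8 := by
      nlinarith [mul_nonneg (sub_nonneg.2 h) (sub_nonneg.2 h),
        mul_nonneg (mul_nonneg (sub_nonneg.2 h) (sub_nonneg.2 h)) (sub_nonneg.2 h)]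
    linarith
  · have h1 := Real.cos_le_one y
    have h2 : 0 ≤ y ^ 2 * (y - 4) := by
      have : 0 ≤ y - 4 := by linarith
      positivity
    nlinarith

/-- weights -/
def w (s : ℝ) (j : ℕ) : ℝ := c j * Real.exp (-(s * j))

theorem w_nonneg (s : ℝ) (j : ℕ) : 0 ≤ w s j := mul_nonneg (c_nonneg j) (Real.exp_pos _).le

theorem hasSum_M (p : ℕ) {s : ℝ} (hs : 0 < s) : HasSum (fun j : ℕ => w s j * (j : ℝ) ^ p) (M p s) := by
  have := (summable_M p hs).hasSum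
  refine this.congr_fun ?_
  intro j
  unfold w
  ring

theorem hasSum_Lam {s : ℝ} (hs : 0 < s) (θ : ℝ) :
    HasSum (fun j : ℕ => (w s j : ℂ) * Complex.exp (((j * θ : ℝ) : ℂ) * Complex.I)) (Lam s θ) :=
  (summable_Lam hs θ).hasSum

theorem hasSum_Mc (p : ℕ) {s : ℝ} (hs : 0 < s) :
    HasSum (fun j : ℕ => (w s j : ℂ) * ((j : ℂ) ^ p)) (M p s : ℂ) := by
  have := Complex.hasSum_ofReal.mpr (hasSum_M p hs)
  refine this.congr_fun ?_
  intro j
  push_cast
  ring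

theorem hsC {f g : ℕ → ℂ} {a b : ℂ} (h : HasSum f a) (hfg : ∀ j, g j = f j) (hab : b = a) :
    HasSum g b := by
  rw [hab, funext hfg]; exact h

theorem hsR {f g : ℕ → ℝ} {a b : ℝ} (h : HasSum f a) (hfg : ∀ j, g j = f j) (hab : b = a) :
    HasSum g b := by
  rw [hab, funext hfg]; exact h

/-- bound for a weighted sum -/
theorem wbound {s : ℝ} {f : ℕ → ℂ} {g : ℕ → ℝ} {S : ℂ} {T : ℝ}
    (hf : HasSum (fun j => (w s j : ℂ) * f j) S) (hg : HasSum (fun j => w s j * g j) T)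
    (h : ∀ j, ‖f j‖ ≤ g j) : ‖S‖ ≤ T := by
  refine hf.norm_le_of_bounded hg fun j => ?_
  rw [norm_mul, Complex.norm_real, Real.norm_eq_abs, abs_of_nonneg (w_nonneg s j)]
  exact mul_le_mul_of_nonneg_left (h j) (w_nonneg s j)

/-- shifted series: `Σ w_j e^{i(j-ρ)θ} = e^{-iρθ} Λ(θ)` -/
theorem hasSum_shift {s : ℝ} (hs : 0 < s) (ρ θ : ℝ) :
    HasSum (fun j : ℕ => (w s j : ℂ) * Complex.exp ((((j - ρ) * θ : ℝ) : ℂ) * Complex.I))
      (Lam s θ * Complex.exp (-(((ρ * θ : ℝ) : ℂ) * Complex.I))) := by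
  refine ((hasSum_Lam hs θ).mul_right _).congr_fun fun j => ?_
  rw [mul_assoc, ← Complex.exp_add]
  congr 2
  push_cast
  ring

theorem abs_cube_le {x ρ : ℝ} (hx : 0 ≤ x) (hρ : 0 ≤ ρ) :
    |x - ρ| ^ 3 ≤ (x - ρ) ^ 3 + 2 * ρ ^ 3 := by
  rcases le_total ρ x with h | h
  · rw [abs_of_nonneg (by linarith)]
    have : 0 ≤ ρ ^ 3 := by positivity
    linarith
  · rw [abs_of_nonpos (by linarith)]
    have h1 : (-(x - ρ)) ^ 3 ≤ ρ ^ 3 := pow_le_pow_left₀ (by linarith) (by linarith) 3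
    have h2 : (-(x - ρ)) ^ 3 = -(x - ρ) ^ 3 := by ring
    linarith

end Tay

open Tay

theorem Lam_neg {s : ℝ} (hs : 0 < s) (θ : ℝ) :
    Lam s (-θ) = (starRingEnd ℂ) (Lam s θ) := by
  have h1 := hasSum_Lam hs (-θ)
  have h2 : HasSum (fun j : ℕ => (starRingEnd ℂ) ((w s j : ℂ) *
      Complex.exp (((j * θ : ℝ) : ℂ) * Complex.I))) ((starRingEnd ℂ) (Lam s θ)) := by
    have h3 := (hasSum_Lam hs θ)
    have h4 : Lam s θ = (starRingEnd ℂ) ((starRingEnd ℂ) (Lam s θ)) := (Complex.conj_conj _).symm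
    rw [h4] at h3
    exact Complex.hasSum_conj.2 h3
  refine h1.unique (hsC h2 (fun j => ?_) rfl)
  simp only [map_mul, Complex.conj_ofReal, Complex.conj_I, ← Complex.exp_conj]
  push_cast
  simp

theorem Lam_taylor {s : ℝ} (hs : 0 < s) (θ : ℝ) :
    ‖Lam s θ - (M 0 s : ℂ) - ((M 1 s * θ : ℝ) : ℂ) * Complex.I
      + ((M 2 s * θ ^ 2 / 2 : ℝ) : ℂ)‖ ≤ M 3 s * |θ| ^ 3 / 6 := by
  refine wbound (s := s) (f := fun j : ℕ => rem 3 (j * θ)) (g := fun j => |(j : ℝ) * θ| ^ 3 / 6)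
    ?_ ?_ ?_
  · have h := (((hasSum_Lam hs θ).sub (hasSum_Mc 0 hs)).sub
      ((hasSum_Mc 1 hs).mul_right ((θ : ℂ) * Complex.I))).add
      ((hasSum_Mc 2 hs).mul_right ((θ : ℂ) ^ 2 / 2))
    refine hsC h (fun j => ?_) ?_
    · rw [rem3]
      push_cast
      ring
    · push_cast
      ring
  · have h := (hasSum_M 3 hs).mul_right (|θ| ^ 3 / 6)
    refine hsR h (fun j => ?_) ?_
    · rw [abs_mul, Nat.abs_cast]
      ring
    · ring
  · intro j
    have := norm_rem 3 (j * θ)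
    norm_num [Nat.factorial] at this ⊢
    exact this

theorem phi_taylor {s : ℝ} (hs : 0 < s) (θ : ℝ) :
    ‖Lam s θ / (M 0 s : ℂ) * Complex.exp (-(((M 1 s / M 0 s * θ : ℝ) : ℂ) * Complex.I)) - 1
      + (((M 2 s / M 0 s - (M 1 s / M 0 s) ^ 2) * θ ^ 2 / 2 : ℝ) : ℂ)‖
      ≤ (M 3 s / M 0 s - 3 * (M 1 s / M 0 s) * (M 2 s / M 0 s) + 4 * (M 1 s / M 0 s) ^ 3)
          * |θ| ^ 3 / 6 := by
  have hM : 0 < M 0 s := M_pos 0 hs
  have hMc : (M 0 s : ℂ) ≠ 0 := by exact_mod_cast hM.ne'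
  set ρ : ℝ := M 1 s / M 0 s with hρ
  have hρ0 : 0 ≤ ρ := div_nonneg (M_nonneg 1 s) hM.le
  have hM1 : M 1 s = ρ * M 0 s := by rw [hρ]; field_simp
  have hmain : ‖Lam s θ * Complex.exp (-(((ρ * θ : ℝ) : ℂ) * Complex.I)) - (M 0 s : ℂ)
      + (((M 2 s - ρ ^ 2 * M 0 s) * θ ^ 2 / 2 : ℝ) : ℂ)‖
      ≤ (M 3 s - 3 * ρ * M 2 s + 4 * ρ ^ 3 * M 0 s) * |θ| ^ 3 / 6 := by
    refine wbound (s := s) (f := fun j : ℕ => rem 3 ((j - ρ) * θ))
      (g := fun j => (((j : ℝ) - ρ) ^ 3 + 2 * ρ ^ 3) * |θ| ^ 3 / 6) ?_ ?_ ?_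
    · have h := ((((hasSum_shift hs ρ θ).sub (hasSum_Mc 0 hs)).sub
        (((hasSum_Mc 1 hs).sub ((hasSum_Mc 0 hs).mul_right (ρ : ℂ))).mul_right
          ((θ : ℂ) * Complex.I))).add
        (((hasSum_Mc 2 hs).sub (((hasSum_Mc 1 hs).mul_right (2 * ρ : ℂ)).sub
          ((hasSum_Mc 0 hs).mul_right ((ρ : ℂ) ^ 2)))).mul_right ((θ : ℂ) ^ 2 / 2)))
      refine hsC h (fun j => ?_) ?_
      · rw [rem3]
        push_cast
        ring
      · rw [hM1]
        push_cast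
        ring
    · have h := (((hasSum_M 3 hs).sub ((hasSum_M 2 hs).mul_right (3 * ρ))).add
        (((hasSum_M 1 hs).mul_right (3 * ρ ^ 2)).add
          ((hasSum_M 0 hs).mul_right (ρ ^ 3)))).mul_right (|θ| ^ 3 / 6)
      refine hsR h (fun j => ?_) ?_
      · ring
      · rw [hM1]
        ring
    · intro j
      have h1 := norm_rem 3 ((j - ρ) * θ)
      have h2 : ‖rem 3 ((j - ρ) * θ)‖ ≤ |((j : ℝ) - ρ) * θ| ^ 3 / 6 := by
        norm_num [Nat.factorial] at h1 ⊢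
        exact h1
      refine h2.trans ?_
      rw [abs_mul, mul_pow]
      have h3 := abs_cube_le (x := (j : ℝ)) (Nat.cast_nonneg j) hρ0
      gcongr
  have hkey : Lam s θ / (M 0 s : ℂ) * Complex.exp (-(((ρ * θ : ℝ) : ℂ) * Complex.I)) - 1
      + (((M 2 s / M 0 s - ρ ^ 2) * θ ^ 2 / 2 : ℝ) : ℂ) =
      (Lam s θ * Complex.exp (-(((ρ * θ : ℝ) : ℂ) * Complex.I)) - (M 0 s : ℂ)
      + (((M 2 s - ρ ^ 2 * M 0 s) * θ ^ 2 / 2 : ℝ) : ℂ)) / (M 0 s : ℂ) := by
    push_cast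
    field_simp
  rw [hkey, norm_div, Complex.norm_real, Real.norm_eq_abs, abs_of_pos hM, div_le_iff₀ hM]
  refine hmain.trans_eq ?_
  field_simp

theorem phi_sub_one {s : ℝ} (hs : 0 < s) (θ : ℝ) :
    ‖Lam s θ / (M 0 s : ℂ) - 1‖ ≤ M 1 s / M 0 s * |θ| := by
  have hM : 0 < M 0 s := M_pos 0 hs
  have hMc : (M 0 s : ℂ) ≠ 0 := by exact_mod_cast hM.ne'
  have hmain : ‖Lam s θ - (M 0 s : ℂ)‖ ≤ M 1 s * |θ| := by
    refine wbound (s := s) (f := fun j : ℕ => rem 1 (j * θ)) (g := fun j => |(j : ℝ) * θ|) ?_ ?_ ?_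
    · have h := (hasSum_Lam hs θ).sub (hasSum_Mc 0 hs)
      refine hsC h (fun j => ?_) rfl
      rw [rem1]
      push_cast
      ring
    · have h := (hasSum_M 1 hs).mul_right (|θ|)
      refine hsR h (fun j => ?_) rfl
      rw [abs_mul, Nat.abs_cast]
      ring
    · intro j
      have := norm_rem 1 (j * θ)
      simpa using this
  have hkey : Lam s θ / (M 0 s : ℂ) - 1 = (Lam s θ - (M 0 s : ℂ)) / (M 0 s : ℂ) := by
    field_simp
  rw [hkey, norm_div, Complex.norm_real, Real.norm_eq_abs, abs_of_pos hM, div_le_iff₀ hM]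
  refine hmain.trans_eq ?_
  field_simp

namespace Tay

theorem hasSum_re {s : ℝ} (hs : 0 < s) (θ : ℝ) :
    HasSum (fun j : ℕ => w s j * (1 - Real.cos (j * θ))) (M 0 s - (Lam s θ).re) := by
  have h1 := Complex.hasSum_re (hasSum_Lam hs θ)
  have h2 := (hasSum_M 0 hs).sub h1
  refine h2.congr_fun fun j => ?_
  rw [Complex.re_ofReal_mul, Complex.exp_ofReal_mul_I_re]
  ring

theorem hasSum_im {s : ℝ} (hs : 0 < s) (θ : ℝ) :
    HasSum (fun j : ℕ => w s j * Real.sin (j * θ)) ((Lam s θ).im) := by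
  have h1 := Complex.hasSum_im (hasSum_Lam hs θ)
  refine h1.congr_fun fun j => ?_
  rw [Complex.im_ofReal_mul, Complex.exp_ofReal_mul_I_im]

end Tay

theorem re_nonneg {s : ℝ} (hs : 0 < s) (θ : ℝ) : 0 ≤ M 0 s - (Lam s θ).re := by
  refine (hasSum_re hs θ).nonneg fun j => ?_
  have := Real.cos_le_one (j * θ)
  exact mul_nonneg (w_nonneg s j) (by linarith)

theorem re_le {s : ℝ} (hs : 0 < s) (θ : ℝ) :
    M 0 s - (Lam s θ).re ≤ M 2 s * θ ^ 2 / 2 := by
  have h := (hasSum_M 2 hs).mul_right (θ ^ 2 / 2)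
  have h2 := hasSum_le (fun j => ?_) (hasSum_re hs θ) h
  · linarith
  · rw [mul_assoc]
    refine mul_le_mul_of_nonneg_left ?_ (w_nonneg s j)
    have := Real.one_sub_sq_div_two_le_cos (x := j * θ)
    nlinarith

theorem re_ge {s : ℝ} (hs : 0 < s) (θ : ℝ) :
    M 2 s * θ ^ 2 / 2 - M 3 s * |θ| ^ 3 / 8 ≤ M 0 s - (Lam s θ).re := by
  have h := ((hasSum_M 2 hs).mul_right (θ ^ 2 / 2)).sub ((hasSum_M 3 hs).mul_right (|θ| ^ 3 / 8))
  have h2 := hasSum_le (fun j => ?_) h (hasSum_re hs θ)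
  · linarith
  · have h3 : w s j * (j : ℝ) ^ 2 * (θ ^ 2 / 2) - w s j * (j : ℝ) ^ 3 * (|θ| ^ 3 / 8) =
        w s j * ((j * θ) ^ 2 / 2 - |(j : ℝ) * θ| ^ 3 / 8) := by
      rw [abs_mul, Nat.abs_cast]
      ring
    rw [h3]
    refine mul_le_mul_of_nonneg_left ?_ (w_nonneg s j)
    have := cos_le (j * θ)
    linarith

theorem im_bound {s : ℝ} (hs : 0 < s) (θ : ℝ) :
    |(Lam s θ).im - M 1 s * θ| ≤ M 3 s * |θ| ^ 3 / 6 := by
  have h1 := Lam_taylor hs θ
  have h2 := (Complex.abs_im_le_norm _).trans h1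
  have h3 : (Lam s θ - (M 0 s : ℂ) - ((M 1 s * θ : ℝ) : ℂ) * Complex.I
      + ((M 2 s * θ ^ 2 / 2 : ℝ) : ℂ)).im = (Lam s θ).im - M 1 s * θ := by
    rw [Complex.add_im, Complex.sub_im, Complex.sub_im, Complex.ofReal_im, Complex.ofReal_im,
      Complex.im_ofReal_mul, Complex.I_im]
    ring
  rwa [h3] at h2

end

end Pool.Agent.NekOk
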