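import Pool.Agent.NekOk.CoreNum
import Pool.Agent.NekOk.Fourier
import Pool.Agent.NekOk.Moment
import Pool.Agent.NekOk.Taylor
import Pool.Agent.NekOk.Far

/-! Pointwise estimates for the saddle point integrand. -/

namespace Pool.Agent.NekOk

noncomputable section

/-- the saddle point situation -/
structure Ctx (s : ℝ) (K n : ℕ) : Prop where
  hs : 0 < s
  hs' : s ≤ 1 / 40
  hK : (K : ℝ) ≤ 1.36 * M 0 s
  hn : (n : ℝ) = M 1 s * (1 + K / M 0 s)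

def phi (s θ : ℝ) : ℂ := Lam s θ / (M 0 s : ℂ)

def psi (s : ℝ) (K n : ℕ) (θ : ℝ) : ℂ :=
  Complex.exp (Lam s θ - (M 0 s : ℂ)) * phi s θ ^ K *
    Complex.exp (-(((n * θ : ℝ) : ℂ) * Complex.I))

def vv (s : ℝ) (K : ℕ) : ℝ := M 2 s + K * (M 2 s / M 0 s - (M 1 s / M 0 s) ^ 2)

def tt (s : ℝ) (K : ℕ) (θ : ℝ) : ℝ := |θ| * √(vv s K / 2)

namespace Ctx
variable {s : ℝ} {K n : ℕ}

theorem M0_pos (h : Ctx s K n) : 0 < M 0 s := M_pos 0 h.hs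

theorem num (h : Ctx s K n) :
    Num (Lq s) (M 0 s) (s * M 1 s) (s ^ 2 * M 2 s) (s ^ 3 * M 3 s) (K / M 0 s) where
  hL := Lq_ge h.hs h.hs'
  h0l := M0_ge h.hs h.hs'
  h0u := M0_le h.hs
  h1l := M1_ge h.hs h.hs'
  h1u := M1_le h.hs
  h2l := M2_ge h.hs h.hs'
  h2u := M2_le h.hs h.hs'
  h3l := mul_nonneg (pow_nonneg h.hs.le 3) (M_nonneg 3 s)
  h3u := M3_le h.hs h.hs'
  hp := div_nonneg (Nat.cast_nonneg K) h.M0_pos.le
  hp' := by rw [div_le_iff₀ h.M0_pos]; exact h.hK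

theorem W_eq (h : Ctx s K n) :
    s ^ 2 * M 2 s * (1 + K / M 0 s) - K / M 0 s * ((s * M 1 s) ^ 2 / M 0 s) =
      s ^ 2 * vv s K := by
  have := h.M0_pos
  unfold vv
  field_simp
  ring

theorem vv_pos (h : Ctx s K n) : 0 < vv s K := by
  have h1 := h.num.W_pos
  rw [h.W_eq] at h1
  exact pos_of_mul_pos_right h1 (by have := h.hs; positivity)

theorem tt_nonneg (h : Ctx s K n) (θ : ℝ) : 0 ≤ tt s K θ := by
  unfold tt; positivity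

theorem tt_sq (h : Ctx s K n) (θ : ℝ) : tt s K θ ^ 2 = θ ^ 2 * vv s K / 2 := by
  unfold tt
  have := h.vv_pos
  rw [mul_pow, sq_abs, Real.sq_sqrt (by positivity)]
  ring

theorem tt_eq (h : Ctx s K n) (θ : ℝ) : tt s K θ ^ 2 = (|θ| / s) ^ 2 *
    (s ^ 2 * M 2 s * (1 + K / M 0 s) - K / M 0 s * ((s * M 1 s) ^ 2 / M 0 s)) / 2 := by
  rw [h.W_eq, h.tt_sq, div_pow, sq_abs]
  have := h.hs
  field_simp

theorem x_nonneg (h : Ctx s K n) (θ : ℝ) : 0 ≤ |θ| / s := by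
  have := h.hs; positivity

theorem x_le (h : Ctx s K n) (θ : ℝ) : |θ| / s ≤ 0.1243 * tt s K θ :=
  h.num.x_le (h.tt_nonneg θ) (h.tt_eq θ)

theorem x_le' (h : Ctx s K n) (hp : 1.2 * M 0 s ≤ K) (θ : ℝ) :
    |θ| / s ≤ 0.09954 * tt s K θ :=
  h.num.x_le' (by rw [le_div_iff₀ h.M0_pos]; exact hp) (h.tt_nonneg θ) (h.tt_eq θ)

/-- the near estimate: `ψ = exp(-t² + E)` with `|E| ≤ 0.14 t³` -/
theorem near_psi (h : Ctx s K n) (θ : ℝ) (ht : tt s K θ ≤ 7 / 4) :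
    ∃ E : ℂ, psi s K n θ = Complex.exp (-((tt s K θ ^ 2 : ℝ) : ℂ) + E) ∧
      ‖E‖ ≤ 0.14 * tt s K θ ^ 3 := by
  have hs := h.hs
  have hM0 := h.M0_pos
  have hN := h.num
  set x := |θ| / s with hx
  have hx0 : 0 ≤ x := h.x_nonneg θ
  have hxt : x ≤ 0.1243 * tt s K θ := h.x_le θ
  have hx1 : x ≤ 0.2176 := by linarith
  have hθ : |θ| = s * x := by rw [hx]; field_simp
  set ρ := M 1 s / M 0 s with hρ
  set σ2 := M 2 s / M 0 s - ρ ^ 2 with hσ2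
  set κ := M 3 s / M 0 s - 3 * ρ * (M 2 s / M 0 s) + 4 * ρ ^ 3 with hκ
  set w : ℂ := phi s θ * Complex.exp (-(((ρ * θ : ℝ) : ℂ) * Complex.I)) - 1 with hw
  have hphi := phi_taylor hs θ
  rw [← hρ, ← hσ2, ← hκ] at hphi
  change ‖w + ((σ2 * θ ^ 2 / 2 : ℝ) : ℂ)‖ ≤ κ * |θ| ^ 3 / 6 at hphi
  have hlam := Lam_taylor hs θ
  -- normalised quantities
  have hσs : s ^ 2 * σ2 ≤ 1.296 := by
    have := hN.sig_le
    have e : s ^ 2 * M 2 s / M 0 s - (s * M 1 s / M 0 s) ^ 2 = s ^ 2 * σ2 := by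
      rw [hσ2, hρ]; ring
    linarith
  have hσ0 : 0 ≤ s ^ 2 * σ2 := by
    have := hN.sig_nonneg
    have e : s ^ 2 * M 2 s / M 0 s - (s * M 1 s / M 0 s) ^ 2 = s ^ 2 * σ2 := by
      rw [hσ2, hρ]; ring
    linarith
  have hκs : s ^ 3 * κ ≤ 4.5006 := by
    have := hN.kap_le'
    have e : s ^ 3 * M 3 s / M 0 s - 3 * (s * M 1 s / M 0 s) * (s ^ 2 * M 2 s / M 0 s)
      + 4 * (s * M 1 s / M 0 s) ^ 3 = s ^ 3 * κ := by
      rw [hκ, hρ]; ring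
    linarith
  have hκL : M 0 s * (s ^ 3 * κ) ≤ 4.275 * Lq s := by
    have := hN.kap_le
    have e : s ^ 3 * M 3 s / M 0 s - 3 * (s * M 1 s / M 0 s) * (s ^ 2 * M 2 s / M 0 s)
      + 4 * (s * M 1 s / M 0 s) ^ 3 = s ^ 3 * κ := by
      rw [hκ, hρ]; ring
    rw [e] at this
    exact this
  have hwle : ‖w‖ ≤ x ^ 2 * 0.8113 := by
    have h1 : ‖w‖ ≤ ‖w + ((σ2 * θ ^ 2 / 2 : ℝ) : ℂ)‖ + ‖((σ2 * θ ^ 2 / 2 : ℝ) : ℂ)‖ := by
      have := norm_sub_le (w + ((σ2 * θ ^ 2 / 2 : ℝ) : ℂ)) ((σ2 * θ ^ 2 / 2 : ℝ) : ℂ)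
      simpa using this
    have h2 : ‖((σ2 * θ ^ 2 / 2 : ℝ) : ℂ)‖ = s ^ 2 * σ2 * x ^ 2 / 2 := by
      rw [Complex.norm_real, Real.norm_eq_abs]
      have e : σ2 * θ ^ 2 / 2 = s ^ 2 * σ2 * x ^ 2 / 2 := by
        rw [← sq_abs θ, hθ]; ring
      rw [e, abs_of_nonneg (by positivity)]
    have h3 : κ * |θ| ^ 3 / 6 = s ^ 3 * κ * x ^ 3 / 6 := by rw [hθ]; ring
    rw [h3] at hphi
    have h4 : s ^ 2 * σ2 * x ^ 2 ≤ 1.296 * x ^ 2 := mul_le_mul_of_nonneg_right hσs (by positivity)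
    have h5 : s ^ 3 * κ * x ^ 3 ≤ 4.5006 * x ^ 3 := mul_le_mul_of_nonneg_right hκs (by positivity)
    have h6 : x ^ 3 ≤ 0.2176 * x ^ 2 := by nlinarith [sq_nonneg x]
    nlinarith
  have hw1 : ‖w‖ ≤ 0.0385 := by nlinarith
  have hwlt : ‖w‖ < 1 := by linarith
  set R : ℂ := Complex.log (1 + w) - w with hR
  have hRle : ‖R‖ ≤ 0.0745 * x ^ 3 := by
    have h1 := Complex.norm_log_one_add_sub_self_le hwlt
    rw [← hR] at h1
    have h2 : (1 - ‖w‖)⁻¹ ≤ 1.0401 := by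
      rw [inv_le_comm₀ (by linarith) (by norm_num)]
      have : (1.0401 : ℝ)⁻¹ ≤ 0.96145 := by norm_num
      linarith
    have h3 : ‖w‖ ^ 2 ≤ (x ^ 2 * 0.8113) ^ 2 := pow_le_pow_left₀ (norm_nonneg _) hwle 2
    have h4 : x ^ 4 ≤ 0.2176 * x ^ 3 := by nlinarith [pow_nonneg hx0 3]
    have h5 : ‖w‖ ^ 2 * (1 - ‖w‖)⁻¹ ≤ (x ^ 2 * 0.8113) ^ 2 * 1.0401 :=
      mul_le_mul h3 h2 (inv_nonneg.2 (by linarith)) (by positivity)
    have h6 : (0:ℝ) ≤ x ^ 3 := by positivity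
    nlinarith
  have h1w : (1 + w) ≠ 0 := by
    intro h0
    have : w = -1 := by linear_combination h0
    rw [this] at hwlt
    simp at hwlt
  have hphi_eq : phi s θ = Complex.exp (((ρ * θ : ℝ) : ℂ) * Complex.I + Complex.log (1 + w)) := by
    rw [Complex.exp_add, Complex.exp_log h1w, hw]
    rw [add_sub_cancel, mul_comm (phi s θ), ← mul_assoc, ← Complex.exp_add]
    simp
  refine ⟨(Lam s θ - (M 0 s : ℂ) - ((M 1 s * θ : ℝ) : ℂ) * Complex.I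
      + ((M 2 s * θ ^ 2 / 2 : ℝ) : ℂ)) + (K : ℂ) * (w + ((σ2 * θ ^ 2 / 2 : ℝ) : ℂ)) + (K : ℂ) * R,
      ?_, ?_⟩
  · unfold psi
    rw [hphi_eq, ← Complex.exp_nat_mul, ← Complex.exp_add, ← Complex.exp_add]
    congr 1
    rw [h.tt_sq, h.hn, vv, ← hρ, ← hσ2, hR]
    have hM1 : M 1 s = ρ * M 0 s := by rw [hρ]; field_simp
    have e : (M 1 s * (1 + K / M 0 s) * θ : ℝ) = M 1 s * θ + K * (ρ * θ) := by
      rw [hρ]; field_simp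
    rw [e]
    push_cast
    ring
  · have hE := hN.E_le (h.tt_nonneg θ) (h.tt_eq θ)
    rw [← hx] at hE
    have a1 : M 3 s * |θ| ^ 3 / 6 ≤ 1.01 * (Lq s * x ^ 3) := by
      have : M 3 s * |θ| ^ 3 / 6 = s ^ 3 * M 3 s * x ^ 3 / 6 := by rw [hθ]; ring
      rw [this]
      have := mul_le_mul_of_nonneg_right hN.h3u (by positivity : (0:ℝ) ≤ x ^ 3)
      nlinarith
    have hKp : (K : ℝ) = K / M 0 s * M 0 s := by field_simp
    set p := (K : ℝ) / M 0 s with hp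
    have hp0 : 0 ≤ p := hN.hp
    have a2 : (K : ℝ) * (κ * |θ| ^ 3 / 6) ≤ 0.7125 * p * (Lq s * x ^ 3) := by
      have e : (K : ℝ) * (κ * |θ| ^ 3 / 6) = p * (M 0 s * (s ^ 3 * κ)) * x ^ 3 / 6 := by
        rw [hKp, hθ]; ring
      rw [e]
      have := mul_le_mul_of_nonneg_right (mul_le_mul_of_nonneg_left hκL hp0)
        (by positivity : (0:ℝ) ≤ x ^ 3)
      nlinarith
    have a3 : (K : ℝ) * ‖R‖ ≤ 0.0745 * p * (Lq s * x ^ 3) := by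
      have b1 : (K : ℝ) * ‖R‖ ≤ K * (0.0745 * x ^ 3) :=
        mul_le_mul_of_nonneg_left hRle (Nat.cast_nonneg K)
      have b2 : (K : ℝ) ≤ p * Lq s := by
        rw [hKp]; exact mul_le_mul_of_nonneg_left hN.h0u hp0
      have b3 := mul_le_mul_of_nonneg_right b2 (by positivity : (0:ℝ) ≤ 0.0745 * x ^ 3)
      nlinarith
    have t1 : ‖(K : ℂ) * (w + ((σ2 * θ ^ 2 / 2 : ℝ) : ℂ))‖ ≤ (K : ℝ) * (κ * |θ| ^ 3 / 6) := by
      rw [norm_mul, Complex.norm_natCast]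
      exact mul_le_mul_of_nonneg_left hphi (Nat.cast_nonneg K)
    have t2 : ‖(K : ℂ) * R‖ = (K : ℝ) * ‖R‖ := by rw [norm_mul, Complex.norm_natCast]
    calc ‖_‖ ≤ ‖(Lam s θ - (M 0 s : ℂ) - ((M 1 s * θ : ℝ) : ℂ) * Complex.I
      + ((M 2 s * θ ^ 2 / 2 : ℝ) : ℂ))‖ + ‖(K : ℂ) * (w + ((σ2 * θ ^ 2 / 2 : ℝ) : ℂ))‖
        + ‖(K : ℂ) * R‖ := norm_add₃_le
      _ ≤ 1.01 * (Lq s * x ^ 3) + 0.7125 * p * (Lq s * x ^ 3) + 0.0745 * p * (Lq s * x ^ 3) := by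
          rw [t2]; linarith
      _ = (1.01 + 0.787 * p) * (Lq s * x ^ 3) := by ring
      _ ≤ _ := hE

end Ctx

end

end Pool.Agent.NekOk
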