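import Mathlib

/-!
# Nekrasov–Okounkov polynomials: definitions shared by all modules
-/

namespace Pool.Agent.NekOk

open Finset

noncomputable section

/-- `σ(j)`, the sum of the divisors of `j`, as a real number (`σ(0) = 0`). -/
def sg (j : ℕ) : ℝ := ∑ d ∈ j.divisors, (d : ℝ)

/-- `c j = σ(j)/j` (`c 0 = 0`). -/
def c (j : ℕ) : ℝ := sg j / j

/-- The two recursions satisfied by the coefficient array `a k n = [t^k] P_n(t)` of the
Nekrasov–Okounkov polynomials. They determine the array. -/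
structure IsNO (a : ℕ → ℕ → ℝ) : Prop where
  zero : a 0 0 = 1
  row : ∀ n : ℕ, (n : ℝ) * a 0 n = ∑ j ∈ range (n + 1), sg j * a 0 (n - j)
  step : ∀ k n : ℕ, ((k : ℝ) + 1) * a (k + 1) n = ∑ j ∈ range (n + 1), c j * a k (n - j)

/-- moments `M p s = Σ_j c_j j^p e^{-sj}` -/
def M (p : ℕ) (s : ℝ) : ℝ := ∑' j : ℕ, c j * (j : ℝ) ^ p * Real.exp (-(s * j))

/-- `Λ_s(θ) = Σ_j c_j e^{-sj} e^{ijθ}` -/
def Lam (s θ : ℝ) : ℂ :=
  ∑' j : ℕ, ((c j * Real.exp (-(s * j)) : ℝ) : ℂ) * Complex.exp (((j * θ : ℝ) : ℂ) * Complex.I)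

/-- `L(s) = π²/(6s)` -/
def Lq (s : ℝ) : ℝ := Real.pi ^ 2 / 6 / s

/-- `B_m = (t+1)(t+2)⋯(t+m)/m!`, the coefficient of `y^m` in `(1-y)^{-(t+1)}`. -/
def bin (m : ℕ) : Polynomial ℚ :=
  ∏ j ∈ range m, (Polynomial.C (1 / ((j : ℚ) + 1)) * (Polynomial.X + Polynomial.C ((j : ℚ) + 1)))

/-- The power series `(1 - x^k)^{-(t+1)} = Σ_m B_m x^{km}` over `ℚ[t]` (for `k ≥ 1`). -/
def factor (k : ℕ) : PowerSeries (Polynomial ℚ) :=
  PowerSeries.mk (fun n => if k ∣ n then bin (n / k) else 0)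

/-- The Nekrasov–Okounkov polynomial `P_n(t)`: the coefficient of `x^n` in
`∏_{k ≥ 1} (1 - x^k)^{-(t+1)}` (only the factors with `k ≤ n` matter). -/
def P (n : ℕ) : Polynomial ℚ := PowerSeries.coeff n (∏ k ∈ Icc 1 n, factor k)

end

end Pool.Agent.NekOk
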