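import Pool.Agent.NekOk.Moment

namespace Pool.Agent.NekOk

open Set

theorem M_continuousOn (p : ℕ) {s0 : ℝ} (hs0 : 0 < s0) : ContinuousOn (M p) (Ici s0) := by
  unfold M
  refine continuousOn_tsum (u := fun j : ℕ => c j * (j : ℝ) ^ p * Real.exp (-(s0 * j)))
    (fun j => by fun_prop) (summable_M p hs0) ?_
  intro j s hs
  have hs' : s0 ≤ s := hs
  have h1 := c_nonneg j
  have h2 : Real.exp (-(s * j)) ≤ Real.exp (-(s0 * j)) := by
    apply Real.exp_le_exp.2
    have : s0 * j ≤ s * j := mul_le_mul_of_nonneg_right hs' (by positivity)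
    linarith
  rw [Real.norm_eq_abs, abs_of_nonneg (by positivity)]
  exact mul_le_mul_of_nonneg_left h2 (by positivity)

/-- existence of the saddle point `s` with `n = M₁(s)(1 + K/M₀(s))` -/
theorem exists_saddle (n K : ℕ) (hn : 6400 ≤ n) (hK : (K : ℝ) ≤ 1.05 * √(n : ℝ) + 1) :
    ∃ s : ℝ, 0 < s ∧ s ≤ 1 / 40 ∧ (n : ℝ) = M 1 s * (1 + K / M 0 s) ∧
      (K : ℝ) ≤ 1.36 * M 0 s ∧ (1.05 * √(n : ℝ) ≤ K → 1.2 * M 0 s ≤ K) := by
  have hA1 := A_gt
  have hA2 := A_lt
  set A : ℝ := Real.pi ^ 2 / 6 with hA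
  have hAp : 0 < A := by linarith
  have hnR : (6400 : ℝ) ≤ n := by exact_mod_cast hn
  have hn0 : (0 : ℝ) < n := by linarith
  have hsq : √(n : ℝ) ^ 2 = n := Real.sq_sqrt hn0.le
  set R : ℝ := √(n : ℝ) with hR
  have hR0 : 0 ≤ R := Real.sqrt_nonneg _
  have hR80 : (80 : ℝ) ≤ R := by
    apply Real.le_sqrt_of_sq_le
    linarith
  have hK0 : (0 : ℝ) ≤ K := by positivity
  -- the left end point
  set s0 : ℝ := √(0.984 * A / n) with hs0
  have hs0sq : s0 ^ 2 = 0.984 * A / n := Real.sq_sqrt (by positivity)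
  have hs0pos : 0 < s0 := Real.sqrt_pos.2 (by positivity)
  have hs0le : s0 ≤ 1 / 40 := by
    have h1 : s0 ^ 2 ≤ (1 / 40) ^ 2 := by
      rw [hs0sq, div_le_iff₀ hn0]
      nlinarith
    exact (pow_le_pow_iff_left₀ hs0pos.le (by norm_num) two_ne_zero).1 h1
  have hcont : ContinuousOn (fun s => M 1 s * (1 + K / M 0 s)) (Icc s0 (1 / 40)) := by
    have hsub : Icc s0 (1 / 40) ⊆ Ici s0 := fun x hx => hx.1
    have h0 := (M_continuousOn 0 hs0pos).mono hsub
    have h1 := (M_continuousOn 1 hs0pos).mono hsub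
    refine h1.mul (continuousOn_const.add (continuousOn_const.div h0 ?_))
    intro x hx
    exact (M_pos 0 (lt_of_lt_of_le hs0pos hx.1)).ne'
  have hleft : (n : ℝ) ≤ M 1 s0 * (1 + K / M 0 s0) := by
    have h0 := M_pos 0 hs0pos
    have h1 := M_pos 1 hs0pos
    have h2 := M1_ge hs0pos hs0le
    have h3 : (n : ℝ) ≤ M 1 s0 := by
      have h4 : s0 * (s0 * n) = 0.984 * A := by
        have : s0 * (s0 * n) = s0 ^ 2 * n := by ring
        rw [this, hs0sq]; field_simp
      have h5 : 0.984 * Lq s0 = s0 * n := by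
        unfold Lq
        rw [← hA]
        field_simp
        nlinarith
      rw [h5] at h2
      exact le_of_mul_le_mul_left h2 hs0pos
    have h6 : 0 ≤ (K : ℝ) / M 0 s0 := by positivity
    nlinarith
  have hright : M 1 (1 / 40) * (1 + K / M 0 (1 / 40)) ≤ n := by
    have h40 : (0 : ℝ) < 1 / 40 := by norm_num
    have h0 := M_pos 0 h40
    have h1 := M_pos 1 h40
    have h2 := M1_le h40
    have h3 := M0_ge h40 le_rfl
    have hL : Lq (1 / 40) = 40 * A := by unfold Lq; rw [← hA]; ring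
    rw [hL] at h2 h3
    have h4 : M 1 (1 / 40) ≤ 1600 * A := by linarith
    have h5 : M 1 (1 / 40) * (K / M 0 (1 / 40)) ≤ 42.106 * K := by
      have h6 : M 1 (1 / 40) ≤ 42.106 * M 0 (1 / 40) := by nlinarith
      calc M 1 (1 / 40) * (K / M 0 (1 / 40)) ≤ 42.106 * M 0 (1 / 40) * (K / M 0 (1 / 40)) :=
            mul_le_mul_of_nonneg_right h6 (by positivity)
        _ = 42.106 * K := by field_simp
    nlinarith
  obtain ⟨s, ⟨hs1, hs2⟩, hs3⟩ := intermediate_value_Icc' hs0le hcont ⟨hright, hleft⟩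
  have hs : 0 < s := lt_of_lt_of_le hs0pos hs1
  simp only at hs3
  have h0 := M_pos 0 hs
  have h1 := M_pos 1 hs
  have e0 := M0_le hs
  have e1 := M0_ge hs hs2
  have e2 := M1_le hs
  have e3 := M1_ge hs hs2
  set m0 := M 0 s
  set m1 := M 1 s
  have hLs : Lq s * s = A := by unfold Lq; rw [← hA]; field_simp
  set L := Lq s
  have hL0 : 0 < L := by
    by_contra hcon
    nlinarith
  set p : ℝ := K / m0 with hp
  have hp0 : 0 ≤ p := by positivity
  have hKp : (K : ℝ) = p * m0 := by rw [hp]; field_simp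
  -- n = m1 (1 + p)
  have hnu : A * n ≤ L ^ 2 * (1 + p) := by
    rw [← hs3, ← hLs]
    have : L * s * (m1 * (1 + p)) = L * (s * m1) * (1 + p) := by ring
    rw [this]
    have : L * (s * m1) ≤ L ^ 2 := by nlinarith
    exact mul_le_mul_of_nonneg_right this (by linarith)
  have hnl : 0.984 * (L ^ 2 * (1 + p)) ≤ A * n := by
    rw [← hs3, ← hLs]
    have : L * s * (m1 * (1 + p)) = L * (s * m1) * (1 + p) := by ring
    rw [this]
    have : 0.984 * L ^ 2 ≤ L * (s * m1) := by nlinarith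
    have := mul_le_mul_of_nonneg_right this (by linarith : 0 ≤ 1 + p)
    linarith
  have hL2 : 0 < L ^ 2 := by positivity
  refine ⟨s, hs, hs2, hs3.symm, ?_, ?_⟩
  · -- p ≤ 1.36
    have hK1 : p * m0 ≤ 1.0625 * R := by rw [← hKp]; linarith
    have hK2 : 0.95 * (p * L) ≤ 1.0625 * R := by
      have := mul_le_mul_of_nonneg_left e1 hp0
      linarith
    have hK3 : (0.95 * (p * L)) ^ 2 ≤ (1.0625 * R) ^ 2 :=
      pow_le_pow_left₀ (by positivity) hK2 2
    have hK4 : A * (0.9025 * (p ^ 2 * L ^ 2)) ≤ 1.12890625 * (A * n) := by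
      rw [← hsq]
      have := mul_le_mul_of_nonneg_left hK3 hAp.le
      linarith
    have hK5 : A * (0.9025 * (p ^ 2 * L ^ 2)) ≤ 1.12890625 * (L ^ 2 * (1 + p)) := by linarith
    have hK6 : A * 0.9025 * p ^ 2 ≤ 1.12890625 * (1 + p) := by
      have : L ^ 2 * (A * 0.9025 * p ^ 2) ≤ L ^ 2 * (1.12890625 * (1 + p)) := by linarith
      exact le_of_mul_le_mul_left this hL2
    have hK7 : 1.64493 * 0.9025 * p ^ 2 ≤ 1.12890625 * (1 + p) := by
      have := mul_le_mul_of_nonneg_right hA1.le (sq_nonneg p)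
      linarith
    have hp1 : p ≤ 1.36 := by
      by_contra hcon
      push Not at hcon
      have := mul_le_mul_of_nonneg_right hcon.le hp0
      linarith
    rw [hKp]
    exact mul_le_mul_of_nonneg_right hp1 h0.le
  · intro hbig
    have hK1 : 1.05 * R ≤ p * L := by
      rw [hKp] at hbig
      have := mul_le_mul_of_nonneg_left e0 hp0
      linarith
    have hK3 : (1.05 * R) ^ 2 ≤ (p * L) ^ 2 := pow_le_pow_left₀ (by positivity) hK1 2
    have hK4 : 1.1025 * (A * n) ≤ A * (p ^ 2 * L ^ 2) := by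
      rw [← hsq]
      have := mul_le_mul_of_nonneg_left hK3 hAp.le
      linarith
    have hK5 : 1.1025 * (0.984 * (L ^ 2 * (1 + p))) ≤ A * (p ^ 2 * L ^ 2) := by linarith
    have hK6 : 1.08486 * (1 + p) ≤ A * p ^ 2 := by
      have : L ^ 2 * (1.08486 * (1 + p)) ≤ L ^ 2 * (A * p ^ 2) := by
        linarith
      exact le_of_mul_le_mul_left this hL2
    have hK7 : 1.08486 * (1 + p) ≤ 1.64494 * p ^ 2 := by
      have := mul_le_mul_of_nonneg_right hA2.le (sq_nonneg p)
      linarith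
    have hp1 : 1.2 ≤ p := by
      by_contra hcon
      push Not at hcon
      have := mul_le_mul_of_nonneg_right hcon.le hp0
      linarith
    rw [hKp]
    exact mul_le_mul_of_nonneg_right hp1 h0.le

end Pool.Agent.NekOk
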