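import Pool.Agent.NekOk.SmallDigits

/-!
# The range `n < 6400`, by one packed kernel computation

`b_k(n) = k! [t^k] P_n(t)` satisfies `b_{k+1} = c * b_k` (convolution). Lower and upper bounds of
`2 ^ 64 * b_k(m + k)` for all `m < 6400` are kept as digits (base `2 ^ 1024`) of one natural
number; a level costs one multiplication, and consecutive levels are compared by a subtraction.
-/

namespace Pool.Agent.NekOk.Small

open Finset

/-! ### the computation -/

/-- all digits of `X` are `< 2 ^ g` -/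
def sml (E g X : ℕ) : Bool := Nat.beq (Nat.land X (Nat.mul (Nat.sub (Nat.pow 2 g) 1) E)) X

/-- digitwise `X ≤ Y` -/
def sle (w E X Y : ℕ) : Bool := cond (Nat.ble X Y) (sml E (Nat.sub w 1) (Nat.sub Y X)) false

/-- convolution with `C`, then division of every digit by `2 ^ e` -/
def stp (w e E C X : ℕ) : ℕ :=
  Nat.land (Nat.shiftRight (Nat.mul C X) e) (Nat.mul (Nat.sub (Nat.pow 2 (Nat.sub w e)) 1) E)

def lowc (w E T k U' L : ℕ) : Bool :=
  sle w E (Nat.land U' (Nat.sub (Nat.pow 2 (Nat.mul w T)) 1))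
    (Nat.land (Nat.mul (Nat.succ k) (Nat.shiftRight L w)) (Nat.sub (Nat.pow 2 (Nat.mul w T)) 1))

def highc (w E T k L' U : ℕ) : Bool :=
  sle w E (Nat.shiftRight (Nat.mul (Nat.succ k) (Nat.shiftRight U w)) (Nat.mul w T))
    (Nat.shiftRight L' (Nat.mul w T))

/-- all levels -/
def go (w e g E C Cp Te : ℕ) : List ℕ → ℕ → ℕ → ℕ → Bool
  | [], k, L, U => force (Nat.add (stp w e E Cp U) E) fun U' =>
      cond (sml E g U') (lowc w E Te k U' L) false
  | T :: ts, k, L, U =>
    force (stp w e E C L) fun L' => force (Nat.add (stp w e E Cp U) E) fun U' =>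
      cond (sml E g L') (cond (sml E g U') (cond (lowc w E T k U' L) (cond (highc w E T k L' U)
        (go w e g E C Cp Te ts (Nat.succ k) L' U') false) false) false) false

/-! ### correctness -/

/-- the first `N` digits of `v * E` are `v` -/
def Ones (w N E : ℕ) : Prop := ∀ v < 2 ^ w, ∀ n < N, dg w (v * E) n = v

theorem sml_spec {w N E g X : ℕ} (hE : Ones w N E) (hg : g ≤ w) (h : sml E g X = true) :
    ∀ n < N, dg w X n < 2 ^ g := by
  intro n hn
  have h1 : X &&& ((2 ^ g - 1) * E) = X := Nat.eq_of_beq_eq_true h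
  have hg0 : 0 < 2 ^ g := by positivity
  have h2 : 2 ^ g - 1 < 2 ^ w := by
    have := Nat.pow_le_pow_right (n := 2) (by norm_num) hg
    omega
  have h3 : dg w X n = dg w X n &&& (2 ^ g - 1) := by
    conv_lhs => rw [← h1]
    rw [dg_and, hE _ h2 n hn]
  have h4 : dg w X n &&& (2 ^ g - 1) ≤ 2 ^ g - 1 := Nat.and_le_right
  omega

theorem sle_spec {w N E X Y : ℕ} (hw : 1 ≤ w) (hE : Ones w N E) (h : sle w E X Y = true)
    {n : ℕ} (hn : n < N) (hX : ∀ m ≤ n, dg w X m < 2 ^ (w - 1)) : dg w X n ≤ dg w Y n := by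
  obtain ⟨h1, h2⟩ := cond_false h
  have h3 : X ≤ Y := Nat.le_of_ble_eq_true h1
  have h4 : ∀ n < N, dg w (Y - X) n < 2 ^ (w - 1) := sml_spec hE (by omega) h2
  have h5 : 2 ^ w = 2 ^ (w - 1) + 2 ^ (w - 1) := by
    conv_lhs => rw [show w = (w - 1) + 1 by omega]
    rw [pow_succ]; ring
  have h6 := dg_add w X (Y - X) n (fun m hm => by
    have := hX m hm
    have := h4 m (by omega)
    omega)
  rw [Nat.add_sub_cancel' h3] at h6
  omega

theorem stp_spec {w e N E C X : ℕ} (he : e ≤ w) (hE : Ones w N E) {n : ℕ} (hn : n < N)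
    (hs : ∀ m ≤ n, ∑ j ∈ range (m + 1), dg w C j * dg w X (m - j) < 2 ^ w) :
    dg w (stp w e E C X) n = (∑ j ∈ range (n + 1), dg w C j * dg w X (n - j)) / 2 ^ e := by
  have h1 : stp w e E C X = ((C * X) >>> e) &&& ((2 ^ (w - e) - 1) * E) := rfl
  have h2 : 2 ^ (w - e) - 1 < 2 ^ w := by
    have := Nat.pow_le_pow_right (n := 2) (by norm_num) (show w - e ≤ w by omega)
    have h0 : 0 < 2 ^ (w - e) := by positivity
    omega
  rw [h1, dg_and, hE _ h2 n hn, dg_shift_and _ _ _ _ he, dg_mul _ _ _ _ hs]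

theorem sum_bound {w g N C X : ℕ} (hN : N ≤ 2 ^ 13) (hgw : g + 75 ≤ w)
    (hC : ∀ j < N, dg w C j ≤ 2 ^ 61) (hX : ∀ j < N, dg w X j < 2 ^ g) {m : ℕ} (hm : m < N) :
    ∑ j ∈ range (m + 1), dg w C j * dg w X (m - j) < 2 ^ w := by
  have h1 : ∑ j ∈ range (m + 1), dg w C j * dg w X (m - j) ≤
      ∑ j ∈ range (m + 1), 2 ^ 61 * 2 ^ g := by
    apply Finset.sum_le_sum
    intro j hj
    rw [mem_range] at hj
    exact Nat.mul_le_mul (hC j (by omega)) (hX (m - j) (by omega)).le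
  rw [Finset.sum_const, card_range, smul_eq_mul] at h1
  have h2 : (m + 1) * (2 ^ 61 * 2 ^ g) ≤ 2 ^ 13 * (2 ^ 61 * 2 ^ g) :=
    Nat.mul_le_mul_right _ (by omega)
  have h3 : 2 ^ 13 * (2 ^ 61 * 2 ^ g) = 2 ^ (g + 74) := by
    rw [pow_add]; ring
  have h4 : 2 ^ (g + 74) < 2 ^ (g + 75) := Nat.pow_lt_pow_right (by norm_num) (by omega)
  have h5 : 2 ^ (g + 75) ≤ 2 ^ w := Nat.pow_le_pow_right (by norm_num) hgw
  omega

theorem stp_add_spec {w e N E C X : ℕ} (he : e ≤ w) (he1 : 1 ≤ e) (hE : Ones w N E) {n : ℕ}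
    (hn : n < N)
    (hs : ∀ m < N, ∑ j ∈ range (m + 1), dg w C j * dg w X (m - j) < 2 ^ w) :
    dg w (stp w e E C X + E) n =
      (∑ j ∈ range (n + 1), dg w C j * dg w X (n - j)) / 2 ^ e + 1 := by
  have h1w : 1 < 2 ^ w := by
    calc 1 < 2 ^ 1 := by norm_num
      _ ≤ 2 ^ w := Nat.pow_le_pow_right (by norm_num) (by omega)
  have hE1 : ∀ m < N, dg w E m = 1 := fun m hm => by
    have := hE 1 h1w m hm
    rwa [one_mul] at this
  have h2 : ∀ m < N, dg w (stp w e E C X) m =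
      (∑ j ∈ range (m + 1), dg w C j * dg w X (m - j)) / 2 ^ e :=
    fun m hm => stp_spec he hE hm (fun m' hm' => hs m' (by omega))
  rw [dg_add, h2 n hn, hE1 n hn]
  intro m hm
  rw [h2 m (by omega), hE1 m (by omega)]
  have h3 := hs m (by omega)
  generalize ∑ j ∈ range (m + 1), dg w C j * dg w X (m - j) = S at *
  have h4 : S / 2 ^ e ≤ S / 2 := by
    apply Nat.div_le_div_left _ (by norm_num)
    calc 2 = 2 ^ 1 := by norm_num
      _ ≤ 2 ^ e := Nat.pow_le_pow_right (by norm_num) he1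
  omega

theorem low_spec {w g N E T k U' L : ℕ} (hgw : g + 75 ≤ w) (hE : Ones w N E) (hk : k < 2 ^ 10)
    (hT : T + 1 ≤ N) (hL : ∀ j < N, dg w L j < 2 ^ g)
    (hU' : ∀ j < N, dg w U' j < 2 ^ (w - 1)) (h : lowc w E T k U' L = true) :
    ∀ m < T, dg w U' m ≤ (k + 1) * dg w L (m + 1) := by
  intro m hm
  have h1 : sle w E (U' &&& (2 ^ (w * T) - 1)) (((k + 1) * (L >>> w)) &&& (2 ^ (w * T) - 1)) = true :=
    h
  have h2 := sle_spec (by omega) hE h1 (n := m) (by omega) (fun m' hm' => by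
    rw [dg_low _ _ _ _ (by omega)]
    exact hU' m' (by omega))
  rw [dg_low _ _ _ _ hm, dg_low _ _ _ _ hm, dg_smul, dg_shift_one] at h2
  · exact h2
  · intro m' hm'
    rw [dg_shift_one]
    have h3 := hL (m' + 1) (by omega)
    calc (k + 1) * dg w L (m' + 1) ≤ 2 ^ 10 * 2 ^ g := Nat.mul_le_mul hk h3.le
      _ = 2 ^ (g + 10) := by rw [pow_add]; ring
      _ < 2 ^ w := Nat.pow_lt_pow_right (by norm_num) (by omega)

theorem high_spec {w g N E T k L' U : ℕ} (hgw : g + 75 ≤ w) (hE : Ones w N E) (hk : k < 2 ^ 10)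
    (hU : ∀ j < N, dg w U j < 2 ^ g) (h : highc w E T k L' U = true) :
    ∀ m, T ≤ m → m + 1 < N → (k + 1) * dg w U (m + 1) ≤ dg w L' m := by
  intro m hTm hm
  have h1 : sle w E (((k + 1) * (U >>> w)) >>> (w * T)) (L' >>> (w * T)) = true := h
  have h0 : ∀ m' < N - 1, (k + 1) * dg w (U >>> w) m' < 2 ^ (w - 1) := by
    intro m' hm'
    rw [dg_shift_one]
    have h3 := hU (m' + 1) (by omega)
    calc (k + 1) * dg w U (m' + 1) ≤ 2 ^ 10 * 2 ^ g := Nat.mul_le_mul hk h3.le
      _ = 2 ^ (g + 10) := by rw [pow_add]; ring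
      _ < 2 ^ (w - 1) := Nat.pow_lt_pow_right (by norm_num) (by omega)
  have h00 : 2 ^ (w - 1) ≤ 2 ^ w := Nat.pow_le_pow_right (by norm_num) (by omega)
  have h3 : ∀ m' < N - 1, dg w ((k + 1) * (U >>> w)) m' = (k + 1) * dg w U (m' + 1) := by
    intro m' hm'
    rw [dg_smul, dg_shift_one]
    intro m'' hm''
    have := h0 m'' (by omega)
    omega
  have h2 := sle_spec (by omega) hE h1 (n := m - T) (by omega) (fun m' hm' => by
    rw [dg_shift, h3 _ (by omega)]
    have := h0 (m' + T) (by omega)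
    rwa [dg_shift_one] at this)
  rw [dg_shift, dg_shift, h3 _ (by omega), show m - T + T = m by omega] at h2
  exact h2

/-! ### the array -/

section array
variable {a : ℕ → ℕ → ℝ}

theorem eq_zero_of_lt (ha : IsNO a) : ∀ k n, n < k → a k n = 0 := by
  intro k
  induction k with
  | zero => intro n hn; omega
  | succ k ih =>
    intro n hn
    have h1 := ha.step k n
    have h2 : ∑ j ∈ range (n + 1), c j * a k (n - j) = 0 := by
      apply Finset.sum_eq_zero
      intro j _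
      rcases Nat.eq_zero_or_pos j with h | h
      · subst h; rw [c_zero, zero_mul]
      · rcases Nat.eq_zero_or_pos n with h' | h'
        · subst h'
          rcases Nat.eq_zero_or_pos k with hk | hk
          · have hj : j = 0 := by
              rename_i hj
              simpa using hj
            omega
          · rw [ih _ (by omega), mul_zero]
        · rw [ih _ (by omega), mul_zero]
    rw [h2] at h1
    have h3 : ((k : ℝ) + 1) ≠ 0 := by positivity
    exact (mul_eq_zero.1 h1).resolve_left h3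

/-- the shifted array `b_k(m + k)` -/
noncomputable def q (a : ℕ → ℕ → ℝ) (k m : ℕ) : ℝ := (k.factorial : ℝ) * a k (m + k)

theorem q_nonneg (ha : IsNO a) (k m : ℕ) : 0 ≤ q a k m := by
  have := ha.nonneg k (m + k)
  unfold q; positivity

theorem q_succ (ha : IsNO a) (k m : ℕ) :
    q a (k + 1) m = ∑ i ∈ range (m + 1), c (i + 1) * q a k (m - i) := by
  have h1 := ha.step k (m + k + 1)
  rw [Finset.sum_range_succ', c_zero, zero_mul, add_zero] at h1
  have h2 : ∑ j ∈ range (m + k + 1), c (j + 1) * a k (m + k + 1 - (j + 1)) =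
      ∑ j ∈ range (m + 1), c (j + 1) * a k (m - j + k) := by
    have h3 : range (m + 1) ⊆ range (m + k + 1) := by
      intro j hj; rw [mem_range] at *; omega
    rw [← Finset.sum_subset h3]
    · refine Finset.sum_congr rfl (fun j hj => ?_)
      rw [mem_range] at hj
      congr 2
      omega
    · intro j _ hj'
      rw [mem_range] at *
      rw [eq_zero_of_lt ha k _ (by omega), mul_zero]
  rw [h2] at h1
  unfold q
  rw [Nat.factorial_succ]
  push_cast
  have h4 : (k + 1 : ℝ) * (k.factorial : ℝ) * a (k + 1) (m + (k + 1)) =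
      (k.factorial : ℝ) * (((k : ℝ) + 1) * a (k + 1) (m + k + 1)) := by
    rw [← add_assoc]; ring
  rw [h4, h1, Finset.mul_sum]
  exact Finset.sum_congr rfl (fun j _ => by ring)

/-- invariant of the loop -/
structure Inv (a : ℕ → ℕ → ℝ) (w s g N k L U : ℕ) : Prop where
  lo : ∀ m < N, (dg w L m : ℝ) ≤ 2 ^ s * q a k m
  hi : ∀ m < N, 2 ^ s * q a k m ≤ (dg w U m : ℝ)
  ls : ∀ m < N, dg w L m < 2 ^ g
  us : ∀ m < N, dg w U m < 2 ^ g

theorem nat_div_le (S e : ℕ) : ((S / 2 ^ e : ℕ) : ℝ) ≤ (S : ℝ) / 2 ^ e := by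
  have := Nat.cast_div_le (α := ℝ) (m := S) (n := 2 ^ e)
  push_cast at this
  exact this

theorem le_nat_div_add (S e : ℕ) : (S : ℝ) / 2 ^ e ≤ ((S / 2 ^ e + 1 : ℕ) : ℝ) := by
  rw [div_le_iff₀ (by positivity)]
  have h1 : S ≤ (S / 2 ^ e + 1) * 2 ^ e := by
    have h2 := Nat.div_add_mod S (2 ^ e)
    have h3 := Nat.mod_lt S (show 0 < 2 ^ e by positivity)
    nlinarith
  exact_mod_cast h1

theorem lower_step (ha : IsNO a) {w e s N k C L m : ℕ}
    (hC : ∀ j < N, (dg w C j : ℝ) ≤ 2 ^ e * c (j + 1))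
    (hL : ∀ m < N, (dg w L m : ℝ) ≤ 2 ^ s * q a k m) (hm : m < N) :
    (((∑ j ∈ range (m + 1), dg w C j * dg w L (m - j)) / 2 ^ e : ℕ) : ℝ) ≤
      2 ^ s * q a (k + 1) m := by
  refine (nat_div_le _ _).trans ?_
  rw [div_le_iff₀ (by positivity), q_succ ha]
  push_cast
  rw [Finset.mul_sum, Finset.sum_mul]
  apply Finset.sum_le_sum
  intro j hj
  rw [mem_range] at hj
  calc (dg w C j : ℝ) * (dg w L (m - j) : ℝ) ≤ (2 ^ e * c (j + 1)) * (2 ^ s * q a k (m - j)) :=
        mul_le_mul (hC j (by omega)) (hL _ (by omega)) (by positivity)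
          (mul_nonneg (by positivity) (c_nonneg _))
    _ = _ := by ring

theorem upper_step (ha : IsNO a) {w e s N k C U m : ℕ}
    (hC : ∀ j < N, 2 ^ e * c (j + 1) ≤ (dg w C j : ℝ))
    (hU : ∀ m < N, 2 ^ s * q a k m ≤ (dg w U m : ℝ)) (hm : m < N) :
    2 ^ s * q a (k + 1) m ≤
      (((∑ j ∈ range (m + 1), dg w C j * dg w U (m - j)) / 2 ^ e + 1 : ℕ) : ℝ) := by
  refine le_trans ?_ (le_nat_div_add _ _)
  rw [le_div_iff₀ (by positivity), q_succ ha]
  push_cast
  rw [Finset.mul_sum, Finset.sum_mul]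
  apply Finset.sum_le_sum
  intro j hj
  rw [mem_range] at hj
  calc 2 ^ s * (c (j + 1) * q a k (m - j)) * 2 ^ e =
      (2 ^ e * c (j + 1)) * (2 ^ s * q a k (m - j)) := by ring
    _ ≤ (dg w C j : ℝ) * (dg w U (m - j) : ℝ) :=
        mul_le_mul (hC j (by omega)) (hU _ (by omega))
          (mul_nonneg (by positivity) (q_nonneg ha _ _)) (by positivity)

/-- comparison of consecutive levels, from a comparison of digits: decrease -/
theorem dec_of {s k m x y : ℕ} (h : x ≤ (k + 1) * y)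
    (hx : 2 ^ s * q a (k + 1) m ≤ (x : ℝ)) (hy : (y : ℝ) ≤ 2 ^ s * q a k (m + 1)) :
    a (k + 1) (m + k + 1) ≤ a k (m + k + 1) := by
  have h1 : (x : ℝ) ≤ ((k : ℝ) + 1) * y := by exact_mod_cast h
  have h2 : 2 ^ s * q a (k + 1) m ≤ ((k : ℝ) + 1) * (2 ^ s * q a k (m + 1)) :=
    hx.trans (h1.trans (mul_le_mul_of_nonneg_left hy (by positivity)))
  unfold q at h2
  rw [Nat.factorial_succ, show m + 1 + k = m + k + 1 by ring, ← add_assoc] at h2
  push_cast at h2
  have h3 : (0 : ℝ) < 2 ^ s * (((k : ℝ) + 1) * (k.factorial : ℝ)) := by positivity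
  refine le_of_mul_le_mul_left ?_ h3
  nlinarith [h2]

theorem inc_of {s k m x y : ℕ} (h : (k + 1) * x ≤ y)
    (hx : 2 ^ s * q a k (m + 1) ≤ (x : ℝ)) (hy : (y : ℝ) ≤ 2 ^ s * q a (k + 1) m) :
    a k (m + k + 1) ≤ a (k + 1) (m + k + 1) := by
  have h1 : ((k : ℝ) + 1) * x ≤ (y : ℝ) := by exact_mod_cast h
  have h2 : ((k : ℝ) + 1) * (2 ^ s * q a k (m + 1)) ≤ 2 ^ s * q a (k + 1) m :=
    (mul_le_mul_of_nonneg_left hx (by positivity)).trans (h1.trans hy)
  unfold q at h2
  rw [Nat.factorial_succ, show m + 1 + k = m + k + 1 by ring, ← add_assoc] at h2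
  push_cast at h2
  have h3 : (0 : ℝ) < 2 ^ s * (((k : ℝ) + 1) * (k.factorial : ℝ)) := by positivity
  refine le_of_mul_le_mul_left ?_ h3
  nlinarith [h2]

/-- the conclusion drawn from a successful run -/
def Res (a : ℕ → ℕ → ℝ) (N Te : ℕ) : List ℕ → ℕ → Prop
  | [], k => ∀ n, n < Te + (k + 1) → a (k + 1) n ≤ a k n
  | T :: ts, k => ((∀ n, n < T + (k + 1) → a (k + 1) n ≤ a k n) ∧
      (∀ n < N, T + (k + 1) ≤ n → a k n ≤ a (k + 1) n)) ∧ Res a N Te ts (k + 1)

theorem go_spec (ha : IsNO a) {w e g s N E C Cp Te : ℕ} (he : e ≤ w) (he1 : 1 ≤ e)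
    (hgw : g + 75 ≤ w) (hN : N ≤ 2 ^ 13) (hE : Ones w N E) (hTe : Te + 1 ≤ N)
    (hC : ∀ j < N, (dg w C j : ℝ) ≤ 2 ^ e * c (j + 1))
    (hCp : ∀ j < N, 2 ^ e * c (j + 1) ≤ (dg w Cp j : ℝ))
    (hC' : ∀ j < N, dg w C j ≤ 2 ^ 61) (hCp' : ∀ j < N, dg w Cp j ≤ 2 ^ 61) :
    ∀ (ts : List ℕ) (k L U : ℕ), k + ts.length < 2 ^ 10 → (∀ T ∈ ts, T + 1 ≤ N) →
      Inv a w s g N k L U → go w e g E C Cp Te ts k L U = true → Res a N Te ts k := by
  have hlowres : ∀ (T k L U' : ℕ), k < 2 ^ 10 → T + 1 ≤ N →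
      (∀ m < N, (dg w L m : ℝ) ≤ 2 ^ s * q a k m) → (∀ m < N, dg w L m < 2 ^ g) →
      (∀ m < N, 2 ^ s * q a (k + 1) m ≤ (dg w U' m : ℝ)) →
      (∀ m < N, dg w U' m < 2 ^ (w - 1)) → lowc w E T k U' L = true →
      ∀ n, n < T + (k + 1) → a (k + 1) n ≤ a k n := by
    intro T k L U' hk hT hL hLs hU' hUs hchk n hn
    rcases lt_or_ge n (k + 1) with h | h
    · rw [eq_zero_of_lt ha (k + 1) n h]; exact ha.nonneg _ _
    · obtain ⟨m, rfl⟩ : ∃ m, n = m + k + 1 := ⟨n - (k + 1), by omega⟩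
      have hmT : m < T := by omega
      exact dec_of (low_spec hgw hE hk hT hLs hUs hchk m hmT) (hU' m (by omega))
        (hL (m + 1) (by omega))
  have hpw : 2 ^ g ≤ 2 ^ (w - 1) := Nat.pow_le_pow_right (by norm_num) (by omega)
  have hUstep : ∀ (k L U : ℕ), Inv a w s g N k L U →
      ∀ m < N, 2 ^ s * q a (k + 1) m ≤ (dg w (stp w e E Cp U + E) m : ℝ) := by
    intro k L U hI m hm
    rw [stp_add_spec he he1 hE hm (fun m' hm' => sum_bound hN hgw hCp' hI.us hm')]
    exact upper_step ha hCp hI.hi hm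
  have hLstep : ∀ (k L U : ℕ), Inv a w s g N k L U →
      ∀ m < N, (dg w (stp w e E C L) m : ℝ) ≤ 2 ^ s * q a (k + 1) m := by
    intro k L U hI m hm
    rw [stp_spec he hE hm (fun m' hm' => sum_bound hN hgw hC' hI.ls (by omega))]
    exact lower_step ha hC hI.lo hm
  intro ts
  induction ts with
  | nil =>
    intro k L U hk _ hI hgo
    rw [go, force_eq] at hgo
    obtain ⟨h1, h2⟩ := cond_false hgo
    have h3 := sml_spec hE (by omega) h1
    exact hlowres Te k L _ (by simp at hk; omega) hTe hI.lo hI.ls (hUstep k L U hI)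
      (fun m hm => (h3 m hm).trans_le hpw) h2
  | cons T ts ih =>
    intro k L U hk hts hI hgo
    rw [go, force_eq, force_eq] at hgo
    obtain ⟨h1, hgo⟩ := cond_false hgo
    obtain ⟨h2, hgo⟩ := cond_false hgo
    obtain ⟨h3, hgo⟩ := cond_false hgo
    obtain ⟨h4, hgo⟩ := cond_false hgo
    have h1' := sml_spec hE (by omega) h1
    have h2' := sml_spec hE (by omega) h2
    have hk' : k < 2 ^ 10 := by omega
    have hI' : Inv a w s g N (k + 1) (stp w e E C L) (stp w e E Cp U + E) :=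
      ⟨hLstep k L U hI, hUstep k L U hI, h1', h2'⟩
    refine ⟨⟨?_, ?_⟩, ih (k + 1) _ _ (by simp at hk; omega)
      (fun T' hT' => hts T' (by simp [hT'])) hI' hgo⟩
    · exact hlowres T k L _ hk' (hts T (by simp)) hI.lo hI.ls hI'.hi
        (fun m hm => (h2' m hm).trans_le hpw) h3
    · intro n hn hTn
      obtain ⟨m, rfl⟩ : ∃ m, n = m + k + 1 := ⟨n - (k + 1), by omega⟩
      exact inc_of (high_spec hgw hE hk' hI.us h4 m (by omega) (by omega)) (hI.hi (m + 1) (by omega))
        (hI'.lo m (by omega))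

/-! ### the initial data -/

/-- Newton iteration for the inverse of `phi` modulo `2 ^ (w * 2 ^ d)`. Its output is certified
afterwards, so nothing is proved about it. -/
def newton (w phi : ℕ) : ℕ → ℕ
  | 0 => 1
  | d + 1 =>
    Nat.mod (Nat.mul (newton w phi d)
      (Nat.sub (Nat.add (Nat.pow 2 (Nat.mul w (Nat.pow 2 (Nat.succ d)))) 2)
        (Nat.mod (Nat.mul (Nat.mod phi (Nat.pow 2 (Nat.mul w (Nat.pow 2 (Nat.succ d)))))
          (newton w phi d)) (Nat.pow 2 (Nat.mul w (Nat.pow 2 (Nat.succ d)))))))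
      (Nat.pow 2 (Nat.mul w (Nat.pow 2 (Nat.succ d))))

/-- the pentagonal number series (nothing is proved about it either) -/
def pent (w d : ℕ) : ℕ → ℕ
  | 0 => 1
  | k + 1 =>
    cond (Nat.beq (Nat.mod (k + 1) 2) 0)
      (Nat.add (pent w d k) (Nat.add (Nat.pow 2 (w * ((k + 1) * (3 * (k + 1) - 1) / 2)))
        (Nat.pow 2 (w * ((k + 1) * (3 * (k + 1) + 1) / 2)))))
      (Nat.add (pent w d k) (Nat.sub (Nat.pow 2 (w * 2 ^ d))
        (Nat.add (Nat.pow 2 (w * ((k + 1) * (3 * (k + 1) - 1) / 2)))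
        (Nat.pow 2 (w * ((k + 1) * (3 * (k + 1) + 1) / 2))))))

/-- sum of divisors of `n ≤ N`, else `0` -/
def sgc (N r n : ℕ) : ℕ := cond (Nat.ble n N) (sigL n r) 0

def main (w e g s N r d Te : ℕ) (ts : List ℕ) : Bool :=
  force (Nat.div (Nat.sub (Nat.pow (Nat.pow 2 w) N) 1) (Nat.sub (Nat.pow 2 w) 1)) fun E =>
  force (Nat.mod (pent w d 70) (Nat.pow 2 (Nat.mul w (Nat.pow 2 d)))) fun phi =>
  force (Nat.land (newton w phi d) (Nat.sub (Nat.pow 2 (Nat.mul w N)) 1)) fun P =>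
  force (dmap w (fun n _ => sgc N r n) d 0 0) fun S =>
  force (Nat.land (Nat.mul S P) (Nat.sub (Nat.pow 2 (Nat.mul w N)) 1)) fun Q =>
  cond (dchk w d 0 P Q) (cond (sml E (Nat.sub g s) P) (cond (Nat.beq (Nat.mod P (Nat.pow 2 w)) 1)
    (force (dmap w (fun n x => Nat.div (Nat.mul (Nat.pow 2 e) x) n) d 0 S) fun C0 =>
     force (Nat.shiftRight C0 w) fun C =>
     force (Nat.add C E) fun Cp =>
     force (Nat.mul (Nat.pow 2 s) P) fun P0 => go w e g E C Cp Te ts 0 P0 P0) false) false) false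

theorem sgc_eq {N r n : ℕ} (hN : N < (r + 1) * (r + 1)) (hn : n ≤ N) :
    sgc N r n = ∑ d ∈ n.divisors, d := by
  have h : Nat.ble n N = true := by rw [Nat.ble_eq]; exact hn
  rw [sgc, h, cond_true]
  exact sigL_spec n r (by omega)

theorem sgc_cast {N r n : ℕ} (hN : N < (r + 1) * (r + 1)) (hn : n ≤ N) :
    ((sgc N r n : ℕ) : ℝ) = sg n := by
  rw [sgc_eq hN hn, sg]; push_cast; rfl

theorem sgc_le {N r n : ℕ} (hN : N < (r + 1) * (r + 1)) : sgc N r n ≤ N * N := by
  rcases le_or_gt n N with h | h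
  · rw [sgc_eq hN h]
    calc ∑ d ∈ n.divisors, d ≤ ∑ d ∈ n.divisors, N := by
          apply Finset.sum_le_sum
          intro d hd
          exact (Nat.divisor_le hd).trans h
      _ = n.divisors.card * N := by rw [Finset.sum_const, smul_eq_mul]
      _ ≤ N * N := Nat.mul_le_mul_right _ ((Nat.card_divisors_le_self n).trans h)
  · have h1 : Nat.ble n N = false := by
      rw [← Bool.not_eq_true, Nat.ble_eq]; exact not_le.2 h
    rw [sgc, h1]; simp

theorem main_spec (ha : IsNO a) {w e g s N r d Te : ℕ} {ts : List ℕ} (he : e ≤ w) (he1 : 1 ≤ e)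
    (hsg : s ≤ g) (hgw : g + 75 ≤ w) (hN : N ≤ 2 ^ 13) (hTe : Te + 1 ≤ N)
    (hr : N < (r + 1) * (r + 1)) (hNd : N < 2 ^ d) (heN : 2 ^ e * N + 1 ≤ 2 ^ 61)
    (hts : ts.length < 2 ^ 10) (hts' : ∀ T ∈ ts, T + 1 ≤ N)
    (h : main w e g s N r d Te ts = true) : Res a N Te ts 0 := by
  unfold main at h
  simp only [force_eq] at h
  have hE : Ones w N (Nat.div (Nat.sub (Nat.pow (Nat.pow 2 w) N) 1) (Nat.sub (Nat.pow 2 w) 1)) :=
    fun v hv n hn => dg_ones w N v n (by omega) hv hn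
  generalize Nat.div (Nat.sub (Nat.pow (Nat.pow 2 w) N) 1) (Nat.sub (Nat.pow 2 w) 1) = E at h hE
  generalize Nat.land (newton w (Nat.mod (pent w d 70) (Nat.pow 2 (Nat.mul w (Nat.pow 2 d)))) d)
    (Nat.sub (Nat.pow 2 (Nat.mul w N)) 1) = P at h
  have hNN : N * N ≤ 2 ^ 26 := by
    calc N * N ≤ 2 ^ 13 * 2 ^ 13 := Nat.mul_le_mul hN hN
      _ = 2 ^ 26 := by norm_num
  have hSb : ∀ n, sgc N r n ≤ 2 ^ 26 := fun n => (sgc_le hr).trans hNN
  have h26w : 2 ^ 26 < 2 ^ w := Nat.pow_lt_pow_right (by norm_num) (by omega)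
  have hS : ∀ i < 2 ^ d, dg w (dmap w (fun n _ => sgc N r n) d 0 0) i = sgc N r i := by
    intro i hi
    have := (dmap_spec w (fun n _ => sgc N r n) d 0 0 (fun i _ => (hSb _).trans_lt h26w)).2 i hi
    rw [this, zero_add]
  generalize dmap w (fun n _ => sgc N r n) d 0 0 = S at h hS
  obtain ⟨h1, h⟩ := cond_false h
  obtain ⟨h2, h⟩ := cond_false h
  obtain ⟨h3, h⟩ := cond_false h
  -- the partition numbers
  have hPs : ∀ n < N, dg w P n < 2 ^ (g - s) := sml_spec hE (show g - s ≤ w by omega) h2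
  have hPg : ∀ n < N, dg w P n < 2 ^ g := fun n hn =>
    (hPs n hn).trans_le (Nat.pow_le_pow_right (by norm_num) (by omega))
  have hP0 : dg w P 0 = 1 := by rw [dg_zero]; exact Nat.eq_of_beq_eq_true h3
  have hprow : ∀ n < N, n * dg w P n = ∑ j ∈ range (n + 1), sgc N r j * dg w P (n - j) := by
    intro n hn
    have h4 := dchk_spec w d 0 P _ h1 n (by omega)
    have h5 : dg w (Nat.land (Nat.mul S P) (Nat.sub (Nat.pow 2 (Nat.mul w N)) 1)) n =
        dg w (S * P) n := dg_low w (S * P) N n hn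
    rw [h5, zero_add, dg_mul] at h4
    · rw [h4]
      refine Finset.sum_congr rfl (fun j hj => ?_)
      rw [mem_range] at hj
      rw [hS j (by omega)]
    · intro m hm
      refine sum_bound hN hgw (fun j hj => ?_) hPg (by omega)
      rw [hS j (by omega)]
      exact (hSb j).trans (by norm_num)
  have hrow : ∀ n < N, a 0 n = (dg w P n : ℝ) := by
    intro n
    induction n using Nat.strong_induction_on with
    | _ n ih =>
      intro hn
      rcases Nat.eq_zero_or_pos n with h0 | h0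
      · subst h0; rw [hP0, ha.zero]; simp
      · have h6 := ha.row n
        have h7 : ∑ j ∈ range (n + 1), sg j * a 0 (n - j) =
            ((∑ j ∈ range (n + 1), sgc N r j * dg w P (n - j) : ℕ) : ℝ) := by
          push_cast
          refine Finset.sum_congr rfl (fun j hj => ?_)
          rw [mem_range] at hj
          rw [sgc_cast hr (by omega)]
          rcases Nat.eq_zero_or_pos j with h8 | h8
          · subst h8; rw [sg_zero, zero_mul, zero_mul]
          · rw [ih (n - j) (by omega) (by omega)]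
        rw [h7, ← hprow n hn] at h6
        push_cast at h6
        have h9 : (n : ℝ) ≠ 0 := by positivity
        exact mul_left_cancel₀ h9 h6
  -- the kernel
  have hCb : ∀ i < 2 ^ d, Nat.div (Nat.mul (Nat.pow 2 e) (dg w S i)) (0 + i) < 2 ^ w := by
    intro i hi
    rw [hS i hi]
    calc Nat.div (Nat.mul (Nat.pow 2 e) (sgc N r i)) (0 + i) ≤ Nat.pow 2 e * sgc N r i :=
          Nat.div_le_self _ _
      _ ≤ 2 ^ e * (N * N) := Nat.mul_le_mul_left _ (sgc_le hr)
      _ = (2 ^ e * N) * N := by ring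
      _ ≤ 2 ^ 61 * 2 ^ 13 := Nat.mul_le_mul (by omega) hN
      _ = 2 ^ 74 := by norm_num
      _ < 2 ^ w := Nat.pow_lt_pow_right (by norm_num) (by omega)
  have hC0 : ∀ i < 2 ^ d, dg w (dmap w (fun n x => Nat.div (Nat.mul (Nat.pow 2 e) x) n) d 0 S) i
      = 2 ^ e * sgc N r i / i := by
    intro i hi
    have := (dmap_spec w (fun n x => Nat.div (Nat.mul (Nat.pow 2 e) x) n) d 0 S hCb).2 i hi
    rw [this, hS i hi, zero_add]; rfl
  generalize dmap w (fun n x => Nat.div (Nat.mul (Nat.pow 2 e) x) n) d 0 S = C0 at h hC0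
  have hCd : ∀ j < N, dg w (C0 >>> w) j = 2 ^ e * sgc N r (j + 1) / (j + 1) := by
    intro j hj
    rw [dg_shift_one, hC0 (j + 1) (by omega)]
  have hC : ∀ j < N, (dg w (C0 >>> w) j : ℝ) ≤ 2 ^ e * c (j + 1) := by
    intro j hj
    rw [hCd j hj, c, ← sgc_cast hr (show j + 1 ≤ N by omega)]
    have := Nat.cast_div_le (α := ℝ) (m := 2 ^ e * sgc N r (j + 1)) (n := j + 1)
    refine this.trans (le_of_eq ?_)
    push_cast; ring
  have hC' : ∀ j < N, dg w (C0 >>> w) j + 1 ≤ 2 ^ 61 := by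
    intro j hj
    have h10 : (dg w (C0 >>> w) j : ℝ) ≤ 2 ^ e * (N : ℝ) := by
      refine (hC j hj).trans (mul_le_mul_of_nonneg_left ((c_le _).trans ?_) (by positivity))
      exact_mod_cast hj
    have h11 : dg w (C0 >>> w) j ≤ 2 ^ e * N := by exact_mod_cast h10
    omega
  have h1w : 1 < 2 ^ w := by
    calc 1 < 2 ^ 1 := by norm_num
      _ ≤ 2 ^ w := Nat.pow_le_pow_right (by norm_num) (by omega)
  have hE1 : ∀ m < N, dg w E m = 1 := fun m hm => by
    have := hE 1 h1w m hm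
    rwa [one_mul] at this
  have h61w : 2 ^ 61 < 2 ^ w := Nat.pow_lt_pow_right (by norm_num) (by omega)
  have hCpd : ∀ j < N, dg w (C0 >>> w + E) j = dg w (C0 >>> w) j + 1 := by
    intro j hj
    rw [dg_add, hE1 j hj]
    intro m hm
    rw [hE1 m (by omega)]
    have := hC' m (by omega)
    omega
  have hCp : ∀ j < N, 2 ^ e * c (j + 1) ≤ (dg w (C0 >>> w + E) j : ℝ) := by
    intro j hj
    rw [hCpd j hj, hCd j hj, c, ← sgc_cast hr (show j + 1 ≤ N by omega)]
    have h12 : 2 ^ e * sgc N r (j + 1) ≤ (2 ^ e * sgc N r (j + 1) / (j + 1) + 1) * (j + 1) := by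
      have h2 := Nat.div_add_mod (2 ^ e * sgc N r (j + 1)) (j + 1)
      have h3 := Nat.mod_lt (2 ^ e * sgc N r (j + 1)) (show 0 < j + 1 by omega)
      nlinarith
    have h13 : (2 : ℝ) ^ e * (sgc N r (j + 1) : ℝ) ≤
        ((2 ^ e * sgc N r (j + 1) / (j + 1) + 1 : ℕ) : ℝ) * ((j + 1 : ℕ) : ℝ) := by
      exact_mod_cast h12
    rw [← mul_div_assoc, div_le_iff₀ (by positivity)]
    exact h13
  -- the starting row
  have hP0d : ∀ n < N, dg w (2 ^ s * P) n = 2 ^ s * dg w P n := by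
    intro n hn
    rw [dg_smul]
    intro m hm
    have h14 := hPs m (by omega)
    calc 2 ^ s * dg w P m < 2 ^ s * 2 ^ (g - s) := Nat.mul_lt_mul_of_pos_left h14 (by positivity)
      _ = 2 ^ g := by rw [← pow_add]; congr 1; omega
      _ ≤ 2 ^ w := Nat.pow_le_pow_right (by norm_num) (by omega)
  have hP0b : ∀ n < N, dg w (2 ^ s * P) n < 2 ^ g := by
    intro m hm
    rw [hP0d m hm]
    have h14 := hPs m (by omega)
    calc 2 ^ s * dg w P m < 2 ^ s * 2 ^ (g - s) := Nat.mul_lt_mul_of_pos_left h14 (by positivity)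
      _ = 2 ^ g := by rw [← pow_add]; congr 1; omega
  have hq : ∀ n < N, (dg w (2 ^ s * P) n : ℝ) = 2 ^ s * q a 0 n := by
    intro n hn
    rw [hP0d n hn, q, add_zero, hrow n hn]
    simp
  have hI : Inv a w s g N 0 (2 ^ s * P) (2 ^ s * P) :=
    ⟨fun m hm => (hq m hm).le, fun m hm => (hq m hm).ge, hP0b, hP0b⟩
  exact go_spec ha he he1 hgw hN hE hTe hC hCp (fun j hj => by have := hC' j hj; omega)
    (fun j hj => by rw [hCpd j hj]; exact hC' j hj) ts 0 _ _ (by omega) hts' hI h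

end array

/-- thresholds minus the level: `T_k = n_{k+1} - (k+1)` for `k < 70`, where `n_k` is the least `n`
with `[t^{k-1}] P_n ≤ [t^k] P_n` -/
def thr : List ℕ :=
  [0, 6, 14, 25, 39, 55, 73, 95, 119, 145, 174, 206, 240, 276, 315, 357, 401, 448, 497,
    548, 602, 659, 718, 779, 843, 910, 979, 1050, 1124, 1201, 1279, 1361, 1444, 1531, 1619,
    1711, 1804, 1900, 1999, 2100, 2203, 2309, 2418, 2528, 2642, 2758, 2876, 2996, 3120,
    3245, 3373, 3504, 3637, 3772, 3910, 4050, 4193, 4338, 4486, 4636, 4789, 4944, 5101,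
    5261, 5424, 5588, 5756, 5925, 6098, 6272]

theorem run_true : main 1024 48 900 64 6400 80 13 6329 thr = true := by decide +kernel

/-- reading off `Res` -/
theorem Res.get {a : ℕ → ℕ → ℝ} {N Te : ℕ} : ∀ {ts : List ℕ} {k : ℕ}, Res a N Te ts k →
    (∀ i < ts.length, (∀ n, n < ts.getD i 0 + (k + i + 1) → a (k + i + 1) n ≤ a (k + i) n) ∧
      (∀ n < N, ts.getD i 0 + (k + i + 1) ≤ n → a (k + i) n ≤ a (k + i + 1) n)) ∧
    (∀ n, n < Te + (k + ts.length + 1) → a (k + ts.length + 1) n ≤ a (k + ts.length) n) := by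
  intro ts
  induction ts with
  | nil =>
    intro k h
    refine ⟨fun i hi => by simp at hi, ?_⟩
    have h' : ∀ n, n < Te + (k + 1) → a (k + 1) n ≤ a k n := h
    simpa using h'
  | cons T ts ih =>
    intro k h
    obtain ⟨h1, h2⟩ := h
    obtain ⟨h3, h4⟩ := ih h2
    refine ⟨fun i hi => ?_, ?_⟩
    · rcases Nat.eq_zero_or_pos i with h0 | h0
      · subst h0
        simpa using h1
      · obtain ⟨i, rfl⟩ : ∃ i', i = i' + 1 := ⟨i - 1, by omega⟩
        have h5 := h3 i (by simpa using hi)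
        rw [show k + (i + 1) = k + 1 + i by ring]
        simpa using h5
    · rw [List.length_cons, show k + (ts.length + 1) = k + 1 + ts.length by ring]
      exact h4

theorem res {a : ℕ → ℕ → ℝ} (ha : IsNO a) : Res a 6400 6329 thr 0 := by
  have hts : ∀ T ∈ thr, T + 1 ≤ 6400 := by decide
  have hlen : thr.length < 2 ^ 10 := by decide
  exact main_spec ha (by norm_num) (by norm_num) (by norm_num) (by norm_num) (by norm_num)
    (by norm_num) (by norm_num) (by norm_num) (by norm_num) hlen hts run_true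

end Small

open Pool.Agent.NekOk.Small in
theorem small {a : ℕ → ℕ → ℝ} (ha : IsNO a) :
    (∀ n < 6400, ∃ m, (∀ k < m, a k n ≤ a (k + 1) n) ∧ ∀ k, m ≤ k → a (k + 1) n ≤ a k n) ∧
    (∀ n < 6400, ∀ k, 84 ≤ k → a (k + 1) n ≤ a k n) := by
  have hlen : thr.length = 70 := by decide
  obtain ⟨h1, h2⟩ := (res ha).get
  rw [hlen] at h1 h2
  simp only [zero_add] at h1 h2
  have hD : ∀ k, 70 ≤ k → ∀ n < 6400, a (k + 1) n ≤ a k n := by
    intro k hk
    induction k, hk using Nat.le_induction with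
    | base => intro n hn; exact h2 n (by omega)
    | succ k hk ih => intro n hn; exact ha.dec_succ k n (fun m hm => ih m (by omega))
  refine ⟨fun n hn => ?_, fun n hn k hk => hD k (by omega) n hn⟩
  -- monotone thresholds
  have hmono : ∀ i < 69, thr.getD i 0 ≤ thr.getD (i + 1) 0 := by decide
  have hmono' : ∀ j < 70, ∀ i ≤ j, thr.getD i 0 + (i + 1) ≤ thr.getD j 0 + (j + 1) := by
    intro j hj
    induction j with
    | zero =>
      intro i hi
      have h0 : i = 0 := by omega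
      subst h0
      exact le_rfl
    | succ j ih =>
      intro i hi
      rcases Nat.eq_or_lt_of_le hi with h | h
      · subst h; exact le_rfl
      · have h3 := ih (by omega) i (by omega)
        have h4 := hmono j (by omega)
        omega
  classical
  by_cases hex : ∃ k < 70, n < thr.getD k 0 + (k + 1)
  · set m := Nat.find hex with hm
    obtain ⟨hm1, hm2⟩ : m < 70 ∧ n < thr.getD m 0 + (m + 1) := Nat.find_spec hex
    refine ⟨m, fun k hk => ?_, fun k hk => ?_⟩
    · have h3 := Nat.find_min hex hk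
      have h4 : thr.getD k 0 + (k + 1) ≤ n := by
        by_contra h5
        exact h3 ⟨by omega, not_le.1 h5⟩
      exact (h1 k (by omega)).2 n hn h4
    · rcases lt_or_ge k 70 with h3 | h3
      · have h4 := hmono' k h3 m hk
        exact (h1 k h3).1 n (by omega)
      · exact hD k h3 n hn
  · refine ⟨70, fun k hk => ?_, fun k hk => hD k hk n hn⟩
    have h4 : thr.getD k 0 + (k + 1) ≤ n := by
      by_contra h5
      exact hex ⟨k, hk, not_le.1 h5⟩
    exact (h1 k hk).2 n hn h4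

end Pool.Agent.NekOk
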