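import Pool.Agent.NekOk.Core
import Pool.Agent.NekOk.Large
import Pool.Agent.NekOk.SmallRun

/-! Unimodality of every `IsNO` array. -/

namespace Pool.Agent.NekOk
open Finset


theorem dec_large {a : ℕ → ℕ → ℝ} (ha : IsNO a) :
    ∀ n : ℕ, 6400 ≤ n → ∀ k : ℕ, ⌈1.05 * √(n : ℝ)⌉₊ ≤ k → a (k + 1) n ≤ a k n := by
  intro n
  induction n using Nat.strong_induction_on with
  | _ n ih =>
    intro hn k hk
    have hroot : (80 : ℝ) ≤ √(n : ℝ) := by
      apply Real.le_sqrt_of_sq_le
      have : (6400 : ℝ) ≤ n := by exact_mod_cast hn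
      linarith
    rcases Nat.eq_or_lt_of_le hk with h | h
    · obtain ⟨s, hs, hs', h1, h2, h3⟩ := exists_saddle n k hn (by
        rw [← h]; exact (Nat.ceil_lt_add_one (by positivity)).le)
      exact dec_core ha hs hs' k n h2 (h3 (by rw [← h]; exact Nat.le_ceil _)) h1
    · obtain ⟨k', rfl⟩ : ∃ k', k = k' + 1 := ⟨k - 1, by omega⟩
      apply ha.dec_succ k' n
      intro m hm
      have hk' : ⌈1.05 * √(n : ℝ)⌉₊ ≤ k' := by omega
      have h84 : 84 ≤ ⌈1.05 * √(n : ℝ)⌉₊ := by
        have h1 : ((84 : ℕ) : ℝ) ≤ 1.05 * √(n : ℝ) := by push_cast; linarith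
        have h2 := h1.trans (Nat.le_ceil (1.05 * √(n : ℝ)))
        exact_mod_cast h2
      rcases lt_or_ge m 6400 with hm' | hm'
      · exact (small ha).2 m hm' k' (h84.trans hk')
      · refine ih m hm hm' k' ((Nat.ceil_mono ?_).trans hk')
        have : √(m : ℝ) ≤ √(n : ℝ) := Real.sqrt_le_sqrt (by exact_mod_cast hm.le)
        linarith

theorem unimodal {a : ℕ → ℕ → ℝ} (ha : IsNO a) (n : ℕ) :
    ∃ m, (∀ k < m, a k n ≤ a (k + 1) n) ∧ ∀ k, m ≤ k → a (k + 1) n ≤ a k n := by
  rcases lt_or_ge n 6400 with h | h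
  · exact (small ha).1 n h
  classical
  set K0 := ⌈1.05 * √(n : ℝ)⌉₊ with hK0
  have hD := dec_large ha n h
  have hex : ∃ k, a (k + 1) n ≤ a k n := ⟨K0, hD K0 le_rfl⟩
  refine ⟨Nat.find hex, fun k hk => ?_, ?_⟩
  · have := Nat.find_min hex hk
    linarith
  · have hn0 : (0 : ℝ) ≤ n := by positivity
    have hsq : √(n : ℝ) ^ 2 = n := Real.sq_sqrt hn0
    have hroot : (80 : ℝ) ≤ √(n : ℝ) := by
      apply Real.le_sqrt_of_sq_le
      have : (6400 : ℝ) ≤ n := by exact_mod_cast h
      linarith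
    have hK0n : K0 + 2 ≤ n := by
      have h1 : (K0 : ℝ) < 1.05 * √(n : ℝ) + 1 := Nat.ceil_lt_add_one (by positivity)
      have h2 : ((K0 + 2 : ℕ) : ℝ) ≤ n := by
        push_cast
        nlinarith
      exact_mod_cast h2
    intro k hk
    induction k, hk using Nat.le_induction with
    | base => exact Nat.find_spec hex
    | succ k hk ih =>
      rcases lt_or_ge k K0 with h1 | h1
      · have hroot' : (K0 : ℝ) < 1.05 * √(n : ℝ) + 1 := Nat.ceil_lt_add_one (by positivity)
        have h1' : (k : ℝ) ≤ K0 := by exact_mod_cast h1.le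
        obtain ⟨s, hs, hs', h3, h4, h5⟩ := exists_saddle n k h (by linarith)
        have h6 := lc_core ha hs hs' k n h4 h3
        have hp : 0 < a k n := ha.pos k n (by omega)
        have hp1 : 0 < a (k + 1) n := ha.pos (k + 1) n (by omega)
        have h7 : a k n * a (k + 2) n ≤ a k n * a (k + 1) n := by nlinarith
        exact le_of_mul_le_mul_left h7 hp
      · exact hD (k + 1) (by omega)

end Pool.Agent.NekOk
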