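import Pool.Agent.NekOk.HookDefs

/-! HOOK-A: the trace identity for powers of two Toeplitz matrices. -/

namespace Pool.Agent.NekOk
open Finset Matrix

namespace HookA

variable {R : Type*} [CommRing R] {D : ℕ}

/-- sum of the principal minors of size `N` -/
def eN (N : ℕ) (M : Matrix (Fin D) (Fin D) R) : R :=
  ∑ s ∈ (univ : Finset (Fin D)).powersetCard N,
    (M.submatrix (Subtype.val : s → Fin D) (Subtype.val : s → Fin D)).det

theorem eN_mul_comm (N : ℕ) (P Q : Matrix (Fin D) (Fin D) R) : eN N (P * Q) = eN N (Q * P) := by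
  unfold eN
  rw [← Matrix.coeff_det_one_add_X_smul_eq_sum_minors (P * Q) N,
    ← Matrix.coeff_det_one_add_X_smul_eq_sum_minors (Q * P) N]
  have h1 : (Polynomial.X : Polynomial R) • (P * Q).map Polynomial.C
      = ((Polynomial.X : Polynomial R) • P.map Polynomial.C) * Q.map Polynomial.C := by
    rw [Matrix.map_mul, Matrix.smul_mul]
  have h2 : (Polynomial.X : Polynomial R) • (Q * P).map Polynomial.C
      = Q.map Polynomial.C * ((Polynomial.X : Polynomial R) • P.map Polynomial.C) := by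
    rw [Matrix.map_mul, Matrix.mul_smul]
  rw [h1, h2, Matrix.det_one_add_mul_comm]

/-- the diagonal matrix `x ^ i` -/
def Xd (D : ℕ) (x : R) : Matrix (Fin D) (Fin D) R := Matrix.diagonal (fun i : Fin D => x ^ (i : ℕ))

theorem tau_def (N : ℕ) (x : R) (Q : Matrix (Fin D) (Fin D) R) :
    tau D N x Q = eN N (Xd D x * Q) := rfl

theorem tau_eq_sum (N : ℕ) (x : R) (Q : Matrix (Fin D) (Fin D) R) :
    tau D N x Q = ∑ s ∈ (univ : Finset (Fin D)).powersetCard N,
      x ^ (∑ i ∈ s, (i : ℕ)) *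
        (Q.submatrix (Subtype.val : s → Fin D) (Subtype.val : s → Fin D)).det := by
  unfold tau
  apply Finset.sum_congr rfl
  intro s hs
  have : (Matrix.diagonal (fun i : Fin D => x ^ (i : ℕ)) * Q).submatrix
      (Subtype.val : s → Fin D) (Subtype.val : s → Fin D)
      = Matrix.diagonal (fun i : s => x ^ ((i : Fin D) : ℕ)) *
        Q.submatrix (Subtype.val : s → Fin D) (Subtype.val : s → Fin D) := by
    ext i j
    simp [Matrix.diagonal_mul]
  rw [this, Matrix.det_mul, Matrix.det_diagonal]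
  congr 1
  rw [Finset.prod_coe_sort s (fun i : Fin D => x ^ (i : ℕ)), Finset.prod_pow_eq_pow_sum]

/-- sums against a row of `Cm` -/
theorem sum_Cm_row (α : R) (i : Fin D) (f : ℕ → R) :
    ∑ k : Fin D, Cm D α i k * f k
      = f i - α * (if (i : ℕ) + 1 < D then f ((i : ℕ) + 1) else 0) := by
  have h : ∀ k : Fin D, Cm D α i k * f k =
      (fun k : ℕ => (if (i : ℕ) = k then f k else 0) + (if (i : ℕ) + 1 = k then - α * f k else 0)) k := by
    intro k
    simp only [Cm, Matrix.of_apply]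
    by_cases h1 : (k : ℕ) = i
    · have h2 : ¬ (i : ℕ) + 1 = k := by omega
      rw [if_pos h1, if_pos h1.symm, if_neg h2]; ring
    · have h1' : ¬ (i : ℕ) = k := fun h => h1 h.symm
      rw [if_neg h1, if_neg h1']
      by_cases h2 : (k : ℕ) = i + 1
      · rw [if_pos h2, if_pos h2.symm]; ring
      · have h2' : ¬ (i : ℕ) + 1 = k := fun h => h2 h.symm
        rw [if_neg h2, if_neg h2']; ring
  rw [Finset.sum_congr rfl (fun k _ => h k),
    Fin.sum_univ_eq_sum_range (fun k : ℕ => (if (i : ℕ) = k then f k else 0) +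
      (if (i : ℕ) + 1 = k then - α * f k else 0)) D, Finset.sum_add_distrib,
    Finset.sum_ite_eq, Finset.sum_ite_eq]
  simp only [Finset.mem_range, i.2, if_true]
  split_ifs <;> ring

/-- sums against a column of `Cm` -/
theorem sum_Cm_col (α : R) (j : Fin D) (f : ℕ → R) :
    ∑ k : Fin D, f k * Cm D α k j
      = f j - α * (if 1 ≤ (j : ℕ) then f ((j : ℕ) - 1) else 0) := by
  have h : ∀ k : Fin D, f k * Cm D α k j =
      (fun k : ℕ => (if (j : ℕ) = k then f k else 0) +
        (if (j : ℕ) - 1 = k then (if 1 ≤ (j : ℕ) then - α * f k else 0) else 0)) k := by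
    intro k
    simp only [Cm, Matrix.of_apply]
    by_cases h1 : (j : ℕ) = k
    · rw [if_pos h1, if_pos h1]
      by_cases h2 : 1 ≤ (j : ℕ)
      · have h3 : ¬ (j : ℕ) - 1 = k := by omega
        rw [if_neg h3]; ring
      · rw [if_neg h2]; simp
    · rw [if_neg h1, if_neg h1]
      by_cases h2 : (j : ℕ) = k + 1
      · have h3 : (j : ℕ) - 1 = k := by omega
        have h4 : 1 ≤ (j : ℕ) := by omega
        rw [if_pos h2, if_pos h3, if_pos h4]; ring
      · rw [if_neg h2]
        by_cases h3 : 1 ≤ (j : ℕ)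
        · have h4 : ¬ (j : ℕ) - 1 = k := by omega
          rw [if_neg h4]; ring
        · rw [if_neg h3]; simp
  rw [Finset.sum_congr rfl (fun k _ => h k),
    Fin.sum_univ_eq_sum_range (fun k : ℕ => (if (j : ℕ) = k then f k else 0) +
      (if (j : ℕ) - 1 = k then (if 1 ≤ (j : ℕ) then - α * f k else 0) else 0)) D,
    Finset.sum_add_distrib, Finset.sum_ite_eq, Finset.sum_ite_eq]
  have hj : (j : ℕ) - 1 < D := by omega
  simp only [Finset.mem_range, j.2, hj, if_true]
  split_ifs <;> ring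

theorem Xd_mul_Am (x b : R) : Xd D x * Am D b = Am D (x * b) * Xd D x := by
  ext i j
  rw [Xd, Matrix.diagonal_mul, Matrix.mul_diagonal]
  simp only [Am, Matrix.of_apply]
  split_ifs with h
  · have h' : (j : ℕ) ≤ i := h
    rw [mul_pow]
    have : x ^ (i : ℕ) = x ^ ((i : ℕ) - j) * x ^ (j : ℕ) := by
      rw [← pow_add]; congr 1; omega
    rw [this]; ring
  · simp

theorem Cm_mul_Xd (x a : R) : Cm D a * Xd D x = Xd D x * Cm D (a * x) := by
  ext i j
  rw [Xd, Matrix.diagonal_mul, Matrix.mul_diagonal]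
  simp only [Cm, Matrix.of_apply]
  split_ifs with h h'
  · rw [h]; ring
  · rw [h', pow_succ]; ring
  · simp

theorem Cm_pow_mul_Xd (x : R) (k : ℕ) : Cm D 1 ^ k * Xd D x = Xd D x * Cm D x ^ k := by
  induction k with
  | zero => simp
  | succ k ih =>
    rw [pow_succ, pow_succ', Matrix.mul_assoc, Cm_mul_Xd, one_mul, ← Matrix.mul_assoc, ih,
      Matrix.mul_assoc]
    congr 1
    rw [← pow_succ, ← pow_succ']

/-- the lower bidiagonal inverse of `Am` -/
def Lm (D : ℕ) (β : R) : Matrix (Fin D) (Fin D) R := (Cm D β).transpose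

theorem Am_mul_Lm (β : R) : Am D β * Lm D β = 1 := by
  ext i j
  rw [Matrix.mul_apply]
  have h : ∀ k : Fin D, Am D β i k * Lm D β k j =
      Cm D β j k * (fun k : ℕ => if k ≤ i then β ^ ((i : ℕ) - k) else 0) k := by
    intro k
    simp only [Am, Lm, Matrix.of_apply, Matrix.transpose_apply]
    rw [mul_comm]
    simp only [Fin.le_def]
  rw [Finset.sum_congr rfl (fun k _ => h k), sum_Cm_row β j
    (fun k : ℕ => if k ≤ i then β ^ ((i : ℕ) - k) else 0)]
  have hi := i.2
  by_cases hij : i = j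
  · subst hij
    simp
  · rw [Matrix.one_apply, if_neg hij]
    have hij' : (i : ℕ) ≠ j := fun h => hij (Fin.ext h)
    by_cases h1 : (j : ℕ) ≤ i
    · have h2 : (j : ℕ) + 1 ≤ i := by omega
      have h3 : (j : ℕ) + 1 < D := by omega
      rw [if_pos h1, if_pos h3, if_pos h2]
      have : (i : ℕ) - j = ((i : ℕ) - (j + 1)) + 1 := by omega
      rw [this, pow_succ]; ring
    · have h2 : ¬ (j : ℕ) + 1 ≤ i := by omega
      rw [if_neg h1, if_neg h2]; simp

theorem Cm_comm (a b : R) : Commute (Cm D a) (Cm D b) := by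
  have hS : ∀ a : R, Cm D a = 1 - a • (1 - Cm D 1) := by
    intro a
    ext i j
    simp only [Cm, Matrix.of_apply, Matrix.sub_apply, Matrix.smul_apply, Matrix.one_apply,
      smul_eq_mul, Fin.ext_iff]
    by_cases h1 : (j : ℕ) = i
    · rw [if_pos h1, if_pos h1, if_pos h1.symm]; ring
    · have h1' : ¬ (i : ℕ) = j := fun h => h1 h.symm
      rw [if_neg h1, if_neg h1, if_neg h1']
      split_ifs <;> ring
  rw [hS a, hS b]
  refine Commute.sub_left (Commute.one_left _) ?_
  refine Commute.sub_right (Commute.one_right _) ?_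
  exact (Commute.refl _).smul_left a |>.smul_right b

theorem Am_comm (a b : R) : Commute (Am D a) (Am D b) := by
  have h1 : ∀ a : R, Am D a * Lm D a = 1 := Am_mul_Lm
  have h2 : ∀ a : R, Lm D a * Am D a = 1 := fun a => mul_eq_one_comm.1 (h1 a)
  let u : R → (Matrix (Fin D) (Fin D) R)ˣ := fun a => ⟨Lm D a, Am D a, h2 a, h1 a⟩
  have hc : Commute (Lm D a) (Lm D b) := by
    unfold Lm Commute SemiconjBy
    rw [← Matrix.transpose_mul, ← Matrix.transpose_mul, (Cm_comm a b).eq]
  have h3 : Commute ((u a : (Matrix (Fin D) (Fin D) R)ˣ) : Matrix (Fin D) (Fin D) R)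
      ((u b : (Matrix (Fin D) (Fin D) R)ˣ) : Matrix (Fin D) (Fin D) R) := hc
  exact h3.units_inv_left.units_inv_right

/-- diagonal matrix `(c, 1, 1, …)` -/
def Dl (D : ℕ) (c : R) : Matrix (Fin D) (Fin D) R :=
  Matrix.diagonal (fun i : Fin D => if (i : ℕ) = 0 then c else 1)

/-- the error matrix: only the last row is non-zero -/
def Er (D : ℕ) (β : R) : Matrix (Fin D) (Fin D) R :=
  Matrix.of fun i j => if (i : ℕ) + 1 = D then β ^ (D - (j : ℕ)) else 0

theorem Cm_mul_Am (β : R) : Cm D 1 * Am D β = Am D β * Cm D 1 * Dl D (1 - β) + Er D β := by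
  ext i j
  rw [Matrix.add_apply, Dl, Matrix.mul_diagonal, Matrix.mul_apply, Matrix.mul_apply]
  have h1 : ∀ k : Fin D, Cm D 1 i k * Am D β k j =
      Cm D 1 i k * (fun k : ℕ => if (j : ℕ) ≤ k then β ^ (k - (j : ℕ)) else 0) k := by
    intro k
    simp only [Am, Matrix.of_apply, Fin.le_def]
  have h2 : ∀ k : Fin D, Am D β i k * Cm D 1 k j =
      (fun k : ℕ => if k ≤ (i : ℕ) then β ^ ((i : ℕ) - k) else 0) k * Cm D 1 k j := by
    intro k
    simp only [Am, Matrix.of_apply, Fin.le_def]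
  rw [Finset.sum_congr rfl (fun k _ => h1 k), Finset.sum_congr rfl (fun k _ => h2 k),
    sum_Cm_row 1 i (fun k : ℕ => if (j : ℕ) ≤ k then β ^ (k - (j : ℕ)) else 0),
    sum_Cm_col 1 j (fun k : ℕ => if k ≤ (i : ℕ) then β ^ ((i : ℕ) - k) else 0)]
  simp only [Er, Matrix.of_apply, one_mul]
  have hi := i.2
  have hj := j.2
  by_cases hD : (i : ℕ) + 1 = D
  · have hD' : ¬ (i : ℕ) + 1 < D := by omega
    rw [if_neg hD', if_pos hD]
    have hji : (j : ℕ) ≤ i := by omega
    rw [if_pos hji]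
    by_cases h0 : (j : ℕ) = 0
    · have h0' : ¬ 1 ≤ (j : ℕ) := by omega
      rw [if_neg h0', if_pos h0, h0]
      have : D - 0 = (i : ℕ) - 0 + 1 := by omega
      rw [this, pow_succ]; ring
    · have h0' : 1 ≤ (j : ℕ) := by omega
      have h4 : (j : ℕ) - 1 ≤ i := by omega
      rw [if_pos h0', if_neg h0, if_pos h4]
      have e1 : (i : ℕ) - ((j : ℕ) - 1) = (i : ℕ) - j + 1 := by omega
      have e2 : D - (j : ℕ) = (i : ℕ) - j + 1 := by omega
      rw [e1, e2]; ring
  · have hD' : (i : ℕ) + 1 < D := by omega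
    rw [if_pos hD', if_neg hD]
    by_cases h0 : (j : ℕ) = 0
    · have h0' : ¬ 1 ≤ (j : ℕ) := by omega
      have h5 : (j : ℕ) ≤ i := by omega
      have h6 : (j : ℕ) ≤ i + 1 := by omega
      rw [if_neg h0', if_pos h0, if_pos h5, if_pos h6, h0]
      have : (i : ℕ) + 1 - 0 = (i : ℕ) - 0 + 1 := by omega
      rw [this, pow_succ]; ring
    · have h0' : 1 ≤ (j : ℕ) := by omega
      rw [if_pos h0', if_neg h0]
      by_cases h7 : (j : ℕ) ≤ i + 1
      · have h8 : (j : ℕ) - 1 ≤ i := by omega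
        rw [if_pos h7, if_pos h8]
        have e1 : (i : ℕ) - ((j : ℕ) - 1) = (i : ℕ) + 1 - j := by omega
        rw [e1]; ring
      · have h8 : ¬ (j : ℕ) - 1 ≤ i := by omega
        rw [if_neg h7, if_neg h8]; ring

/-- band condition -/
def Band (w : ℕ) (Q : Matrix (Fin D) (Fin D) R) : Prop :=
  ∀ i k : Fin D, (i : ℕ) + w < k → Q i k = 0

theorem Band.mul {w v : ℕ} {P Q : Matrix (Fin D) (Fin D) R} (hP : Band w P) (hQ : Band v Q) :
    Band (w + v) (P * Q) := by
  intro i k hik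
  rw [Matrix.mul_apply]
  apply Finset.sum_eq_zero
  intro l _
  by_cases h : (i : ℕ) + w < l
  · rw [hP i l h, zero_mul]
  · rw [hQ l k (by omega), mul_zero]

theorem band_one : Band 0 (1 : Matrix (Fin D) (Fin D) R) := by
  intro i k hik
  rw [Matrix.one_apply, if_neg]
  rintro rfl
  omega

theorem band_Am (β : R) : Band 0 (Am D β) := by
  intro i k hik
  simp only [Am, Matrix.of_apply, Fin.le_def]
  rw [if_neg (by omega)]

theorem band_Cm (β : R) : Band 1 (Cm D β) := by
  intro i k hik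
  simp only [Cm, Matrix.of_apply]
  rw [if_neg (by omega), if_neg (by omega)]

theorem band_Cm_pow (β : R) (k : ℕ) : Band k (Cm D β ^ k) := by
  induction k with
  | zero => simpa using band_one
  | succ k ih => rw [pow_succ]; exact ih.mul (band_Cm β)

theorem band_Am_pow (β : R) (k : ℕ) : Band 0 (Am D β ^ k) := by
  induction k with
  | zero => simpa using band_one
  | succ k ih => rw [pow_succ]; exact ih.mul (band_Am β)

theorem Xd_mul_Er {T w : ℕ} {x β : R} (hx : x ^ T = 0) (hw : T + w + 1 ≤ D)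
    {Q : Matrix (Fin D) (Fin D) R} (hQ : Band w Q) : Xd D x * (Q * Er D β) = 0 := by
  ext i j
  rw [Xd, Matrix.diagonal_mul, Matrix.mul_apply, Matrix.zero_apply]
  by_cases hi : T ≤ (i : ℕ)
  · have : x ^ (i : ℕ) = 0 := by
      rw [← Nat.sub_add_cancel hi, pow_add, hx, mul_zero]
    rw [this, zero_mul]
  · rw [Finset.sum_eq_zero, mul_zero]
    intro k _
    by_cases hk : (k : ℕ) + 1 = D
    · rw [hQ i k (by omega), zero_mul]
    · simp only [Er, Matrix.of_apply]
      rw [if_neg hk, mul_zero]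

theorem sum_ge {N : ℕ} (s : Finset ℕ) (hs : s.card = N) (h0 : 0 ∉ s) :
    N * (N + 1) ≤ 2 * ∑ i ∈ s, i := by
  subst hs
  induction s using Finset.induction_on_max with
  | empty => simp
  | insert a s ha ih =>
    have has : a ∉ s := fun h => lt_irrefl _ (ha a h)
    rw [Finset.card_insert_of_notMem has, Finset.sum_insert has]
    have h0s : 0 ∉ s := fun h => h0 (Finset.mem_insert_of_mem h)
    have := ih h0s
    have hcard : s.card + 1 ≤ a := by
      have hsub : s ⊆ Finset.Ioo 0 a := by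
        intro b hb
        rw [Finset.mem_Ioo]
        refine ⟨Nat.pos_of_ne_zero (fun h => h0s (h ▸ hb)), ha b hb⟩
      have h1 := Finset.card_le_card hsub
      rw [Nat.card_Ioo] at h1
      have ha0 : a ≠ 0 := fun h => h0 (h ▸ Finset.mem_insert_self _ _)
      omega
    nlinarith

theorem tau_mul_Dl {N T : ℕ} {x c : R} (hT : 2 * T = N * (N + 1)) (hx : x ^ T = 0)
    (Q : Matrix (Fin D) (Fin D) R) : tau D N x (Q * Dl D c) = c * tau D N x Q := by
  rw [tau_eq_sum, tau_eq_sum, Finset.mul_sum]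
  apply Finset.sum_congr rfl
  intro s hs
  rw [Finset.mem_powersetCard] at hs
  have hsub : (Q * Dl D c).submatrix (Subtype.val : s → Fin D) (Subtype.val : s → Fin D)
      = Q.submatrix (Subtype.val : s → Fin D) (Subtype.val : s → Fin D) *
        Matrix.diagonal (fun i : s => if ((i : Fin D) : ℕ) = 0 then c else 1) := by
    ext i j
    simp [Dl, Matrix.mul_diagonal]
  rw [hsub, Matrix.det_mul, Matrix.det_diagonal]
  rw [Finset.prod_coe_sort s (fun i : Fin D => if (i : ℕ) = 0 then c else 1)]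
  by_cases h0 : ∃ i ∈ s, (i : ℕ) = 0
  · obtain ⟨i, his, hi0⟩ := h0
    rw [Finset.prod_eq_single_of_mem i his, if_pos hi0]
    · ring
    · intro b hb hbi
      rw [if_neg]
      intro hb0
      exact hbi (Fin.ext (by omega))
  · push Not at h0
    have hge : N * (N + 1) ≤ 2 * ∑ i ∈ s, (i : ℕ) := by
      have h1 := sum_ge (s.map Fin.valEmbedding) (by rw [Finset.card_map])
        (by
          rw [Finset.mem_map]
          rintro ⟨i, hi, hi0⟩
          exact h0 i hi hi0)
      rw [Finset.sum_map] at h1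
      simp only [Fin.valEmbedding_apply] at h1
      rw [← hs.2]
      exact h1
    have hz : x ^ (∑ i ∈ s, (i : ℕ)) = 0 := by
      have : T ≤ ∑ i ∈ s, (i : ℕ) := by omega
      rw [← Nat.sub_add_cancel this, pow_add, hx, mul_zero]
    rw [hz]; ring

/-- cyclicity for powers of `Cm` on the right -/
theorem tau_mul_Cm_pow (N : ℕ) (x : R) (k : ℕ) (P : Matrix (Fin D) (Fin D) R) :
    tau D N x (P * Cm D 1 ^ k) = tau D N x (Cm D x ^ k * P) := by
  rw [tau_def, tau_def, ← Matrix.mul_assoc, eN_mul_comm, ← Matrix.mul_assoc, Cm_pow_mul_Xd,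
    Matrix.mul_assoc]

/-- cyclicity for `Am` on the left -/
theorem tau_Am_mul (N : ℕ) (x b : R) (P : Matrix (Fin D) (Fin D) R) :
    tau D N x (Am D b * P) = tau D N x (P * Am D (x * b)) := by
  rw [tau_def, tau_def, ← Matrix.mul_assoc, Xd_mul_Am, Matrix.mul_assoc, eN_mul_comm,
    Matrix.mul_assoc]

theorem tau_Dl_Cm {N T : ℕ} {x c : R} (hT : 2 * T = N * (N + 1)) (hx : x ^ T = 0) (k : ℕ)
    (Q : Matrix (Fin D) (Fin D) R) :
    tau D N x (Q * Dl D c * Cm D 1 ^ k) = c * tau D N x (Q * Cm D 1 ^ k) := by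
  rw [tau_mul_Cm_pow, ← Matrix.mul_assoc, tau_mul_Dl hT hx, tau_mul_Cm_pow]

theorem tau_step {N T m : ℕ} {x : R} (hT : 2 * T = N * (N + 1)) (hx : x ^ T = 0)
    (hD : T + m ≤ D) (β : R) {A' : Matrix (Fin D) (Fin D) R} (hA : Band 0 A') (k l : ℕ)
    (hkl : k + l + 1 = m) :
    tau D N x (A' * Cm D 1 ^ (l + 1) * Am D β * Cm D 1 ^ k)
      = (1 - β) * tau D N x (A' * Cm D 1 ^ l * Am D β * Cm D 1 ^ (k + 1)) := by
  have e1 : A' * Cm D 1 ^ (l + 1) * Am D β * Cm D 1 ^ k
      = (A' * Cm D 1 ^ l * Am D β * Cm D 1) * Dl D (1 - β) * Cm D 1 ^ k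
        + (A' * Cm D 1 ^ l) * Er D β * Cm D 1 ^ k := by
    rw [pow_succ]
    calc A' * (Cm D 1 ^ l * Cm D 1) * Am D β * Cm D 1 ^ k
        = (A' * Cm D 1 ^ l) * (Cm D 1 * Am D β) * Cm D 1 ^ k := by
          simp only [Matrix.mul_assoc]
      _ = _ := by
          rw [Cm_mul_Am]
          simp only [Matrix.mul_add, Matrix.add_mul, Matrix.mul_assoc]
  have hband : Band l (A' * Cm D 1 ^ l) := by
    have := hA.mul (band_Cm_pow (D := D) (1 : R) l)
    rwa [zero_add] at this
  have e2 : Xd D x * ((A' * Cm D 1 ^ l) * Er D β * Cm D 1 ^ k) = 0 := by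
    rw [← Matrix.mul_assoc, Xd_mul_Er hx (by omega) hband, Matrix.zero_mul]
  have e3 : tau D N x (A' * Cm D 1 ^ (l + 1) * Am D β * Cm D 1 ^ k)
      = tau D N x ((A' * Cm D 1 ^ l * Am D β * Cm D 1) * Dl D (1 - β) * Cm D 1 ^ k) := by
    rw [tau_def, tau_def, e1, Matrix.mul_add, e2, add_zero]
  rw [e3, tau_Dl_Cm hT hx, Matrix.mul_assoc (A' * Cm D 1 ^ l * Am D β), ← pow_succ']

theorem tau_move {N T m : ℕ} {x : R} (hT : 2 * T = N * (N + 1)) (hx : x ^ T = 0)
    (hD : T + m ≤ D) (β : R) {A' : Matrix (Fin D) (Fin D) R} (hA : Band 0 A') :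
    tau D N x (A' * Cm D 1 ^ m * Am D β)
      = (1 - β) ^ m * tau D N x (A' * Am D β * Cm D 1 ^ m) := by
  have key : ∀ k ≤ m, tau D N x (A' * Cm D 1 ^ m * Am D β)
      = (1 - β) ^ k * tau D N x (A' * Cm D 1 ^ (m - k) * Am D β * Cm D 1 ^ k) := by
    intro k
    induction k with
    | zero => intro _; simp
    | succ k ih =>
      intro hk
      rw [ih (by omega)]
      have : m - k = (m - (k + 1)) + 1 := by omega
      rw [this, tau_step hT hx hD β hA k (m - (k + 1)) (by omega), pow_succ]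
      ring
  have := key m le_rfl
  rw [this]
  simp

theorem tau_cycle {N T m : ℕ} {x : R} (hT : 2 * T = N * (N + 1)) (hx : x ^ T = 0)
    (hD : T + m ≤ D) (b : R) (j : ℕ) :
    tau D N x (Am D b * Am D 1 ^ j * Cm D 1 ^ m)
      = (1 - x * b) ^ m * tau D N x (Am D (x * b) * Am D 1 ^ j * Cm D 1 ^ m) := by
  rw [Matrix.mul_assoc, tau_Am_mul, tau_move hT hx hD _ (band_Am_pow 1 j)]
  rw [((Am_comm (x * b) (1 : R)).pow_right j).eq]

theorem Am_zero : Am D (0 : R) = 1 := by
  ext i j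
  simp only [Am, Matrix.of_apply, Matrix.one_apply, Fin.le_def, Fin.ext_iff]
  by_cases h : (i : ℕ) = j
  · simp [h]
  · rw [if_neg h]
    by_cases h2 : (j : ℕ) ≤ i
    · rw [if_pos h2, zero_pow (by omega)]
    · rw [if_neg h2]

theorem tau_strip {N T m : ℕ} {x : R} (hT : 2 * T = N * (N + 1)) (hx : x ^ T = 0)
    (hD : T + m ≤ D) (j : ℕ) :
    tau D N x (Am D 1 ^ (j + 1) * Cm D 1 ^ m)
      = (∏ k ∈ Icc 1 T, (1 - x ^ k)) ^ m * tau D N x (Am D 1 ^ j * Cm D 1 ^ m) := by
  have key : ∀ t : ℕ, tau D N x (Am D 1 ^ (j + 1) * Cm D 1 ^ m)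
      = (∏ k ∈ Icc 1 t, (1 - x ^ k)) ^ m * tau D N x (Am D (x ^ t) * Am D 1 ^ j * Cm D 1 ^ m) := by
    intro t
    induction t with
    | zero => simp [pow_succ']
    | succ t ih =>
      rw [ih, tau_cycle hT hx hD, Finset.prod_Icc_succ_top (by omega), mul_pow, ← pow_succ']
      ring
  rw [key T, hx, Am_zero, Matrix.one_mul]

theorem Cm_pow_upper (k : ℕ) : (Cm D (1 : R) ^ k).BlockTriangular id ∧
    ∀ i : Fin D, (Cm D (1 : R) ^ k) i i = 1 := by
  induction k with
  | zero =>
    refine ⟨?_, fun i => by simp⟩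
    simpa using Matrix.blockTriangular_one
  | succ k ih =>
    have hC : (Cm D (1 : R)).BlockTriangular id := by
      intro i j hij
      have hij' : (j : ℕ) < i := hij
      simp only [Cm, Matrix.of_apply]
      rw [if_neg (by omega), if_neg (by omega)]
    refine ⟨?_, ?_⟩
    · rw [pow_succ]; exact ih.1.mul hC
    · intro i
      rw [pow_succ, Matrix.mul_apply, Finset.sum_eq_single i]
      · rw [ih.2 i]; simp [Cm]
      · intro l _ hli
        rcases lt_or_gt_of_ne hli with h | h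
        · rw [ih.1 h, zero_mul]
        · rw [hC h, mul_zero]
      · intro h; exact absurd (Finset.mem_univ _) h

theorem tau_Cm_pow (N m : ℕ) (x : R) :
    tau D N x (Cm D 1 ^ m)
      = ∑ s ∈ (univ : Finset (Fin D)).powersetCard N, x ^ (∑ i ∈ s, (i : ℕ)) := by
  rw [tau_eq_sum]
  apply Finset.sum_congr rfl
  intro s _
  have hup : ((Cm D (1 : R) ^ m).submatrix (Subtype.val : s → Fin D)
      (Subtype.val : s → Fin D)).BlockTriangular id := by
    intro i j hij
    exact (Cm_pow_upper m).1 (show ((j : Fin D)) < (i : Fin D) from hij)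
  rw [Matrix.det_of_isUpperTriangular hup]
  rw [Finset.prod_eq_one, mul_one]
  intro i _
  exact (Cm_pow_upper (D := D) (R := R) m).2 i.1

end HookA

open HookA in
theorem tau_eq {R : Type*} [CommRing R] {D N m T : ℕ} {x : R} (hT : 2 * T = N * (N + 1))
    (hx : x ^ T = 0) (hD : T + m ≤ D) :
    tau D N x (Am D 1 ^ m * Cm D 1 ^ m) =
      (∏ k ∈ Icc 1 T, (1 - x ^ k)) ^ (m ^ 2) *
        ∑ s ∈ (univ : Finset (Fin D)).powersetCard N, x ^ (∑ i ∈ s, (i : ℕ)) := by
  have key : ∀ j : ℕ, tau D N x (Am D 1 ^ j * Cm D 1 ^ m)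
      = (∏ k ∈ Icc 1 T, (1 - x ^ k)) ^ (m * j) * tau D N x (Cm D 1 ^ m) := by
    intro j
    induction j with
    | zero => simp
    | succ j ih =>
      rw [tau_strip hT hx hD, ih, Nat.mul_succ, pow_add]
      ring
  rw [key m, tau_Cm_pow, sq]

end Pool.Agent.NekOk
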