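import Pool.Agent.NekOk.HookDefs
import Mathlib.LinearAlgebra.Vandermonde

/-! Module HOOK-B: the Cauchy determinant. -/

namespace Pool.Agent.NekOk
open Finset

theorem hookB_hc_succ (z : ℝ) (k : ℕ) : ((k : ℝ) + 1) * hc z (k + 1) = (z + k) * hc z k := by
  unfold hc
  rw [prod_range_succ]
  have : (k : ℝ) + 1 ≠ 0 := by positivity
  field_simp

/-- telescoping -/
theorem hookB_tele (z : ℝ) (b b' n : ℕ) (hb : n ≤ b) (hb' : n ≤ b') :
    z * ((b : ℝ) - b' + z) * ∑ c ∈ range n, hc z (b - c) * hc (-z) (b' - c) =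
      -(((b : ℝ) + z) * (b' - z) * hc z b * hc (-z) b') +
        (((b - n : ℕ) : ℝ) + z) * ((b' - n : ℕ) - z) * hc z (b - n) * hc (-z) (b' - n) := by
  induction n with
  | zero => simp
  | succ n ih =>
    rw [sum_range_succ, mul_add, ih (by omega) (by omega)]
    obtain ⟨k, hk⟩ : ∃ k, b = n + 1 + k := ⟨b - (n + 1), by omega⟩
    obtain ⟨k', hk'⟩ : ∃ k', b' = n + 1 + k' := ⟨b' - (n + 1), by omega⟩
    have e1 : b - n = k + 1 := by omega
    have e2 : b' - n = k' + 1 := by omega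
    have e3 : b - (n + 1) = k := by omega
    have e4 : b' - (n + 1) = k' := by omega
    rw [e1, e2, e3, e4]
    have h1 := hookB_hc_succ z k
    have h2 := hookB_hc_succ (-z) k'
    have h3 : (b : ℝ) - b' = k - k' := by rw [hk, hk']; push_cast; ring
    rw [h3]
    push_cast
    linear_combination (((k' : ℝ) + 1) * hc (-z) (k' + 1)) * h1 + ((z + k) * hc z k) * h2

theorem hookB_Df (z : ℝ) (b b' : ℕ) :
    z * ((b : ℝ) - b' + z) * Df z b b' = -(((b : ℝ) + z) * (b' - z) * hc z b * hc (-z) b') := by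
  unfold Df
  rw [sum_range_succ, mul_add, hookB_tele z b b' (min b b') (min_le_left _ _) (min_le_right _ _)]
  rcases le_total b b' with h | h
  · rw [min_eq_left h, Nat.sub_self]
    have h0 : hc z 0 = 1 := by simp [hc]
    rw [h0, Nat.cast_sub h]
    push_cast
    ring
  · rw [min_eq_right h, Nat.sub_self]
    have h0 : hc (-z) 0 = 1 := by simp [hc]
    rw [h0, Nat.cast_sub h]
    push_cast
    ring

theorem hookB_diag (z : ℝ) (b : ℕ) :
    -(((b : ℝ) + z) * (b - z) * hc z b * hc (-z) b) =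
      z ^ 2 * ∏ k ∈ range b, (1 - z ^ 2 / ((k : ℝ) + 1) ^ 2) := by
  induction b with
  | zero => simp [hc]; ring
  | succ b ih =>
    rw [prod_range_succ, ← mul_assoc, ← ih]
    have h1 := hookB_hc_succ z b
    have h2 := hookB_hc_succ (-z) b
    have h0 : (b : ℝ) + 1 ≠ 0 := by positivity
    have h3 : hc z (b + 1) = (z + b) * hc z b / (b + 1) := by
      rw [eq_div_iff h0]; linear_combination h1
    have h4 : hc (-z) (b + 1) = (-z + b) * hc (-z) b / (b + 1) := by
      rw [eq_div_iff h0]; linear_combination h2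
    rw [h3, h4]
    push_cast
    field_simp
    ring

/-- The Cauchy determinant for shifted nodes. -/
theorem hookB_cauchy_fin {n : ℕ} (y : Fin n → ℝ) (z : ℝ) (h : ∀ i j, y i + z - y j ≠ 0) :
    (Matrix.of fun i j : Fin n => (1 : ℝ) / (y i + z - y j)).det * ∏ i, ∏ k, (y i + z - y k) =
      ∏ j, ∏ k ∈ univ.erase j, (y j - y k) := by
  classical
  set P : Fin n → Polynomial ℝ := fun j => ∏ k ∈ univ.erase j, (Polynomial.X - Polynomial.C (y k))
    with hP
  have hdeg : ∀ j, (P j).natDegree < n := by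
    intro j
    have h1 : (P j).natDegree ≤ ∑ k ∈ univ.erase j, (Polynomial.X - Polynomial.C (y k)).natDegree :=
      Polynomial.natDegree_prod_le _ _
    have h2 : ∑ k ∈ univ.erase j, (Polynomial.X - Polynomial.C (y k)).natDegree = n - 1 := by
      simp
    have h3 : 0 < n := Fin.pos j
    omega
  set Co : Matrix (Fin n) (Fin n) ℝ := Matrix.of fun m j => (P j).coeff (m : ℕ) with hCo
  have hmul : ∀ v : Fin n → ℝ, Matrix.vandermonde v * Co = Matrix.of fun i j => (P j).eval (v i) := by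
    intro v
    ext i j
    rw [Matrix.mul_apply, Matrix.of_apply, Polynomial.eval_eq_sum_range' (hdeg j),
      Finset.sum_range]
    refine Finset.sum_congr rfl fun m _ => ?_
    rw [Matrix.vandermonde_apply, hCo, Matrix.of_apply]
    ring
  have hdet : (Matrix.of fun i j => (P j).eval (y i + z)).det =
      (Matrix.of fun i j => (P j).eval (y i)).det := by
    rw [← hmul y, ← hmul (fun i => y i + z), Matrix.det_mul, Matrix.det_mul,
      Matrix.det_vandermonde, Matrix.det_vandermonde]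
    congr 1
    refine Finset.prod_congr rfl fun i _ => Finset.prod_congr rfl fun j _ => ?_
    ring
  have hdiag : (Matrix.of fun i j => (P j).eval (y i)) =
      Matrix.diagonal (fun j => ∏ k ∈ univ.erase j, (y j - y k)) := by
    ext i j
    rw [Matrix.of_apply, Matrix.diagonal_apply, hP]
    simp only [Polynomial.eval_prod, Polynomial.eval_sub, Polynomial.eval_X, Polynomial.eval_C]
    split_ifs with hij
    · rw [hij]
    · exact Finset.prod_eq_zero (i := i) (by simp [hij]) (by ring)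
  have hcau : (Matrix.of fun i j => (P j).eval (y i + z)) =
      Matrix.of fun i j => (∏ k, (y i + z - y k)) *
        ((Matrix.of fun i j : Fin n => (1 : ℝ) / (y i + z - y j)) i j) := by
    ext i j
    rw [Matrix.of_apply, Matrix.of_apply, Matrix.of_apply, hP]
    simp only [Polynomial.eval_prod, Polynomial.eval_sub, Polynomial.eval_X, Polynomial.eval_C]
    rw [← Finset.mul_prod_erase univ _ (Finset.mem_univ j)]
    have := h i j
    field_simp
  rw [hcau, Matrix.det_mul_column, hdiag, Matrix.det_diagonal] at hdet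
  rw [mul_comm]
  exact hdet

theorem hookB_cauchy {ι : Type*} [Fintype ι] [DecidableEq ι] (y : ι → ℝ) (z : ℝ)
    (h : ∀ i j, y i + z - y j ≠ 0) :
    (Matrix.of fun i j : ι => (1 : ℝ) / (y i + z - y j)).det * ∏ i, ∏ k, (y i + z - y k) =
      ∏ j, ∏ k ∈ univ.erase j, (y j - y k) := by
  classical
  have e := (Fintype.equivFin ι).symm
  have h1 := hookB_cauchy_fin (fun i => y (e i)) z (fun i j => h _ _)
  have h2 : (Matrix.of fun i j : Fin (Fintype.card ι) => (1 : ℝ) / (y (e i) + z - y (e j))) =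
      (Matrix.of fun i j : ι => (1 : ℝ) / (y i + z - y j)).submatrix e e := by
    ext i j; rfl
  rw [h2, Matrix.det_submatrix_equiv_self] at h1
  rw [← Equiv.prod_comp e (fun i => ∏ k, (y i + z - y k)),
    ← Equiv.prod_comp e (fun j => ∏ k ∈ univ.erase j, (y j - y k))]
  have h3 : ∀ i, ∏ k, (y (e i) + z - y k) = ∏ k, (y (e i) + z - y (e k)) := fun i =>
    (Equiv.prod_comp e (fun k => y (e i) + z - y k)).symm
  have h4 : ∀ j, ∏ k ∈ univ.erase (e j), (y (e j) - y k) =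
      ∏ k ∈ univ.erase j, (y (e j) - y (e k)) := fun j => by
    symm
    refine Finset.prod_bij (fun k _ => e k) ?_ ?_ ?_ ?_
    · intro k hk
      simp only [mem_erase, mem_univ, and_true] at hk ⊢
      exact fun h => hk (e.injective h)
    · intro a _ b _ hab
      exact e.injective hab
    · intro b hb
      refine ⟨e.symm b, ?_, by simp⟩
      simp only [mem_erase, mem_univ, and_true] at hb ⊢
      intro h
      exact hb (by rw [← h]; simp)
    · intro _ _
      rfl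
  simp only [h3, h4]
  exact h1

theorem hookB_pair (B : Finset ℕ) (f : ℕ → ℕ → ℝ) :
    ∏ b ∈ B, ∏ b' ∈ B.erase b, f b b' = ∏ b ∈ B, ∏ b' ∈ B.filter (· < b), (f b b' * f b' b) := by
  have h1 : ∀ b ∈ B, ∏ b' ∈ B.erase b, f b b' =
      (∏ b' ∈ B.filter (· < b), f b b') * ∏ b' ∈ B.filter (b < ·), f b b' := by
    intro b _
    rw [← Finset.prod_union]
    · congr 1
      ext x
      simp only [mem_erase, mem_union, mem_filter]
      constructor
      · rintro ⟨h1, h2⟩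
        rcases lt_or_gt_of_ne h1 with h | h
        · exact Or.inl ⟨h2, h⟩
        · exact Or.inr ⟨h2, h⟩
      · rintro (⟨h1, h2⟩ | ⟨h1, h2⟩)
        · exact ⟨h2.ne, h1⟩
        · exact ⟨h2.ne', h1⟩
    · rw [Finset.disjoint_left]
      intro x hx hx'
      simp only [mem_filter] at hx hx'
      omega
  rw [Finset.prod_congr rfl h1, Finset.prod_mul_distrib]
  have h2 : ∏ b ∈ B, ∏ b' ∈ B.filter (b < ·), f b b' = ∏ b ∈ B, ∏ b' ∈ B.filter (· < b), f b' b := by
    refine Finset.prod_comm' ?_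
    intro x y
    simp only [mem_filter]
    tauto
  rw [h2, ← Finset.prod_mul_distrib]
  refine Finset.prod_congr rfl fun b _ => ?_
  rw [← Finset.prod_mul_distrib]

theorem det_Df (B : Finset ℕ) (z : ℝ) (hz : ∀ k : ℤ, z ≠ k) :
    (Matrix.of fun i j : B => Df z i j).det *
      ∏ b ∈ B, ∏ b' ∈ B.filter (· < b), (1 - z ^ 2 / ((b : ℝ) - b') ^ 2) =
    ∏ b ∈ B, ∏ k ∈ range b, (1 - z ^ 2 / ((k : ℝ) + 1) ^ 2) := by
  classical
  have hz0 : z ≠ 0 := by have := hz 0; simpa using this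
  have hne : ∀ b b' : ℕ, (b : ℝ) + z - b' ≠ 0 := by
    intro b b' h
    have := hz ((b' : ℤ) - b)
    apply this
    push_cast
    linarith
  have hc1 := hookB_cauchy (fun i : B => ((i : ℕ) : ℝ)) z (fun i j => hne i j)
  -- the matrix `Df` in terms of the Cauchy matrix
  have hM : (Matrix.of fun i j : B => Df z i j) =
      Matrix.of fun i j : B => (-(((i : ℕ) : ℝ) + z) * hc z i / z) *
        ((Matrix.of fun i j : B => ((((j : ℕ) : ℝ) - z) * hc (-z) j) *
          ((Matrix.of fun i j : B => (1 : ℝ) / (((i : ℕ) : ℝ) + z - (j : ℕ))) i j)) i j) := by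
    ext i j
    simp only [Matrix.of_apply]
    have h1 := hookB_Df z i j
    have h2 := hne i j
    have h3 : ((i : ℕ) : ℝ) - (j : ℕ) + z ≠ 0 := by
      have : ((i : ℕ) : ℝ) - (j : ℕ) + z = (i : ℕ) + z - (j : ℕ) := by ring
      rw [this]; exact h2
    have h4 : Df z i j = -((((i : ℕ) : ℝ) + z) * ((j : ℕ) - z) * hc z i * hc (-z) j) /
        (z * (((i : ℕ) : ℝ) - (j : ℕ) + z)) := by
      rw [eq_div_iff (mul_ne_zero hz0 h3)]
      linear_combination h1
    rw [h4]
    have : ((i : ℕ) : ℝ) - (j : ℕ) + z = (i : ℕ) + z - (j : ℕ) := by ring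
    rw [this]
    field_simp
  rw [hM, Matrix.det_mul_column, Matrix.det_mul_row]
  set Δ := (Matrix.of fun i j : B => (1 : ℝ) / (((i : ℕ) : ℝ) + z - (j : ℕ))).det with hΔ
  -- products over `B`
  have p1 : ∏ i : B, (-(((i : ℕ) : ℝ) + z) * hc z i / z) = ∏ b ∈ B, (-((b : ℝ) + z) * hc z b / z) :=
    Finset.prod_coe_sort B (fun b : ℕ => (-((b : ℝ) + z) * hc z b / z))
  have p2 : ∏ i : B, ((((i : ℕ) : ℝ) - z) * hc (-z) i) = ∏ b ∈ B, (((b : ℝ) - z) * hc (-z) b) :=
    Finset.prod_coe_sort B (fun b : ℕ => (((b : ℝ) - z) * hc (-z) b))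
  have p3 : ∏ i : B, ∏ k : B, (((i : ℕ) : ℝ) + z - (k : ℕ)) = ∏ b ∈ B, ∏ b' ∈ B, ((b : ℝ) + z - b') := by
    rw [← Finset.prod_coe_sort B (fun b : ℕ => ∏ b' ∈ B, ((b : ℝ) + z - b'))]
    refine Finset.prod_congr rfl fun i _ => ?_
    exact Finset.prod_coe_sort B (fun k : ℕ => (((i : ℕ) : ℝ) + z - (k : ℕ)))
  have p4 : ∏ j : B, ∏ k ∈ univ.erase j, (((j : ℕ) : ℝ) - (k : ℕ)) =
      ∏ b ∈ B, ∏ b' ∈ B.erase b, ((b : ℝ) - b') := by
    rw [← Finset.prod_coe_sort B (fun b : ℕ => ∏ b' ∈ B.erase b, ((b : ℝ) - b'))]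
    refine Finset.prod_congr rfl fun j _ => ?_
    refine Finset.prod_bij (fun k _ => (k : ℕ)) ?_ ?_ ?_ ?_
    · intro k hk
      simp only [mem_erase, mem_univ, and_true] at hk
      rw [mem_erase]
      exact ⟨fun h => hk (Subtype.ext h), k.2⟩
    · intro a _ b _ hab
      exact Subtype.ext hab
    · intro b hb
      rw [mem_erase] at hb
      refine ⟨⟨b, hb.2⟩, ?_, rfl⟩
      simp only [mem_erase, mem_univ, and_true]
      intro h
      exact hb.1 (congrArg Subtype.val h)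
    · intro _ _
      rfl
  rw [p3, p4] at hc1
  rw [p1, p2]
  have p5 : ∏ b ∈ B, ∏ b' ∈ B, ((b : ℝ) + z - b') =
      (∏ b ∈ B, z) * ∏ b ∈ B, ∏ b' ∈ B.erase b, ((b : ℝ) + z - b') := by
    rw [← Finset.prod_mul_distrib]
    refine Finset.prod_congr rfl fun b hb => ?_
    rw [← Finset.mul_prod_erase B _ hb]
    congr 1
    ring
  rw [p5, hookB_pair B (fun b b' => (b : ℝ) + z - b'), hookB_pair B (fun b b' => (b : ℝ) - b')] at hc1
  have p6 : (∏ b ∈ B, (-((b : ℝ) + z) * hc z b / z)) * (∏ b ∈ B, (((b : ℝ) - z) * hc (-z) b)) =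
      (∏ b ∈ B, z) * ∏ b ∈ B, ∏ k ∈ range b, (1 - z ^ 2 / ((k : ℝ) + 1) ^ 2) := by
    rw [← Finset.prod_mul_distrib, ← Finset.prod_mul_distrib]
    refine Finset.prod_congr rfl fun b _ => ?_
    have h1 := hookB_diag z b
    have h2 : (-((b : ℝ) + z) * hc z b / z) * (((b : ℝ) - z) * hc (-z) b) =
      -(((b : ℝ) + z) * (b - z) * hc z b * hc (-z) b) / z := by
      field_simp
    rw [h2, h1]
    field_simp
  have p7 : (∏ b ∈ B, ∏ b' ∈ B.filter (· < b), (((b : ℝ) - b') * ((b' : ℝ) - b))) =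
      (∏ b ∈ B, ∏ b' ∈ B.filter (· < b), (((b : ℝ) + z - b') * ((b' : ℝ) + z - b))) *
      (∏ b ∈ B, ∏ b' ∈ B.filter (· < b), (1 - z ^ 2 / ((b : ℝ) - b') ^ 2)⁻¹) := by
    rw [← Finset.prod_mul_distrib]
    refine Finset.prod_congr rfl fun b _ => ?_
    rw [← Finset.prod_mul_distrib]
    refine Finset.prod_congr rfl fun b' hb' => ?_
    rw [mem_filter] at hb'
    have h1 : (b : ℝ) - b' ≠ 0 := by
      have : (b' : ℝ) < b := by exact_mod_cast hb'.2
      linarith
    have h2 : ((b : ℝ) - b') ^ 2 - z ^ 2 ≠ 0 := by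
      have e : ((b : ℝ) - b') ^ 2 - z ^ 2 = -((b : ℝ) + z - b') * ((b' : ℝ) + z - b) := by ring
      rw [e]
      exact mul_ne_zero (neg_ne_zero.2 (hne b b')) (hne b' b)
    have h3 : 1 - z ^ 2 / ((b : ℝ) - b') ^ 2 = (((b : ℝ) - b') ^ 2 - z ^ 2) / ((b : ℝ) - b') ^ 2 := by
      field_simp
    rw [h3, inv_div]
    field_simp
    ring
  have q1 : ∏ b ∈ B, ∏ b' ∈ B.filter (· < b), (((b : ℝ) + z - b') * ((b' : ℝ) + z - b)) ≠ 0 :=
    Finset.prod_ne_zero_iff.2 fun b _ => Finset.prod_ne_zero_iff.2 fun b' _ =>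
      mul_ne_zero (hne b b') (hne b' b)
  have q2 : ∏ b ∈ B, ∏ b' ∈ B.filter (· < b), (1 - z ^ 2 / ((b : ℝ) - b') ^ 2) ≠ 0 := by
    refine Finset.prod_ne_zero_iff.2 fun b _ => Finset.prod_ne_zero_iff.2 fun b' hb' => ?_
    rw [mem_filter] at hb'
    have h1 : (b : ℝ) - b' ≠ 0 := by
      have : (b' : ℝ) < b := by exact_mod_cast hb'.2
      linarith
    have h3 : 1 - z ^ 2 / ((b : ℝ) - b') ^ 2 = (((b : ℝ) - b') ^ 2 - z ^ 2) / ((b : ℝ) - b') ^ 2 := by
      field_simp
    rw [h3]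
    refine div_ne_zero ?_ (pow_ne_zero 2 h1)
    have e : ((b : ℝ) - b') ^ 2 - z ^ 2 = -((b : ℝ) + z - b') * ((b' : ℝ) + z - b) := by ring
    rw [e]
    exact mul_ne_zero (neg_ne_zero.2 (hne b b')) (hne b' b)
  have q3 : ∏ b ∈ B, z ≠ 0 := Finset.prod_ne_zero_iff.2 fun _ _ => hz0
  simp only [Finset.prod_inv_distrib] at p7
  rw [p7] at hc1
  set A1 := ∏ b ∈ B, ∏ b' ∈ B.filter (· < b), (((b : ℝ) + z - b') * ((b' : ℝ) + z - b)) with hA1
  set A2 := ∏ b ∈ B, ∏ b' ∈ B.filter (· < b), (1 - z ^ 2 / ((b : ℝ) - b') ^ 2) with hA2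
  set A3 := ∏ b ∈ B, z with hA3
  set A4 := ∏ b ∈ B, ∏ k ∈ range b, (1 - z ^ 2 / ((k : ℝ) + 1) ^ 2) with hA4
  have hc2 : Δ * A3 * A2 = 1 := by
    have h1 : Δ * (A3 * A1) * A2 = A1 * A2⁻¹ * A2 := by rw [hc1]
    rw [mul_assoc A1, inv_mul_cancel₀ q2, mul_one] at h1
    have h2 : A1 * (Δ * A3 * A2 - 1) = 0 := by linear_combination h1
    rcases mul_eq_zero.1 h2 with h3 | h3
    · exact absurd h3 q1
    · linarith
  calc (∏ b ∈ B, (-((b : ℝ) + z) * hc z b / z)) * ((∏ b ∈ B, (((b : ℝ) - z) * hc (-z) b)) * Δ) * A2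
      = ((∏ b ∈ B, (-((b : ℝ) + z) * hc z b / z)) * (∏ b ∈ B, (((b : ℝ) - z) * hc (-z) b))) *
        (Δ * A2) := by ring
    _ = A4 * (Δ * A3 * A2) := by rw [p6]; ring
    _ = A4 := by rw [hc2, mul_one]

end Pool.Agent.NekOk
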