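import Pool.Agent.NekOk.HookDefs

/-!
# Hook lengths and beta sets of a partition
-/

namespace Pool.Agent.NekOk

open Finset

/-! ### rows and columns -/

theorem h57_countP_lt (l : List ℕ) (hl : l.Pairwise (· ≥ ·)) (i j : ℕ) :
    i < l.countP (fun x => decide (j < x)) ↔ j < l.getD i 0 := by
  induction l generalizing i with
  | nil => simp
  | cons a l ih =>
    rw [List.pairwise_cons] at hl
    obtain ⟨h1, h2⟩ := hl
    by_cases ha : j < a
    · rw [List.countP_cons_of_pos (by simpa using ha)]
      cases i with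
      | zero => simp [ha]
      | succ i =>
        have := ih h2 i
        simp only [List.getD_cons_succ]
        omega
    · rw [List.countP_cons_of_neg (by simpa using ha)]
      have h0 : l.countP (fun x => decide (j < x)) = 0 := by
        rw [List.countP_eq_zero]
        intro b hb
        have := h1 b hb
        simp only [decide_eq_true_eq]
        omega
      cases i with
      | zero => simp [ha, h0]
      | succ i =>
        have := ih h2 i
        simp only [List.getD_cons_succ]
        omega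

theorem h57_lt_col {n : ℕ} (p : n.Partition) (i j : ℕ) : i < col p j ↔ j < row p i := by
  unfold col row
  rw [← h57_countP_lt _ (Multiset.pairwise_sort p.parts (· ≥ ·)) i j]
  have h : (p.parts.filter (j < ·)).card = p.parts.countP (j < ·) :=
    (Multiset.countP_eq_card_filter _ _).symm
  have h2 : p.parts.countP (j < ·) =
      (p.parts.sort (· ≥ ·)).countP (fun x => decide (j < x)) := by
    conv_lhs => rw [← Multiset.sort_eq p.parts (· ≥ ·)]
    rw [Multiset.coe_countP]
  rw [h, h2]

theorem h57_row_anti {n : ℕ} (p : n.Partition) {i i' : ℕ} (h : i ≤ i') : row p i' ≤ row p i := by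
  by_contra hc
  push Not at hc
  have h1 := (h57_lt_col p i' (row p i)).mpr hc
  have h2 := (h57_lt_col p i (row p i)).mp (by omega)
  omega

theorem h57_col_anti {n : ℕ} (p : n.Partition) {j j' : ℕ} (h : j ≤ j') : col p j' ≤ col p j := by
  by_contra hc
  push Not at hc
  have h1 := (h57_lt_col p (col p j) j').mp hc
  have h2 := (h57_lt_col p (col p j) j).mpr (by omega)
  omega

theorem h57_col_le {n : ℕ} (p : n.Partition) (j : ℕ) : col p j ≤ n := by
  have h1 : col p j ≤ p.parts.card := Multiset.card_le_card (Multiset.filter_le _ _)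
  have h2 : p.parts.card ≤ n := by
    have h3 : ∀ x ∈ p.parts, 1 ≤ x := fun x hx => p.parts_pos hx
    have h4 := Multiset.card_nsmul_le_sum h3
    rw [p.parts_sum] at h4
    simpa using h4
  omega

theorem h57_row_zero {n : ℕ} (p : n.Partition) {i : ℕ} (h : n ≤ i) : row p i = 0 := by
  by_contra hc
  have h1 := (h57_lt_col p i 0).mpr (by omega)
  have h2 := h57_col_le p 0
  omega

theorem h57_row_le {n : ℕ} (p : n.Partition) (i : ℕ) : row p i ≤ n := by
  unfold row
  by_cases h : i < (p.parts.sort (· ≥ ·)).length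
  · rw [List.getD_eq_getElem _ _ h]
    apply Nat.Partition.le_of_mem_parts (p := p)
    have := List.getElem_mem h
    rwa [Multiset.mem_sort] at this
  · rw [List.getD_eq_default _ _ (by omega)]
    omega

theorem h57_mem_cells {n : ℕ} (p : n.Partition) (u : ℕ × ℕ) : u ∈ cells p ↔ u.2 < row p u.1 := by
  unfold cells
  rw [mem_filter, mem_product, mem_range, mem_range]
  refine ⟨fun h => h.2, fun h => ⟨⟨?_, ?_⟩, h⟩⟩
  · by_contra hc
    rw [h57_row_zero p (by omega)] at h
    omega
  · exact lt_of_lt_of_le h (h57_row_le p _)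

theorem hook_pos {n : ℕ} (p : n.Partition) {u : ℕ × ℕ} (hu : u ∈ cells p) : 0 < hook p u := by
  have h1 := (h57_mem_cells p u).mp hu
  have h2 := (h57_lt_col p u.1 u.2).mpr h1
  unfold hook
  omega

theorem exists_hook_one {n : ℕ} (hn : 0 < n) (p : n.Partition) :
    ∃ u ∈ cells p, hook p u = 1 := by
  have h0 : 0 < col p 0 := by
    rw [h57_lt_col]
    by_contra hc
    have hcol : col p 0 = 0 := by
      by_contra hc2
      exact hc ((h57_lt_col p 0 0).mp (by omega))
    unfold col at hcol
    rw [Multiset.card_eq_zero, Multiset.filter_eq_nil] at hcol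
    have hp : p.parts = 0 := by
      rw [Multiset.eq_zero_iff_forall_notMem]
      intro a ha
      exact hcol a ha (p.parts_pos ha)
    have := p.parts_sum
    rw [hp, Multiset.sum_zero] at this
    omega
  have h1 : 0 < row p (col p 0 - 1) := (h57_lt_col p _ 0).mp (by omega)
  have h2 : col p 0 - 1 < col p (row p (col p 0 - 1) - 1) := (h57_lt_col p _ _).mpr (by omega)
  have h3 := h57_col_anti p (Nat.zero_le (row p (col p 0 - 1) - 1))
  refine ⟨(col p 0 - 1, row p (col p 0 - 1) - 1), ?_, ?_⟩
  · rw [h57_mem_cells]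
    simp only
    omega
  · unfold hook
    simp only
    omega

/-! ### the beta set -/

/-- the beads -/
def h57b {n : ℕ} (p : n.Partition) (N i : ℕ) : ℕ := row p i + N - 1 - i

/-- the gaps -/
def h57g {n : ℕ} (p : n.Partition) (N j : ℕ) : ℕ := N + j - col p j

theorem h57b_lt {n : ℕ} (p : n.Partition) {N i i' : ℕ} (h : i < i') (h' : i' < N) :
    h57b p N i' < h57b p N i := by
  have := h57_row_anti p h.le
  unfold h57b
  omega

theorem h57b_inj {n : ℕ} (p : n.Partition) {N i i' : ℕ} (hi : i < N) (hi' : i' < N)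
    (h : h57b p N i = h57b p N i') : i = i' := by
  rcases lt_trichotomy i i' with h1 | h1 | h1
  · have := h57b_lt p h1 hi'; omega
  · exact h1
  · have := h57b_lt p h1 hi; omega

theorem h57g_lt {n : ℕ} (p : n.Partition) {N j j' : ℕ} (hN : n ≤ N) (h : j < j') :
    h57g p N j < h57g p N j' := by
  have h1 := h57_col_anti p h.le
  have h2 := h57_col_le p j
  unfold h57g
  omega

theorem h57g_inj {n : ℕ} (p : n.Partition) {N j j' : ℕ} (hN : n ≤ N)
    (h : h57g p N j = h57g p N j') : j = j' := by
  rcases lt_trichotomy j j' with h1 | h1 | h1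
  · have := h57g_lt p hN h1; omega
  · exact h1
  · have := h57g_lt p hN h1; omega

theorem h57g_lt_b {n : ℕ} (p : n.Partition) {N i j : ℕ} (hN : n ≤ N) (hi : i < N)
    (h : j < row p i) : h57g p N j < h57b p N i := by
  have h1 := (h57_lt_col p i j).mpr h
  have h2 := h57_col_le p j
  unfold h57g h57b
  omega

theorem h57b_lt_g {n : ℕ} (p : n.Partition) {N i j : ℕ} (hN : n ≤ N) (hi : i < N)
    (h : row p i ≤ j) : h57b p N i < h57g p N j := by
  have h1 : col p j ≤ i := by
    by_contra hc
    have := (h57_lt_col p i j).mp (by omega)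
    omega
  have h2 := h57_col_le p j
  unfold h57g h57b
  omega

theorem h57g_ne_b {n : ℕ} (p : n.Partition) {N i j : ℕ} (hN : n ≤ N) (hi : i < N) :
    h57g p N j ≠ h57b p N i := by
  rcases lt_or_ge j (row p i) with h | h
  · exact (h57g_lt_b p hN hi h).ne
  · exact (h57b_lt_g p hN hi h).ne'

theorem h57_split {n : ℕ} (p : n.Partition) {N i : ℕ} (hN : n ≤ N) (hi : i < N) :
    range (h57b p N i) = (range (row p i)).image (h57g p N) ∪ (Ioo i N).image (h57b p N) := by
  symm
  apply eq_of_subset_of_card_le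
  · intro x hx
    rw [mem_union, mem_image, mem_image] at hx
    rw [mem_range]
    rcases hx with ⟨j, hj, rfl⟩ | ⟨l, hl, rfl⟩
    · rw [mem_range] at hj
      exact h57g_lt_b p hN hi hj
    · rw [mem_Ioo] at hl
      exact h57b_lt p hl.1 hl.2
  · rw [card_range, card_union_of_disjoint, card_image_of_injOn, card_image_of_injOn, card_range,
      Nat.card_Ioo]
    · unfold h57b; omega
    · intro x hx y hy h
      rw [coe_Ioo, Set.mem_Ioo] at hx hy
      exact h57b_inj p hx.2 hy.2 h
    · intro x _ y _ h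
      exact h57g_inj p hN h
    · rw [Finset.disjoint_left]
      intro x hx hx'
      rw [mem_image] at hx hx'
      obtain ⟨j, _, rfl⟩ := hx
      obtain ⟨l, hl, h⟩ := hx'
      rw [mem_Ioo] at hl
      exact h57g_ne_b p hN hl.2 h.symm

theorem h57_disj {n : ℕ} (p : n.Partition) {N i : ℕ} (hN : n ≤ N) :
    Disjoint ((range (row p i)).image (h57g p N)) ((Ioo i N).image (h57b p N)) := by
  rw [Finset.disjoint_left]
  intro x hx hx'
  rw [mem_image] at hx hx'
  obtain ⟨j, _, rfl⟩ := hx
  obtain ⟨l, hl, h⟩ := hx'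
  rw [mem_Ioo] at hl
  exact h57g_ne_b p hN hl.2 h.symm

theorem h57_hook_eq {n : ℕ} (p : n.Partition) {N i j : ℕ} (hN : n ≤ N) (hi : i < N)
    (h : j < row p i) : h57b p N i - h57g p N j = hook p (i, j) := by
  have h1 := (h57_lt_col p i j).mpr h
  have h2 := h57_col_le p j
  unfold h57g h57b hook
  simp only
  omega

theorem h57_row_prod {n : ℕ} (p : n.Partition) {N i : ℕ} (hN : n ≤ N) (hi : i < N) (F : ℕ → ℝ) :
    ∏ k ∈ range (h57b p N i), F (k + 1) = (∏ j ∈ range (row p i), F (hook p (i, j))) *
      ∏ l ∈ Ioo i N, F (h57b p N i - h57b p N l) := by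
  have h1 : ∏ k ∈ range (h57b p N i), F (k + 1) = ∏ x ∈ range (h57b p N i), F (h57b p N i - x) := by
    rw [← prod_range_reflect]
    apply prod_congr rfl
    intro k hk
    rw [mem_range] at hk
    congr 1
    omega
  rw [h1, h57_split p hN hi, prod_union (h57_disj p hN), prod_image, prod_image]
  · congr 1
    apply prod_congr rfl
    intro j hj
    rw [mem_range] at hj
    rw [h57_hook_eq p hN hi hj]
  · intro x hx y hy h
    rw [coe_Ioo, Set.mem_Ioo] at hx hy
    exact h57b_inj p hx.2 hy.2 h
  · intro x _ y _ h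
    exact h57g_inj p hN h

theorem h57_cells_prod {n N : ℕ} (p : n.Partition) (hN : n ≤ N) (G : ℕ × ℕ → ℝ) :
    ∏ u ∈ cells p, G u = ∏ i ∈ range N, ∏ j ∈ range (row p i), G (i, j) := by
  rw [prod_sigma']
  symm
  apply prod_bij (fun (u : (_ : ℕ) × ℕ) _ => (u.1, u.2))
  · rintro ⟨i, j⟩ h
    rw [mem_sigma, mem_range, mem_range] at h
    rw [h57_mem_cells]
    exact h.2
  · rintro ⟨i, j⟩ _ ⟨i', j'⟩ _ h
    simp only [Prod.mk.injEq] at h
    obtain ⟨rfl, rfl⟩ := h
    rfl
  · rintro ⟨i, j⟩ h
    rw [h57_mem_cells] at h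
    refine ⟨⟨i, j⟩, ?_, rfl⟩
    rw [mem_sigma, mem_range, mem_range]
    refine ⟨?_, h⟩
    by_contra hc
    simp only at h hc
    rw [h57_row_zero p (by omega)] at h
    omega
  · intro u _
    rfl

theorem hooks_prod {n N : ℕ} (p : n.Partition) (hN : n ≤ N) (F : ℕ → ℝ) :
    ∏ b ∈ beta p N, ∏ k ∈ range b, F (k + 1) =
      (∏ u ∈ cells p, F (hook p u)) *
        ∏ b ∈ beta p N, ∏ b' ∈ (beta p N).filter (· < b), F (b - b') := by
  have hinj : Set.InjOn (h57b p N) (range N : Finset ℕ) := by
    intro x hx y hy h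
    rw [coe_range, Set.mem_Iio] at hx hy
    exact h57b_inj p hx hy h
  have hb : beta p N = (range N).image (h57b p N) := rfl
  rw [hb, prod_image hinj, prod_image hinj, h57_cells_prod p hN, ← prod_mul_distrib]
  apply prod_congr rfl
  intro i hi
  rw [mem_range] at hi
  rw [h57_row_prod p hN hi]
  congr 1
  have hf : ((range N).image (h57b p N)).filter (· < h57b p N i) = (Ioo i N).image (h57b p N) := by
    ext x
    rw [mem_filter, mem_image, mem_image]
    constructor
    · rintro ⟨⟨l, hl, rfl⟩, h⟩
      rw [mem_range] at hl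
      refine ⟨l, ?_, rfl⟩
      rw [mem_Ioo]
      refine ⟨?_, hl⟩
      by_contra hc
      rcases Nat.lt_or_eq_of_le (not_lt.mp hc) with h1 | h1
      · have := h57b_lt p h1 hi; omega
      · rw [h1] at h; omega
    · rintro ⟨l, hl, rfl⟩
      rw [mem_Ioo] at hl
      exact ⟨⟨l, by rw [mem_range]; exact hl.2, rfl⟩, h57b_lt p hl.1 hl.2⟩
  rw [hf, prod_image]
  intro x hx y hy h
  rw [coe_Ioo, Set.mem_Ioo] at hx hy
  exact h57b_inj p hx.2 hy.2 h

end Pool.Agent.NekOk
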