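import Pool.Agent.NekOk.HookDefs

/-! Bijection between the partitions of `n` and the `N`-subsets of `range D` with sum
`N (N-1) / 2 + n` (beta sets). -/

namespace Pool.Agent.NekOk
open Finset

namespace HookD

lemma getD_antitone {L : List ℕ} (h : L.Pairwise (· ≥ ·)) : Antitone (fun i => L.getD i 0) := by
  intro i j hij
  rcases eq_or_lt_of_le hij with rfl | hlt
  · exact le_rfl
  · simp only
    by_cases hj : j < L.length
    · have hi : i < L.length := hlt.trans hj
      rw [List.getD_eq_getElem _ _ hj, List.getD_eq_getElem _ _ hi]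
      exact (List.pairwise_iff_getElem.1 h) i j hi hj hlt
    · rw [List.getD_eq_default _ _ (not_lt.1 hj)]
      exact Nat.zero_le _

lemma sum_getD (L : List ℕ) : ∀ N, L.length ≤ N → ∑ i ∈ range N, L.getD i 0 = L.sum := by
  induction L with
  | nil => intro N _; simp
  | cons a t ih =>
    intro N hN
    obtain ⟨M, rfl⟩ : ∃ M, N = M + 1 := ⟨N - 1, by simp at hN; omega⟩
    rw [sum_range_succ']
    simp only [List.getD_cons_succ, List.getD_cons_zero, List.sum_cons]
    rw [ih M (by simpa using hN), add_comm]

lemma list_ext {L M : List ℕ} (hL : ∀ a ∈ L, 0 < a) (hM : ∀ a ∈ M, 0 < a)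
    (h : ∀ i, L.getD i 0 = M.getD i 0) : L = M := by
  have hlen : L.length = M.length := by
    rcases lt_trichotomy L.length M.length with hlt | heq | hgt
    · exfalso
      have h1 := h L.length
      rw [List.getD_eq_default _ _ le_rfl, List.getD_eq_getElem _ _ hlt] at h1
      have := hM _ (List.getElem_mem hlt)
      omega
    · exact heq
    · exfalso
      have h1 := h M.length
      rw [List.getD_eq_default M _ le_rfl, List.getD_eq_getElem _ _ hgt] at h1
      have := hL _ (List.getElem_mem hgt)
      omega
  refine List.ext_getElem hlen fun i h1 h2 => ?_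
  have := h i
  rwa [List.getD_eq_getElem _ _ h1, List.getD_eq_getElem _ _ h2] at this

lemma filter_getD (L : List ℕ) (h : L.Pairwise (· ≥ ·)) :
    ∀ i, (L.filter (fun a => a ≠ 0)).getD i 0 = L.getD i 0 := by
  induction L with
  | nil => intro i; simp
  | cons a t ih =>
    intro i
    rw [List.pairwise_cons] at h
    by_cases ha : a = 0
    · subst ha
      have ht : ∀ b ∈ t, b = 0 := fun b hb => Nat.le_zero.1 (h.1 b hb)
      have hf : (List.filter (fun a => decide (a ≠ 0)) (0 :: t)) = [] := by
        rw [List.filter_eq_nil_iff]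
        intro b hb
        rcases List.mem_cons.1 hb with rfl | hb
        · simp
        · simp [ht b hb]
      rw [hf]
      simp only [List.getD_nil]
      by_cases hi : i < (0 :: t).length
      · rw [List.getD_eq_getElem _ _ hi]
        have hm := List.getElem_mem hi
        rcases List.mem_cons.1 hm with h0 | h0
        · exact h0.symm
        · exact (ht _ h0).symm
      · rw [List.getD_eq_default _ _ (not_lt.1 hi)]
    · rw [List.filter_cons_of_pos (by simpa using ha)]
      cases i with
      | zero => simp
      | succ i => simpa using ih h.2 i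

variable {n : ℕ}

lemma row_antitone (p : n.Partition) : Antitone (row p) :=
  getD_antitone (Multiset.pairwise_sort _ _)

lemma length_sort_le (p : n.Partition) : (p.parts.sort (· ≥ ·)).length ≤ n := by
  rw [Multiset.length_sort]
  have h1 : Multiset.card p.parts • 1 ≤ p.parts.sum :=
    Multiset.card_nsmul_le_sum fun a ha => p.parts_pos ha
  rw [p.parts_sum] at h1
  simpa using h1

lemma sum_row (p : n.Partition) {N : ℕ} (hN : n ≤ N) : ∑ i ∈ range N, row p i = n := by
  unfold row
  rw [sum_getD _ N ((length_sort_le p).trans hN), ← Multiset.sum_coe, Multiset.sort_eq,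
    p.parts_sum]

lemma row_eq_zero (p : n.Partition) {i : ℕ} (hi : n ≤ i) : row p i = 0 := by
  unfold row
  rw [List.getD_eq_default _ _ ((length_sort_le p).trans hi)]

lemma ext_row {p q : n.Partition} (h : ∀ i, row p i = row q i) : p = q := by
  have h1 : p.parts.sort (· ≥ ·) = q.parts.sort (· ≥ ·) := by
    apply list_ext
    · intro a ha
      exact p.parts_pos ((Multiset.mem_sort _).1 ha)
    · intro a ha
      exact q.parts_pos ((Multiset.mem_sort _).1 ha)
    · exact h
  apply Nat.Partition.ext
  rw [← Multiset.sort_eq p.parts (· ≥ ·), h1, Multiset.sort_eq]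

/-- the beads in increasing order -/
def bead (p : n.Partition) (N : ℕ) (k : Fin N) : ℕ := row p (N - 1 - k) + k

lemma bead_strictMono (p : n.Partition) (N : ℕ) : StrictMono (bead p N) := by
  intro a b hab
  have h1 : row p (N - 1 - a) ≤ row p (N - 1 - b) := row_antitone p (by
    have : (a : ℕ) < b := hab
    omega)
  have : (a : ℕ) < b := hab
  unfold bead
  omega

lemma beta_eq_image (p : n.Partition) (N : ℕ) : beta p N = univ.image (bead p N) := by
  ext x
  simp only [beta, mem_image, mem_range, mem_univ, true_and, bead]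
  constructor
  · rintro ⟨i, hi, rfl⟩
    refine ⟨⟨N - 1 - i, by omega⟩, ?_⟩
    have : N - 1 - (N - 1 - i) = i := by omega
    simp only [this]
    omega
  · rintro ⟨k, rfl⟩
    refine ⟨N - 1 - k, by omega, ?_⟩
    omega

lemma card_beta (p : n.Partition) (N : ℕ) : (beta p N).card = N := by
  rw [beta_eq_image, card_image_of_injective _ (bead_strictMono p N).injective, card_univ,
    Fintype.card_fin]

lemma sum_Fin_val (N : ℕ) : 2 * ∑ k : Fin N, (k : ℕ) = N * (N - 1) := by
  rw [Fin.sum_univ_eq_sum_range (fun i => i) N, mul_comm, sum_range_id_mul_two]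

lemma sum_beta_eq (p : n.Partition) {N : ℕ} (hN : n ≤ N) :
    2 * ∑ i ∈ beta p N, i = N * (N - 1) + 2 * n := by
  rw [beta_eq_image, sum_image fun a _ b _ h => (bead_strictMono p N).injective h]
  unfold bead
  rw [sum_add_distrib, mul_add, sum_Fin_val,
    Fin.sum_univ_eq_sum_range (fun i => row p (N - 1 - i)) N, sum_range_reflect (row p) N,
    sum_row p hN, add_comm]

lemma beta_subset (p : n.Partition) {N D : ℕ} (hN : n ≤ N) (hD : n + N ≤ D) :
    beta p N ⊆ range D := by
  intro x hx
  rw [beta_eq_image] at hx
  obtain ⟨k, -, rfl⟩ := mem_image.1 hx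
  have h1 : row p (N - 1 - k) ≤ n := by
    calc row p (N - 1 - k) ≤ ∑ i ∈ range N, row p i :=
          single_le_sum (fun i _ => Nat.zero_le _) (mem_range.2 (by have := k.2; omega))
      _ = n := sum_row p hN
  have := k.2
  rw [mem_range]
  unfold bead
  omega

lemma beta_injective {N : ℕ} (hN : n ≤ N) {p q : n.Partition} (h : beta p N = beta q N) :
    p = q := by
  have h1 : bead p N = (beta p N).orderEmbOfFin (card_beta p N) :=
    orderEmbOfFin_unique _ (fun x => by
      rw [beta_eq_image]; exact mem_image_of_mem _ (mem_univ x)) (bead_strictMono p N)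
  have h2 : bead q N = (beta p N).orderEmbOfFin (card_beta p N) :=
    orderEmbOfFin_unique _ (fun x => by
      rw [h, beta_eq_image]; exact mem_image_of_mem _ (mem_univ x)) (bead_strictMono q N)
  have h3 : bead p N = bead q N := h1.trans h2.symm
  apply ext_row
  intro i
  rcases lt_or_ge i N with hi | hi
  · have h4 := congrFun h3 ⟨N - 1 - i, by omega⟩
    have h5 : N - 1 - (N - 1 - i) = i := by omega
    simp only [bead, h5] at h4
    omega
  · rw [row_eq_zero p (hN.trans hi), row_eq_zero q (hN.trans hi)]

lemma strictMono_ge {N : ℕ} {f : Fin N → ℕ} (hf : StrictMono f) :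
    ∀ k (hk : k < N), k ≤ f ⟨k, hk⟩ := by
  intro k
  induction k with
  | zero => intro _; exact Nat.zero_le _
  | succ k ih =>
    intro hk
    have h1 := ih (by omega)
    have h2 : f ⟨k, by omega⟩ < f ⟨k + 1, hk⟩ := hf (by simp [Fin.lt_def])
    omega

lemma beta_surjective {N : ℕ} {s : Finset ℕ} (hs : s.card = N)
    (hsum : 2 * ∑ i ∈ s, i = N * (N - 1) + 2 * n) : ∃ p : n.Partition, beta p N = s := by
  set f := s.orderEmbOfFin hs with hf
  have hfm : StrictMono f := f.strictMono
  have hge : ∀ k : Fin N, (k : ℕ) ≤ f k := fun k => strictMono_ge hfm k k.2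
  -- gaps
  set a : Fin N → ℕ := fun k => f k - k with ha
  have hmono : Monotone a := by
    intro x y hxy
    have key : ∀ (d : ℕ) (x : ℕ) (hx : x + d < N), f ⟨x, by omega⟩ + d ≤ f ⟨x + d, hx⟩ := by
      intro d
      induction d with
      | zero => intro x hx; exact le_rfl
      | succ d ih =>
        intro x hx
        have h1 := ih x (by omega)
        have h2 : f ⟨x + d, by omega⟩ < f ⟨x + (d + 1), hx⟩ := hfm (by simp [Fin.lt_def])
        omega
    have hxy' : (x : ℕ) ≤ y := hxy
    have h1 := key (y - x) x (by have := y.2; omega)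
    have h2 : (⟨(x : ℕ) + (y - x), by have := y.2; omega⟩ : Fin N) = y := by
      apply Fin.ext; simp; omega
    rw [h2] at h1
    have h3 : f ⟨(x : ℕ), by have := y.2; omega⟩ = f x := rfl
    rw [h3] at h1
    simp only [ha]
    have := hge x
    have := hge y
    omega
  set L : List ℕ := List.ofFn (fun k : Fin N => a (Fin.rev k)) with hL
  have hLs : L.Pairwise (· ≥ ·) := by
    rw [hL, List.pairwise_ofFn]
    intro i j hij
    exact hmono (by rw [Fin.rev_le_rev]; exact hij.le)
  have hLsum : (L : Multiset ℕ).sum = n := by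
    rw [Multiset.sum_coe, hL, List.sum_ofFn]
    rw [show ∑ i : Fin N, a (Fin.rev i) = ∑ i : Fin N, a i from
      Equiv.sum_comp Fin.revPerm a]
    have h1 : ∑ i : Fin N, a i + ∑ i : Fin N, (i : ℕ) = ∑ i ∈ s, i := by
      rw [← sum_add_distrib]
      have h2 : univ.image f = s := by
        rw [hf]; exact image_orderEmbOfFin_univ s hs
      conv_rhs => rw [← h2, sum_image fun a _ b _ h => hfm.injective h]
      refine sum_congr rfl fun k _ => ?_
      have := hge k
      simp only [ha]
      omega
    have h3 := sum_Fin_val N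
    omega
  let p : n.Partition := Nat.Partition.ofSums n (L : Multiset ℕ) hLsum
  have hsort : p.parts.sort (· ≥ ·) = L.filter (fun a => a ≠ 0) := by
    have h1 : p.parts = ((L.filter (fun a => a ≠ 0) : List ℕ) : Multiset ℕ) := by
      show Multiset.filter (fun a => a ≠ 0) (L : Multiset ℕ) = _
      rw [Multiset.filter_coe]
    rw [h1, Multiset.coe_sort]
    apply List.mergeSort_eq_self
    exact (hLs.sublist List.filter_sublist)
  have hrow : ∀ k : Fin N, row p (N - 1 - k) = a k := by
    intro k
    unfold row
    rw [hsort, filter_getD L hLs]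
    have hlen : N - 1 - k < L.length := by
      rw [hL, List.length_ofFn]; have := k.2; omega
    rw [List.getD_eq_getElem _ _ hlen]
    simp only [hL, List.getElem_ofFn]
    congr 1
    apply Fin.ext
    simp only [Fin.val_rev]
    have := k.2
    omega
  refine ⟨p, ?_⟩
  rw [beta_eq_image, ← image_orderEmbOfFin_univ s hs]
  refine image_congr fun k _ => ?_
  simp only [bead]
  rw [hrow k]
  have := hge k
  simp only [ha]
  show f k - k + k = f k
  omega

end HookD

open HookD in
theorem sum_beta {n N D : ℕ} (hN : n ≤ N) (hD : n + N ≤ D) (g : Finset ℕ → ℝ) :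
    ∑ p : n.Partition, g (beta p N) =
      ∑ s ∈ ((range D).powersetCard N).filter
        (fun s => 2 * ∑ i ∈ s, i = N * (N - 1) + 2 * n), g s := by
  refine sum_bij (fun p _ => beta p N) ?_ ?_ ?_ ?_
  · intro p _
    rw [mem_filter, mem_powersetCard]
    exact ⟨⟨beta_subset p hN hD, card_beta p N⟩, sum_beta_eq p hN⟩
  · intro p _ q _ h
    exact beta_injective hN h
  · intro s hs
    rw [mem_filter, mem_powersetCard] at hs
    obtain ⟨p, hp⟩ := beta_surjective hs.1.2 hs.2
    exact ⟨p, mem_univ _, hp⟩
  · intro p _
    rfl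

end Pool.Agent.NekOk
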