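import Pool.Agent.NekOk.Basic

/-! Definitions for the hook length form (Nekrasov–Okounkov formula). -/

namespace Pool.Agent.NekOk

open Finset

/-- The `i`-th part (`i = 0, 1, …`) of the partition `p`, parts listed in weakly decreasing order;
`0` beyond the number of parts. -/
def row {n : ℕ} (p : n.Partition) (i : ℕ) : ℕ := (p.parts.sort (· ≥ ·)).getD i 0

/-- The `j`-th part (`j = 0, 1, …`) of the conjugate partition: the number of parts `> j`. -/
def col {n : ℕ} (p : n.Partition) (j : ℕ) : ℕ := (p.parts.filter (j < ·)).card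

/-- The cells `(i, j)` (`i, j ≥ 0`) of the Young diagram of `p`. -/
def cells {n : ℕ} (p : n.Partition) : Finset (ℕ × ℕ) :=
  (range n ×ˢ range n).filter (fun u => u.2 < row p u.1)

/-- The hook length of the cell `(i, j)`; with indices from `0` it is
`λ_i + λ'_j - i - j - 1`. -/
def hook {n : ℕ} (p : n.Partition) (u : ℕ × ℕ) : ℕ := row p u.1 + col p u.2 - u.1 - u.2 - 1

/-- `∑_{λ ⊢ n} ∏_{u ∈ λ} (h_u² + t)/h_u²` -/
noncomputable def hookPoly (n : ℕ) : Polynomial ℚ :=
  ∑ p : n.Partition, ∏ u ∈ cells p,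
    (Polynomial.C (((hook p u : ℚ) ^ 2)⁻¹) * (Polynomial.C ((hook p u : ℚ) ^ 2) + Polynomial.X))

/-- beta set of `p` with `N` beads -/
def beta {n : ℕ} (p : n.Partition) (N : ℕ) : Finset ℕ :=
  (range N).image (fun i => row p i + N - 1 - i)

section
variable {R : Type*} [CommRing R]

/-- lower triangular Toeplitz matrix of `1/(1-βu)` -/
def Am (D : ℕ) (β : R) : Matrix (Fin D) (Fin D) R :=
  Matrix.of fun i j => if j ≤ i then β ^ ((i : ℕ) - j) else 0

/-- upper triangular Toeplitz matrix of `1-αu` -/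
def Cm (D : ℕ) (α : R) : Matrix (Fin D) (Fin D) R :=
  Matrix.of fun i j => if (j : ℕ) = i then 1 else if (j : ℕ) = i + 1 then -α else 0

/-- sum of the `N × N` principal minors of `diag(x^i) * Q` -/
def tau (D N : ℕ) (x : R) (Q : Matrix (Fin D) (Fin D) R) : R :=
  ∑ s ∈ (univ : Finset (Fin D)).powersetCard N,
    ((Matrix.diagonal (fun i : Fin D => x ^ (i : ℕ)) * Q).submatrix
      (Subtype.val : s → Fin D) (Subtype.val : s → Fin D)).det

end

/-- coefficient of `u^k` in `(1-u)^{-z}` -/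
noncomputable def hc (z : ℝ) (k : ℕ) : ℝ := ∏ i ∈ range k, ((z + i) / (i + 1))

/-- `Σ_c hc z (b-c) * hc (-z) (b'-c)` -/
noncomputable def Df (z : ℝ) (b b' : ℕ) : ℝ :=
  ∑ c ∈ range (min b b' + 1), hc z (b - c) * hc (-z) (b' - c)

end Pool.Agent.NekOk
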