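import Pool.Agent.NekOk.HookDefs

/-! HOOK-E: entries of powers of the two Toeplitz matrices. -/

namespace Pool.Agent.NekOk

open Finset

namespace HookE

theorem hc_zero (z : ℝ) : hc z 0 = 1 := by simp [hc]

theorem hc_succ (z : ℝ) (k : ℕ) : hc z (k + 1) = hc z k * ((z + k) / (k + 1)) := by
  unfold hc; rw [Finset.prod_range_succ]

theorem hc_at_zero (k : ℕ) : hc 0 k = if k = 0 then 1 else 0 := by
  rcases k with _ | k
  · simp [hc]
  · simp only [Nat.succ_ne_zero, if_false]
    unfold hc
    exact Finset.prod_eq_zero (i := 0) (by simp) (by simp)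

/-- `hc (z+1) k = Σ_{l ≤ k} hc z l` -/
theorem hc_sum (z : ℝ) (k : ℕ) : ∑ l ∈ range (k + 1), hc z l = hc (z + 1) k := by
  induction k with
  | zero => simp [hc]
  | succ k ih =>
    rw [Finset.sum_range_succ, ih]
    -- hc (z+1) k + hc z (k+1) = hc (z+1) (k+1)
    have h1 : ∀ k : ℕ, hc (z + 1) k * z = hc z k * (z + k) := by
      intro k
      induction k with
      | zero => simp [hc]
      | succ k ih =>
        rw [hc_succ, hc_succ]
        push_cast
        have hk : ((k : ℝ) + 1) ≠ 0 := by positivity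
        field_simp
        linear_combination (z + 1 + k) * ih
    have hk : ((k : ℝ) + 1) ≠ 0 := by positivity
    rw [hc_succ, hc_succ]
    field_simp
    linear_combination (-1 : ℝ) * h1 k

theorem hc_diff (z : ℝ) (k : ℕ) : hc z (k + 1) = hc (z + 1) (k + 1) - hc (z + 1) k := by
  have h1 := hc_sum z (k + 1)
  rw [Finset.sum_range_succ, hc_sum] at h1
  linarith

theorem Am_one_apply {D : ℕ} (i j : Fin D) : Am D (1 : ℝ) i j = if j ≤ i then 1 else 0 := by
  simp [Am]

theorem Am_pow {D : ℕ} (m : ℕ) (i j : Fin D) :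
    ((Am D (1 : ℝ)) ^ m) i j = if j ≤ i then hc m ((i : ℕ) - j) else 0 := by
  induction m generalizing i j with
  | zero =>
    rw [pow_zero, Matrix.one_apply]
    by_cases h : i = j
    · subst h; simp [hc]
    · rw [if_neg h]
      split_ifs with h1
      · have : ((i : ℕ) - j) ≠ 0 := by
          have h2 : (j : ℕ) ≤ i := h1
          have h3 : (i : ℕ) ≠ j := fun e => h (Fin.ext e)
          omega
        rw [Nat.cast_zero, hc_at_zero, if_neg this]
      · rfl
  | succ m ih =>
    rw [pow_succ, Matrix.mul_apply]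
    simp only [ih, Am_one_apply]
    by_cases h : j ≤ i
    · rw [if_pos h]
      have h' : (j : ℕ) ≤ i := h
      -- sum over k in [j, i]
      have e1 : ∑ k : Fin D, ((if k ≤ i then hc m ((i : ℕ) - k) else 0) *
          (if j ≤ k then (1 : ℝ) else 0)) =
          ∑ k : Fin D, (if (j : ℕ) ≤ k ∧ (k : ℕ) ≤ i then hc m ((i : ℕ) - k) else 0) := by
        refine Finset.sum_congr rfl fun k _ => ?_
        simp only [Fin.le_def]
        by_cases h1 : (k : ℕ) ≤ i <;> by_cases h2 : (j : ℕ) ≤ k <;> simp [h1, h2]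
      rw [e1, Fin.sum_univ_eq_sum_range
        (fun k => if (j : ℕ) ≤ k ∧ k ≤ (i : ℕ) then hc m ((i : ℕ) - k) else 0) D,
        ← Finset.sum_filter]
      have e2 : (range D).filter (fun k => (j : ℕ) ≤ k ∧ k ≤ (i : ℕ)) = Finset.Icc (j : ℕ) i := by
        ext k
        simp only [Finset.mem_filter, Finset.mem_range, Finset.mem_Icc]
        have := i.2
        constructor
        · rintro ⟨_, h⟩; exact h
        · intro h; exact ⟨by omega, h⟩
      rw [e2]
      have e3 : ∑ k ∈ Finset.Icc (j : ℕ) i, hc m ((i : ℕ) - k) =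
          ∑ l ∈ range ((i : ℕ) - j + 1), hc m l := by
        refine Finset.sum_nbij' (fun k => (i : ℕ) - k) (fun l => (i : ℕ) - l) ?_ ?_ ?_ ?_ ?_
        · intro k hk; simp only [Finset.mem_Icc] at hk; simp only [Finset.mem_range]; omega
        · intro l hl; simp only [Finset.mem_range] at hl; simp only [Finset.mem_Icc]; omega
        · intro k hk; simp only [Finset.mem_Icc] at hk; omega
        · intro l hl; simp only [Finset.mem_range] at hl; omega
        · intro k _; rfl
      rw [e3, hc_sum]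
      push_cast; rfl
    · rw [if_neg h]
      refine Finset.sum_eq_zero fun k _ => ?_
      simp only [Fin.le_def] at h ⊢
      by_cases h1 : (k : ℕ) ≤ i
      · have h2 : ¬ (j : ℕ) ≤ k := by omega
        simp [h2]
      · simp [h1]

theorem Cm_pow {D : ℕ} (m : ℕ) (i j : Fin D) :
    ((Cm D (1 : ℝ)) ^ m) i j = if i ≤ j then hc (-(m : ℝ)) ((j : ℕ) - i) else 0 := by
  induction m generalizing i j with
  | zero =>
    rw [pow_zero, Matrix.one_apply]
    by_cases h : i = j
    · subst h; simp [hc]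
    · rw [if_neg h]
      split_ifs with h1
      · have : ((j : ℕ) - i) ≠ 0 := by
          have h2 : (i : ℕ) ≤ j := h1
          have h3 : (i : ℕ) ≠ j := fun e => h (Fin.ext e)
          omega
        rw [Nat.cast_zero, neg_zero, hc_at_zero, if_neg this]
      · rfl
  | succ m ih =>
    rw [pow_succ', Matrix.mul_apply]
    -- only k = i and k = i + 1 contribute
    have e1 : ∀ k : Fin D, Cm D (1 : ℝ) i k * ((Cm D (1 : ℝ)) ^ m) k j =
        (if k = i then ((Cm D (1 : ℝ)) ^ m) k j else 0) +
        (if (k : ℕ) = i + 1 then -((Cm D (1 : ℝ)) ^ m) k j else 0) := by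
      intro k
      simp only [Cm, Matrix.of_apply]
      by_cases h1 : (k : ℕ) = i
      · have h2 : k = i := Fin.ext h1
        have h3 : ¬ (k : ℕ) = i + 1 := by omega
        simp [h2]
      · have h2 : ¬ k = i := fun e => h1 (by rw [e])
        by_cases h3 : (k : ℕ) = i + 1
        · simp [h2, h3]
        · simp [h1, h2, h3]
    rw [Finset.sum_congr rfl (fun k _ => e1 k), Finset.sum_add_distrib,
      Finset.sum_ite_eq' univ i, if_pos (Finset.mem_univ i), ih]
    by_cases hi : (i : ℕ) + 1 < D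
    · have e2 : ∑ k : Fin D, (if (k : ℕ) = i + 1 then -((Cm D (1 : ℝ)) ^ m) k j else 0) =
          -((Cm D (1 : ℝ)) ^ m) ⟨i + 1, hi⟩ j := by
        rw [Finset.sum_eq_single (⟨i + 1, hi⟩ : Fin D)]
        · simp
        · intro k _ hk
          rw [if_neg]
          intro h; exact hk (Fin.ext h)
        · intro h; exact absurd (Finset.mem_univ _) h
      rw [e2, ih]
      simp only [Fin.le_def]
      by_cases h1 : (i : ℕ) + 1 ≤ j
      · have h2 : (i : ℕ) ≤ j := by omega
        rw [if_pos h2, if_pos h1, if_pos h2]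
        obtain ⟨l, hl⟩ : ∃ l, (j : ℕ) = i + 1 + l := ⟨(j : ℕ) - (i + 1), by omega⟩
        have e3 : (j : ℕ) - i = l + 1 := by omega
        have e4 : (j : ℕ) - (i + 1) = l := by omega
        rw [e3, e4]
        have := hc_diff (-((m + 1 : ℕ) : ℝ)) l
        have e5 : (-((m + 1 : ℕ) : ℝ)) + 1 = -(m : ℝ) := by push_cast; ring
        rw [e5] at this
        linarith
      · by_cases h2 : (i : ℕ) ≤ j
        · have h3 : (j : ℕ) - i = 0 := by omega
          rw [if_pos h2, if_neg h1, if_pos h2, h3, hc_zero, hc_zero]; simp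
        · rw [if_neg h2, if_neg h1, if_neg h2]; simp
    · have e2 : ∑ k : Fin D, (if (k : ℕ) = i + 1 then -((Cm D (1 : ℝ)) ^ m) k j else 0) = 0 := by
        refine Finset.sum_eq_zero fun k _ => ?_
        rw [if_neg]
        have := k.2
        omega
      rw [e2, add_zero]
      simp only [Fin.le_def]
      by_cases h2 : (i : ℕ) ≤ j
      · have h3 : (j : ℕ) - i = 0 := by have := j.2; omega
        rw [if_pos h2, if_pos h2, h3, hc_zero, hc_zero]
      · rw [if_neg h2, if_neg h2]

end HookE

theorem AC_entry {D m : ℕ} (i j : Fin D) :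
    ((Am D (1 : ℝ)) ^ m * (Cm D (1 : ℝ)) ^ m) i j = Df m i j := by
  rw [Matrix.mul_apply]
  simp only [HookE.Am_pow, HookE.Cm_pow, Fin.le_def]
  have e1 : ∑ k : Fin D, ((if (k : ℕ) ≤ i then hc m ((i : ℕ) - k) else 0) *
      (if (k : ℕ) ≤ j then hc (-(m : ℝ)) ((j : ℕ) - k) else 0)) =
      ∑ k : Fin D, (if (k : ℕ) ≤ i ∧ (k : ℕ) ≤ j then
        hc m ((i : ℕ) - k) * hc (-(m : ℝ)) ((j : ℕ) - k) else 0) := by
    refine Finset.sum_congr rfl fun k _ => ?_
    by_cases h1 : (k : ℕ) ≤ i <;> by_cases h2 : (k : ℕ) ≤ j <;> simp [h1, h2]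
  rw [e1, Fin.sum_univ_eq_sum_range (fun k => if k ≤ (i : ℕ) ∧ k ≤ (j : ℕ) then
        hc m ((i : ℕ) - k) * hc (-(m : ℝ)) ((j : ℕ) - k) else 0) D, ← Finset.sum_filter]
  unfold Df
  refine Finset.sum_congr ?_ fun _ _ => rfl
  ext k
  simp only [Finset.mem_filter, Finset.mem_range]
  have := i.2
  omega

end Pool.Agent.NekOk
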