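import Pool.Agent.NekOk.HookDefs
import Pool.Agent.NekOk.Alg

/-!
# HOOK-F: specialisation `t = -m²` of the product side
-/

namespace Pool.Agent.NekOk

open Finset

namespace HookF

/-- evaluation of `bin j` at `-m²` -/
theorem eval_bin (M j : ℕ) :
    (bin j).eval (-((M : ℚ) + 1)) = (-1) ^ j * (M.choose j : ℚ) := by
  induction j with
  | zero => simp [Alg.bin_zero]
  | succ j ih =>
    have h := congrArg (Polynomial.eval (-((M : ℚ) + 1))) (Alg.bin_succ j)
    simp only [Polynomial.eval_mul, Polynomial.eval_add, Polynomial.eval_natCast,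
      Polynomial.eval_one, Polynomial.eval_X] at h
    rw [ih] at h
    have hc : ((j : ℚ) + 1) * (M.choose (j + 1) : ℚ) = ((M : ℚ) - j) * (M.choose j : ℚ) := by
      rcases Nat.lt_or_ge M j with hlt | hge
      · rw [Nat.choose_eq_zero_of_lt hlt, Nat.choose_eq_zero_of_lt (by omega)]
        simp
      · have := Nat.choose_succ_right_eq M j
        have h2 : ((M.choose (j + 1) : ℚ)) * ((j : ℚ) + 1) = (M.choose j : ℚ) * ((M - j : ℕ) : ℚ) := by
          exact_mod_cast this
        rw [Nat.cast_sub hge] at h2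
        linarith
    have h1 : ((j : ℚ) + 1) ≠ 0 := by positivity
    apply mul_left_cancel₀ h1
    rw [h, pow_succ]
    linear_combination ((-1) ^ j) * hc

theorem coeff_one_sub_X_pow (M j : ℕ) :
    (((1 : Polynomial ℝ) - Polynomial.X) ^ M).coeff j = (-1) ^ j * (M.choose j : ℝ) := by
  induction M generalizing j with
  | zero =>
    rcases j with _ | j
    · simp
    · simp [Polynomial.coeff_one]
  | succ M ih =>
    rw [pow_succ, mul_sub, mul_one, Polynomial.coeff_sub, ih]
    rcases j with _ | j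
    · simp
    · rw [Polynomial.coeff_mul_X, ih, Nat.choose_succ_succ]
      push_cast
      ring

theorem coeff_one_sub_X_pow_pow {k : ℕ} (hk : 0 < k) (M n : ℕ) :
    (((1 : Polynomial ℝ) - Polynomial.X ^ k) ^ M).coeff n =
      if k ∣ n then (-1) ^ (n / k) * (M.choose (n / k) : ℝ) else 0 := by
  have h : ((1 : Polynomial ℝ) - Polynomial.X ^ k) ^ M =
      Polynomial.expand ℝ k (((1 : Polynomial ℝ) - Polynomial.X) ^ M) := by
    simp
  rw [h, Polynomial.coeff_expand hk]
  split_ifs with hd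
  · rw [coeff_one_sub_X_pow]
  · rfl

/-- the specialisation map -/
noncomputable def φ (M : ℕ) : Polynomial ℚ →+* ℝ :=
  (algebraMap ℚ ℝ).comp (Polynomial.evalRingHom (-((M : ℚ) + 1)))

theorem map_factor (M : ℕ) {k : ℕ} (hk : 0 < k) :
    PowerSeries.map (φ M) (factor k) =
      (((((1 : Polynomial ℝ) - Polynomial.X ^ k) ^ M : Polynomial ℝ)) : PowerSeries ℝ) := by
  ext n
  rw [PowerSeries.coeff_map, Alg.coeff_factor, Polynomial.coeff_coe, coeff_one_sub_X_pow_pow hk]
  split_ifs with hd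
  · have : φ M (bin (n / k)) = (((bin (n / k)).eval (-((M : ℚ) + 1)) : ℚ) : ℝ) := rfl
    rw [this, eval_bin]
    push_cast
    ring
  · simp

end HookF

open HookF in
theorem eval_P (n m T : ℕ) (hm : 1 ≤ m) (hT : n ≤ T) :
    (((P n).eval (-((m : ℚ) ^ 2)) : ℚ) : ℝ) =
      (∏ k ∈ Icc 1 T, ((1 : Polynomial ℝ) - Polynomial.X ^ k) ^ (m ^ 2 - 1)).coeff n := by
  obtain ⟨M, hM⟩ : ∃ M, m ^ 2 = M + 1 := ⟨m ^ 2 - 1, by
    have : 0 < m ^ 2 := by positivity
    omega⟩
  have h1 : -((m : ℚ) ^ 2) = -((M : ℚ) + 1) := by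
    have : ((m ^ 2 : ℕ) : ℚ) = ((M + 1 : ℕ) : ℚ) := by rw [hM]
    push_cast at this
    rw [this]
  rw [h1, hM]
  simp only [Nat.add_sub_cancel]
  have h2 : (((P n).eval (-((M : ℚ) + 1)) : ℚ) : ℝ) = φ M (P n) := rfl
  rw [h2, ← Alg.coeff_G hT, ← PowerSeries.coeff_map, Alg.G, map_prod]
  have h3 : ∏ k ∈ Icc 1 T, PowerSeries.map (φ M) (factor k) =
      ((∏ k ∈ Icc 1 T, ((1 : Polynomial ℝ) - Polynomial.X ^ k) ^ M : Polynomial ℝ) :
        PowerSeries ℝ) := by
    rw [← Polynomial.coeToPowerSeries.ringHom_apply, map_prod]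
    refine Finset.prod_congr rfl fun k hk => ?_
    rw [map_factor M (by simp at hk; omega), Polynomial.coeToPowerSeries.ringHom_apply]
  rw [h3, Polynomial.coeff_coe]

end Pool.Agent.NekOk
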