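import Pool.Agent.NekOk.HookA
import Pool.Agent.NekOk.HookB
import Pool.Agent.NekOk.HookC
import Pool.Agent.NekOk.HookD
import Pool.Agent.NekOk.HookE
import Pool.Agent.NekOk.HookF

/-! The Nekrasov–Okounkov hook length formula. -/

namespace Pool.Agent.NekOk

open Finset

namespace Hook

open Polynomial

/-- generic `z`: the minor equals the hook product -/
theorem det_eq_hooks_generic {n N : ℕ} (p : n.Partition) (hN : n ≤ N) (z : ℝ)
    (hz : ∀ k : ℤ, z ≠ k) :
    (Matrix.of fun i j : beta p N => Df z i j).det =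
      ∏ u ∈ cells p, (1 - z ^ 2 / ((hook p u : ℝ)) ^ 2) := by
  have h1 := det_Df (beta p N) z hz
  have h2 := hooks_prod p hN (fun k => 1 - z ^ 2 / (k : ℝ) ^ 2)
  have h3 : ∏ b ∈ beta p N, ∏ b' ∈ (beta p N).filter (· < b),
      (1 - z ^ 2 / (((b - b' : ℕ)) : ℝ) ^ 2) =
      ∏ b ∈ beta p N, ∏ b' ∈ (beta p N).filter (· < b), (1 - z ^ 2 / ((b : ℝ) - b') ^ 2) := by
    refine Finset.prod_congr rfl fun b _ => Finset.prod_congr rfl fun b' hb' => ?_
    rw [Nat.cast_sub (Finset.mem_filter.1 hb').2.le]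
  have h4 : ∏ b ∈ beta p N, ∏ b' ∈ (beta p N).filter (· < b),
      (1 - z ^ 2 / ((b : ℝ) - b') ^ 2) ≠ 0 := by
    refine Finset.prod_ne_zero_iff.2 fun b _ => Finset.prod_ne_zero_iff.2 fun b' hb' => ?_
    have hlt := (Finset.mem_filter.1 hb').2
    have hne : ((b : ℝ) - b') ≠ 0 := by
      have : (b' : ℝ) < b := by exact_mod_cast hlt
      linarith
    intro h0
    have h5 : z ^ 2 = ((b : ℝ) - b') ^ 2 := by
      field_simp at h0
      linarith
    rcases sq_eq_sq_iff_eq_or_eq_neg.1 h5 with h6 | h6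
    · exact hz ((b : ℤ) - b') (by push_cast; exact h6)
    · exact hz (-((b : ℤ) - b')) (by push_cast; exact h6)
  have h6 : ∏ b ∈ beta p N, ∏ k ∈ range b, (1 - z ^ 2 / (((k + 1 : ℕ)) : ℝ) ^ 2) =
      ∏ b ∈ beta p N, ∏ k ∈ range b, (1 - z ^ 2 / ((k : ℝ) + 1) ^ 2) := by
    push_cast; rfl
  rw [h6, h3] at h2
  rw [h2] at h1
  exact mul_right_cancel₀ h4 h1

theorem continuous_Df (b b' : ℕ) : Continuous fun z : ℝ => Df z b b' := by
  unfold Df hc
  fun_prop

/-- all `z` -/
theorem det_eq_hooks {n N : ℕ} (p : n.Partition) (hN : n ≤ N) (z : ℝ) :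
    (Matrix.of fun i j : beta p N => Df z i j).det =
      ∏ u ∈ cells p, (1 - z ^ 2 / ((hook p u : ℝ)) ^ 2) := by
  have hd : Dense {z : ℝ | ∀ k : ℤ, z ≠ k} := by
    have h1 : (Set.range (fun k : ℤ => (k : ℝ))).Countable := Set.countable_range _
    have h2 := h1.dense_compl ℝ
    refine h2.mono ?_
    intro z hz k hk
    exact hz ⟨k, hk.symm⟩
  have hc1 : Continuous fun z : ℝ => (Matrix.of fun i j : beta p N => Df z i j).det := by
    apply Continuous.matrix_det
    refine continuous_matrix fun i j => ?_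
    exact continuous_Df _ _
  have hc2 : Continuous fun z : ℝ => ∏ u ∈ cells p, (1 - z ^ 2 / ((hook p u : ℝ)) ^ 2) := by
    fun_prop
  have := Continuous.ext_on hd hc1 hc2 (fun z hz => det_eq_hooks_generic p hN z hz)
  exact congrFun this z

/-- transfer of minors from subsets of `Fin D` to subsets of `ℕ` -/
theorem sum_fin_eq {D N : ℕ} {M : Type*} [AddCommMonoid M] (g : Finset ℕ → M) :
    ∑ s ∈ (univ : Finset (Fin D)).powersetCard N, g (s.map Fin.valEmbedding) =
      ∑ s ∈ (range D).powersetCard N, g s := by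
  have h0 : range D = (univ : Finset (Fin D)).map Fin.valEmbedding := by
    ext a
    simp only [Finset.mem_range, Finset.mem_map, Finset.mem_univ, true_and]
    constructor
    · intro h; exact ⟨⟨a, h⟩, rfl⟩
    · rintro ⟨b, rfl⟩; exact b.2
  have h1 : (range D).powersetCard N =
      ((univ : Finset (Fin D)).powersetCard N).map (Finset.mapEmbedding Fin.valEmbedding).toEmbedding := by
    rw [← Finset.powersetCard_map, ← h0]
  rw [h1, Finset.sum_map]
  rfl

/-- weight of a subset of `ℕ` -/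
noncomputable def wt (m : ℕ) (s : Finset ℕ) : ℝ := (Matrix.of fun i j : s => Df m i j).det

theorem minor_eq {D m : ℕ} (s : Finset (Fin D)) :
    (((Am D (1 : ℝ)) ^ m * (Cm D (1 : ℝ)) ^ m).submatrix
      (Subtype.val : s → Fin D) (Subtype.val : s → Fin D)).det =
      wt m (s.map Fin.valEmbedding) := by
  unfold wt
  rw [← Matrix.det_submatrix_equiv_self (s.equivMap Fin.valEmbedding)
    (Matrix.of fun i j : (s.map Fin.valEmbedding : Finset ℕ) => Df m i j)]
  congr 1
  ext i j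
  simp only [Matrix.submatrix_apply, Matrix.of_apply]
  rw [AC_entry]
  rfl

/-- generating polynomial of the weights -/
noncomputable def S (D N m : ℕ) : ℝ[X] :=
  ∑ s ∈ (range D).powersetCard N, Polynomial.C (wt m s) * Polynomial.X ^ (∑ i ∈ s, i)

noncomputable def S0 (D N : ℕ) : ℝ[X] :=
  ∑ s ∈ (range D).powersetCard N, Polynomial.X ^ (∑ i ∈ s, i)

theorem key_mod {D N m T : ℕ} (hT : 2 * T = N * (N + 1)) (hD : T + m ≤ D) :
    (Polynomial.X : ℝ[X]) ^ T ∣
      S D N m - (∏ k ∈ Icc 1 T, ((1 : ℝ[X]) - Polynomial.X ^ k)) ^ (m ^ 2) * S0 D N := by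
  set I : Ideal ℝ[X] := Ideal.span {(Polynomial.X : ℝ[X]) ^ T} with hI
  rw [← Ideal.mem_span_singleton, ← hI, ← Ideal.Quotient.eq_zero_iff_mem, map_sub, sub_eq_zero]
  set φ := Ideal.Quotient.mk I with hφ
  have hx : (φ Polynomial.X) ^ T = 0 := by
    rw [← map_pow, Ideal.Quotient.eq_zero_iff_mem, hI]
    exact Ideal.mem_span_singleton_self _
  have h1 := tau_eq (D := D) (N := N) (m := m) hT hx hD
  have h2 : tau D N (φ Polynomial.X) (Am D 1 ^ m * Cm D 1 ^ m) = φ (S D N m) := by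
    unfold tau S
    rw [← sum_fin_eq (D := D) (N := N)
      (fun s => Polynomial.C (wt m s) * (Polynomial.X : ℝ[X]) ^ (∑ i ∈ s, i)), map_sum]
    refine Finset.sum_congr rfl fun s _ => ?_
    have hA : Am D (1 : ℝ[X] ⧸ I) = (φ.comp Polynomial.C).mapMatrix (Am D (1 : ℝ)) := by
      ext i j
      simp only [Am, RingHom.mapMatrix_apply, Matrix.map_apply, Matrix.of_apply, one_pow]
      split_ifs <;> simp
    have hC : Cm D (1 : ℝ[X] ⧸ I) = (φ.comp Polynomial.C).mapMatrix (Cm D (1 : ℝ)) := by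
      ext i j
      simp only [Cm, RingHom.mapMatrix_apply, Matrix.map_apply, Matrix.of_apply]
      split_ifs <;> simp
    rw [hA, hC, ← map_pow, ← map_pow, ← map_mul]
    have e1 : ((Matrix.diagonal (fun i : Fin D => (φ Polynomial.X) ^ (i : ℕ)) *
        (φ.comp Polynomial.C).mapMatrix ((Am D (1 : ℝ)) ^ m * (Cm D (1 : ℝ)) ^ m)).submatrix
          (Subtype.val : s → Fin D) (Subtype.val : s → Fin D)) =
        Matrix.diagonal (fun i : s => (φ Polynomial.X) ^ ((i : Fin D) : ℕ)) *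
        (φ.comp Polynomial.C).mapMatrix (((Am D (1 : ℝ)) ^ m * (Cm D (1 : ℝ)) ^ m).submatrix
          (Subtype.val : s → Fin D) (Subtype.val : s → Fin D)) := by
      ext i j
      simp [Matrix.diagonal_mul]
    rw [e1, Matrix.det_mul, Matrix.det_diagonal, ← RingHom.map_det, minor_eq]
    have e2 : ∏ i : s, (φ Polynomial.X) ^ ((i : Fin D) : ℕ) =
        φ ((Polynomial.X : ℝ[X]) ^ (∑ i ∈ s.map Fin.valEmbedding, i)) := by
      rw [map_pow, Finset.sum_map, Finset.prod_coe_sort s (fun i : Fin D => (φ Polynomial.X) ^ (i : ℕ)),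
        Finset.prod_pow_eq_pow_sum]
      rfl
    rw [e2, map_mul]
    simp only [RingHom.comp_apply]
    ring
  have h3 : φ ((∏ k ∈ Icc 1 T, ((1 : ℝ[X]) - Polynomial.X ^ k)) ^ (m ^ 2) * S0 D N) =
      (∏ k ∈ Icc 1 T, (1 - (φ Polynomial.X) ^ k)) ^ (m ^ 2) *
        ∑ s ∈ (univ : Finset (Fin D)).powersetCard N, (φ Polynomial.X) ^ (∑ i ∈ s, (i : ℕ)) := by
    unfold S0
    rw [← sum_fin_eq (D := D) (N := N) (fun s => (Polynomial.X : ℝ[X]) ^ (∑ i ∈ s, i))]
    simp only [map_mul, map_pow, map_prod, map_sub, map_one, map_sum, Finset.sum_map]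
    rfl
  rw [← h2, h1, h3]

/-- coefficients of `S` -/
theorem coeff_S {D N m n e : ℕ} (hN : n ≤ N) (hD : n + N ≤ D) (he : 2 * e = N * (N - 1) + 2 * n) :
    (S D N m).coeff e = ∑ p : n.Partition, ∏ u ∈ cells p, (1 - (m : ℝ) ^ 2 / ((hook p u : ℝ)) ^ 2) := by
  have h1 : ∑ p : n.Partition, wt m (beta p N) =
      ∑ s ∈ ((range D).powersetCard N).filter
        (fun s => 2 * ∑ i ∈ s, i = N * (N - 1) + 2 * n), wt m s := sum_beta hN hD (wt m)
  have h2 : ∀ p : n.Partition, wt m (beta p N) =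
      ∏ u ∈ cells p, (1 - (m : ℝ) ^ 2 / ((hook p u : ℝ)) ^ 2) := fun p => det_eq_hooks p hN m
  rw [← Finset.sum_congr rfl (fun p _ => h2 p), h1]
  unfold S
  rw [Polynomial.finsetSum_coeff, Finset.sum_filter]
  refine Finset.sum_congr rfl fun s _ => ?_
  rw [Polynomial.coeff_C_mul, Polynomial.coeff_X_pow]
  by_cases h : e = ∑ i ∈ s, i
  · rw [if_pos h, if_pos (by rw [← h]; exact he), mul_one]
  · rw [if_neg h, if_neg (by intro h'; apply h; omega), mul_zero]

theorem hookSum_one {n : ℕ} (hn : 0 < n) :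
    ∑ p : n.Partition, ∏ u ∈ cells p, (1 - ((1 : ℕ) : ℝ) ^ 2 / ((hook p u : ℝ)) ^ 2) = 0 := by
  refine Finset.sum_eq_zero fun p _ => ?_
  obtain ⟨u, hu, hu1⟩ := exists_hook_one hn p
  refine Finset.prod_eq_zero hu ?_
  rw [hu1]; norm_num

theorem hookSum_zero (m : ℕ) :
    ∑ p : (0 : ℕ).Partition, ∏ u ∈ cells p, (1 - (m : ℝ) ^ 2 / ((hook p u : ℝ)) ^ 2) = 1 := by
  have : ∀ p : (0 : ℕ).Partition, cells p = ∅ := by
    intro p; unfold cells; simp
  simp [this]

theorem sum_range_card_le (s : Finset ℕ) : ∑ i ∈ range s.card, i ≤ ∑ i ∈ s, i := by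
  induction s using Finset.induction_on_max with
  | empty => simp
  | insert a t hlt ih =>
    have ha : a ∉ t := fun h => (lt_irrefl _ (hlt a h))
    rw [Finset.card_insert_of_notMem ha, Finset.sum_insert ha, Finset.sum_range_succ]
    have hc : t.card ≤ a := by
      have : t ⊆ range a := fun x hx => Finset.mem_range.2 (hlt x hx)
      simpa using Finset.card_le_card this
    omega

theorem coeff_S_lt {D N m e : ℕ} (he : 2 * e < N * (N - 1)) : (S D N m).coeff e = 0 := by
  unfold S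
  rw [Polynomial.finsetSum_coeff]
  refine Finset.sum_eq_zero fun s hs => ?_
  rw [Polynomial.coeff_C_mul, Polynomial.coeff_X_pow, if_neg, mul_zero]
  intro h
  have hcard := (Finset.mem_powersetCard.1 hs).2
  have h1 := sum_range_card_le s
  rw [hcard] at h1
  have h2 := Finset.sum_range_id_mul_two N
  omega

/-- main identity at `t = -m²`, real form -/
theorem hookSum_eq (n m : ℕ) (hm : 1 ≤ m) :
    ∑ p : n.Partition, ∏ u ∈ cells p, (1 - (m : ℝ) ^ 2 / ((hook p u : ℝ)) ^ 2) =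
      (((P n).eval (-((m : ℚ) ^ 2)) : ℚ) : ℝ) := by
  set N := n + 1 with hN
  obtain ⟨T, hT⟩ : ∃ T, 2 * T = N * (N + 1) := by
    obtain ⟨k, hk⟩ := Nat.even_mul_succ_self N
    exact ⟨k, by omega⟩
  obtain ⟨E, hE⟩ : ∃ E, 2 * E = N * (N - 1) := by
    obtain ⟨k, hk⟩ := Nat.even_mul_pred_self N
    exact ⟨k, by omega⟩
  have hTE : T = E + N := by
    have : N * (N + 1) = N * (N - 1) + 2 * N := by
      rw [hN]; simp only [Nat.add_sub_cancel]; ring
    omega
  set D := T + m + n + N with hDdef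
  have h1 := key_mod (D := D) (N := N) (m := m) hT (by omega)
  have h2 := key_mod (D := D) (N := N) (m := 1) hT (by omega)
  -- `S D N 1 ≡ X^E`
  have h3 : (Polynomial.X : ℝ[X]) ^ T ∣ S D N 1 - Polynomial.X ^ E := by
    rw [Polynomial.X_pow_dvd_iff]
    intro d hd
    rw [Polynomial.coeff_sub, Polynomial.coeff_X_pow]
    rcases lt_trichotomy d E with h | h | h
    · rw [coeff_S_lt (by omega), if_neg (by omega)]; simp
    · rw [if_pos h, coeff_S (n := 0) (by omega) (by omega) (by omega), hookSum_zero]; simp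
    · rw [if_neg (by omega), coeff_S (n := d - E) (by omega) (by omega) (by omega),
        hookSum_one (by omega)]; simp
  set Q := ∏ k ∈ Icc 1 T, ((1 : ℝ[X]) - Polynomial.X ^ k) with hQ
  have h4 : (Polynomial.X : ℝ[X]) ^ T ∣ S D N m - Q ^ (m ^ 2 - 1) * Polynomial.X ^ E := by
    have e : m ^ 2 = (m ^ 2 - 1) + 1 := by
      have : 1 ≤ m ^ 2 := Nat.one_le_pow _ _ hm
      omega
    have e2 : S D N m - Q ^ (m ^ 2 - 1) * Polynomial.X ^ E =
        (S D N m - Q ^ (m ^ 2) * S0 D N) - Q ^ (m ^ 2 - 1) * (S D N 1 - Q ^ (1 ^ 2) * S0 D N) +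
          Q ^ (m ^ 2 - 1) * (S D N 1 - Polynomial.X ^ E) := by
      conv_rhs => rw [e, pow_succ]
      simp only [Nat.add_sub_cancel]
      ring
    rw [e2]
    exact dvd_add (dvd_sub h1 (dvd_mul_of_dvd_right h2 _)) (dvd_mul_of_dvd_right h3 _)
  have h5 := (Polynomial.X_pow_dvd_iff.1 h4) (n + E) (by omega)
  rw [Polynomial.coeff_sub, Polynomial.coeff_mul_X_pow, sub_eq_zero,
    coeff_S (n := n) (by omega) (by omega) (by omega)] at h5
  rw [h5, eval_P n m T hm (by omega), Finset.prod_pow]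

end Hook

/-- **The Nekrasov–Okounkov hook length formula.** -/
theorem hookPoly_eq (n : ℕ) : hookPoly n = P n := by
  have hinf : (Set.range (fun m : ℕ => -(((m + 1 : ℕ) : ℚ) ^ 2))).Infinite := by
    apply Set.infinite_range_of_injective
    intro a b hab
    have h1 : (((a + 1 : ℕ) : ℚ) ^ 2) = (((b + 1 : ℕ) : ℚ) ^ 2) := by
      simpa using hab
    have h2 : (a + 1) ^ 2 = (b + 1) ^ 2 := by exact_mod_cast h1
    have h3 := Nat.pow_left_injective (n := 2) (by norm_num) h2
    omega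
  apply Polynomial.eq_of_infinite_eval_eq
  refine hinf.mono ?_
  rintro _ ⟨m, rfl⟩
  simp only [Set.mem_ofPred_eq]
  have h1 := Hook.hookSum_eq n (m + 1) (by omega)
  have h2 : (((hookPoly n).eval (-(((m + 1 : ℕ) : ℚ) ^ 2)) : ℚ) : ℝ) =
      ∑ p : n.Partition, ∏ u ∈ cells p, (1 - ((m + 1 : ℕ) : ℝ) ^ 2 / ((hook p u : ℝ)) ^ 2) := by
    unfold hookPoly
    rw [Polynomial.eval_finsetSum]
    push_cast
    refine Finset.sum_congr rfl fun p _ => ?_
    rw [Polynomial.eval_prod]
    push_cast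
    refine Finset.prod_congr rfl fun u hu => ?_
    have hpos := hook_pos p hu
    have hne : (hook p u : ℝ) ≠ 0 := by positivity
    simp only [Polynomial.eval_mul, Polynomial.eval_add, Polynomial.eval_C, Polynomial.eval_X]
    push_cast
    field_simp
    ring
  rw [← h2] at h1
  exact_mod_cast h1

end Pool.Agent.NekOk
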