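import Pool.Agent.NekOk.Basic

/-!
# Digits of packed natural numbers (base `2 ^ w`)
-/

namespace Pool.Agent.NekOk.Small

open Finset

/-- the `n`-th digit of `X` in base `2 ^ w` -/
def dg (w X n : ℕ) : ℕ := (X >>> (w * n)) % 2 ^ w

theorem dg_lt (w X n : ℕ) : dg w X n < 2 ^ w := Nat.mod_lt _ (by positivity)

theorem dg_eq (w X n : ℕ) : dg w X n = X / (2 ^ w) ^ n % 2 ^ w := by
  rw [dg, Nat.shiftRight_eq_div_pow, pow_mul]

theorem testBit_dg (w X n i : ℕ) :
    (dg w X n).testBit i = (decide (i < w) && X.testBit (w * n + i)) := by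
  rw [dg, Nat.testBit_mod_two_pow, Nat.testBit_shiftRight]

theorem mod_pow_eq_sum (w X n : ℕ) :
    X % (2 ^ w) ^ n = ∑ j ∈ range n, dg w X j * (2 ^ w) ^ j := by
  induction n with
  | zero => simp [Nat.mod_one]
  | succ n ih =>
    rw [sum_range_succ, ← ih, dg_eq, pow_succ, Nat.mod_mul]
    ring

theorem sum_lt (w : ℕ) (f : ℕ → ℕ) (n : ℕ) (hf : ∀ j < n, f j < 2 ^ w) :
    ∑ j ∈ range n, f j * (2 ^ w) ^ j < (2 ^ w) ^ n := by
  induction n with
  | zero => simp
  | succ n ih =>
    rw [sum_range_succ, pow_succ]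
    have h1 := ih (fun j hj => hf j (by omega))
    have h2 := hf n (by omega)
    generalize (2 ^ w) ^ n = M at *
    generalize 2 ^ w = B at *
    have h3 : f n + 1 ≤ B := h2
    have h4 : (f n + 1) * M ≤ B * M := Nat.mul_le_mul_right _ h3
    nlinarith

theorem dg_of_sum (w : ℕ) (f : ℕ → ℕ) (n Z : ℕ) (hf : ∀ j ≤ n, f j < 2 ^ w)
    (hZ : Z % (2 ^ w) ^ (n + 1) = (∑ j ∈ range (n + 1), f j * (2 ^ w) ^ j) % (2 ^ w) ^ (n + 1)) :
    dg w Z n = f n := by
  rw [Nat.mod_eq_of_lt (sum_lt w f (n + 1) (fun j hj => hf j (by omega)))] at hZ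
  have h1 : dg w Z n = (Z % (2 ^ w) ^ (n + 1)) / (2 ^ w) ^ n := by
    rw [pow_succ, Nat.mod_mul_right_div_self, dg_eq]
  rw [h1, hZ, sum_range_succ]
  have h2 := sum_lt w f n (fun j hj => hf j (by omega))
  have hpos : 0 < (2 ^ w) ^ n := by positivity
  rw [Nat.add_mul_div_right _ _ hpos, Nat.div_eq_of_lt h2, zero_add]

theorem conv_modEq (B N : ℕ) (f g : ℕ → ℕ) :
    ((∑ i ∈ range N, f i * B ^ i) * (∑ j ∈ range N, g j * B ^ j)) % B ^ N =
      (∑ m ∈ range N, (∑ j ∈ range (m + 1), f j * g (m - j)) * B ^ m) % B ^ N := by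
  have hx : ((B : ZMod (B ^ N))) ^ N = 0 := by
    have := ZMod.natCast_self (B ^ N)
    push_cast at this
    exact this
  have key : (((∑ i ∈ range N, f i * B ^ i) * (∑ j ∈ range N, g j * B ^ j) : ℕ) : ZMod (B ^ N)) =
      ((∑ m ∈ range N, (∑ j ∈ range (m + 1), f j * g (m - j)) * B ^ m : ℕ) : ZMod (B ^ N)) := by
    push_cast
    generalize (B : ZMod (B ^ N)) = x at *
    have h1 : ∀ i ∈ range N, ((f i : ZMod (B ^ N)) * x ^ i) * (∑ j ∈ range N, (g j : ZMod (B ^ N)) * x ^ j)
        = ∑ m ∈ Ico i N, (f i : ZMod (B ^ N)) * (g (m - i) : ZMod (B ^ N)) * x ^ m := by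
      intro i hi
      rw [mem_range] at hi
      rw [Finset.sum_Ico_eq_sum_range, Finset.range_eq_Ico,
        ← Finset.sum_Ico_consecutive (fun j => (g j : ZMod (B ^ N)) * x ^ j) (Nat.zero_le (N - i)) (by omega : N - i ≤ N),
        mul_add]
      have h2 : ((f i : ZMod (B ^ N)) * x ^ i) * (∑ j ∈ Ico (N - i) N, (g j : ZMod (B ^ N)) * x ^ j) = 0 := by
        rw [Finset.mul_sum]
        apply Finset.sum_eq_zero
        intro j hj
        rw [Finset.mem_Ico] at hj
        obtain ⟨r, hr⟩ : ∃ r, i + j = N + r := ⟨i + j - N, by omega⟩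
        have : ((f i : ZMod (B ^ N)) * x ^ i) * ((g j : ZMod (B ^ N)) * x ^ j)
          = (f i : ZMod (B ^ N)) * (g j : ZMod (B ^ N)) * x ^ (i + j) := by
          rw [pow_add]; ring
        rw [this, hr, pow_add, hx]
        ring
      rw [h2, add_zero, Finset.mul_sum, ← Finset.range_eq_Ico]
      refine Finset.sum_congr rfl (fun j _ => ?_)
      rw [Nat.add_sub_cancel_left, pow_add]
      ring
    rw [Finset.sum_mul, Finset.sum_congr rfl h1, Finset.range_eq_Ico, Finset.sum_Ico_Ico_comm]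
    refine Finset.sum_congr rfl (fun m _ => ?_)
    rw [Finset.sum_mul, Finset.range_eq_Ico]
  exact (ZMod.natCast_eq_natCast_iff _ _ _).1 key

theorem dg_mul (w C X n : ℕ)
    (h : ∀ m ≤ n, ∑ j ∈ range (m + 1), dg w C j * dg w X (m - j) < 2 ^ w) :
    dg w (C * X) n = ∑ j ∈ range (n + 1), dg w C j * dg w X (n - j) := by
  refine dg_of_sum w (fun m => ∑ j ∈ range (m + 1), dg w C j * dg w X (m - j)) n _ h ?_
  rw [Nat.mul_mod, mod_pow_eq_sum w C, mod_pow_eq_sum w X, conv_modEq]

theorem dg_add (w X Y n : ℕ) (h : ∀ m ≤ n, dg w X m + dg w Y m < 2 ^ w) :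
    dg w (X + Y) n = dg w X n + dg w Y n := by
  refine dg_of_sum w (fun m => dg w X m + dg w Y m) n _ h ?_
  rw [Nat.add_mod, mod_pow_eq_sum w X, mod_pow_eq_sum w Y, ← Finset.sum_add_distrib]
  congr 1
  exact Finset.sum_congr rfl (fun j _ => by ring)

theorem dg_smul (w k X n : ℕ) (h : ∀ m ≤ n, k * dg w X m < 2 ^ w) :
    dg w (k * X) n = k * dg w X n := by
  refine dg_of_sum w (fun m => k * dg w X m) n _ h ?_
  have h1 : (k * X) % (2 ^ w) ^ (n + 1) = (k * (X % (2 ^ w) ^ (n + 1))) % (2 ^ w) ^ (n + 1) := by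
    rw [Nat.mul_mod_mod]
  rw [h1, mod_pow_eq_sum w X, Finset.mul_sum]
  congr 1
  exact Finset.sum_congr rfl (fun j _ => by ring)

theorem dg_and (w X Y n : ℕ) : dg w (X &&& Y) n = dg w X n &&& dg w Y n := by
  apply Nat.eq_of_testBit_eq
  intro i
  rw [Nat.testBit_and, testBit_dg, testBit_dg, testBit_dg, Nat.testBit_and]
  cases decide (i < w) <;> simp

theorem dg_shift (w X T n : ℕ) : dg w (X >>> (w * T)) n = dg w X (n + T) := by
  rw [dg, dg, ← Nat.shiftRight_add]
  congr 2
  ring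

theorem dg_shift_one (w X n : ℕ) : dg w (X >>> w) n = dg w X (n + 1) := by
  have := dg_shift w X 1 n
  rwa [mul_one] at this

theorem dg_shift_and (w e X n : ℕ) (he : e ≤ w) :
    dg w (X >>> e) n &&& (2 ^ (w - e) - 1) = dg w X n / 2 ^ e := by
  rw [← Nat.shiftRight_eq_div_pow]
  apply Nat.eq_of_testBit_eq
  intro i
  rw [Nat.testBit_and, testBit_dg, Nat.testBit_shiftRight, Nat.testBit_two_pow_sub_one,
    Nat.testBit_shiftRight, testBit_dg]
  by_cases h : i < w - e
  · have h1 : i < w := by omega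
    have h2 : e + i < w := by omega
    have h3 : e + (w * n + i) = w * n + (e + i) := by ring
    simp [h, h1, h2, h3]
  · have h2 : ¬ (e + i < w) := by omega
    simp [h, h2]

theorem index_lt {w T n i : ℕ} (hi : i < w) : w * n + i < w * T ↔ n < T := by
  constructor
  · intro h
    by_contra hn
    have := Nat.mul_le_mul_left w (not_lt.1 hn)
    omega
  · intro h
    have := Nat.mul_le_mul_left w (show n + 1 ≤ T from h)
    rw [mul_add, mul_one] at this
    omega

theorem dg_low (w X T n : ℕ) (hn : n < T) : dg w (X &&& (2 ^ (w * T) - 1)) n = dg w X n := by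
  apply Nat.eq_of_testBit_eq
  intro i
  rw [testBit_dg, testBit_dg, Nat.testBit_and, Nat.testBit_two_pow_sub_one]
  by_cases h : i < w
  · have := (index_lt (T := T) (n := n) h).2 hn
    simp [h, this]
  · simp [h]

theorem dg_combine (w A D T n : ℕ) (hA : A < 2 ^ (w * T)) :
    dg w (A + D * 2 ^ (w * T)) n = if n < T then dg w A n else dg w D (n - T) := by
  apply Nat.eq_of_testBit_eq
  intro i
  have h0 : A + D * 2 ^ (w * T) = 2 ^ (w * T) * D + A := by ring
  rw [testBit_dg, h0, Nat.testBit_two_pow_mul_add _ hA]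
  by_cases h : i < w
  · by_cases hn : n < T
    · have := (index_lt (T := T) (n := n) h).2 hn
      simp [h, hn, this, testBit_dg]
    · have h1 : ¬ (w * n + i < w * T) := fun h2 => hn ((index_lt h).1 h2)
      have h2 : w * n + i - w * T = w * (n - T) + i := by
        have : w * n = w * (n - T) + w * T := by
          rw [← mul_add]; congr 1; omega
        omega
      simp [h, hn, h1, h2, testBit_dg]
  · by_cases hn : n < T
    · simp [h, hn, testBit_dg]
    · simp [h, hn, testBit_dg]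

/-- the number all of whose first `N` digits are `1` -/
theorem dg_ones (w N v n : ℕ) (hw : 1 ≤ w) (hv : v < 2 ^ w) (hn : n < N) :
    dg w (v * (((2 ^ w) ^ N - 1) / (2 ^ w - 1))) n = v := by
  have hB : 2 ≤ 2 ^ w := by
    calc 2 = 2 ^ 1 := by norm_num
      _ ≤ 2 ^ w := Nat.pow_le_pow_right (by norm_num) hw
  rw [← Nat.geomSum_eq hB]
  refine dg_of_sum w (fun _ => v) n _ (fun _ _ => hv) ?_
  have h1 : ∑ k ∈ range N, (2 ^ w) ^ k = ∑ k ∈ range (n + 1), (2 ^ w) ^ k +
      (2 ^ w) ^ (n + 1) * ∑ k ∈ range (N - (n + 1)), (2 ^ w) ^ k := by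
    have h2 : N = (n + 1) + (N - (n + 1)) := by omega
    conv_lhs => rw [h2]
    rw [Finset.sum_range_add, Finset.mul_sum]
    congr 1
    exact Finset.sum_congr rfl (fun j _ => by rw [pow_add])
  rw [h1, mul_add, Finset.mul_sum]
  have h3 : v * ((2 ^ w) ^ (n + 1) * ∑ k ∈ range (N - (n + 1)), (2 ^ w) ^ k) =
    (2 ^ w) ^ (n + 1) * (v * ∑ k ∈ range (N - (n + 1)), (2 ^ w) ^ k) := by ring
  rw [h3, Nat.add_mul_mod_self_left]

/-! ### digitwise maps and checks by halving -/

/-- map over the digits -/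
def dmap (w : ℕ) (g : ℕ → ℕ → ℕ) : ℕ → ℕ → ℕ → ℕ
  | 0, lo, x => g lo (Nat.mod x (Nat.pow 2 w))
  | d + 1, lo, x =>
    Nat.add (dmap w g d lo (Nat.land x (Nat.sub (Nat.pow 2 (Nat.mul w (Nat.pow 2 d))) 1)))
      (Nat.mul (dmap w g d (Nat.add lo (Nat.pow 2 d)) (Nat.shiftRight x (Nat.mul w (Nat.pow 2 d))))
        (Nat.pow 2 (Nat.mul w (Nat.pow 2 d))))

theorem dmap_succ (w : ℕ) (g : ℕ → ℕ → ℕ) (d lo x : ℕ) :
    dmap w g (d + 1) lo x = dmap w g d lo (x &&& (2 ^ (w * 2 ^ d) - 1)) +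
      dmap w g d (lo + 2 ^ d) (x >>> (w * 2 ^ d)) * 2 ^ (w * 2 ^ d) := rfl

theorem dg_zero (w x : ℕ) : dg w x 0 = x % 2 ^ w := by simp [dg]

theorem dmap_spec (w : ℕ) (g : ℕ → ℕ → ℕ) : ∀ d lo x : ℕ,
    (∀ i < 2 ^ d, g (lo + i) (dg w x i) < 2 ^ w) →
    dmap w g d lo x < 2 ^ (w * 2 ^ d) ∧
      ∀ i < 2 ^ d, dg w (dmap w g d lo x) i = g (lo + i) (dg w x i) := by
  intro d
  induction d with
  | zero =>
    intro lo x h
    have h0 := h 0 (by norm_num)
    have h1 : dmap w g 0 lo x = g lo (dg w x 0) := by rw [dg_zero]; rfl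
    rw [add_zero] at h0
    refine ⟨by rw [h1]; simpa using h0, fun i hi => ?_⟩
    have hi0 : i = 0 := by simpa using hi
    subst hi0
    rw [h1, dg_zero, Nat.mod_eq_of_lt h0, add_zero]
  | succ d ih =>
    intro lo x h
    have hpow : 2 ^ (d + 1) = 2 ^ d + 2 ^ d := by rw [pow_succ]; ring
    have hlo : ∀ i < 2 ^ d, dg w (x &&& (2 ^ (w * 2 ^ d) - 1)) i = dg w x i :=
      fun i hi => dg_low w x (2 ^ d) i hi
    have hhi : ∀ i, dg w (x >>> (w * 2 ^ d)) i = dg w x (i + 2 ^ d) :=
      fun i => dg_shift w x (2 ^ d) i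
    obtain ⟨a1, a2⟩ := ih lo (x &&& (2 ^ (w * 2 ^ d) - 1)) (fun i hi => by
      rw [hlo i hi]; exact h i (by omega))
    obtain ⟨b1, b2⟩ := ih (lo + 2 ^ d) (x >>> (w * 2 ^ d)) (fun i hi => by
      rw [hhi i]
      have := h (i + 2 ^ d) (by omega)
      rwa [show lo + (i + 2 ^ d) = lo + 2 ^ d + i by ring] at this)
    rw [dmap_succ]
    refine ⟨?_, fun i hi => ?_⟩
    · have h1 : 2 ^ (w * 2 ^ (d + 1)) = 2 ^ (w * 2 ^ d) * 2 ^ (w * 2 ^ d) := by
        rw [hpow, mul_add, pow_add]
      rw [h1]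
      generalize 2 ^ (w * 2 ^ d) = M at *
      have : (dmap w g d (lo + 2 ^ d) (x >>> (w * 2 ^ d)) + 1) * M ≤ M * M :=
        Nat.mul_le_mul_right _ b1
      nlinarith
    · rw [dg_combine _ _ _ _ _ a1]
      split_ifs with hi'
      · rw [a2 i hi', hlo i hi']
      · rw [b2 (i - 2 ^ d) (by omega), hhi]
        rw [show lo + 2 ^ d + (i - 2 ^ d) = lo + i by omega, show i - 2 ^ d + 2 ^ d = i by omega]

/-- check `(lo + i) * x_i = y_i` for all digits `i < 2 ^ d` -/
def dchk (w : ℕ) : ℕ → ℕ → ℕ → ℕ → Bool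
  | 0, lo, x, y => Nat.beq (Nat.mul lo (Nat.mod x (Nat.pow 2 w))) (Nat.mod y (Nat.pow 2 w))
  | d + 1, lo, x, y =>
    cond (dchk w d lo (Nat.land x (Nat.sub (Nat.pow 2 (Nat.mul w (Nat.pow 2 d))) 1))
        (Nat.land y (Nat.sub (Nat.pow 2 (Nat.mul w (Nat.pow 2 d))) 1)))
      (dchk w d (Nat.add lo (Nat.pow 2 d)) (Nat.shiftRight x (Nat.mul w (Nat.pow 2 d)))
        (Nat.shiftRight y (Nat.mul w (Nat.pow 2 d)))) false

theorem dchk_succ (w d lo x y : ℕ) :
    dchk w (d + 1) lo x y = cond (dchk w d lo (x &&& (2 ^ (w * 2 ^ d) - 1))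
        (y &&& (2 ^ (w * 2 ^ d) - 1)))
      (dchk w d (lo + 2 ^ d) (x >>> (w * 2 ^ d)) (y >>> (w * 2 ^ d))) false := rfl

theorem cond_false {b c : Bool} (h : cond b c false = true) : b = true ∧ c = true := by
  cases b <;> simp_all

theorem dchk_spec (w : ℕ) : ∀ d lo x y : ℕ, dchk w d lo x y = true →
    ∀ i < 2 ^ d, (lo + i) * dg w x i = dg w y i := by
  intro d
  induction d with
  | zero =>
    intro lo x y h i hi
    have hi0 : i = 0 := by simpa using hi
    subst hi0
    have h1 : Nat.beq (Nat.mul lo (Nat.mod x (Nat.pow 2 w))) (Nat.mod y (Nat.pow 2 w)) = true := h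
    have h2 := Nat.eq_of_beq_eq_true h1
    rw [dg_zero, dg_zero, add_zero]
    exact h2
  | succ d ih =>
    intro lo x y h i hi
    rw [dchk_succ] at h
    obtain ⟨h1, h2⟩ := cond_false h
    have hpow : 2 ^ (d + 1) = 2 ^ d + 2 ^ d := by rw [pow_succ]; ring
    by_cases hi' : i < 2 ^ d
    · have := ih _ _ _ h1 i hi'
      rwa [dg_low w x (2 ^ d) i hi', dg_low w y (2 ^ d) i hi'] at this
    · have := ih _ _ _ h2 (i - 2 ^ d) (by omega)
      rw [dg_shift, dg_shift] at this
      rwa [show lo + 2 ^ d + (i - 2 ^ d) = lo + i by omega,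
        show i - 2 ^ d + 2 ^ d = i by omega] at this

/-! ### forcing evaluation -/

/-- `force x f = f x`, written so that the kernel evaluates `x` first -/
def force (x : ℕ) (f : ℕ → Bool) : Bool :=
  Nat.rec (motive := fun _ => Bool) (f 0) (fun n _ => f (Nat.succ n)) x

theorem force_eq (x : ℕ) (f : ℕ → Bool) : force x f = f x := by
  cases x <;> rfl

/-! ### sums of divisors -/

/-- the contribution of `d` to the sum of divisors of `n` (pairing `d` with `n / d`) -/
def trm (n d : ℕ) : ℕ :=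
  cond (Nat.beq (Nat.mod n d) 0)
    (cond (Nat.ble n (Nat.mul d d)) (cond (Nat.beq n (Nat.mul d d)) d 0)
      (Nat.add d (Nat.div n d))) 0

/-- sum of divisors by a loop -/
def sigL (n k : ℕ) : ℕ :=
  Nat.rec (motive := fun _ => ℕ) 0 (fun d ih => Nat.add ih (trm n (Nat.succ d))) k

theorem trm_eq (n d : ℕ) : trm n d = if d ∣ n then
    ((if d * d < n then d + n / d else 0) + (if d * d = n then d else 0)) else 0 := by
  unfold trm
  by_cases h : d ∣ n
  · have h1 : Nat.beq (Nat.mod n d) 0 = true := by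
      rw [Nat.beq_eq]; exact Nat.mod_eq_zero_of_dvd h
    rw [h1, if_pos h, cond_true]
    rcases lt_trichotomy (d * d) n with h2 | h2 | h2
    · have h3 : Nat.ble n (Nat.mul d d) = false := by
        rw [← Bool.not_eq_true, Nat.ble_eq]; exact not_le.2 h2
      rw [h3, if_pos h2, if_neg h2.ne]; rfl
    · have h3 : Nat.ble n (Nat.mul d d) = true := by rw [Nat.ble_eq]; exact h2.ge
      have h4 : Nat.beq n (Nat.mul d d) = true := by rw [Nat.beq_eq]; exact h2.symm
      rw [h3, h4, if_neg h2.not_lt, if_pos h2]; simp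
    · have h3 : Nat.ble n (Nat.mul d d) = true := by rw [Nat.ble_eq]; exact h2.le
      have h4 : Nat.beq n (Nat.mul d d) = false := by
        rw [← Bool.not_eq_true, Nat.beq_eq]; exact h2.ne
      rw [h3, h4, if_neg (by omega), if_neg (by omega)]; rfl
  · have h1 : Nat.beq (Nat.mod n d) 0 = false := by
      rw [← Bool.not_eq_true, Nat.beq_eq]
      intro h2; exact h (Nat.dvd_of_mod_eq_zero h2)
    rw [h1, if_neg h]; rfl

theorem sigL_eq (n k : ℕ) : sigL n k = ∑ d ∈ range k, trm n (d + 1) := by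
  induction k with
  | zero => rfl
  | succ k ih => rw [sum_range_succ, ← ih]; rfl

theorem sigL_spec (n k : ℕ) (h : n < (k + 1) * (k + 1)) :
    sigL n k = ∑ d ∈ n.divisors, d := by
  rcases Nat.eq_zero_or_pos n with hn | hn
  · subst hn
    rw [sigL_eq, Nat.divisors_zero, Finset.sum_empty]
    apply Finset.sum_eq_zero
    intro d _
    rw [trm_eq]
    simp
  -- the pairing
  have h1 : ∑ d ∈ n.divisors, d = ∑ d ∈ n.divisors, trm n d := by
    have h2 : ∑ d ∈ n.divisors, (if n < d * d then d else 0) =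
        ∑ d ∈ n.divisors, (if d * d < n then n / d else 0) := by
      rw [← Nat.sum_div_divisors n (fun d => if n < d * d then d else 0)]
      refine Finset.sum_congr rfl (fun d hd => ?_)
      obtain ⟨e, he⟩ := Nat.dvd_of_mem_divisors hd
      have hd0 := Nat.pos_of_mem_divisors hd
      have h3 : n / d = e := by rw [he]; exact Nat.mul_div_cancel_left e hd0
      rw [h3]
      have he0 : 0 < e := by
        rcases Nat.eq_zero_or_pos e with h4 | h4
        · subst h4; omega
        · exact h4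
      have h5 : n < e * e ↔ d * d < n := by
        rw [he, Nat.mul_lt_mul_right he0, Nat.mul_lt_mul_left hd0]
      simp only [h5]
    calc ∑ d ∈ n.divisors, d = ∑ d ∈ n.divisors,
          (((if d * d < n then d else 0) + (if d * d = n then d else 0)) +
            (if n < d * d then d else 0)) := by
          refine Finset.sum_congr rfl (fun d _ => ?_)
          rcases lt_trichotomy (d * d) n with h2 | h2 | h2
          · rw [if_pos h2, if_neg h2.ne, if_neg (by omega)]; omega
          · rw [if_neg (by omega), if_pos h2, if_neg (by omega)]; omega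
          · rw [if_neg (by omega), if_neg (by omega), if_pos h2]; omega
      _ = ∑ d ∈ n.divisors, trm n d := by
          rw [Finset.sum_add_distrib, h2, ← Finset.sum_add_distrib]
          refine Finset.sum_congr rfl (fun d hd => ?_)
          rw [trm_eq, if_pos (Nat.dvd_of_mem_divisors hd)]
          split_ifs <;> omega
  rw [h1, sigL_eq, ← Finset.sum_image (s := range k) (g := fun d => d + 1) (f := fun d => trm n d)
    (fun a _ b _ hab => by simpa using hab)]
  set R := (range k).image (fun d => d + 1) with hR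
  have hz1 : ∀ d ∈ n.divisors ∪ R, d ∉ R → trm n d = 0 := by
    intro d hd hd'
    rcases Finset.mem_union.1 hd with hd1 | hd1
    · have hk : k < d := by
        by_contra hk
        have := Nat.pos_of_mem_divisors hd1
        exact hd' (Finset.mem_image.2 ⟨d - 1, by simp; omega, by omega⟩)
      have : (k + 1) * (k + 1) ≤ d * d := Nat.mul_le_mul hk hk
      rw [trm_eq, if_pos (Nat.dvd_of_mem_divisors hd1), if_neg (by omega), if_neg (by omega)]
    · exact absurd hd1 hd'
  have hz2 : ∀ d ∈ n.divisors ∪ R, d ∉ n.divisors → trm n d = 0 := by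
    intro d _ hd'
    rw [trm_eq, if_neg]
    intro h2
    exact hd' (Nat.mem_divisors.2 ⟨h2, by omega⟩)
  rw [Finset.sum_subset Finset.subset_union_right hz1,
    Finset.sum_subset Finset.subset_union_left hz2]

end Pool.Agent.NekOk.Small
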